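import Pool.Agent.Lib.MP_2f3286_ag.Ep.Defs

/-!
# Projections   (module A1, 40 minutes)

PROOF. `H` is a finite-dimensional space over the field `ZMod p` (`Finite H`), `ω` alternating, `W` a subspace such that the
restriction of `ω` to `W` is nondegenerate (`hW`). For `h` in `H` the functional `w ↦ ω h w` on `W` is
`w ↦ ω x w` for a unique `x` in `W`: the linear map `W → Dual W`, `x ↦ ω x ·`, is injective by `hW`, so
bijective (same finite dimension). `P h = x` is linear in `h`. Mathlib: `LinearMap.BilinForm` has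
`restrict`, `orthogonal`, `isCompl_orthogonal_of_restrict_nondegenerate`; or directly
`LinearEquiv.ofInjectiveEndo`/`LinearMap.linearEquivOfInjective` with `finrank_dual`: `P` is the
composition of `h ↦ (w ↦ ω h w)`, `H → Dual W`, with the inverse of `W → Dual W` and the inclusion.

`swap`: `0 = ω (a + b) (a + b)`.
`proj_self`: `w - P w` is in `W` and orthogonal to `W`, so `0` by `hW`.
`proj_perp`: `P x` is in `W`, and `ω (P x) w = ω x w - ω (x - P x) w = 0`, so `P x = 0` by `hW`.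
-/

namespace Pool.Agent.Lib.MP_2f3286_ag.Ep

variable {p : ℕ} [Fact p.Prime] {H : Type*} [AddCommGroup H] [Module (ZMod p) H]

theorem swap (ω : H →ₗ[ZMod p] H →ₗ[ZMod p] ZMod p) (alt : ∀ h, ω h h = 0) (a b : H) :
    ω a b = -ω b a := by
  have h := alt (a + b)
  simp only [map_add, LinearMap.add_apply, alt, zero_add, add_zero] at h
  linear_combination h

theorem exists_proj [Finite H] (ω : H →ₗ[ZMod p] H →ₗ[ZMod p] ZMod p)
    (W : Submodule (ZMod p) H) (hW : ∀ x ∈ W, (∀ w ∈ W, ω x w = 0) → x = 0) :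
    ∃ P : H →ₗ[ZMod p] H, (∀ h, P h ∈ W) ∧ ∀ h, ∀ w ∈ W, ω (h - P h) w = 0 := by
  have hfin : Module.Finite (ZMod p) H := Module.Finite.of_finite
  let r : H →ₗ[ZMod p] Module.Dual (ZMod p) W := W.subtype.dualMap ∘ₗ ω
  let e : W →ₗ[ZMod p] Module.Dual (ZMod p) W := r ∘ₗ W.subtype
  have hinj : Function.Injective e := by
    rw [← LinearMap.ker_eq_bot, LinearMap.ker_eq_bot']
    intro x hx
    have hx0 : (x : H) = 0 := hW x x.2 (fun w hw => by
      have := LinearMap.congr_fun hx ⟨w, hw⟩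
      simpa [e, r] using this)
    exact Subtype.ext hx0
  let E : W ≃ₗ[ZMod p] Module.Dual (ZMod p) W :=
    LinearEquiv.ofInjectiveOfFinrankEq e hinj Subspace.dual_finrank_eq.symm
  have hE : ∀ x, E x = e x := fun x => rfl
  refine ⟨W.subtype ∘ₗ E.symm.toLinearMap ∘ₗ r, fun h => (E.symm (r h)).2, fun h w hw => ?_⟩
  have h1 : e (E.symm (r h)) = r h := by rw [← hE, E.apply_symm_apply]
  have h2 := LinearMap.congr_fun h1 ⟨w, hw⟩
  have h3 : ω ((E.symm (r h) : W) : H) w = ω h w := by simpa [e, r] using h2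
  simp only [LinearMap.coe_comp, Function.comp_apply, LinearEquiv.coe_coe, Submodule.coe_subtype,
    map_sub, LinearMap.sub_apply]
  rw [h3, sub_self]

theorem proj_self (ω : H →ₗ[ZMod p] H →ₗ[ZMod p] ZMod p) {W : Submodule (ZMod p) H}
    (hW : ∀ x ∈ W, (∀ w ∈ W, ω x w = 0) → x = 0) {P : H →ₗ[ZMod p] H} (h1 : ∀ h, P h ∈ W)
    (h2 : ∀ h, ∀ w ∈ W, ω (h - P h) w = 0) {w : H} (hw : w ∈ W) : P w = w := by
  have h := hW (w - P w) (W.sub_mem hw (h1 w)) (h2 w)
  exact (sub_eq_zero.mp h).symm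

theorem proj_perp (ω : H →ₗ[ZMod p] H →ₗ[ZMod p] ZMod p) {W : Submodule (ZMod p) H}
    (hW : ∀ x ∈ W, (∀ w ∈ W, ω x w = 0) → x = 0) {P : H →ₗ[ZMod p] H} (h1 : ∀ h, P h ∈ W)
    (h2 : ∀ h, ∀ w ∈ W, ω (h - P h) w = 0) {x : H} (hx : ∀ w ∈ W, ω x w = 0) : P x = 0 := by
  refine hW (P x) (h1 x) (fun w hw => ?_)
  have h := h2 x w hw
  rw [map_sub, LinearMap.sub_apply, hx w hw, zero_sub, neg_eq_zero] at h
  exact h

end Pool.Agent.Lib.MP_2f3286_ag.Ep
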