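import Pool.Agent.Lib.MP_2f3286_ag.Ep.A8

/-!
# One step of the approximation, second part   (module A9, 80 minutes)

PROOF of `ref_c`. `ψ z = ω (cl (1 - π z)) g'`. For `v z, v z' ≤ 1`: `(1 - π z) (1 - π z') = (1 - π (z + z')) (1 - x)`,
`x = - π ^ 2 z z' / (1 - π (z + z'))`, `v x ≤ v π ^ 2` (`v (1 - π (z + z')) = 1`), so `ψ z + ψ z' = ψ (z + z')` (`swap` and `hg`). `ψ z = 0` for `v z < 1` as `v (π z) ≤ v π ^ 2`
(`v_le_of_lt` with `n = 0`). `dual`.

PROOF of `ref0`. `g' = χ π - cl π` satisfies `hg` by `ref_a` (with `b = π`). `ref_c`: `γ`. Put `a = γ π ^ N`, `v a ≤ v π ^ N`. Let `1 ≤ v c`. If `v c > 1`: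
`χ c = cl c = cl (c - a)` (`cl_near`: `v (c - a - c) = v a ≤ v π ^ N < v c * v π ^ N`). If `v c = 1`: `ref_b`: `χ c = cl c + m • ε`, `m = ω (cl (1 - π / c)) g' = φ (γ / c)`
(`ref_c` for `z = 1 / c`). `c - a = c (1 - π ^ N (γ / c))`, so `cl (c - a) = cl c + φ (γ / c) • ε` (`top`).

PROOF of `refine`. `s = π ^ (n + 1)` (zpow), `χ'' c' = χ (a + s c') - cl s`. `IsSt X χ''`: `hχ (a + s c') (a + s c'')` and `cl (s (c' - c'')) = cl s + cl (c' - c'')`. For
`v c' > 1`: `v (a + s c' - a) = v s v c' > v π ^ (n + 1)`, so `≥ v π ^ n` (discreteness: if `< v π ^ n` then `≤ v π ^ (n + 1)`), so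
`χ'' c' = cl (s c') - cl s = cl c'`. `ref0`: `a''`. `a' = a + s a''`. If `v π ^ (n + 1) ≤ v (c - a')`: `v (a' - a) ≤ v π ^ (n + 1 + N) < v π ^ (n + 1)`, so `v (c - a) = v (c - a')`;
`c' = (c - a) / s`, `v c' ≥ 1`, `χ c = χ'' c' + cl s = cl (c' - a'') + cl s = cl (s c' - s a'') = cl (c - a')` (`c' - a'' ≠ 0` as `v a'' < 1 ≤ v c'`).
-/

namespace Pool.Agent.Lib.MP_2f3286_ag.Ep

variable {p : ℕ} [Fact p.Prime] {F H : Type*} [Field F] [AddCommGroup H] [Module (ZMod p) H]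

private theorem a9_pi_ne (X : Base p F H) : X.π ≠ 0 := by
  intro h0
  have h := X.π_pos
  rw [h0, X.v.map_zero] at h
  exact lt_irrefl _ h

private theorem a9_ne_of_pos (X : Base p F H) {x : F} (h : 0 < X.v x) : x ≠ 0 := by
  intro h0
  rw [h0, X.v.map_zero] at h
  exact lt_irrefl _ h

theorem ref_c (X : Dat p F H) {g' : H}
    (hg : ∀ x, X.v x ≤ X.v X.π ^ 2 → X.ω g' (X.cl (1 - x)) = 0) :
    ∃ γ, X.v γ ≤ 1 ∧ ∀ z, X.v z ≤ 1 → X.ω (X.cl (1 - X.π * z)) g' = X.φ (γ * z) := by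
  have hsw : ∀ x, X.v x ≤ X.v X.π ^ 2 → X.ω (X.cl (1 - x)) g' = 0 := by
    intro x hx
    rw [swap X.ω X.alt, hg x hx, neg_zero]
  have hpz : ∀ z, X.v z ≤ 1 → X.v (X.π * z) < 1 := by
    intro z hz
    rw [X.v.map_mul]
    exact lt_of_le_of_lt (mul_le_of_le_one_right X.π_pos.le hz) X.π_lt
  have hne : ∀ z, X.v z ≤ 1 → 1 - X.π * z ≠ 0 := by
    intro z hz
    apply a9_ne_of_pos X.toBase
    rw [X.toBase.v_one_sub (hpz z hz)]
    exact one_pos
  refine X.dual (fun z => X.ω (X.cl (1 - X.π * z)) g') ?_ ?_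
  · intro a b ha hb
    show X.ω (X.cl (1 - X.π * (a + b))) g' =
      X.ω (X.cl (1 - X.π * a)) g' + X.ω (X.cl (1 - X.π * b)) g'
    have hab : X.v (a + b) ≤ 1 := (X.na a b).trans (max_le ha hb)
    have h1 := hne (a + b) hab
    set x : F := -(X.π ^ 2 * (a * b)) / (1 - X.π * (a + b)) with hx
    have hvx : X.v x ≤ X.v X.π ^ 2 := by
      rw [hx, map_div₀, X.toBase.v_one_sub (hpz _ hab), div_one, X.v.map_neg, X.v.map_mul,
        X.v.map_pow, X.v.map_mul]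
      refine mul_le_of_le_one_right (by positivity) ?_
      exact mul_le_one₀ ha (X.v.nonneg b) hb
    have hx1 : X.v x < 1 := lt_of_le_of_lt hvx (pow_lt_one₀ X.π_pos.le X.π_lt two_ne_zero)
    have hx2 : 1 - x ≠ 0 := by
      apply a9_ne_of_pos X.toBase
      rw [X.toBase.v_one_sub hx1]
      exact one_pos
    have he : (1 - X.π * a) * (1 - X.π * b) = (1 - X.π * (a + b)) * (1 - x) := by
      rw [hx]
      field_simp
      ring
    have h2 := X.cl_mul _ _ (hne a ha) (hne b hb)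
    rw [he, X.cl_mul _ _ h1 hx2] at h2
    have h3 := congrArg (fun h => X.ω h g') h2
    simp only [map_add, LinearMap.add_apply] at h3
    rw [hsw x hvx, add_zero] at h3
    exact h3
  · intro a ha
    show X.ω (X.cl (1 - X.π * a)) g' = 0
    apply hsw
    rw [X.v.map_mul]
    have h1 : X.v a ≤ X.v X.π ^ ((0 : ℤ) + 1) := X.toBase.v_le_of_lt (by rwa [zpow_zero])
    rw [zero_add, zpow_one] at h1
    rw [sq]
    exact mul_le_mul_of_nonneg_left h1 X.π_pos.le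

theorem ref0 (X : Dat p F H) {χ : F → H} (hχ : IsSt X χ)
    (hfar : ∀ c, 1 < X.v c → χ c = X.cl c) :
    ∃ a, X.v a ≤ X.v X.π ^ X.N ∧ ∀ c, 1 ≤ X.v c → χ c = X.cl (c - a) := by
  have hπ := a9_pi_ne X.toBase
  obtain ⟨γ, hγ, hγ2⟩ := ref_c X (g' := χ X.π - X.cl X.π) (by
    intro x hx
    exact ref_a X hχ hfar hπ (by rw [← sq]; exact hx) X.π_lt.le)
  have hNpos : 0 < X.v X.π ^ X.N := pow_pos X.π_pos _
  have hN1 : X.v X.π ^ X.N < 1 :=
    pow_lt_one₀ X.π_pos.le X.π_lt (by have := X.N_two; omega)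
  have ha : X.v (γ * X.π ^ X.N) ≤ X.v X.π ^ X.N := by
    rw [X.v.map_mul, X.v.map_pow]
    exact mul_le_of_le_one_left hNpos.le hγ
  refine ⟨γ * X.π ^ X.N, ha, ?_⟩
  intro c hc
  have hc0 : c ≠ 0 := a9_ne_of_pos X.toBase (lt_of_lt_of_le one_pos hc)
  rcases hc.lt_or_eq with h1 | h1
  · rw [hfar c h1]
    symm
    apply X.toBase.cl_near hc0
    rw [sub_sub_cancel_left, X.v.map_neg]
    refine lt_of_le_of_lt ha ?_
    exact lt_mul_of_one_lt_left hNpos h1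
  · rw [ref_b X hχ hfar h1.symm]
    have hz : X.v (c⁻¹) ≤ 1 := by
      rw [map_inv₀, ← h1, inv_one]
    have hz2 : X.v (γ * c⁻¹) ≤ 1 := by
      rw [X.v.map_mul]
      exact mul_le_one₀ hγ (X.v.nonneg _) hz
    have h2 := hγ2 c⁻¹ hz
    rw [← div_eq_mul_inv] at h2
    rw [h2, ← X.top _ hz2]
    have h3 : X.v (X.π ^ X.N * (γ * c⁻¹)) < 1 := by
      rw [X.v.map_mul, X.v.map_pow]
      exact lt_of_le_of_lt (mul_le_of_le_one_right hNpos.le hz2) hN1
    have h4 : 1 - X.π ^ X.N * (γ * c⁻¹) ≠ 0 := by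
      apply a9_ne_of_pos X.toBase
      rw [X.toBase.v_one_sub h3]
      exact one_pos
    rw [← X.cl_mul _ _ hc0 h4]
    congr 1
    field_simp

theorem refine (X : Dat p F H) {χ : F → H} (hχ : IsSt X χ) {n : ℤ} {a : F}
    (h : ∀ c, X.v X.π ^ n ≤ X.v (c - a) → χ c = X.cl (c - a)) :
    ∃ a', X.v (a' - a) ≤ X.v X.π ^ (n + 1) ∧
      ∀ c, X.v X.π ^ (n + 1) ≤ X.v (c - a') → χ c = X.cl (c - a') := by
  have hπ := a9_pi_ne X.toBase
  obtain ⟨s, hs⟩ : ∃ s : F, s = X.π ^ (n + 1) := ⟨_, rfl⟩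
  have hs0 : s ≠ 0 := by rw [hs]; exact zpow_ne_zero _ hπ
  have hvs : X.v s = X.v X.π ^ (n + 1) := by rw [hs, map_zpow₀]
  have hvs0 : 0 < X.v s := X.v.pos hs0
  have hst : IsSt X (fun c' => χ (a + s * c') - X.cl s) := by
    intro c d hcd
    have h1 : a + s * c ≠ a + s * d := by
      intro h2
      exact hcd (mul_left_cancel₀ hs0 (add_left_cancel h2))
    have h2 := hχ _ _ h1
    have h3 : a + s * c - (a + s * d) = s * (c - d) := by ring
    rw [h3, X.cl_mul _ _ hs0 (sub_ne_zero.mpr hcd)] at h2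
    show X.ω (χ (a + s * c) - X.cl s - X.cl (c - d)) (χ (a + s * d) - X.cl s - X.cl (c - d)) = 0
    rw [sub_sub, sub_sub]
    exact h2
  have hfar : ∀ c', 1 < X.v c' → χ (a + s * c') - X.cl s = X.cl c' := by
    intro c' hc'
    have hc0 : c' ≠ 0 := a9_ne_of_pos X.toBase (lt_trans one_pos hc')
    have h1 : X.v X.π ^ n ≤ X.v (a + s * c' - a) := by
      rw [add_sub_cancel_left]
      by_contra h2
      have h3 := X.toBase.v_le_of_lt (not_le.mp h2)
      rw [X.v.map_mul, hvs] at h3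
      have h4 := lt_mul_of_one_lt_right (hvs ▸ hvs0) hc'
      exact absurd h3 (not_le.mpr h4)
    rw [h _ h1, add_sub_cancel_left, X.cl_mul _ _ hs0 hc0, add_sub_cancel_left]
  obtain ⟨a2, ha2, hc2⟩ := ref0 X hst hfar
  have hN1 : X.v X.π ^ X.N < 1 :=
    pow_lt_one₀ X.π_pos.le X.π_lt (by have := X.N_two; omega)
  have hlt : X.v a2 < 1 := lt_of_le_of_lt ha2 hN1
  have hva : X.v (a + s * a2 - a) < X.v X.π ^ (n + 1) := by
    rw [add_sub_cancel_left, X.v.map_mul, ← hvs]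
    exact mul_lt_of_lt_one_right hvs0 hlt
  refine ⟨a + s * a2, hva.le, ?_⟩
  intro c hc
  have h1 : X.v (c - a) = X.v (c - (a + s * a2)) := by
    have h2 := X.toBase.v_add_eq (lt_of_lt_of_le hva hc)
    rw [← h2]
    congr 1
    ring
  have h3 : 1 ≤ X.v ((c - a) / s) := by
    rw [map_div₀, le_div_iff₀ hvs0, one_mul, h1, hvs]
    exact hc
  have h4 := hc2 _ h3
  have h5 : a + s * ((c - a) / s) = c := by
    rw [mul_div_cancel₀ _ hs0]
    ring
  simp only [h5] at h4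
  have h6 : (c - a) / s - a2 ≠ 0 := by
    intro h7
    rw [sub_eq_zero.mp h7] at h3
    exact absurd h3 (not_le.mpr hlt)
  have h8 := X.cl_mul _ _ hs0 h6
  have h9 : s * ((c - a) / s - a2) = c - (a + s * a2) := by
    rw [mul_sub, mul_div_cancel₀ _ hs0]
    ring
  rw [← h9, h8, ← h4]
  abel

end Pool.Agent.Lib.MP_2f3286_ag.Ep
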