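import Pool.Agent.Lib.MP_2f3286_ag.Ep.A7
import Pool.Agent.Lib.MP_2f3286_ag.Ep.A9

/-!
# The theorem on functions with the Steinberg relation   (module A10, 50 minutes)

PROOF. `far`: constant, or `χ c = cl c` for `v c ≥ ρ`. Choose `n₀ : ℤ`, `n₀ ≤ 0`, with `v π ^ n₀ ≥ ρ`. Iterating `refine` from `(n₀, 0)` (dependent choice, `Nat.rec` on
subtypes) gives `b : ℕ → F`, `b 0 = 0`, with `v (b (i + 1) - b i) ≤ v π ^ (n₀ + i + 1)` and `χ c = cl (c - b i)` for `v (c - b i) ≥ v π ^ (n₀ + i)`. Put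
`a n = b (n + k)` with `k = -n₀` (a natural number): `n₀ + (n + k) = n`. So `v (a (n + 1) - a n) ≤ v π ^ (n + 1) ≤ v π ^ n`.
-/

namespace Pool.Agent.Lib.MP_2f3286_ag.Ep

variable {p : ℕ} [Fact p.Prime] {F H : Type*} [Field F] [AddCommGroup H] [Module (ZMod p) H]

theorem comb (X : Dat p F H) {χ : F → H} (hχ : IsSt X χ) :
    (∀ a b, χ a = χ b) ∨ ∃ a : ℕ → F, (∀ n, X.v (a (n + 1) - a n) ≤ X.v X.π ^ n) ∧
      ∀ n c, X.v X.π ^ n ≤ X.v (c - a n) → χ c = X.cl (c - a n) := by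
  rcases far X hχ with h | ⟨ρ, hρ, hfar⟩
  · exact Or.inl h
  right
  obtain ⟨k, hk⟩ := exists_pow_lt_of_lt_one (one_div_pos.mpr hρ) X.π_lt
  have hkρ : ρ ≤ X.v X.π ^ (-(k : ℤ)) := by
    rw [zpow_neg, zpow_natCast]
    have h1 : 0 < X.v X.π ^ k := pow_pos X.π_pos _
    rw [le_inv_comm₀ hρ h1, ← one_div]
    exact hk.le
  have key : ∀ (i : ℕ) (a : F), ∃ a' : F,
      (∀ c, X.v X.π ^ (-(k : ℤ) + i) ≤ X.v (c - a) → χ c = X.cl (c - a)) →
      X.v (a' - a) ≤ X.v X.π ^ (-(k : ℤ) + i + 1) ∧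
        ∀ c, X.v X.π ^ (-(k : ℤ) + i + 1) ≤ X.v (c - a') → χ c = X.cl (c - a') := by
    intro i a
    by_cases h : ∀ c, X.v X.π ^ (-(k : ℤ) + i) ≤ X.v (c - a) → χ c = X.cl (c - a)
    · obtain ⟨a', h1, h2⟩ := refine X hχ h
      exact ⟨a', fun _ => ⟨h1, h2⟩⟩
    · exact ⟨a, fun h' => absurd h' h⟩
  choose f hf using key
  obtain ⟨b, hb0, hb⟩ : ∃ b : ℕ → F, b 0 = 0 ∧ ∀ i, b (i + 1) = f i (b i) :=
    ⟨fun n => Nat.rec 0 (fun i a => f i a) n, rfl, fun _ => rfl⟩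
  have hP : ∀ i : ℕ, ∀ c, X.v X.π ^ (-(k : ℤ) + i) ≤ X.v (c - b i) → χ c = X.cl (c - b i) := by
    intro i
    induction i with
    | zero =>
      intro c hc
      rw [hb0, sub_zero] at hc ⊢
      rw [Nat.cast_zero, add_zero] at hc
      exact hfar c (hkρ.trans hc)
    | succ i ih =>
      intro c hc
      rw [hb] at hc ⊢
      refine (hf i (b i) ih).2 c ?_
      rw [Nat.cast_succ, ← add_assoc] at hc
      exact hc
  refine ⟨fun n => b (n + k), ?_, ?_⟩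
  · intro n
    show X.v (b (n + 1 + k) - b (n + k)) ≤ X.v X.π ^ n
    have h1 := (hf (n + k) (b (n + k)) (hP (n + k))).1
    have h2 : n + 1 + k = (n + k) + 1 := by omega
    rw [h2, hb]
    refine h1.trans ?_
    have h3 : (-(k : ℤ) + ((n + k : ℕ) : ℤ) + 1) = ((n + 1 : ℕ) : ℤ) := by
      push_cast
      ring
    rw [h3, zpow_natCast]
    exact pow_le_pow_of_le_one X.π_pos.le X.π_lt.le (Nat.le_succ n)
  · intro n c hc
    show χ c = X.cl (c - b (n + k))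
    refine hP (n + k) c ?_
    have h3 : (-(k : ℤ) + ((n + k : ℕ) : ℤ)) = ((n : ℕ) : ℤ) := by
      push_cast
      ring
    rw [h3, zpow_natCast]
    exact hc

end Pool.Agent.Lib.MP_2f3286_ag.Ep
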