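import Pool.Agent.Lib.MP_2f3286_ag.Ep.A1

/-!
# Elementary facts on classes; the orthogonal of the units   (module A2, 60 minutes)

`X.v` is a nonarchimedean absolute value. PROOFS.
* `cl_one`: `cl (1 * 1) = cl 1 + cl 1`.
* `cl_inv`, `cl_div`, `cl_zpow`: from `cl_mul` and `cl_one` (induction; `a ≠ 0`). In `cl_div` both are nonzero.
* `cl_pow_p`: `cl (a ^ p) = p • cl a = 0` as `H` is a module over `ZMod p`.
* `cl_near`: if `v (x - y) < v y * v π ^ N`, `y ≠ 0`: `x = y * (1 - t)` with `t = (y - x) / y`, `v t < v π ^ N`; `small`. (`x ≠ 0`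
  because `v x = v y`, or: `1 - t ≠ 0` as `v t < 1`.)
* `v_one_sub`: `v x < 1` implies `v (1 - x) = 1` (in particular `1 - x ≠ 0`). Standard ultrametric.
* `v_add_eq`: if `v a < v b`, `v (a + b) = v b`.
* `unit_cl`: `u` with `v u = 1`; `perf`: `θ`, `v (u - θ ^ p) < 1`; `x = 1 - u / θ ^ p`, `v x < 1`, `u = θ ^ p (1 - x)`, `cl_pow_p`.
* `small_class`: for `h` in `H` and `ρ > 0` there is `u ≠ 0` with `cl u = h`, `v u < ρ`: `u = a π ^ (p m)`, `cl (π ^ (p m)) = 0`, `m`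
  large. `large_class`: likewise with a negative exponent, `v u > ρ`.
* `v_le_of_lt`: discreteness: `v a < v π ^ n` implies `v a ≤ v π ^ (n + 1)` (`a ≠ 0`: `v a = v π ^ m`, `m > n`).
* `perp`: let `h` be orthogonal to all `cl (1 - x)`, `v x < 1`; by `unit_cl` orthogonal to `cl u` for all `u` with `v u = 1`. `c = ω h (cl π)`.
  For `a ≠ 0`, `v a = v π ^ n`, `a = π ^ n u`, `v u = 1`: `ω h (cl a) = n c`, and `ω ε (cl a) = n` (`ωε`). So `h - c • ε` is orthogonal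
  to all `cl a`, that is to `H` (`cl_surj`), so it is `0` (`nondeg`).
-/

namespace Pool.Agent.Lib.MP_2f3286_ag.Ep

variable {p : ℕ} [Fact p.Prime] {F H : Type*} [Field F] [AddCommGroup H] [Module (ZMod p) H]

theorem Base.cl_one (X : Base p F H) : X.cl 1 = 0 := by
  have h := X.cl_mul 1 1 one_ne_zero one_ne_zero
  rw [mul_one] at h
  exact (add_eq_left.mp h.symm)

theorem Base.cl_inv (X : Base p F H) {a : F} (ha : a ≠ 0) : X.cl a⁻¹ = -X.cl a := by
  have h := X.cl_mul a a⁻¹ ha (inv_ne_zero ha)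
  rw [mul_inv_cancel₀ ha, X.cl_one] at h
  exact (neg_eq_of_add_eq_zero_right h.symm).symm

theorem Base.cl_div (X : Base p F H) {a b : F} (ha : a ≠ 0) (hb : b ≠ 0) :
    X.cl (a / b) = X.cl a - X.cl b := by
  rw [div_eq_mul_inv, X.cl_mul a b⁻¹ ha (inv_ne_zero hb), X.cl_inv hb, sub_eq_add_neg]

private theorem a2_cl_pow (X : Base p F H) {a : F} (ha : a ≠ 0) (n : ℕ) :
    X.cl (a ^ n) = n • X.cl a := by
  induction n with
  | zero => rw [pow_zero, X.cl_one, zero_smul]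
  | succ n ih => rw [pow_succ, X.cl_mul _ _ (pow_ne_zero n ha) ha, ih, succ_nsmul]

theorem Base.cl_zpow (X : Base p F H) {a : F} (ha : a ≠ 0) (n : ℤ) :
    X.cl (a ^ n) = n • X.cl a := by
  cases n with
  | ofNat n =>
    rw [Int.ofNat_eq_natCast, zpow_natCast, a2_cl_pow X ha, natCast_zsmul]
  | negSucc n =>
    rw [zpow_negSucc, X.cl_inv (pow_ne_zero _ ha), a2_cl_pow X ha, negSucc_zsmul]

theorem Base.cl_pow_p (X : Base p F H) {a : F} (ha : a ≠ 0) : X.cl (a ^ p) = 0 := by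
  rw [a2_cl_pow X ha, ← Nat.cast_smul_eq_nsmul (ZMod p), ZMod.natCast_self, zero_smul]

theorem Base.v_add_eq (X : Base p F H) {a b : F} (h : X.v a < X.v b) : X.v (a + b) = X.v b := by
  apply le_antisymm
  · exact (X.na a b).trans (max_le h.le le_rfl)
  · have h1 := X.na (a + b) (-a)
    rw [add_comm a b, add_neg_cancel_right, X.v.map_neg] at h1
    rcases le_max_iff.mp h1 with h2 | h2
    · rw [add_comm a b]; exact h2
    · exact absurd h2 (not_le.mpr h)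

theorem Base.v_sub_eq (X : Base p F H) {a b : F} (h : X.v b < X.v a) : X.v (a - b) = X.v a := by
  rw [sub_eq_neg_add]
  apply X.v_add_eq
  rwa [X.v.map_neg]

theorem Base.v_one_sub (X : Base p F H) {x : F} (hx : X.v x < 1) : X.v (1 - x) = 1 := by
  have h := X.v_sub_eq (a := 1) (b := x) (by rwa [X.v.map_one])
  rwa [X.v.map_one] at h

theorem Base.cl_near (X : Base p F H) {x y : F} (hy : y ≠ 0)
    (h : X.v (x - y) < X.v y * X.v X.π ^ X.N) : X.cl x = X.cl y := by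
  have hvy : 0 < X.v y := X.v.pos hy
  have ht : X.v ((y - x) / y) < X.v X.π ^ X.N := by
    rw [map_div₀, X.v.map_sub, div_lt_iff₀ hvy, mul_comm]
    exact h
  have ht1 : X.v ((y - x) / y) < 1 := lt_of_lt_of_le ht (pow_le_one₀ X.π_pos.le X.π_lt.le)
  have h1 : (1 : F) - (y - x) / y ≠ 0 := by
    intro h0
    have h2 := X.v_one_sub ht1
    rw [h0, X.v.map_zero] at h2
    exact zero_ne_one h2
  have hx : x = y * (1 - (y - x) / y) := by field_simp; ring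
  have h3 := X.cl_mul y _ hy h1
  rw [← hx, X.small _ ht, add_zero] at h3
  exact h3

theorem Base.unit_cl (X : Base p F H) {u : F} (hu : X.v u = 1) :
    ∃ x, X.v x < 1 ∧ X.cl u = X.cl (1 - x) := by
  obtain ⟨θ, hθ, h⟩ := X.perf u hu
  have hθ0 : θ ≠ 0 := by
    intro h0
    rw [h0, X.v.map_zero] at hθ
    exact zero_ne_one hθ
  have hu0 : u ≠ 0 := by
    intro h0
    rw [h0, X.v.map_zero] at hu
    exact zero_ne_one hu
  have hp0 : θ ^ p ≠ 0 := pow_ne_zero p hθ0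
  refine ⟨1 - u / θ ^ p, ?_, ?_⟩
  · have h1 : 1 - u / θ ^ p = (θ ^ p - u) / θ ^ p := by field_simp
    rw [h1, map_div₀, X.v.map_pow, hθ, one_pow, div_one, X.v.map_sub]
    exact h
  · rw [sub_sub_cancel, X.cl_div hu0 hp0, X.cl_pow_p hθ0, sub_zero]

private theorem a2_pp_lt (X : Base p F H) : X.v X.π ^ p < 1 :=
  pow_lt_one₀ X.π_pos.le X.π_lt (Fact.out : p.Prime).ne_zero

private theorem a2_pi_ne (X : Base p F H) : X.π ≠ 0 := by
  intro h0
  have h := X.π_pos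
  rw [h0, X.v.map_zero] at h
  exact lt_irrefl _ h

theorem Base.small_class (X : Base p F H) (h : H) {ρ : ℝ} (hρ : 0 < ρ) :
    ∃ u, u ≠ 0 ∧ X.v u < ρ ∧ X.cl u = h := by
  obtain ⟨a, ha, hah⟩ := X.cl_surj h
  have hva : 0 < X.v a := X.v.pos ha
  obtain ⟨m, hm⟩ := exists_pow_lt_of_lt_one (div_pos hρ hva) (a2_pp_lt X)
  have hπ : X.π ^ m ≠ 0 := pow_ne_zero m (a2_pi_ne X)
  refine ⟨a * (X.π ^ m) ^ p, mul_ne_zero ha (pow_ne_zero p hπ), ?_, ?_⟩
  · rw [X.v.map_mul, X.v.map_pow, X.v.map_pow, ← pow_mul, mul_comm m p, pow_mul, mul_comm]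
    exact (lt_div_iff₀ hva).mp hm
  · rw [X.cl_mul _ _ ha (pow_ne_zero p hπ), X.cl_pow_p hπ, add_zero, hah]

theorem Base.large_class (X : Base p F H) (h : H) (ρ : ℝ) :
    ∃ u, u ≠ 0 ∧ ρ < X.v u ∧ X.cl u = h := by
  obtain ⟨u, hu, huρ, huh⟩ := X.small_class (-h) (ρ := 1 / (|ρ| + 1)) (by positivity)
  refine ⟨u⁻¹, inv_ne_zero hu, ?_, by rw [X.cl_inv hu, huh, neg_neg]⟩
  have hvu : 0 < X.v u := X.v.pos hu
  have h1 : 0 < |ρ| + 1 := by positivity
  rw [map_inv₀]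
  calc ρ ≤ |ρ| := le_abs_self ρ
    _ < |ρ| + 1 := lt_add_one _
    _ < (X.v u)⁻¹ := by
      rw [lt_inv_comm₀ h1 hvu, ← one_div]
      exact huρ

theorem Base.v_le_of_lt (X : Base p F H) {a : F} {n : ℤ} (h : X.v a < X.v X.π ^ n) :
    X.v a ≤ X.v X.π ^ (n + 1) := by
  by_cases ha : a = 0
  · rw [ha, X.v.map_zero]
    exact (zpow_pos X.π_pos _).le
  obtain ⟨m, hm⟩ := X.disc a ha
  rw [hm] at h ⊢
  have hmn : n < m := (zpow_lt_zpow_iff_right_of_lt_one₀ X.π_pos X.π_lt).mp h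
  exact zpow_le_zpow_right_of_le_one₀ X.π_pos X.π_lt.le hmn

theorem Dat.perp (X : Dat p F H) (h : H)
    (hh : ∀ x, X.v x < 1 → X.ω h (X.cl (1 - x)) = 0) : ∃ c : ZMod p, h = c • X.ε := by
  have hπ : X.π ≠ 0 := a2_pi_ne X.toBase
  refine ⟨X.ω h (X.cl X.π), ?_⟩
  rw [← sub_eq_zero]
  apply X.nondeg
  intro h'
  obtain ⟨a, ha, rfl⟩ := X.cl_surj h'
  obtain ⟨n, hn⟩ := X.disc a ha
  have hπn : X.π ^ n ≠ 0 := zpow_ne_zero n hπ
  have hu : X.v (a / X.π ^ n) = 1 := by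
    rw [map_div₀, map_zpow₀, hn]
    exact div_self (zpow_pos X.π_pos n).ne'
  obtain ⟨x, hx, hx2⟩ := X.toBase.unit_cl hu
  have h1 : X.ω h (X.cl (a / X.π ^ n)) = 0 := by
    rw [hx2]
    exact hh x hx
  rw [X.toBase.cl_div ha hπn, X.toBase.cl_zpow hπ, map_sub, map_zsmul, sub_eq_zero] at h1
  rw [map_sub, LinearMap.sub_apply, map_smul, LinearMap.smul_apply, X.ωε a ha n hn, h1,
    smul_eq_mul, zsmul_eq_mul, mul_comm, sub_self]

end Pool.Agent.Lib.MP_2f3286_ag.Ep
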