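import Pool.Agent.Lib.MP_2f3286_ag.Ep.A2

/-!
# A nondegenerate subspace which splits the Steinberg relation is trivial   (module A3, 90 minutes)

`P₁ = P`, `P₂ h = h - P h`; `W₁ = W`, `W₂` the orthogonal of `W`. `P₁ h ∈ W₁`, `P₂ h ∈ W₂` (h2), `W₁ ∩ W₂ = 0` (h3), `P₁ w = w` on `W₁`, `P₁ x = 0` on
`W₂` (`proj_self`, `proj_perp`), so `P₂ = id` on `W₂`, `P₂ = 0` on `W₁`; `ω (P₁ a) b = ω (P₁ a) (P₁ b) = ω a (P₁ b)`, the same for `P₂`.

PROOF of `two`. (Z₁) is `hZ`. (Z₂): `ω (P₂ (cl z)) (P₂ (cl (1 - z))) = 0`, because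
`0 = ω (cl z) (cl (1 - z)) = ω (P₁ ..) (P₁ ..) + ω (P₂ ..) (P₂ ..)`. Write `ω` for both, `i = 1, 2`.

STEP 1. For `v x < 1`, `v π ^ N ≥ v x` (so `x = π ^ N z`, `v z ≤ 1`), `x ≠ 0`, and `i = 1, 2`: `P_i (cl (1 - x))` is a multiple of `ε`. Indeed for
`v y < 1`, `u = 1 - y`: `cl (1 - x u) = cl (1 - x)` (`cl_near`: `v (x y) < v x ≤ v π ^ N`; the denominators are units). (Z_i) for `x` and for `x u`:
`ω (P_i (cl x)) (P_i (cl (1 - x))) = 0`, `ω (P_i (cl x + cl u)) (P_i (cl (1 - x))) = 0`; so `ω (P_i (cl u)) (P_i (cl (1 - x))) = 0`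
`= ω (cl u) (P_i (cl (1 - x)))`. By `perp` (and `swap`) `P_i (cl (1 - x)) = c • ε`.

STEP 2. Take `z₀` with `φ z₀ = 1` (`φ_one`), `x₀ = π ^ N z₀`: `cl (1 - x₀) = ε` (`top`). So `P₁ ε = c₁ • ε`, `P₂ ε = c₂ • ε`. If `c₁ ≠ 0` and `c₂ ≠ 0`, `ε` is
in `W₁ ∩ W₂ = 0`; but `ω ε (cl π) = 1`, so `ε ≠ 0`. So there is `j ∈ {1, 2}` with `P_j ε = 0`. Then `ε = P_i ε ∈ W_i` for the other index `i`.

STEP 3. For all `x` with `v x < 1`: `P_j (cl (1 - x)) = 0`. Downward induction on the exponent: if `v x ≤ v π ^ N`: `x = π ^ N z`, `cl (1 - x) = φ z • ε`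
(`top`). Let the claim hold for `v x ≤ v π ^ (m + 1)`, `1 ≤ m < N`, and `v x = v π ^ m`. For `v y < 1`, `u = 1 - y`:
`(1 - x u) = (1 - x) (1 - x')`, `x' = - x y / (1 - x)`, `v x' ≤ v π ^ (m + 1)`, so `P_j (cl (1 - x u)) = P_j (cl (1 - x))`. As in STEP 1
`P_j (cl (1 - x)) = c • ε ∈ W_i`, and it is in `W_j`, so it is `0`.

STEP 4. `W_j = 0`: for `w` in `W_j`, `ω w (cl (1 - x)) = ω w (P_j (cl (1 - x))) = 0` for `v x < 1`; `perp`: `w = c • ε ∈ W_i`, so `w = 0`.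
If `j = 1`: `W = ⊥`. If `j = 2`: the orthogonal of `W` is `0`, `h - P h = 0` for all `h`, so `W = ⊤`.
(Treat the two cases with one lemma for a map `Q` (`= P₁` or `P₂`) and subspaces.)
-/

namespace Pool.Agent.Lib.MP_2f3286_ag.Ep

variable {p : ℕ} [Fact p.Prime] {F H : Type*} [Field F] [AddCommGroup H] [Module (ZMod p) H]

private theorem a3_pi (X : Base p F H) : X.π ≠ 0 := by
  intro h0
  have h := X.π_pos
  rw [h0, X.v.map_zero] at h
  exact lt_irrefl _ h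

private theorem a3_ne_one (X : Base p F H) {x : F} (hx : X.v x < 1) : x ≠ 1 := by
  intro h
  rw [h, X.v.map_one] at hx
  exact lt_irrefl _ hx

private theorem a3_one_sub (X : Base p F H) {x : F} (hx : X.v x < 1) : 1 - x ≠ 0 := by
  intro h
  exact a3_ne_one X hx (sub_eq_zero.mp h).symm

/-- if `Q (cl (1 - x u))` does not depend on the principal unit `u`, it is a multiple of `ε` -/
private theorem a3_mult (X : Dat p F H) (Q : H →ₗ[ZMod p] H)
    (sa : ∀ a b, X.ω (Q a) b = X.ω (Q a) (Q b))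
    (hZ : ∀ z, z ≠ 0 → z ≠ 1 → X.ω (Q (X.cl z)) (Q (X.cl (1 - z))) = 0)
    {x : F} (hx0 : x ≠ 0) (hx : X.v x < 1)
    (hc : ∀ y, X.v y < 1 → Q (X.cl (1 - x * (1 - y))) = Q (X.cl (1 - x))) :
    ∃ c : ZMod p, Q (X.cl (1 - x)) = c • X.ε := by
  apply X.perp
  intro y hy
  have hu0 : 1 - y ≠ 0 := a3_one_sub X.toBase hy
  have hu1 : X.v (1 - y) = 1 := X.toBase.v_one_sub hy
  have hxu : X.v (x * (1 - y)) < 1 := by rw [X.v.map_mul, hu1, mul_one]; exact hx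
  have e1 := hZ x hx0 (a3_ne_one X.toBase hx)
  have e2 := hZ (x * (1 - y)) (mul_ne_zero hx0 hu0) (a3_ne_one X.toBase hxu)
  rw [hc y hy, X.cl_mul x (1 - y) hx0 hu0, map_add, map_add, LinearMap.add_apply, e1,
    zero_add] at e2
  rw [sa, swap X.ω X.alt, e2, neg_zero]

private theorem a3_top (X : Dat p F H) {x : F} (hx : X.v x ≤ X.v X.π ^ X.N) :
    ∃ z, X.v z ≤ 1 ∧ X.cl (1 - x) = X.φ z • X.ε := by
  have hπ := a3_pi X.toBase
  have hπN : X.π ^ X.N ≠ 0 := pow_ne_zero _ hπ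
  have hz : X.v (x / X.π ^ X.N) ≤ 1 := by
    rw [map_div₀, X.v.map_pow]
    exact div_le_one_of_le₀ hx (pow_nonneg X.π_pos.le _)
  refine ⟨x / X.π ^ X.N, hz, ?_⟩
  have h := X.top _ hz
  rwa [mul_div_cancel₀ _ hπN] at h

private theorem a3_eps_ne (X : Dat p F H) : X.ε ≠ 0 := by
  intro h
  have h1 := X.ωε X.π (a3_pi X.toBase) 1 (by rw [zpow_one])
  rw [h, map_zero, LinearMap.zero_apply, Int.cast_one] at h1
  exact zero_ne_one h1

private theorem a3_lt (X : Base p F H) {x : F} (hx : X.v x ≤ X.v X.π ^ X.N) : X.v x < 1 :=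
  lt_of_le_of_lt hx (pow_lt_one₀ X.π_pos.le X.π_lt (by have := X.N_two; omega))

private theorem a3_low (X : Dat p F H) (Q : H →ₗ[ZMod p] H)
    (sa : ∀ a b, X.ω (Q a) b = X.ω (Q a) (Q b))
    (hZ : ∀ z, z ≠ 0 → z ≠ 1 → X.ω (Q (X.cl z)) (Q (X.cl (1 - z))) = 0) :
    ∃ c : ZMod p, Q X.ε = c • X.ε := by
  obtain ⟨z, hz, hz1⟩ := X.φ_one
  have h1 := X.top z hz
  rw [hz1, one_smul] at h1
  have hx0 : X.π ^ X.N * z ≠ 0 := by
    intro h0
    rw [h0, sub_zero, X.toBase.cl_one] at h1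
    exact a3_eps_ne X h1.symm
  have hxN : X.v (X.π ^ X.N * z) ≤ X.v X.π ^ X.N := by
    rw [X.v.map_mul, X.v.map_pow]
    exact mul_le_of_le_one_right (pow_nonneg X.π_pos.le _) hz
  have hx := a3_lt X.toBase hxN
  have h2 := a3_mult X Q sa hZ hx0 hx (by
    intro y hy
    congr 1
    apply X.toBase.cl_near (a3_one_sub X.toBase hx)
    rw [X.toBase.v_one_sub hx, one_mul]
    have e : (1 - X.π ^ X.N * z * (1 - y)) - (1 - X.π ^ X.N * z) = X.π ^ X.N * z * y := by ring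
    rw [e, X.v.map_mul]
    calc X.v (X.π ^ X.N * z) * X.v y < X.v (X.π ^ X.N * z) * 1 :=
          mul_lt_mul_of_pos_left hy (X.v.pos hx0)
      _ ≤ X.v X.π ^ X.N := by rw [mul_one]; exact hxN)
  rwa [h1] at h2

private theorem a3_zero (X : Dat p F H) (Q : H →ₗ[ZMod p] H)
    (sa : ∀ a b, X.ω (Q a) b = X.ω (Q a) (Q b))
    (id2 : ∀ a, Q (Q a) = Q a)
    (hZ : ∀ z, z ≠ 0 → z ≠ 1 → X.ω (Q (X.cl z)) (Q (X.cl (1 - z))) = 0)
    (hε : Q X.ε = 0) (h : H) : Q h = 0 := by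
  have key : ∀ k : ℕ, k < X.N → ∀ x, X.v x ≤ X.v X.π ^ (X.N - k) → Q (X.cl (1 - x)) = 0 := by
    intro k
    induction k with
    | zero =>
      intro _ x hx
      obtain ⟨z, -, hz⟩ := a3_top X hx
      rw [hz, map_smul, hε, smul_zero]
    | succ k ih =>
      intro hk x hx
      have hk' : k < X.N := by omega
      by_cases hx0 : x = 0
      · rw [hx0, sub_zero, X.toBase.cl_one, map_zero]
      have hx1 : X.v x < 1 :=
        lt_of_le_of_lt hx (pow_lt_one₀ X.π_pos.le X.π_lt (by omega))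
      have h1x : 1 - x ≠ 0 := a3_one_sub X.toBase hx1
      obtain ⟨c, hc⟩ := a3_mult X Q sa hZ hx0 hx1 (by
        intro y hy
        have hx' : X.v (-(x * y) / (1 - x)) < X.v X.π ^ ((X.N - (k + 1) : ℕ) : ℤ) := by
          rw [map_div₀, X.v.map_neg, X.toBase.v_one_sub hx1, div_one, X.v.map_mul, zpow_natCast]
          calc X.v x * X.v y < X.v x * 1 := mul_lt_mul_of_pos_left hy (X.v.pos hx0)
            _ ≤ _ := by rw [mul_one]; exact hx
        have hx'' := X.toBase.v_le_of_lt hx'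
        have e : ((X.N - (k + 1) : ℕ) : ℤ) + 1 = ((X.N - k : ℕ) : ℤ) := by omega
        rw [e, zpow_natCast] at hx''
        have h0 := ih hk' _ hx''
        have hlt : X.v (-(x * y) / (1 - x)) < 1 :=
          lt_of_le_of_lt hx'' (pow_lt_one₀ X.π_pos.le X.π_lt (by omega))
        have e2 : 1 - x * (1 - y) = (1 - x) * (1 - -(x * y) / (1 - x)) := by
          field_simp
          ring
        rw [e2, X.cl_mul _ _ h1x (a3_one_sub X.toBase hlt), map_add, h0, add_zero])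
      rw [← id2, hc, map_smul, hε, smul_zero]
  have all : ∀ x, X.v x < 1 → Q (X.cl (1 - x)) = 0 := by
    intro x hx
    have h1 := X.toBase.v_le_of_lt (a := x) (n := 0) (by rw [zpow_zero]; exact hx)
    rw [zero_add, zpow_one] at h1
    have hN := X.N_two
    refine key (X.N - 1) (by omega) x ?_
    have e : X.N - (X.N - 1) = 1 := by omega
    rw [e, pow_one]
    exact h1
  obtain ⟨c, hc⟩ := X.perp (Q h) (by
    intro x hx
    rw [sa, all x hx, map_zero])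
  rw [← id2, hc, map_smul, hε, smul_zero]

theorem Dat.two (X : Dat p F H) (W : Submodule (ZMod p) H) (P : H →ₗ[ZMod p] H)
    (h1 : ∀ h, P h ∈ W) (h2 : ∀ h, ∀ w ∈ W, X.ω (h - P h) w = 0)
    (h3 : ∀ x ∈ W, (∀ w ∈ W, X.ω x w = 0) → x = 0)
    (hZ : ∀ z, z ≠ 0 → z ≠ 1 → X.ω (P (X.cl z)) (P (X.cl (1 - z))) = 0) : W = ⊥ ∨ W = ⊤ := by
  have self : ∀ w ∈ W, P w = w := fun w hw => proj_self X.ω h3 h1 h2 hw
  have sa1 : ∀ a b, X.ω (P a) b = X.ω (P a) (P b) := by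
    intro a b
    have e := h2 b (P a) (h1 a)
    rw [swap X.ω X.alt, neg_eq_zero, map_sub, sub_eq_zero] at e
    exact e
  have id1 : ∀ a, P (P a) = P a := fun a => self _ (h1 a)
  set Q : H →ₗ[ZMod p] H := LinearMap.id - P with hQ
  have hQa : ∀ a, Q a = a - P a := fun a => by
    rw [hQ, LinearMap.sub_apply, LinearMap.id_apply]
  have sa2 : ∀ a b, X.ω (Q a) b = X.ω (Q a) (Q b) := by
    intro a b
    rw [hQa a, hQa b, map_sub (X.ω (a - P a)), h2 a (P b) (h1 b), sub_zero]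
  have id2 : ∀ a, Q (Q a) = Q a := by
    intro a
    rw [hQa (Q a), hQa a, map_sub, id1, sub_self, sub_zero]
  have hZ2 : ∀ z, z ≠ 0 → z ≠ 1 → X.ω (Q (X.cl z)) (Q (X.cl (1 - z))) = 0 := by
    intro z hz0 hz1
    rw [← sa2, hQa, map_sub, LinearMap.sub_apply, X.st z hz0 hz1, sa1, hZ z hz0 hz1, sub_zero]
  obtain ⟨c1, hc1⟩ := a3_low X P sa1 hZ
  obtain ⟨c2, hc2⟩ := a3_low X Q sa2 hZ2
  have hεne := a3_eps_ne X
  by_cases hc : c1 = 0
  · left
    rw [hc, zero_smul] at hc1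
    rw [eq_bot_iff]
    intro w hw
    rw [Submodule.mem_bot, ← self w hw]
    exact a3_zero X P sa1 id1 hZ hc1 w
  · right
    have hPQ : P (Q X.ε) = 0 := by rw [hQa, map_sub, id1, sub_self]
    rw [hc2, map_smul, hc1, smul_smul] at hPQ
    have hcc : c2 * c1 = 0 := by
      rcases smul_eq_zero.mp hPQ with h | h
      · exact h
      · exact absurd h hεne
    have hc20 : c2 = 0 := by
      rcases mul_eq_zero.mp hcc with h | h
      · exact h
      · exact absurd h hc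
    rw [hc20, zero_smul] at hc2
    rw [eq_top_iff]
    intro w _
    have hw := a3_zero X Q sa2 id2 hZ2 hc2 w
    rw [hQa, sub_eq_zero] at hw
    rw [hw]
    exact h1 w

end Pool.Agent.Lib.MP_2f3286_ag.Ep
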