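import Pool.Agent.Lib.MP_2f3286_ag.Ep.A2

/-!
# Stabilisation   (module A4, 30 minutes)

PROOF. `H` is finite (`X.fin`), so it has finitely many submodules; `Wr X χ ρ` is monotone in `ρ`. Among the values `Wr X χ ρ`, `ρ > 0`,
there is a minimal one `Wr X χ ρ₀` (well-foundedness of `<` on the submodules of a finite module, e.g. `IsArtinian`, or
`Set.Finite.exists_minimal`). For `0 < ρ ≤ ρ₀`, `Wr ρ ≤ Wr ρ₀`, so equality.
`wr_sub`: by definition (`Submodule.subset_span`).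
-/

namespace Pool.Agent.Lib.MP_2f3286_ag.Ep

variable {p : ℕ} [Fact p.Prime] {F H : Type*} [Field F] [AddCommGroup H] [Module (ZMod p) H]

theorem Wr_mono (X : Dat p F H) (χ : F → H) {ρ ρ' : ℝ} (h : ρ ≤ ρ') : Wr X χ ρ ≤ Wr X χ ρ' := by
  refine Submodule.span_mono ?_
  rintro x ⟨a, b, ha, hb, rfl⟩
  exact ⟨a, b, lt_of_lt_of_le ha h, lt_of_lt_of_le hb h, rfl⟩

theorem wr_sub (X : Dat p F H) (χ : F → H) {ρ : ℝ} {a b : F} (ha : X.v a < ρ) (hb : X.v b < ρ) :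
    χ a - χ b ∈ Wr X χ ρ := by
  exact Submodule.subset_span ⟨a, b, ha, hb, rfl⟩

theorem stab (X : Dat p F H) (χ : F → H) :
    ∃ ρ₀ : ℝ, 0 < ρ₀ ∧ ∀ ρ, 0 < ρ → ρ ≤ ρ₀ → Wr X χ ρ = Wr X χ ρ₀ := by
  have : Finite H := X.fin
  have : Finite (Submodule (ZMod p) H) := inferInstance
  set S : Set (Submodule (ZMod p) H) := {W | ∃ ρ : ℝ, 0 < ρ ∧ W = Wr X χ ρ} with hS
  have hSf : S.Finite := Set.toFinite S
  have hSn : S.Nonempty := ⟨Wr X χ 1, 1, one_pos, rfl⟩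
  obtain ⟨W, hW⟩ := hSf.exists_minimal hSn
  obtain ⟨ρ₀, hρ₀, rfl⟩ := hW.prop
  refine ⟨ρ₀, hρ₀, fun ρ hρ hle => ?_⟩
  have h1 : Wr X χ ρ ≤ Wr X χ ρ₀ := Wr_mono X χ hle
  exact le_antisymm h1 (hW.le_of_le ⟨ρ, hρ, rfl⟩ h1)

end Pool.Agent.Lib.MP_2f3286_ag.Ep
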