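import Pool.Agent.Lib.MP_2f3286_ag.Ep.A4

/-!
# The differences near `0` are orthogonal to `χ c - cl c`   (module A5, 50 minutes)

PROOF of `g3`. Let `ρ = min ρ₀ (v c * v π ^ N)`, positive. `Wr ρ₀ = Wr ρ` is spanned by `χ a - χ b` with `v a, v b < ρ`
(`Submodule.span_induction`), so let `w = χ a - χ b`. `v a < v c`, so `a ≠ c`; `cl (c - a) = cl c` (`cl_near`: `v (c - a - c) = v a < v c * v π ^ N`),
and the same for `b`. `hχ c a`: `ω (χ c - cl c) (χ a - cl c) = 0`, `hχ c b`: `ω (χ c - cl c) (χ b - cl c) = 0`. Subtract.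

PROOF of `g4`. Let `h` in `H`; show `ω x h = 0` and use `nondeg`. `small_class`: `u ≠ 0`, `v u < ρ₀`, `cl u = h`; `u' ≠ 0`, `v u' < ρ₀`, `cl u' = 0`.
`δ = χ u - χ u'` is in `Wr ρ₀`, so `ω x δ = 0` by `hx'`. `δ = h + (χ u - cl u) - (χ u' - cl u')`, and `ω x (χ u - cl u) = - ω (χ u - cl u) x = 0`
by `g3` (`x ∈ Wr ρ₀`), the same for `u'`. So `ω x h = 0`.
-/

namespace Pool.Agent.Lib.MP_2f3286_ag.Ep

variable {p : ℕ} [Fact p.Prime] {F H : Type*} [Field F] [AddCommGroup H] [Module (ZMod p) H]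

theorem g3 (X : Dat p F H) {χ : F → H} (hχ : IsSt X χ) {ρ₀ : ℝ} (h0 : 0 < ρ₀)
    (hs : ∀ ρ, 0 < ρ → ρ ≤ ρ₀ → Wr X χ ρ = Wr X χ ρ₀) {c : F} (hc : c ≠ 0) {w : H}
    (hw : w ∈ Wr X χ ρ₀) : X.ω (χ c - X.cl c) w = 0 := by
  have hvc : 0 < X.v c := X.v.pos hc
  have hπN : 0 < X.v X.π ^ X.N := pow_pos X.π_pos _
  have hρ : 0 < min ρ₀ (X.v c * X.v X.π ^ X.N) := lt_min h0 (mul_pos hvc hπN)
  rw [← hs _ hρ (min_le_left _ _)] at hw
  have key : ∀ a, X.v a < min ρ₀ (X.v c * X.v X.π ^ X.N) →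
      X.ω (χ c - X.cl c) (χ a - X.cl c) = 0 := by
    intro a ha
    have ha1 : X.v a < X.v c * X.v X.π ^ X.N := lt_of_lt_of_le ha (min_le_right _ _)
    have hca : c ≠ a := by
      intro h
      rw [← h] at ha1
      have : X.v c * X.v X.π ^ X.N ≤ X.v c :=
        mul_le_of_le_one_right hvc.le (pow_le_one₀ X.π_pos.le X.π_lt.le)
      exact absurd ha1 (not_lt.mpr this)
    have hcl : X.cl (c - a) = X.cl c := by
      apply X.toBase.cl_near hc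
      have e : c - a - c = -a := by ring
      rw [e, X.v.map_neg]
      exact ha1
    have h := hχ c a hca
    rwa [hcl] at h
  refine Submodule.span_induction (p := fun w _ => X.ω (χ c - X.cl c) w = 0) ?_ ?_ ?_ ?_ hw
  · rintro x ⟨a, b, ha, hb, rfl⟩
    have e : χ a - χ b = (χ a - X.cl c) - (χ b - X.cl c) := by abel
    rw [e, map_sub, key a ha, key b hb, sub_zero]
  · exact map_zero _
  · intro x y _ _ hx hy
    rw [map_add, hx, hy, add_zero]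
  · intro a x _ hx
    rw [map_smul, hx, smul_zero]

theorem g4 (X : Dat p F H) {χ : F → H} (hχ : IsSt X χ) {ρ₀ : ℝ} (h0 : 0 < ρ₀)
    (hs : ∀ ρ, 0 < ρ → ρ ≤ ρ₀ → Wr X χ ρ = Wr X χ ρ₀) {x : H} (hx : x ∈ Wr X χ ρ₀)
    (hx' : ∀ w ∈ Wr X χ ρ₀, X.ω x w = 0) : x = 0 := by
  apply X.nondeg
  intro h
  obtain ⟨u, hu0, huv, huh⟩ := X.toBase.small_class h h0
  obtain ⟨u', hu0', huv', huh'⟩ := X.toBase.small_class 0 h0
  have hδ := hx' _ (wr_sub X χ huv huv')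
  have h1 : X.ω x (χ u - X.cl u) = 0 := by
    rw [swap X.ω X.alt, g3 X hχ h0 hs hu0 hx, neg_zero]
  have h2 : X.ω x (χ u' - X.cl u') = 0 := by
    rw [swap X.ω X.alt, g3 X hχ h0 hs hu0' hx, neg_zero]
  have e : h = (χ u - χ u') - (χ u - X.cl u) + (χ u' - X.cl u') := by
    rw [huh, huh']
    abel
  rw [e, map_add, map_sub, hδ, h1, h2, sub_zero, add_zero]

end Pool.Agent.Lib.MP_2f3286_ag.Ep
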