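import Pool.Agent.Lib.MP_2f3286_ag.Ep.A5
import Pool.Agent.Lib.MP_2f3286_ag.Ep.A3

/-!
# The germ of `χ` at `0`   (module A6, 90 minutes)

PROOF of `g5`. `W = Wr X χ ρ₀`, `P₂ h = h - P h`, orthogonal to `W`. `z ≠ 0, 1`. Choose `u ≠ 0` with `cl u = 0`, `v u < min ρ₀ (ρ₀ / v z)` (`small_class`). Let
`c = u`, `c' = z u`, both of `v < ρ₀`, `t = c - c' = (1 - z) u ≠ 0`, `cl t = cl (1 - z)`, `cl c' = cl z`. `A = χ c - cl t`, `B = χ c' - cl t`; `hχ c c'`: `ω A B = 0`.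
`B - A = χ c' - χ c` is in `W`. `ω A (B - A) = ω A B - ω A A = 0`. `ω A (B - A) = ω (P A) (B - A)` (`A - P A` is orthogonal to `W`) `= ω (P A) (P (B - A))`
(`proj_self`) `= ω (P A) (P B)`. By `g3`, `χ c - cl c` is orthogonal to `W`, so `P (χ c) = P (cl c) = 0` (`proj_perp`; `cl c = cl u = 0`), and
`P (χ c') = P (cl z)`. So `P A = - P (cl (1 - z))`, `P B = P (cl z) - P (cl (1 - z))`, and
`0 = ω (P A) (P B) = - ω (P (cl (1 - z))) (P (cl z))`. `swap`.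

PROOF of `germ`. `stab` gives `ρ₀`; `W = Wr X χ ρ₀` is nondegenerate by `g4`; `exists_proj` gives `P`; `g5` and `two`: `W = ⊥` or `W = ⊤`.
If `W = ⊥`: `χ c - χ 0 ∈ W` for `v c < ρ₀` (`wr_sub`), so `χ c = χ 0`. If `W = ⊤`: for `c ≠ 0`, `χ c - cl c` is orthogonal to `H` (`g3`), so it is `0`.
(`X.fin` gives `Finite H`.)
-/

namespace Pool.Agent.Lib.MP_2f3286_ag.Ep

variable {p : ℕ} [Fact p.Prime] {F H : Type*} [Field F] [AddCommGroup H] [Module (ZMod p) H]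

theorem g5 (X : Dat p F H) {χ : F → H} (hχ : IsSt X χ) {ρ₀ : ℝ} (h0 : 0 < ρ₀)
    (hs : ∀ ρ, 0 < ρ → ρ ≤ ρ₀ → Wr X χ ρ = Wr X χ ρ₀) {P : H →ₗ[ZMod p] H}
    (h1 : ∀ h, P h ∈ Wr X χ ρ₀) (h2 : ∀ h, ∀ w ∈ Wr X χ ρ₀, X.ω (h - P h) w = 0) {z : F}
    (hz0 : z ≠ 0) (hz1 : z ≠ 1) : X.ω (P (X.cl z)) (P (X.cl (1 - z))) = 0 := by
  have hW : ∀ x ∈ Wr X χ ρ₀, (∀ w ∈ Wr X χ ρ₀, X.ω x w = 0) → x = 0 :=
    fun x hx hx' => g4 X hχ h0 hs hx hx'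
  have hvz : 0 < X.v z := X.v.pos hz0
  obtain ⟨u, hu0, huv, hucl⟩ := X.toBase.small_class 0 (lt_min h0 (div_pos h0 hvz))
  have hu1 : X.v u < ρ₀ := lt_of_lt_of_le huv (min_le_left _ _)
  have hu2 : X.v (z * u) < ρ₀ := by
    rw [X.v.map_mul, mul_comm]
    exact (lt_div_iff₀ hvz).mp (lt_of_lt_of_le huv (min_le_right _ _))
  have h1z : 1 - z ≠ 0 := fun h => hz1 (sub_eq_zero.mp h).symm
  have hzu0 : z * u ≠ 0 := mul_ne_zero hz0 hu0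
  have hsub : u - z * u = (1 - z) * u := by ring
  have hne : u ≠ z * u := by
    intro h
    have h3 : (1 - z) * u = 0 := by rw [← hsub, ← h, sub_self]
    exact (mul_ne_zero h1z hu0) h3
  have ht : X.cl (u - z * u) = X.cl (1 - z) := by
    rw [hsub, X.cl_mul _ _ h1z hu0, hucl, add_zero]
  have hzu : X.cl (z * u) = X.cl z := by rw [X.cl_mul _ _ hz0 hu0, hucl, add_zero]
  have hAB := hχ u (z * u) hne
  rw [ht] at hAB
  have hD : χ (z * u) - χ u ∈ Wr X χ ρ₀ := wr_sub X χ hu2 hu1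
  have hPD := proj_self X.ω hW h1 h2 hD
  have hAD : X.ω (χ u - X.cl (1 - z)) (χ (z * u) - χ u) = 0 := by
    have e : χ (z * u) - χ u = (χ (z * u) - X.cl (1 - z)) - (χ u - X.cl (1 - z)) := by abel
    rw [e, map_sub, hAB, X.alt, sub_zero]
  have hPAD : X.ω (P (χ u - X.cl (1 - z))) (χ (z * u) - χ u) = 0 := by
    have h3 := h2 (χ u - X.cl (1 - z)) _ hD
    rw [map_sub X.ω, LinearMap.sub_apply, hAD, zero_sub, neg_eq_zero] at h3
    exact h3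
  have hPc : P (χ u) = 0 := by
    have h3 := proj_perp X.ω hW h1 h2 (x := χ u - X.cl u)
      (fun w hw => g3 X hχ h0 hs hu0 hw)
    rw [hucl, sub_zero] at h3
    exact h3
  have hPc' : P (χ (z * u)) = P (X.cl z) := by
    have h3 := proj_perp X.ω hW h1 h2 (x := χ (z * u) - X.cl (z * u))
      (fun w hw => g3 X hχ h0 hs hzu0 hw)
    rw [hzu, map_sub, sub_eq_zero] at h3
    exact h3
  rw [← hPD, map_sub P, map_sub P, hPc, hPc', zero_sub, sub_zero, map_neg,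
    LinearMap.neg_apply, neg_eq_zero] at hPAD
  rw [swap X.ω X.alt, hPAD, neg_zero]

theorem germ (X : Dat p F H) {χ : F → H} (hχ : IsSt X χ) :
    (∀ c, c ≠ 0 → χ c = X.cl c) ∨ ∃ ρ : ℝ, 0 < ρ ∧ ∀ c, X.v c < ρ → χ c = χ 0 := by
  have hfin : Finite H := X.fin
  obtain ⟨ρ₀, h0, hs⟩ := stab X χ
  have hW : ∀ x ∈ Wr X χ ρ₀, (∀ w ∈ Wr X χ ρ₀, X.ω x w = 0) → x = 0 :=
    fun x hx hx' => g4 X hχ h0 hs hx hx'
  obtain ⟨P, h1, h2⟩ := exists_proj X.ω (Wr X χ ρ₀) hW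
  rcases X.two (Wr X χ ρ₀) P h1 h2 hW (fun z hz0 hz1 => g5 X hχ h0 hs h1 h2 hz0 hz1) with h | h
  · right
    refine ⟨ρ₀, h0, fun c hc => ?_⟩
    have h3 := wr_sub X χ (a := c) (b := 0) hc (by rw [X.v.map_zero]; exact h0)
    rw [h, Submodule.mem_bot, sub_eq_zero] at h3
    exact h3
  · left
    intro c hc
    rw [← sub_eq_zero]
    apply X.nondeg
    intro w
    exact g3 X hχ h0 hs hc (by rw [h]; exact Submodule.mem_top)

end Pool.Agent.Lib.MP_2f3286_ag.Ep
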