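import Pool.Agent.Lib.MP_2f3286_ag.Ep.A6

/-!
# The behaviour at infinity   (module A7, 70 minutes)

PROOF of `inv_st`. `χ' = invF X χ`, `h = χ 0`. Let `u ≠ u'`.
Case `u, u' ≠ 0`. Write `A = χ u⁻¹`, `B = χ u'⁻¹`, `C = cl u`, `C' = cl u'`, `D = cl (u - u')`. `cl (u⁻¹ - u'⁻¹) = cl ((u' - u) / (u u')) = D - C - C'` (`cl_neg`).
`hχ`: (1) `ω (A - D + C + C') (B - D + C + C') = 0`. From `hχ u⁻¹ 0`: (2) `ω (A + C) (h + C) = 0`; from `hχ u'⁻¹ 0`: (3) `ω (B + C') (h + C') = 0`. Steinberg for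
`u / (u - u')` and `1 - u / (u - u') = - u' / (u - u')`: (4) `ω (C - D) (C' - D) = 0`. To show: `ω (A + C - h - D) (B + C' - h - D) = 0`. Expand all with
bilinearity, `ω x x = 0`, `ω x y = - ω y x`: the claim is a linear combination of (1)-(4). Indeed with `x = A + C`, `y = B + C'`:
(1) is `ω (x + (C' - D)) (y + (C - D)) = 0`, (2) `ω x h + ω x C + ω A.. `: it is `ω x (h + C) = 0`, (3) `ω y (h + C') = 0`, the claim
`ω (x - h - D) (y - h - D) = ω x y - ω x (h + D) - ω (h + D) y`, and (1) is `ω x y + ω x (C - D) + ω (C' - D) y + ω (C' - D) (C - D)`, the last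
term `0` by (4). The difference claim - (1) is `- ω x (h + C) - ω (h + C') y = 0` by (2), (3).
Case `u' = 0`, `u ≠ 0`: `cl (u - 0) = C`; claim `ω (A + C - h - C) (- h - C) = 0`: it is `ω (x - C - h) (-(h + C)) = - ω x (h + C) + ω (h + C) (h + C) = 0`.
Case `u = 0`: symmetric (`swap`; `cl_neg`).

PROOF of `far`. `germ` for `invF X χ`: either `χ u⁻¹ + cl u - χ 0 = cl u` for all `u ≠ 0`, so `χ c = χ 0` for all `c ≠ 0`, constant; or for `v u < ρ`, `u ≠ 0`:
`χ u⁻¹ + cl u - χ 0 = - χ 0`, so `χ u⁻¹ = - cl u = cl u⁻¹`; for `v c ≥ 2 ρ⁻¹` put `u = c⁻¹`.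
-/

namespace Pool.Agent.Lib.MP_2f3286_ag.Ep

variable {p : ℕ} [Fact p.Prime] {F H : Type*} [Field F] [AddCommGroup H] [Module (ZMod p) H]

/-- the identity behind `inv_st` -/
theorem inv_alg (ω : H →ₗ[ZMod p] H →ₗ[ZMod p] ZMod p) (alt : ∀ h, ω h h = 0) {x y h c c' d : H}
    (h1 : ω (x - (d - c - c')) (y - (d - c - c')) = 0) (h2 : ω (x + c) (h + c) = 0)
    (h3 : ω (y + c') (h + c') = 0) (h4 : ω (c - d) (c' - d) = 0) :
    ω (x + c - h - d) (y + c' - h - d) = 0 := by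
  have s := swap ω alt
  have s3 := s h y
  have s5 := s c y
  have s6 := s c h
  have s8 := s c' y
  have s9 := s c' h
  have s10 := s c' c
  have s12 := s d y
  have s13 := s d h
  have s14 := s d c
  have s15 := s d c'
  simp only [map_sub, map_add, LinearMap.sub_apply, LinearMap.add_apply, alt, s3, s5,
    s6, s8, s9, s10, s12, s13, s14, s15] at h1 h2 h3 h4 ⊢
  linear_combination h1 - h2 + h3 + h4

theorem inv_alg0 (ω : H →ₗ[ZMod p] H →ₗ[ZMod p] ZMod p) (alt : ∀ h, ω h h = 0) {x h c : H}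
    (h2 : ω (x + c) (h + c) = 0) : ω (x + c - h - c) (-h - c) = 0 := by
  have e : x + c - h - c = (x + c) - (h + c) := by abel
  have e' : -h - c = -(h + c) := by abel
  rw [e, e', map_neg, map_sub, LinearMap.sub_apply, h2, alt, sub_self, neg_zero]

theorem inv_st (X : Dat p F H) {χ : F → H} (hχ : IsSt X χ) : IsSt X (invF X χ) := by
  have hneg : ∀ a b : F, X.cl (a - b) = X.cl (b - a) := fun a b => by
    rw [← X.cl_neg, neg_sub]
  have h2 : ∀ u, u ≠ 0 → X.ω (χ u⁻¹ + X.cl u) (χ 0 + X.cl u) = 0 := by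
    intro u hu
    have h2 := hχ u⁻¹ 0 (inv_ne_zero hu)
    rwa [sub_zero, X.toBase.cl_inv hu, sub_neg_eq_add, sub_neg_eq_add] at h2
  have key0 : ∀ u, u ≠ 0 → X.ω (χ u⁻¹ + X.cl u - χ 0 - X.cl u) (-χ 0 - X.cl u) = 0 :=
    fun u hu => inv_alg0 X.ω X.alt (h2 u hu)
  intro u u' huu
  unfold invF
  by_cases hu : u = 0
  · have hu' : u' ≠ 0 := fun h => huu (by rw [hu, h])
    rw [if_pos hu, if_neg hu', hu, hneg, sub_zero]
    rw [swap X.ω X.alt, key0 u' hu', neg_zero]
  · by_cases hu' : u' = 0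
    · rw [if_neg hu, if_pos hu', hu', sub_zero]
      exact key0 u hu
    · rw [if_neg hu, if_neg hu']
      have hd : u - u' ≠ 0 := sub_ne_zero.2 huu
      have hne : u⁻¹ ≠ u'⁻¹ := fun h => huu (inv_injective h)
      have h1 := hχ u⁻¹ u'⁻¹ hne
      have h5 : X.cl (u⁻¹ - u'⁻¹) = X.cl (u - u') - X.cl u - X.cl u' := by
        have : u⁻¹ - u'⁻¹ = -((u - u') / (u * u')) := by
          field_simp
          ring
        rw [this, X.cl_neg, X.toBase.cl_div hd (mul_ne_zero hu hu'), X.cl_mul _ _ hu hu']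
        abel
      have h4 := X.st (u / (u - u')) (div_ne_zero hu hd) (fun h => by
        rw [div_eq_one_iff_eq hd] at h
        exact hu' (by linear_combination h))
      have h6 : 1 - u / (u - u') = -(u' / (u - u')) := by
        field_simp
        ring
      rw [h6, X.cl_neg, X.toBase.cl_div hu hd, X.toBase.cl_div hu' hd] at h4
      rw [h5] at h1
      exact inv_alg X.ω X.alt h1 (h2 u hu) (h2 u' hu') h4

theorem far (X : Dat p F H) {χ : F → H} (hχ : IsSt X χ) :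
    (∀ a b, χ a = χ b) ∨ ∃ ρ : ℝ, 0 < ρ ∧ ∀ c, ρ ≤ X.v c → χ c = X.cl c := by
  rcases germ X (inv_st X hχ) with h | ⟨ρ, hρ, h⟩
  · left
    have h1 : ∀ c, χ c = χ 0 := by
      intro c
      by_cases hc : c = 0
      · rw [hc]
      · have h2 := h c⁻¹ (inv_ne_zero hc)
        unfold invF at h2
        rw [if_neg (inv_ne_zero hc), inv_inv, sub_eq_iff_eq_add, add_comm (X.cl c⁻¹)] at h2
        exact add_right_cancel h2
    exact fun a b => (h1 a).trans (h1 b).symm
  · right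
    refine ⟨2 * ρ⁻¹, by positivity, fun c hc => ?_⟩
    have hpos : 0 < X.v c := lt_of_lt_of_le (by positivity) hc
    have hc0 : c ≠ 0 := fun h0 => by
      rw [h0, map_zero] at hpos
      exact lt_irrefl _ hpos
    have hlt : X.v c⁻¹ < ρ := by
      rw [map_inv₀, inv_lt_comm₀ hpos hρ]
      have : 0 < ρ⁻¹ := inv_pos.2 hρ
      linarith
    have h2 := h c⁻¹ hlt
    unfold invF at h2
    rw [if_neg (inv_ne_zero hc0), if_pos rfl, inv_inv, X.toBase.cl_inv hc0] at h2
    have h3 : χ c - X.cl c = 0 := by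
      have : χ c + -X.cl c - χ 0 + χ 0 = 0 := by rw [h2]; abel
      rw [sub_add_cancel] at this
      rwa [sub_eq_add_neg]
    exact sub_eq_zero.1 h3

end Pool.Agent.Lib.MP_2f3286_ag.Ep
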