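import Pool.Agent.Lib.MP_2f3286_ag.Ep.A2

/-!
# One step of the approximation, first part   (module A8, 90 minutes)

`hfar`: `χ c = cl c` for `v c > 1`. `g b = χ b - cl b`.

PROOF of `ref_a`. `x = 0`: `cl 1 = 0`. Let `x ≠ 0`, `c = b / x`, `v c ≥ (v π)⁻¹ > 1` (as `v b ≠ 0`), so `χ c = cl c`; `c ≠ b` (`x ≠ 1`). `t = b - c`,
`cl t = cl c + cl (1 - x)` (`c - b = c (1 - x)`, `cl_neg`). `hχ b c`: `ω (χ b - cl t) (χ c - cl t) = 0`, `χ c - cl t = - cl (1 - x)`, and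
`χ b - cl t = g b + cl b - cl c - cl (1 - x) = g b + cl x - cl (1 - x)` (`cl x = cl b - cl c`). So `ω (g b) (cl (1 - x)) + ω (cl x) (cl (1 - x)) - 0 = 0`, and the
second term is `0` (Steinberg).

PROOF of `ref_b`. `b` with `v b = 1`. By `ref_a`, `g b` is orthogonal to `cl (1 - x)` for all `v x ≤ v π`, that is for all `v x < 1` (discreteness,
`v_le_of_lt` with `n = 0`); `perp`: `g b = m • ε`. Let `g' = g π`; by `ref_a` (for `b = π`) `g'` is orthogonal to `cl (1 - x)` for `v x ≤ v π ^ 2`. In particular `ω g' ε = 0`: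
`ε = cl (1 - π ^ N z₀)`, `φ z₀ = 1` (`top`, `φ_one`), `N ≥ 2`. `t = b - π`, `u = cl (1 - π / b)`, `cl t = cl b + u`. `hχ b π`:
`ω (g b - u) (cl π + g' - cl b - u) = 0`. Expand: `ω (g b) (cl (π / b)) + ω (g b) g' - ω (g b) u - ω u (cl (π / b)) - ω u g' + ω u u`. Here
`ω (g b) u = 0` (`ref_a`, `v (π / b) = v π`), `ω u (cl (π / b)) = 0` (Steinberg), `ω (g b) g' = m ω ε g' = 0`, `ω u u = 0`,
`ω (g b) (cl (π / b)) = m (1 - 0) = m` (`ωε` for `a = π / b`, `n = 1`). So `m = ω u g'`.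
-/

namespace Pool.Agent.Lib.MP_2f3286_ag.Ep

variable {p : ℕ} [Fact p.Prime] {F H : Type*} [Field F] [AddCommGroup H] [Module (ZMod p) H]

theorem ref_a (X : Dat p F H) {χ : F → H} (hχ : IsSt X χ)
    (hfar : ∀ c, 1 < X.v c → χ c = X.cl c) {b : F} (hb : b ≠ 0) {x : F}
    (hx : X.v x ≤ X.v X.π * X.v b) (hb1 : X.v b ≤ 1) :
    X.ω (χ b - X.cl b) (X.cl (1 - x)) = 0 := by
  by_cases hx0 : x = 0
  · rw [hx0, sub_zero, X.toBase.cl_one, map_zero]
  have hvx : 0 < X.v x := X.v.pos hx0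
  have hvb : 0 < X.v b := X.v.pos hb
  have hx1 : X.v x < 1 := by
    calc X.v x ≤ X.v X.π * X.v b := hx
      _ ≤ X.v X.π * 1 := mul_le_mul_of_nonneg_left hb1 X.π_pos.le
      _ < 1 := by rw [mul_one]; exact X.π_lt
  have hxne : x ≠ 1 := by
    intro h
    rw [h, X.v.map_one] at hx1
    exact lt_irrefl _ hx1
  have h1x : (1 : F) - x ≠ 0 := sub_ne_zero.mpr (Ne.symm hxne)
  have hc0 : b / x ≠ 0 := div_ne_zero hb hx0
  have hvc : 1 < X.v (b / x) := by
    rw [map_div₀, lt_div_iff₀ hvx, one_mul]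
    calc X.v x ≤ X.v X.π * X.v b := hx
      _ < 1 * X.v b := mul_lt_mul_of_pos_right X.π_lt hvb
      _ = X.v b := one_mul _
  have hbc : b ≠ b / x := by
    intro h
    apply hxne
    field_simp at h
    exact h
  have ht : X.cl (b - b / x) = X.cl b - X.cl x + X.cl (1 - x) := by
    have e : b - b / x = -(b / x * (1 - x)) := by
      field_simp
      ring
    rw [e, X.cl_neg, X.cl_mul _ _ hc0 h1x, X.toBase.cl_div hb hx0]
  have h := hχ b (b / x) hbc
  rw [ht, hfar _ hvc, X.toBase.cl_div hb hx0] at h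
  have e1 : χ b - (X.cl b - X.cl x + X.cl (1 - x)) = (χ b - X.cl b) + X.cl x - X.cl (1 - x) := by
    abel
  have e2 : X.cl b - X.cl x - (X.cl b - X.cl x + X.cl (1 - x)) = -X.cl (1 - x) := by abel
  rw [e1, e2, map_neg, neg_eq_zero, map_sub, map_add, LinearMap.sub_apply, LinearMap.add_apply,
    X.st x hx0 hxne, X.alt, add_zero, sub_zero] at h
  exact h

theorem ref_b (X : Dat p F H) {χ : F → H} (hχ : IsSt X χ)
    (hfar : ∀ c, 1 < X.v c → χ c = X.cl c) {b : F} (hb : X.v b = 1) :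
    χ b = X.cl b + X.ω (X.cl (1 - X.π / b)) (χ X.π - X.cl X.π) • X.ε := by
  have hb0 : b ≠ 0 := by
    intro h
    rw [h, X.v.map_zero] at hb
    exact zero_ne_one hb
  have hπ0 : X.π ≠ 0 := by
    intro h
    have := X.π_pos
    rw [h, X.v.map_zero] at this
    exact lt_irrefl _ this
  have hort : ∀ x, X.v x < 1 → X.ω (χ b - X.cl b) (X.cl (1 - x)) = 0 := by
    intro x hx
    have h1 : X.v x ≤ X.v X.π ^ ((0 : ℤ) + 1) := X.toBase.v_le_of_lt (by rwa [zpow_zero])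
    rw [zero_add, zpow_one] at h1
    exact ref_a X hχ hfar hb0 (by rw [hb, mul_one]; exact h1) hb.le
  obtain ⟨m, hm⟩ := X.perp _ hort
  have hπε : X.ω (χ X.π - X.cl X.π) X.ε = 0 := by
    obtain ⟨z, hz, hz1⟩ := X.φ_one
    have h1 := X.top z hz
    rw [hz1, one_smul] at h1
    rw [← h1]
    refine ref_a X hχ hfar hπ0 ?_ X.π_lt.le
    rw [X.v.map_mul, map_pow]
    calc X.v X.π ^ X.N * X.v z ≤ X.v X.π ^ X.N * 1 :=
          mul_le_mul_of_nonneg_left hz (pow_nonneg X.π_pos.le _)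
      _ = X.v X.π ^ X.N := mul_one _
      _ ≤ X.v X.π ^ 2 := pow_le_pow_of_le_one X.π_pos.le X.π_lt.le X.N_two
      _ = X.v X.π * X.v X.π := sq _
  have hvπb : X.v (X.π / b) = X.v X.π := by rw [map_div₀, hb, div_one]
  have hπb0 : X.π / b ≠ 0 := div_ne_zero hπ0 hb0
  have hπb1 : X.π / b ≠ 1 := by
    intro h
    have h2 := X.π_lt
    rw [← hvπb, h, X.v.map_one] at h2
    exact lt_irrefl _ h2
  have hbπ : b ≠ X.π := by
    intro h
    have h2 := X.π_lt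
    rw [← h, hb] at h2
    exact lt_irrefl _ h2
  have ht : X.cl (b - X.π) = X.cl b + X.cl (1 - X.π / b) := by
    have e : b - X.π = b * (1 - X.π / b) := by
      field_simp
    rw [e, X.cl_mul _ _ hb0 (sub_ne_zero.mpr (Ne.symm hπb1))]
  have h := hχ b X.π hbπ
  rw [ht] at h
  have e1 : χ b - (X.cl b + X.cl (1 - X.π / b)) = (χ b - X.cl b) - X.cl (1 - X.π / b) := by abel
  have e2 : χ X.π - (X.cl b + X.cl (1 - X.π / b)) =
      (χ X.π - X.cl X.π) + X.cl (X.π / b) - X.cl (1 - X.π / b) := by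
    rw [X.toBase.cl_div hπ0 hb0]
    abel
  rw [e1, e2] at h
  have f1 : X.ω (χ b - X.cl b) (χ X.π - X.cl X.π) = 0 := by
    rw [hm, map_smul, LinearMap.smul_apply, swap X.ω X.alt, hπε, neg_zero, smul_zero]
  have f2 : X.ω (χ b - X.cl b) (X.cl (X.π / b)) = m := by
    rw [hm, map_smul, LinearMap.smul_apply, X.ωε (X.π / b) hπb0 1 (by rw [hvπb, zpow_one])]
    simp
  have f3 : X.ω (χ b - X.cl b) (X.cl (1 - X.π / b)) = 0 := by
    apply hort
    rw [hvπb]
    exact X.π_lt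
  have f4 : X.ω (X.cl (1 - X.π / b)) (X.cl (X.π / b)) = 0 := by
    rw [swap X.ω X.alt, X.st _ hπb0 hπb1, neg_zero]
  simp only [map_sub, map_add, LinearMap.sub_apply] at h f1 f2 f3 f4 ⊢
  simp only [X.alt] at h
  have hm2 : m = X.ω (X.cl (1 - X.π / b)) (χ X.π) - X.ω (X.cl (1 - X.π / b)) (X.cl X.π) := by
    linear_combination h - f1 - f2 + f3 + f4
  rw [← hm2, ← hm]
  abel

end Pool.Agent.Lib.MP_2f3286_ag.Ep
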