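import Pool.Agent.Lib.MP_2f3286_ag.Ep.A2

/-!
# Density   (module B1, 40 minutes)

`w` is a nonarchimedean absolute value on `Fh`, `j : F → Fh` an isometric embedding with dense image. PROOFS.
`wv_add_eq`, `wv_sub_eq`: ultrametric. `ch_one`, `ch_inv`, `ch_neg` (`-1 = (-1) ^ p`... simpler: `ch (-1) = ch (j (-1)) = cl (-1) = cl 1 = 0`), `ch_div`.
`ch_near`: `x = y (1 - t)`, `t = (y - x) / y`, `w t < v π ^ N`, `ch_small` (`x ≠ 0` since `w x = w y`).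
`dens`: given `z`, `h`, `ρ`: by `small_class` take `b ≠ 0` in `F` with `cl b = h`, `v b < ρ`. By `dense` take `a` with `w (j a - z) < v b * v π ^ N`. `c = a - b`: `z - j c = j b + (z - j a)`,
`w (z - j c) = v b < ρ` (as `w (z - j a) < v b`), nonzero, `ch (z - j c) = ch (j b) = h` (`ch_near`).
`dens_at`: given `z`, `y ≠ 0` in `Fh`... given `z` and `t ≠ 0` in `Fh`, `δ > 0`: there is `c` in `F` with `w (z - j c - t) < δ`: `dense` for `z - t`.
-/

namespace Pool.Agent.Lib.MP_2f3286_ag.Ep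

variable {p : ℕ} [Fact p.Prime] {F H L Fh : Type*} [Field F] [AddCommGroup H] [Module (ZMod p) H]
  {X : Dat p F H} [Field L] [Algebra F L] [Field Fh]

theorem Pl.w_add_eq (Y : Pl X L Fh) {a b : Fh} (h : Y.w a < Y.w b) : Y.w (a + b) = Y.w b := by
  apply le_antisymm
  · exact (Y.wna a b).trans (max_le h.le le_rfl)
  · have h1 := Y.wna (a + b) (-a)
    have h2 : a + b + -a = b := by ring
    rw [h2, Y.w.map_neg] at h1
    rcases le_max_iff.mp h1 with h3 | h3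
    · exact h3
    · exact absurd h3 (not_le.mpr h)

theorem Pl.w_sub_eq (Y : Pl X L Fh) {a b : Fh} (h : Y.w b < Y.w a) : Y.w (a - b) = Y.w a := by
  have h1 : Y.w (-b) < Y.w a := by rwa [Y.w.map_neg]
  have h2 := Y.w_add_eq h1
  rwa [neg_add_eq_sub] at h2

theorem Pl.ch_one (Y : Pl X L Fh) : Y.ch 1 = 0 := by
  have h := Y.ch_mul 1 1 one_ne_zero one_ne_zero
  rw [mul_one] at h
  exact left_eq_add.mp h

theorem Pl.ch_neg (Y : Pl X L Fh) {x : Fh} (hx : x ≠ 0) : Y.ch (-x) = Y.ch x := by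
  have h1 : Y.ch (-1) = 0 := by
    have h2 := Y.ch_j (-1) (neg_ne_zero.mpr one_ne_zero)
    rw [map_neg, map_one] at h2
    rw [h2, X.cl_neg, X.cl_one]
  have h3 := Y.ch_mul (-1) x (neg_ne_zero.mpr one_ne_zero) hx
  rw [neg_one_mul, h1, zero_add] at h3
  exact h3

theorem Pl.ch_inv (Y : Pl X L Fh) {x : Fh} (hx : x ≠ 0) : Y.ch x⁻¹ = -Y.ch x := by
  have h := Y.ch_mul x x⁻¹ hx (inv_ne_zero hx)
  rw [mul_inv_cancel₀ hx, Y.ch_one] at h
  exact (neg_eq_of_add_eq_zero_right h.symm).symm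

theorem Pl.ch_near (Y : Pl X L Fh) {x y : Fh} (hy : y ≠ 0)
    (h : Y.w (x - y) < Y.w y * X.v X.π ^ X.N) : Y.ch x = Y.ch y := by
  have hwy : 0 < Y.w y := Y.w.pos hy
  have hle : X.v X.π ^ X.N ≤ 1 := pow_le_one₀ X.π_pos.le X.π_lt.le
  have h1 : Y.w (x - y) < Y.w y := lt_of_lt_of_le h (mul_le_of_le_one_right hwy.le hle)
  have h2 : Y.w x = Y.w y := by
    have h3 := Y.w_add_eq h1
    rwa [sub_add_cancel] at h3
  have hx : x ≠ 0 := by
    rintro rfl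
    rw [map_zero] at h2
    exact absurd h2.symm hwy.ne'
  have hy1 : (y - x) / y ≠ 1 := by
    intro h3
    rw [div_eq_one_iff_eq hy] at h3
    exact hx (by linear_combination -h3)
  have ht : Y.w ((y - x) / y) < X.v X.π ^ X.N := by
    rw [map_div₀, div_lt_iff₀ hwy, ← Y.w.map_neg, neg_sub, mul_comm]
    exact h
  have h4 := Y.ch_small _ ht
  have h5 : x = y * (1 - (y - x) / y) := by field_simp; ring
  rw [h5, Y.ch_mul _ _ hy (sub_ne_zero.mpr hy1.symm), h4, add_zero]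

theorem Pl.dens (Y : Pl X L Fh) (z : Fh) (h : H) {ρ : ℝ} (hρ : 0 < ρ) :
    ∃ c : F, Y.j c ≠ z ∧ Y.w (z - Y.j c) < ρ ∧ Y.ch (z - Y.j c) = h := by
  obtain ⟨b, hb, hbρ, hbh⟩ := X.small_class h hρ
  have hvb : 0 < X.v b := X.v.pos hb
  have hpN : 0 < X.v X.π ^ X.N := pow_pos X.π_pos _
  obtain ⟨a, ha⟩ := Y.dense z (X.v b * X.v X.π ^ X.N) (mul_pos hvb hpN)
  have hjb : Y.j b ≠ 0 := (map_ne_zero Y.j).mpr hb
  have hle : X.v X.π ^ X.N ≤ 1 := pow_le_one₀ X.π_pos.le X.π_lt.le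
  have hza : Y.w (z - Y.j a) < X.v b * X.v X.π ^ X.N := by
    rw [← Y.w.map_neg, neg_sub]
    exact ha
  have hza' : Y.w (z - Y.j a) < Y.w (Y.j b) := by
    rw [Y.wj]
    exact lt_of_lt_of_le hza (mul_le_of_le_one_right hvb.le hle)
  have hc : z - Y.j (a - b) = (z - Y.j a) + Y.j b := by
    rw [map_sub]; ring
  have hw : Y.w (z - Y.j (a - b)) = X.v b := by
    rw [hc, Y.w_add_eq hza', Y.wj]
  refine ⟨a - b, ?_, ?_, ?_⟩
  · intro h1
    rw [h1, sub_self, map_zero] at hw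
    exact absurd hw hvb.ne
  · rw [hw]; exact hbρ
  · have h1 : Y.ch (z - Y.j (a - b)) = Y.ch (Y.j b) := by
      apply Y.ch_near hjb
      rw [hc, add_sub_cancel_right, Y.wj]
      exact hza
    rw [h1, Y.ch_j b hb, hbh]

theorem Pl.κ_one (Y : Pl X L Fh) : Y.κ 1 = 0 := by
  have h := Y.κ_mul 1 1 one_ne_zero one_ne_zero
  rw [mul_one] at h
  exact left_eq_add.mp h

theorem Pl.κ_neg (Y : Pl X L Fh) {x : L} (hx : x ≠ 0) : Y.κ (-x) = Y.κ x := by
  have h1 : Y.κ (-1) = 0 := by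
    have h2 := Y.κ_alg (-1) (neg_ne_zero.mpr one_ne_zero)
    rw [map_neg, map_one] at h2
    rw [h2, X.cl_neg, X.cl_one]
  have h3 := Y.κ_mul (-1) x (neg_ne_zero.mpr one_ne_zero) hx
  rw [neg_one_mul, h1, zero_add] at h3
  exact h3

theorem Pl.κ_inv (Y : Pl X L Fh) {x : L} (hx : x ≠ 0) : Y.κ x⁻¹ = -Y.κ x := by
  have h := Y.κ_mul x x⁻¹ hx (inv_ne_zero hx)
  rw [mul_inv_cancel₀ hx, Y.κ_one] at h
  exact (neg_eq_of_add_eq_zero_right h.symm).symm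

/-- the Steinberg relation for two elements with nonzero sum -/
theorem Pl.κ_add (Y : Pl X L Fh) {x y : L} (hx : x ≠ 0) (hy : y ≠ 0) (hxy : x + y ≠ 0) :
    X.ω (Y.κ x - Y.κ (x + y)) (Y.κ y - Y.κ (x + y)) = 0 := by
  have h1 : x * (x + y)⁻¹ ≠ 0 := mul_ne_zero hx (inv_ne_zero hxy)
  have h2 : x * (x + y)⁻¹ ≠ 1 := by
    intro h3
    rw [mul_inv_eq_one₀ hxy] at h3
    exact hy (by linear_combination -h3)
  have h3 : 1 - x * (x + y)⁻¹ = y * (x + y)⁻¹ := by field_simp; ring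
  have h4 := Y.κ_st _ h1 h2
  rw [h3, Y.κ_mul _ _ hx (inv_ne_zero hxy), Y.κ_mul _ _ hy (inv_ne_zero hxy), Y.κ_inv hxy,
    ← sub_eq_add_neg, ← sub_eq_add_neg] at h4
  exact h4

end Pool.Agent.Lib.MP_2f3286_ag.Ep
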