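import Pool.Agent.Lib.MP_2f3286_ag.Ep.B1
import Pool.Agent.Lib.MP_2f3286_ag.Ep.A10

/-!
# Every element of `L` has a value   (module B2, 80 minutes)

PROOF of `exists_val`. If `y = algebraMap F L a`: `z = j a`: for `c` with `j c ≠ j a`: `c ≠ a`, `κ (y - c) = cl (a - c) = ch (j (a - c))` (`κ_alg`, `ch_j`).
Let `y` be no element of `F`. `χ c = κ (y - algebraMap F L c)`. `IsSt X χ`: for `a ≠ b`: `x = y - a`, `x' = b - y`, `x + x' = b - a ≠ 0`, `κ_add`, `κ_neg`, `cl_neg`.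
`comb`. If `χ` is constant: `Infin y` (`χ 0 = κ y`). Otherwise `a : ℕ → F`; `lim` gives `z` with `w (j (a n) - z) ≤ v π ^ n` for all `n`. Let `j c ≠ z`; `y ≠ c`. Choose `n` with
`v π ^ n < w (z - j c) * v π ^ N` (`v π < 1`, `N` fixed). Then `v (c - a n) = w (j c - j (a n)) = w (z - j c) ≥ v π ^ n` (`w_sub_eq`...), so `χ c = cl (c - a n)`;
`ch (z - j c) = ch (j (a n) - j c)` (`ch_near`), `= cl (a n - c) = cl (c - a n)`.

PROOF of `val_unique`. Let `z ≠ z'`. For `h` in `H`: `dens` for `z`, `ρ = w (z - z') * v π ^ N`: `c` with `ch (z - j c) = h`, `w (z - j c) < ρ`, so `j c ≠ z'` and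
`ch (z' - j c) = ch (z' - z)` (`ch_near`). Both are `κ (y - c)` (`j c ≠ z` too). So `h = ch (z' - z)` for all `h` in `H`; `H` has a nonzero element (`ε`, as `ω ε (cl π) = 1`), contradiction with `h = 0`, `h = ε`.
PROOF of `not_inf`. The same: `κ (y - c) = κ y` for all `c`, and `= ch (z - j c) = h` arbitrary.
-/

namespace Pool.Agent.Lib.MP_2f3286_ag.Ep

variable {p : ℕ} [Fact p.Prime] {F H L Fh : Type*} [Field F] [AddCommGroup H] [Module (ZMod p) H]
  {X : Dat p F H} [Field L] [Algebra F L] [Field Fh]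

theorem Pl.val_alg (Y : Pl X L Fh) (a : F) : Y.IsVal (algebraMap F L a) (Y.j a) := by
  intro c hc
  have hca : c ≠ a := fun h => hc (by rw [h])
  have hac : a - c ≠ 0 := sub_ne_zero.mpr hca.symm
  refine ⟨fun h => hca ((algebraMap F L).injective h).symm, ?_⟩
  rw [← map_sub, Y.κ_alg _ hac, ← map_sub, Y.ch_j _ hac]

theorem Pl.ε_ne (X : Dat p F H) : X.ε ≠ 0 := by
  intro h
  have hπ : X.π ≠ 0 := by
    intro h0
    have h1 := X.π_pos
    rw [h0, X.v.map_zero] at h1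
    exact lt_irrefl _ h1
  have h1 := X.ωε X.π hπ 1 (zpow_one _).symm
  rw [h, map_zero, LinearMap.zero_apply, Int.cast_one] at h1
  exact zero_ne_one h1

private theorem b2_pow_le (X : Dat p F H) (n : ℕ) : X.v X.π ^ n ≤ 1 :=
  pow_le_one₀ X.π_pos.le X.π_lt.le

theorem Pl.exists_val (Y : Pl X L Fh) (y : L) : (∃ z, Y.IsVal y z) ∨ Y.Infin y := by
  by_cases hy : ∃ a, algebraMap F L a = y
  · obtain ⟨a, rfl⟩ := hy
    exact Or.inl ⟨_, Y.val_alg a⟩
  have hy' : ∀ c, y ≠ algebraMap F L c := fun c h => hy ⟨c, h.symm⟩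
  have hst : IsSt X (fun c => Y.κ (y - algebraMap F L c)) := by
    intro a b hab
    have hba : b - a ≠ 0 := sub_ne_zero.mpr hab.symm
    have e1 : y - algebraMap F L a ≠ 0 := sub_ne_zero.mpr (hy' a)
    have e2 : y - algebraMap F L b ≠ 0 := sub_ne_zero.mpr (hy' b)
    have e3 : (y - algebraMap F L a) + -(y - algebraMap F L b) = algebraMap F L (b - a) := by
      rw [map_sub]; ring
    have e4 : algebraMap F L (b - a) ≠ 0 := by
      rw [_root_.map_ne_zero]; exact hba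
    have h := Y.κ_add e1 (neg_ne_zero.mpr e2) (by rw [e3]; exact e4)
    rw [e3, Y.κ_neg e2, Y.κ_alg _ hba, ← X.cl_neg, neg_sub] at h
    exact h
  rcases comb X hst with hc | ⟨a, ha, hb⟩
  · right
    intro c
    refine ⟨hy' c, ?_⟩
    have h := hc c 0
    simpa using h
  · left
    obtain ⟨z, hz⟩ := Y.lim a ha
    refine ⟨z, fun c hc => ⟨hy' c, ?_⟩⟩
    have hzc : z - Y.j c ≠ 0 := sub_ne_zero.mpr hc.symm
    have hd : 0 < Y.w (z - Y.j c) := Y.w.pos hzc
    obtain ⟨n, hn⟩ := exists_pow_lt_of_lt_one (mul_pos hd (pow_pos X.π_pos X.N)) X.π_lt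
    have hn2 : Y.w (Y.j (a n) - z) < Y.w (z - Y.j c) * X.v X.π ^ X.N := (hz n).trans_lt hn
    have hle : Y.w (z - Y.j c) * X.v X.π ^ X.N ≤ Y.w (z - Y.j c) :=
      mul_le_of_le_one_right hd.le (b2_pow_le X _)
    have e1 : Y.j (a n - c) - (z - Y.j c) = Y.j (a n) - z := by
      rw [map_sub]; ring
    have e2 : Y.j (a n - c) = (Y.j (a n) - z) + (z - Y.j c) := by
      rw [map_sub]; ring
    have h1 : Y.ch (Y.j (a n - c)) = Y.ch (z - Y.j c) := by
      apply Y.ch_near hzc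
      rw [e1]; exact hn2
    have h2 : X.v (a n - c) = Y.w (z - Y.j c) := by
      rw [← Y.wj, e2]
      exact Y.w_add_eq (hn2.trans_le hle)
    have h3 : a n - c ≠ 0 := by
      intro h0
      rw [h0, X.v.map_zero] at h2
      exact hd.ne h2
    have h4 := hb n c (by rw [X.v.map_sub, h2]; exact (hn.trans_le hle).le)
    change Y.κ (y - algebraMap F L c) = _ at h4
    rw [h4, ← h1, Y.ch_j _ h3, ← X.cl_neg, neg_sub]

theorem Pl.val_unique (Y : Pl X L Fh) {y : L} {z z' : Fh} (h : Y.IsVal y z) (h' : Y.IsVal y z') :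
    z = z' := by
  by_contra hne
  have hz : z' - z ≠ 0 := sub_ne_zero.mpr (Ne.symm hne)
  have hd : 0 < Y.w (z' - z) := Y.w.pos hz
  have key : ∀ g : H, g = Y.ch (z' - z) := by
    intro g
    obtain ⟨c, hc1, hc2, hc3⟩ := Y.dens z g (mul_pos hd (pow_pos X.π_pos X.N))
    have hle : Y.w (z' - z) * X.v X.π ^ X.N ≤ Y.w (z' - z) :=
      mul_le_of_le_one_right hd.le (b2_pow_le X _)
    have hc4 : Y.j c ≠ z' := by
      intro h0
      rw [h0, Y.w.map_sub] at hc2
      exact absurd hc2 (not_lt.mpr hle)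
    have e1 : z' - Y.j c - (z' - z) = z - Y.j c := by ring
    have h1 : Y.ch (z' - Y.j c) = Y.ch (z' - z) := by
      apply Y.ch_near hz
      rw [e1]; exact hc2
    rw [← h1, ← (h' c hc4).2, (h c hc1).2, hc3]
  exact Pl.ε_ne X ((key X.ε).trans (key 0).symm)

theorem Pl.not_inf (Y : Pl X L Fh) {y : L} {z : Fh} (h : Y.IsVal y z) (h' : Y.Infin y) :
    False := by
  have key : ∀ g : H, g = Y.κ y := by
    intro g
    obtain ⟨c, hc1, hc2, hc3⟩ := Y.dens z g zero_lt_one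
    rw [← (h' c).2, (h c hc1).2, hc3]
  exact Pl.ε_ne X ((key X.ε).trans (key 0).symm)

end Pool.Agent.Lib.MP_2f3286_ag.Ep
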