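import Pool.Agent.Lib.MP_2f3286_ag.Ep.B2

/-!
# Sums   (module B3, 110 minutes)

PROOF. `x` has the value `z`, `y` the value `z'`; `e₀ = z + z'`. Let `x + y` have the value `z''` or the value `∞` (`exists_val`).

KEY: for `c, c'` in `F` with `j c ≠ z`, `j c' ≠ z'`, and `x + y ≠ c + c'` in `L`: `κ_add` for `c - x`, `c' - y` gives
`ω (κ (x - c) - κ (x + y - (c + c'))) (κ (y - c') - κ (x + y - (c + c'))) = 0`, that is
`ω (ch (z - j c) - k) (ch (z' - j c') - k) = 0` with `k = κ (x + y - (c + c'))`.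

CASE `Infin (x + y)`: `k = κ (x + y)` for all `c, c'`. `dens`: `ch (z - j c)` and `ch (z' - j c')` are arbitrary `h, h'` in `H`: `ω (h - k) (h' - k) = 0` for all `h, h'`: `ω = 0`, contradiction (`ω ε (cl π) = 1`).

CASE value `z'' ≠ z + z'`: `e = z'' - z - z' ≠ 0`. Let `h, h'` in `H` be arbitrary. Choose `α, β` in `F`, nonzero, `cl α = h`, `cl β = h'`, `v β < 1`, `v α < 1` (`small_class`), so `η = α + β - 1 ≠ 0`, `v η = 1`.
`q = e / j η` (in `Fh`, nonzero). We want `c, c'` in `F` with `z - j c` near `- j α q`, `z' - j c'` near `- j β q`; then `z'' - j (c + c') = e + (z - j c) + (z' - j c')` is near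
`e - j (α + β) q = e - j (η + 1) q = - q`. By `dense` choose `c` with `w (z - j c + j α q) < δ`, `c'` with `w (z' - j c' + j β q) < δ`,
`δ = w q * v α * v β * v π ^ N` (`> 0`). Then `ch (z - j c) = ch (j α q) = h + ch q` (`ch_near`, `ch_neg`), `ch (z' - j c') = h' + ch q`, `ch (z'' - j (c + c')) = ch q`, all three nonzero. `k = ch q` (`IsVal`).
KEY: `ω h h' = 0` for all `h, h'`, contradiction.
-/

namespace Pool.Agent.Lib.MP_2f3286_ag.Ep

variable {p : ℕ} [Fact p.Prime] {F H L Fh : Type*} [Field F] [AddCommGroup H] [Module (ZMod p) H]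
  {X : Dat p F H} [Field L] [Algebra F L] [Field Fh]

private theorem b3_near (Y : Pl X L Fh) {u t : Fh} (ht : t ≠ 0)
    (h : Y.w (u - t) < Y.w t * X.v X.π ^ X.N) : u ≠ 0 ∧ Y.ch u = Y.ch t := by
  refine ⟨?_, Y.ch_near ht h⟩
  rintro rfl
  rw [zero_sub, Y.w.map_neg] at h
  have hle : X.v X.π ^ X.N ≤ 1 := pow_le_one₀ X.π_pos.le X.π_lt.le
  exact absurd h (not_lt.mpr (mul_le_of_le_one_right (Y.w.nonneg t) hle))

private theorem b3_key (Y : Pl X L Fh) {x y : L} {z z' : Fh} (h : Y.IsVal x z)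
    (h' : Y.IsVal y z') {c c' : F} (hc : Y.j c ≠ z) (hc' : Y.j c' ≠ z')
    (hs : x + y ≠ algebraMap F L (c + c')) :
    X.ω (Y.ch (z - Y.j c) - Y.κ (x + y - algebraMap F L (c + c')))
      (Y.ch (z' - Y.j c') - Y.κ (x + y - algebraMap F L (c + c'))) = 0 := by
  obtain ⟨h1, h2⟩ := h c hc
  obtain ⟨h3, h4⟩ := h' c' hc'
  have e : (x - algebraMap F L c) + (y - algebraMap F L c')
      = x + y - algebraMap F L (c + c') := by
    rw [map_add]; ring
  have h5 := Y.κ_add (sub_ne_zero.mpr h1) (sub_ne_zero.mpr h3)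
    (by rw [e]; exact sub_ne_zero.mpr hs)
  rw [e, h2, h4] at h5
  exact h5

private theorem b3_pi_ne (X : Dat p F H) : X.π ≠ 0 := by
  intro h0
  have h := X.π_pos
  rw [h0, X.v.map_zero] at h
  exact lt_irrefl _ h

private theorem b3_one (X : Dat p F H) : X.ω X.ε (X.cl X.π) ≠ 0 := by
  rw [X.ωε X.π (b3_pi_ne X) 1 (zpow_one _).symm, Int.cast_one]
  exact one_ne_zero

theorem Pl.val_add (Y : Pl X L Fh) {x y : L} {z z' : Fh} (h : Y.IsVal x z) (h' : Y.IsVal y z') :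
    Y.IsVal (x + y) (z + z') := by
  rcases Y.exists_val (x + y) with ⟨z'', hv⟩ | hinf
  · by_cases hz : z'' = z + z'
    · rw [← hz]; exact hv
    exfalso
    have he : z'' - (z + z') ≠ 0 := sub_ne_zero.mpr hz
    obtain ⟨α, hα, hα1, hαh⟩ := X.small_class X.ε one_pos
    have hπ := b3_pi_ne X
    have hvα : 0 < X.v α := X.v.pos hα
    have hvπ : 0 < X.v X.π := X.π_pos
    have hη : X.v (α + X.π - 1) = 1 := by
      have h1 : X.v (α + X.π) < 1 := (X.na _ _).trans_lt (max_lt hα1 X.π_lt)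
      have h2 := X.v_one_sub h1
      rw [X.v.map_sub] at h2
      exact h2
    have hη0 : α + X.π - 1 ≠ 0 := by
      intro h0
      rw [h0, X.v.map_zero] at hη
      exact zero_ne_one hη
    have hjη : Y.j (α + X.π - 1) ≠ 0 := (map_ne_zero Y.j).mpr hη0
    obtain ⟨q, hq⟩ : ∃ q, q = (z'' - (z + z')) / Y.j (α + X.π - 1) := ⟨_, rfl⟩
    have hq0 : q ≠ 0 := by rw [hq]; exact div_ne_zero he hjη
    have hqe : Y.j (α + X.π - 1) * q = z'' - (z + z') := by
      rw [hq]; field_simp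
    have hqe' : (Y.j α + Y.j X.π - 1) * q = z'' - (z + z') := by
      rw [← hqe, map_sub, map_add, map_one]
    have hwq : 0 < Y.w q := Y.w.pos hq0
    have hpN : 0 < X.v X.π ^ X.N := pow_pos X.π_pos _
    obtain ⟨δ, hδ⟩ : ∃ δ, δ = Y.w q * X.v α * X.v X.π * X.v X.π ^ X.N := ⟨_, rfl⟩
    have hδ0 : 0 < δ := by rw [hδ]; positivity
    have hδ1 : δ ≤ Y.w q * X.v X.π ^ X.N := by
      rw [hδ]
      have : X.v α * X.v X.π ≤ 1 := mul_le_one₀ hα1.le hvπ.le X.π_lt.le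
      calc Y.w q * X.v α * X.v X.π * X.v X.π ^ X.N
          = (Y.w q * X.v X.π ^ X.N) * (X.v α * X.v X.π) := by ring
        _ ≤ _ := mul_le_of_le_one_right (by positivity) this
    have hδ2 : δ ≤ Y.w (-(Y.j α * q)) * X.v X.π ^ X.N := by
      rw [hδ, Y.w.map_neg, Y.w.map_mul, Y.wj]
      calc Y.w q * X.v α * X.v X.π * X.v X.π ^ X.N
          = (X.v α * Y.w q * X.v X.π ^ X.N) * X.v X.π := by ring
        _ ≤ _ := mul_le_of_le_one_right (by positivity) X.π_lt.le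
    have hδ3 : δ ≤ Y.w (-(Y.j X.π * q)) * X.v X.π ^ X.N := by
      rw [hδ, Y.w.map_neg, Y.w.map_mul, Y.wj]
      calc Y.w q * X.v α * X.v X.π * X.v X.π ^ X.N
          = (X.v X.π * Y.w q * X.v X.π ^ X.N) * X.v α := by ring
        _ ≤ _ := mul_le_of_le_one_right (by positivity) hα1.le
    obtain ⟨c, hc⟩ := Y.dense (z + Y.j α * q) δ hδ0
    obtain ⟨c', hc'⟩ := Y.dense (z' + Y.j X.π * q) δ hδ0
    have hc1 : Y.w ((z - Y.j c) - -(Y.j α * q)) < δ := by
      rw [← Y.w.map_neg]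
      have e : -((z - Y.j c) - -(Y.j α * q)) = Y.j c - (z + Y.j α * q) := by ring
      rw [e]; exact hc
    have hc1' : Y.w ((z' - Y.j c') - -(Y.j X.π * q)) < δ := by
      rw [← Y.w.map_neg]
      have e : -((z' - Y.j c') - -(Y.j X.π * q)) = Y.j c' - (z' + Y.j X.π * q) := by ring
      rw [e]; exact hc'
    have hjα : Y.j α ≠ 0 := (map_ne_zero Y.j).mpr hα
    have hjπ : Y.j X.π ≠ 0 := (map_ne_zero Y.j).mpr hπ
    obtain ⟨a1, a2⟩ := b3_near Y (neg_ne_zero.mpr (mul_ne_zero hjα hq0)) (hc1.trans_le hδ2)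
    obtain ⟨b1, b2⟩ := b3_near Y (neg_ne_zero.mpr (mul_ne_zero hjπ hq0)) (hc1'.trans_le hδ3)
    have hs : Y.w ((z'' - Y.j (c + c')) - -q) < δ := by
      have e : (z'' - Y.j (c + c')) - -q
          = ((z - Y.j c) - -(Y.j α * q)) + ((z' - Y.j c') - -(Y.j X.π * q)) := by
        rw [map_add]
        linear_combination -hqe'
      rw [e]
      exact (Y.wna _ _).trans_lt (max_lt hc1 hc1')
    obtain ⟨d1, d2⟩ := b3_near Y (neg_ne_zero.mpr hq0)
      (by rw [Y.w.map_neg]; exact hs.trans_le hδ1)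
    rw [Y.ch_neg (mul_ne_zero hjα hq0), Y.ch_mul _ _ hjα hq0, Y.ch_j _ hα, hαh] at a2
    rw [Y.ch_neg (mul_ne_zero hjπ hq0), Y.ch_mul _ _ hjπ hq0, Y.ch_j _ hπ] at b2
    rw [Y.ch_neg hq0] at d2
    obtain ⟨f1, f2⟩ := hv (c + c') (fun h0 => d1 (by rw [h0, sub_self]))
    have hk := b3_key Y h h' (c := c) (c' := c') (fun h0 => a1 (by rw [h0, sub_self]))
      (fun h0 => b1 (by rw [h0, sub_self])) f1
    rw [f2, a2, b2, d2, add_sub_cancel_right, add_sub_cancel_right] at hk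
    exact b3_one X hk
  · exfalso
    obtain ⟨c, hc1, -, hc3⟩ := Y.dens z (X.ε + Y.κ (x + y)) one_pos
    obtain ⟨c', hd1, -, hd3⟩ := Y.dens z' (X.cl X.π + Y.κ (x + y)) one_pos
    have hk := b3_key Y h h' hc1 hd1 (hinf (c + c')).1
    rw [(hinf (c + c')).2, hc3, hd3, add_sub_cancel_right, add_sub_cancel_right] at hk
    exact b3_one X hk

end Pool.Agent.Lib.MP_2f3286_ag.Ep
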