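import Pool.Agent.Lib.MP_2f3286_ag.Ep.B2

/-!
# Multiples and squares   (module B4, 90 minutes)

PROOF of `val_smul`. `c = 0`: `val_alg` for `0`. `c ≠ 0`: for `d` in `F` with `j d ≠ j c z`: `d' = d / c`, `j d' ≠ z`, `c y - d = c (y - d')`, `κ (c y - d) = cl c + κ (y - d') = cl c + ch (z - j d') = ch (j c (z - j d'))`.

PROOF of `val_sq`. `x = y ^ 2`. `p` is odd (`hp2`), so `2` is invertible in `ZMod p`. For `c` in `F` with `j c ≠ z`, `j c ≠ - z`: `κ (y - c) = ch (z - j c)`; `κ (y + c) = κ (y - (-c)) = ch (z + j c)`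
(`j (-c) ≠ z`). So, with `x - c ^ 2 = (y - c) (y + c) ≠ 0`: (1) `κ (x - c ^ 2) = ch (z - j c) + ch (z + j c)`.
(2) For every `h` in `H` and `ρ > 0` there is `c`, `w (z - j c) < ρ`, `j c ≠ ± z`, with `κ (x - c ^ 2) = h`: if `z ≠ 0`: choose `c` by `dens` with `w (z - j c) < min ρ (w (2 z) v π ^ N)`, so small that
`ch (z + j c) = ch (2 z)` (`ch_near`: `z + j c - 2 z = j c - z`; `2 ≠ 0` in `Fh`: hypothesis `h2`), and `ch (z - j c) = h - ch (2 z)`. (`j c ≠ -z` if `w (z - j c) < w (2 z)`.)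
If `z = 0`: `dens` with `ch (0 - j c) = 2⁻¹ • h`, then `ch (j c) = ch (- j c)`, (1) gives `2 • 2⁻¹ • h = h`.
By `exists_val` `x` has a value. CASE `Infin x`: `κ (x - c ^ 2) = κ x` for all `c`, contradiction with (2) for `h = 0`, `h = ε` (`ε_ne`). CASE `IsVal x z₁`, `z₁ ≠ z ^ 2`: for `c` near `z`,
`κ (x - c ^ 2) = ch (z₁ - j c ^ 2) = ch (z₁ - z ^ 2)` (`ch_near`, `w (z ^ 2 - j c ^ 2) = w (z - j c) w (z + j c)` small: `w (z + j c) ≤ max (w z) (w (j c))`), again contradiction with (2). So `z₁ = z ^ 2`.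
-/

namespace Pool.Agent.Lib.MP_2f3286_ag.Ep

variable {p : ℕ} [Fact p.Prime] {F H L Fh : Type*} [Field F] [AddCommGroup H] [Module (ZMod p) H]
  {X : Dat p F H} [Field L] [Algebra F L] [Field Fh]

theorem Pl.val_smul (Y : Pl X L Fh) (c : F) {y : L} {z : Fh} (h : Y.IsVal y z) :
    Y.IsVal (algebraMap F L c * y) (Y.j c * z) := by
  by_cases hc : c = 0
  · rw [hc, map_zero, zero_mul, map_zero, zero_mul]
    have h0 := Y.val_alg 0
    rwa [map_zero, map_zero] at h0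
  intro d hd
  have hjc : Y.j c ≠ 0 := by rw [_root_.map_ne_zero]; exact hc
  have hac : algebraMap F L c ≠ 0 := by rw [_root_.map_ne_zero]; exact hc
  have e1 : Y.j d = Y.j c * Y.j (d / c) := by
    rw [← map_mul, mul_div_cancel₀ _ hc]
  have e2 : algebraMap F L d = algebraMap F L c * algebraMap F L (d / c) := by
    rw [← map_mul, mul_div_cancel₀ _ hc]
  have hd' : Y.j (d / c) ≠ z := by
    intro h0
    rw [e1, h0] at hd
    exact hd rfl
  obtain ⟨h1, h2⟩ := h (d / c) hd'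
  refine ⟨fun h0 => h1 ?_, ?_⟩
  · rw [e2] at h0
    exact mul_left_cancel₀ hac h0
  · rw [e1, e2, ← mul_sub, ← mul_sub, Y.κ_mul _ _ hac (sub_ne_zero.mpr h1),
      Y.ch_mul _ _ hjc (sub_ne_zero.mpr hd'.symm), Y.κ_alg _ hc, Y.ch_j _ hc, h2]

private theorem b4_pow_le (X : Dat p F H) (n : ℕ) : X.v X.π ^ n ≤ 1 :=
  pow_le_one₀ X.π_pos.le X.π_lt.le

private theorem b4_two_smul (hp2 : p ≠ 2) (h : H) :
    ((2 : ZMod p)⁻¹ • h) + ((2 : ZMod p)⁻¹ • h) = h := by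
  have h2 : (2 : ZMod p) ≠ 0 := by
    intro h0
    have h1 : ((2 : ℕ) : ZMod p) = 0 := by exact_mod_cast h0
    rw [ZMod.natCast_eq_zero_iff] at h1
    exact hp2 ((Nat.prime_dvd_prime_iff_eq Fact.out Nat.prime_two).mp h1)
  rw [← two_smul (ZMod p), smul_smul, mul_inv_cancel₀ h2, one_smul]

private theorem b4_key (hp2 : p ≠ 2) (h2 : (2 : Fh) ≠ 0) (Y : Pl X L Fh) {y : L} {z : Fh}
    (h : Y.IsVal y z) (g : H) {ρ : ℝ} (hρ : 0 < ρ) :
    ∃ c : F, Y.w (z - Y.j c) < ρ ∧ Y.κ (y ^ 2 - algebraMap F L (c ^ 2)) = g := by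
  have main : ∀ c : F, Y.j c ≠ z → Y.j c ≠ -z →
      Y.κ (y ^ 2 - algebraMap F L (c ^ 2)) = Y.ch (z - Y.j c) + Y.ch (z + Y.j c) := by
    intro c hc1 hc2
    have hc3 : Y.j (-c) ≠ z := by
      rw [map_neg]
      intro h0
      exact hc2 (by rw [← h0, neg_neg])
    obtain ⟨a1, a2⟩ := h c hc1
    obtain ⟨b1, b2⟩ := h (-c) hc3
    have e1 : y ^ 2 - algebraMap F L (c ^ 2) =
        (y - algebraMap F L c) * (y - algebraMap F L (-c)) := by
      rw [map_pow, map_neg]; ring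
    rw [e1, Y.κ_mul _ _ (sub_ne_zero.mpr a1) (sub_ne_zero.mpr b1), a2, b2, map_neg,
      sub_neg_eq_add]
  by_cases hz : z = 0
  · obtain ⟨c, hc1, hc2, hc3⟩ := Y.dens z ((2 : ZMod p)⁻¹ • g) hρ
    refine ⟨c, hc2, ?_⟩
    have hc4 : Y.j c ≠ -z := by rw [hz, neg_zero]; rw [hz] at hc1; exact hc1
    have hc5 : Y.j c ≠ 0 := by rw [hz] at hc1; exact hc1
    rw [main c hc1 hc4]
    have e1 : Y.ch (z + Y.j c) = Y.ch (z - Y.j c) := by
      rw [hz, zero_add, zero_sub, Y.ch_neg hc5]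
    rw [e1, hc3, b4_two_smul hp2]
  · have hz2 : 2 * z ≠ 0 := mul_ne_zero h2 hz
    have hd : 0 < Y.w (2 * z) := Y.w.pos hz2
    obtain ⟨c, hc1, hc2, hc3⟩ := Y.dens z (g - Y.ch (2 * z))
      (lt_min hρ (mul_pos hd (pow_pos X.π_pos X.N)))
    have hc2' := lt_min_iff.mp hc2
    have hle : Y.w (2 * z) * X.v X.π ^ X.N ≤ Y.w (2 * z) :=
      mul_le_of_le_one_right hd.le (b4_pow_le X _)
    have hc4 : Y.j c ≠ -z := by
      intro h0
      have e1 : z - Y.j c = 2 * z := by rw [h0]; ring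
      have h3 := hc2'.2
      rw [e1] at h3
      exact absurd h3 (not_lt.mpr hle)
    refine ⟨c, hc2'.1, ?_⟩
    have e1 : z + Y.j c - 2 * z = -(z - Y.j c) := by ring
    have h1 : Y.ch (z + Y.j c) = Y.ch (2 * z) := by
      apply Y.ch_near hz2
      rw [e1, Y.w.map_neg]; exact hc2'.2
    rw [main c hc1 hc4, hc3, h1, sub_add_cancel]

theorem Pl.val_sq (hp2 : p ≠ 2) (h2 : (2 : Fh) ≠ 0) (Y : Pl X L Fh) {y : L} {z : Fh}
    (h : Y.IsVal y z) : Y.IsVal (y ^ 2) (z ^ 2) := by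
  rcases Y.exists_val (y ^ 2) with ⟨z₁, h1⟩ | h1
  · by_cases hz : z₁ = z ^ 2
    · rw [← hz]; exact h1
    exfalso
    have hz1 : z₁ - z ^ 2 ≠ 0 := sub_ne_zero.mpr hz
    have hd : 0 < Y.w (z₁ - z ^ 2) := Y.w.pos hz1
    set M : ℝ := max (Y.w z) 1 with hM
    have hM1 : 1 ≤ M := le_max_right _ _
    have hM0 : 0 < M := lt_of_lt_of_le zero_lt_one hM1
    have hle : Y.w (z₁ - z ^ 2) * X.v X.π ^ X.N ≤ Y.w (z₁ - z ^ 2) :=
      mul_le_of_le_one_right hd.le (b4_pow_le X _)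
    have key : ∀ g : H, g = Y.ch (z₁ - z ^ 2) := by
      intro g
      obtain ⟨c, hc1, hc2⟩ := b4_key hp2 h2 Y h g
        (lt_min zero_lt_one (div_pos (mul_pos hd (pow_pos X.π_pos X.N)) hM0))
      obtain ⟨hc3, hc4⟩ := lt_min_iff.mp hc1
      have e1 : z + Y.j c = (z + z) + -(z - Y.j c) := by ring
      have hw : Y.w (z + Y.j c) ≤ M := by
        rw [e1]
        refine (Y.wna _ _).trans (max_le ((Y.wna _ _).trans ?_) ?_)
        · rw [max_self]; exact le_max_left _ _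
        · rw [Y.w.map_neg]; exact hc3.le.trans hM1
      have e2 : z₁ - Y.j (c ^ 2) - (z₁ - z ^ 2) = (z - Y.j c) * (z + Y.j c) := by
        rw [map_pow]; ring
      have h3 : Y.w (z₁ - Y.j (c ^ 2) - (z₁ - z ^ 2)) <
          Y.w (z₁ - z ^ 2) * X.v X.π ^ X.N := by
        rw [e2, Y.w.map_mul]
        calc Y.w (z - Y.j c) * Y.w (z + Y.j c) ≤ Y.w (z - Y.j c) * M :=
              mul_le_mul_of_nonneg_left hw (Y.w.nonneg _)
          _ < _ := (lt_div_iff₀ hM0).mp hc4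
      have h4 : Y.j (c ^ 2) ≠ z₁ := by
        intro h0
        rw [h0, sub_self, zero_sub, Y.w.map_neg] at h3
        exact absurd h3 (not_lt.mpr hle)
      rw [← Y.ch_near hz1 h3, ← (h1 _ h4).2, hc2]
    exact Pl.ε_ne X ((key X.ε).trans (key 0).symm)
  · exfalso
    have key : ∀ g : H, g = Y.κ (y ^ 2) := by
      intro g
      obtain ⟨c, _, hc2⟩ := b4_key hp2 h2 Y h g zero_lt_one
      rw [← (h1 (c ^ 2)).2, hc2]
    exact Pl.ε_ne X ((key X.ε).trans (key 0).symm)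

end Pool.Agent.Lib.MP_2f3286_ag.Ep
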