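import Pool.Agent.Lib.MP_2f3286_ag.Ep.B3
import Pool.Agent.Lib.MP_2f3286_ag.Ep.B4

/-!
# Products and inverses   (module B5, 50 minutes)

PROOF of `val_mul`. `2 x y = (x + y) ^ 2 + (-1) x ^ 2 + (-1) y ^ 2` has the value `(z + z') ^ 2 - z ^ 2 - z' ^ 2 = 2 z z'` (`val_add`, `val_sq`, `val_smul` with `c = -1`); `x y = 2⁻¹ (2 x y)`, `val_smul` with `c = 2⁻¹` (`2 ≠ 0` in `F`, as `j` is injective).

PROOF of `inf_inv`. `y` infinite, so `y ≠ 0` (`c = 0`). For `c` with `j c ≠ 0`, `c ≠ 0`: `y⁻¹ - c = - c y⁻¹ (y - c⁻¹)`, nonzero, `κ (y⁻¹ - c) = cl c - κ y + κ (y - c⁻¹) = cl c` (`κ (y - c⁻¹) = κ y`), and `ch (0 - j c) = cl c`.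

PROOF of `val_or`: `exists_val` and `inf_inv`.
PROOF of `val_inv`. `z ≠ 0`: `y ≠ 0` (`c = 0`). `exists_val` for `y⁻¹`: value `z'`: `1 = y y⁻¹` has the value `z z'` and `1` (`val_alg`), `val_unique`: `z' = z⁻¹`. `Infin y⁻¹`: `inf_inv`: `y = (y⁻¹)⁻¹` has the value `0`, contradiction (`val_unique`).
-/

namespace Pool.Agent.Lib.MP_2f3286_ag.Ep

variable {p : ℕ} [Fact p.Prime] {F H L Fh : Type*} [Field F] [AddCommGroup H] [Module (ZMod p) H]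
  {X : Dat p F H} [Field L] [Algebra F L] [Field Fh]

private theorem b5_two (h2 : (2 : Fh) ≠ 0) (Y : Pl X L Fh) : (2 : F) ≠ 0 := by
  intro h0
  apply h2
  have h := congrArg Y.j h0
  rwa [map_ofNat, map_zero] at h

theorem Pl.val_mul (hp2 : p ≠ 2) (h2 : (2 : Fh) ≠ 0) (Y : Pl X L Fh) {x y : L} {z z' : Fh}
    (h : Y.IsVal x z) (h' : Y.IsVal y z') : Y.IsVal (x * y) (z * z') := by
  have hF2 : (2 : F) ≠ 0 := b5_two h2 Y
  have hL2 : (2 : L) ≠ 0 := by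
    intro h0
    apply hF2
    apply (algebraMap F L).injective
    rw [map_ofNat, map_zero, h0]
  have h1 := Y.val_sq hp2 h2 (Y.val_add h h')
  have h3 := Y.val_smul (-1) (Y.val_sq hp2 h2 h)
  have h4 := Y.val_smul (-1) (Y.val_sq hp2 h2 h')
  have h5 := Y.val_smul (2⁻¹) (Y.val_add (Y.val_add h1 h3) h4)
  have e1 : algebraMap F L 2⁻¹ * ((x + y) ^ 2 + algebraMap F L (-1) * x ^ 2 +
      algebraMap F L (-1) * y ^ 2) = x * y := by
    rw [map_inv₀, map_ofNat, map_neg, map_one]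
    field_simp
    ring
  have e2 : Y.j 2⁻¹ * ((z + z') ^ 2 + Y.j (-1) * z ^ 2 + Y.j (-1) * z' ^ 2) = z * z' := by
    rw [map_inv₀, map_ofNat, map_neg, map_one]
    field_simp
    ring
  rwa [e1, e2] at h5

theorem Pl.inf_inv (Y : Pl X L Fh) {y : L} (h : Y.Infin y) : y ≠ 0 ∧ Y.IsVal y⁻¹ 0 := by
  have hy : y ≠ 0 := by
    have h0 := (h 0).1
    rwa [map_zero] at h0
  refine ⟨hy, ?_⟩
  intro c hc
  have hc0 : c ≠ 0 := by
    intro h0
    apply hc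
    rw [h0, map_zero]
  have hcL : algebraMap F L c ≠ 0 := by
    intro h0
    apply hc0
    apply (algebraMap F L).injective
    rw [h0, map_zero]
  have hcn : algebraMap F L (-c) ≠ 0 := by
    rw [map_neg]
    exact neg_ne_zero.mpr hcL
  obtain ⟨h1, h2⟩ := h c⁻¹
  have h3 : y - algebraMap F L c⁻¹ ≠ 0 := sub_ne_zero.mpr h1
  have e : y⁻¹ - algebraMap F L c = algebraMap F L (-c) * (y⁻¹ * (y - algebraMap F L c⁻¹)) := by
    rw [map_neg, map_inv₀]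
    field_simp
    ring
  have hy' : y⁻¹ ≠ 0 := inv_ne_zero hy
  refine ⟨?_, ?_⟩
  · rw [← sub_ne_zero, e]
    exact mul_ne_zero hcn (mul_ne_zero hy' h3)
  · rw [e, Y.κ_mul _ _ hcn (mul_ne_zero hy' h3), Y.κ_mul _ _ hy' h3, h2, Y.κ_inv hy,
      Y.κ_alg _ (neg_ne_zero.mpr hc0), X.cl_neg, neg_add_cancel, add_zero, zero_sub,
      Y.ch_neg hc, Y.ch_j c hc0]

theorem Pl.val_or (Y : Pl X L Fh) (y : L) : (∃ z, Y.IsVal y z) ∨ (y ≠ 0 ∧ Y.IsVal y⁻¹ 0) := by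
  rcases Y.exists_val y with h | h
  · exact Or.inl h
  · exact Or.inr (Y.inf_inv h)

theorem Pl.val_inv (hp2 : p ≠ 2) (h2 : (2 : Fh) ≠ 0) (Y : Pl X L Fh) {y : L} {z : Fh}
    (h : Y.IsVal y z) (hz : z ≠ 0) : y ≠ 0 ∧ Y.IsVal y⁻¹ z⁻¹ := by
  have hy : y ≠ 0 := by
    have h0 := (h 0 (by rw [map_zero]; exact hz.symm)).1
    rwa [map_zero] at h0
  refine ⟨hy, ?_⟩
  rcases Y.exists_val y⁻¹ with ⟨z', hz'⟩ | hinf
  · have h1 := Y.val_mul hp2 h2 h hz'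
    rw [mul_inv_cancel₀ hy] at h1
    have h3 := Y.val_alg 1
    rw [map_one, map_one] at h3
    have h4 : z * z' = 1 := Y.val_unique h1 h3
    rwa [← eq_inv_of_mul_eq_one_right h4]
  · have h1 := (Y.inf_inv hinf).2
    rw [inv_inv] at h1
    exact absurd (Y.val_unique h h1) hz

end Pool.Agent.Lib.MP_2f3286_ag.Ep
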