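import Pool.Agent.Lib.MP_2f3286_ag.Ep.A2

/-!
# The class `ε` is orthogonal to the units   (module C1, 50 minutes)

`B` is bilinear with values in an abelian group `Z`, alternating. PROOFS.
`B_smul`: `B (c • h) h' = c.val • B h h'`: `c • h = c.val • h` (`ZMod.natCast_self_eq_zero`.. `Nat.cast_smul_eq_nsmul`, `ZMod.natCast_zmod_val`).
`B_cancel`: if `c ≠ 0` in `ZMod p` and `B (c • h) h' = 0` then `B h h' = 0`: `h = c⁻¹ • (c • h)`, `B_smul`. The same on the right (`B_swap`).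
`B_swap`: `B (a + b) (a + b) = 0`.
`eps_unit`. `z₀` with `φ z₀ = 1`, `v z₀ ≤ 1`; `z₀ ≠ 0` (`φ 0 = 0` by `φ_small`). `x₀ = π ^ N z₀ ≠ 0`, `v x₀ < 1`, `cl (1 - x₀) = ε` (`top`). `u = 1 - x`, `v x < 1`. `x₀ u = π ^ N (z₀ u)`, `z₀ u = z₀ + (- z₀ x)`,
`φ (z₀ u) = φ z₀ + φ (- z₀ x) = 1` (`v (z₀ x) < 1`). So `cl (1 - x₀ u) = ε`. Steinberg (`st`) for `x₀` and `x₀ u` (nonzero and `≠ 1` by the valuation): `B (cl x₀) ε = 0`, `B (cl x₀ + cl u) ε = 0`; subtract.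
`eps_unit'`: `unit_cl`.
`eps_val`: for `a ≠ 0`, `v a = v π ^ n`, `a = π ^ n u`, `v u = 1`: `B ε (cl a) = n • B ε (cl π)` (`cl_zpow`).
`z_ne`: `B ε (cl π) ≠ 0`: otherwise `ram` gives `v π = v c ^ p`, `c ≠ 0`, `v c = v π ^ m`: `v π = v π ^ (m p)`, so `m p = 1` (`zpow` is injective for `0 < v π < 1`), impossible as `p ≥ 2`.
-/

namespace Pool.Agent.Lib.MP_2f3286_ag.Ep

variable {p : ℕ} [Fact p.Prime] {F H Z : Type*} [Field F] [AddCommGroup H] [Module (ZMod p) H]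
  [AddCommGroup Z]

theorem Pre.B_swap (X : Pre p F H Z) (a b : H) : X.B a b = -X.B b a := by
  have h := X.alt (a + b)
  rw [map_add, map_add, AddMonoidHom.add_apply, AddMonoidHom.add_apply, X.alt, X.alt, zero_add,
    add_zero] at h
  exact eq_neg_of_add_eq_zero_right h

theorem Pre.B_smul (X : Pre p F H Z) (c : ZMod p) (a b : H) :
    X.B (c • a) b = c.val • X.B a b := by
  have h : c • a = c.val • a := by
    rw [← Nat.cast_smul_eq_nsmul (ZMod p), ZMod.natCast_zmod_val]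
  rw [h, map_nsmul, AddMonoidHom.nsmul_apply]

theorem Pre.B_cancel (X : Pre p F H Z) {c : ZMod p} (hc : c ≠ 0) {a b : H}
    (h : X.B (c • a) b = 0) : X.B a b = 0 := by
  have h1 : a = c⁻¹ • (c • a) := by rw [inv_smul_smul₀ hc]
  rw [h1, X.B_smul, h, smul_zero]

theorem Pre.B_cancel' (X : Pre p F H Z) {c : ZMod p} (hc : c ≠ 0) {a b : H}
    (h : X.B a (c • b) = 0) : X.B a b = 0 := by
  rw [X.B_swap, neg_eq_zero] at h ⊢
  exact X.B_cancel hc h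

private theorem c1_pi_ne (X : Pre p F H Z) : X.π ≠ 0 := by
  intro h0
  have h := X.π_pos
  rw [h0, X.v.map_zero] at h
  exact lt_irrefl _ h

theorem Pre.eps_unit (X : Pre p F H Z) {x : F} (hx : X.v x < 1) :
    X.B X.ε (X.cl (1 - x)) = 0 := by
  obtain ⟨z₀, hz, hφ⟩ := X.φ_one
  have hz0 : z₀ ≠ 0 := by
    intro h0
    rw [h0, X.φ_small 0 (by rw [X.v.map_zero]; exact zero_lt_one)] at hφ
    exact zero_ne_one hφ
  have hπN : X.π ^ X.N ≠ 0 := pow_ne_zero _ (c1_pi_ne X)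
  have hN : X.N ≠ 0 := by
    have := X.N_two
    omega
  have key : ∀ y : F, X.v y ≤ 1 → X.φ y = 1 → y ≠ 0 →
      X.B (X.cl (X.π ^ X.N * y)) X.ε = 0 := by
    intro y hy hy1 hy0
    have h1 : X.v (X.π ^ X.N * y) < 1 := by
      rw [X.v.map_mul, X.v.map_pow]
      calc X.v X.π ^ X.N * X.v y ≤ X.v X.π ^ X.N * 1 :=
            mul_le_mul_of_nonneg_left hy (pow_nonneg X.π_pos.le _)
        _ = X.v X.π ^ X.N := mul_one _
        _ < 1 := pow_lt_one₀ X.π_pos.le X.π_lt hN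
    have h2 : X.π ^ X.N * y ≠ 1 := by
      intro h0
      rw [h0, X.v.map_one] at h1
      exact lt_irrefl _ h1
    have h3 := X.st _ (mul_ne_zero hπN hy0) h2
    rwa [X.top y hy, hy1, one_smul] at h3
  have hx1 : X.v (1 - x) = 1 := X.toBase.v_one_sub hx
  have hx0 : (1 : F) - x ≠ 0 := by
    intro h0
    rw [h0, X.v.map_zero] at hx1
    exact zero_ne_one hx1
  have hzx : X.v (-(z₀ * x)) < 1 := by
    rw [X.v.map_neg, X.v.map_mul]
    calc X.v z₀ * X.v x ≤ 1 * X.v x := mul_le_mul_of_nonneg_right hz (X.v.nonneg _)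
      _ = X.v x := one_mul _
      _ < 1 := hx
  have hA := key z₀ hz hφ hz0
  have hB := key (z₀ * (1 - x)) (by rw [X.v.map_mul, hx1, mul_one]; exact hz)
    (by
      have e : z₀ * (1 - x) = z₀ + -(z₀ * x) := by ring
      rw [e, X.φ_add _ _ hz hzx.le, hφ, X.φ_small _ hzx, add_zero]) (mul_ne_zero hz0 hx0)
  rw [← mul_assoc, X.cl_mul _ _ (mul_ne_zero hπN hz0) hx0, map_add, AddMonoidHom.add_apply, hA,
    zero_add] at hB
  rw [X.B_swap, hB, neg_zero]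

theorem Pre.eps_unit' (X : Pre p F H Z) {u : F} (hu : X.v u = 1) : X.B X.ε (X.cl u) = 0 := by
  obtain ⟨x, hx, hx2⟩ := X.toBase.unit_cl hu
  rw [hx2]
  exact X.eps_unit hx

theorem Pre.eps_val (X : Pre p F H Z) {a : F} (ha : a ≠ 0) {n : ℤ} (hn : X.v a = X.v X.π ^ n) :
    X.B X.ε (X.cl a) = n • X.B X.ε (X.cl X.π) := by
  have hπ : X.π ≠ 0 := c1_pi_ne X
  have hπn : X.π ^ n ≠ 0 := zpow_ne_zero n hπ
  have hu : X.v (a / X.π ^ n) = 1 := by
    rw [map_div₀, map_zpow₀, hn]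
    exact div_self (zpow_pos X.π_pos n).ne'
  have h1 := X.eps_unit' hu
  rwa [X.toBase.cl_div ha hπn, X.toBase.cl_zpow hπ, map_sub, map_zsmul, sub_eq_zero] at h1

theorem Pre.z_ne (X : Pre p F H Z) : X.B X.ε (X.cl X.π) ≠ 0 := by
  intro h0
  obtain ⟨c, hc⟩ := X.ram X.π (c1_pi_ne X) h0
  have hp : p ≠ 0 := (Fact.out : p.Prime).ne_zero
  have hc0 : c ≠ 0 := by
    intro h1
    have h2 := X.π_pos
    rw [hc, h1, X.v.map_zero, zero_pow hp] at h2
    exact lt_irrefl _ h2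
  obtain ⟨m, hm⟩ := X.disc c hc0
  rw [hm, ← zpow_natCast, ← zpow_mul] at hc
  have h1 : X.v X.π ^ (1 : ℤ) = X.v X.π ^ (m * (p : ℤ)) := by
    rw [zpow_one]
    exact hc
  have h2 : (1 : ℤ) = m * (p : ℤ) := zpow_right_injective₀ X.π_pos X.π_lt.ne h1
  have h3 : (p : ℤ) ∣ 1 := ⟨m, by rw [mul_comm]; exact h2⟩
  exact (Fact.out : p.Prime).not_dvd_one (by exact_mod_cast h3)

end Pool.Agent.Lib.MP_2f3286_ag.Ep
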