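import Pool.Agent.Lib.MP_2f3286_ag.Ep.C1

/-!
# Uniformizers   (module C2, 100 minutes)

PROOF of `unif`. STEP 1: reduction to `n = 1`. `p` does not divide `n`: integers `j, m` with `j n + p m = 1` (Bezout). `a' = a ^ j * π ^ (p m)`, `v a' = v π`, `cl a' = j • cl a` (`cl_zpow`, `cl (π ^ (p m)) = m • cl (π ^ p) = 0`). If
`B (cl a') (h - c • ε) = 0` then `j • B (cl a) (..) = 0`, that is `B ((j : ZMod p) • cl a) (..) = 0`, and `(j : ZMod p) ≠ 0` (as `j n ≡ 1`), so `B_cancel`.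
STEP 2: `v a = v π`. `h = cl b`, `b = a ^ m u`, `v u = 1` (`cl_surj`, `disc`), `cl b = m • cl a + cl u`, `B (cl a) (cl a) = 0`: enough for `h = cl u`, and by `unit_cl` for `h = cl (1 - x)`, `v x < 1`.
STEP 3: claim for all `x` with `v x < 1`, by induction on `k` with `v x = v π ^ k`, downward from `N` (`Nat.le_induction` on `N - k`, or strong induction on `N - k`): if `x = 0` or `v x < v π ^ N`: `cl (1 - x) = 0` (`small`),
`c = 0`. If `v x = v π ^ N`: `x = π ^ N z`, `cl (1 - x) = φ z • ε`, `c = φ z`. Let `v x = v π ^ k`, `1 ≤ k < N`. If `p ∣ k`, `k = p k'`: `v x = v (π ^ k') ^ p`, `step`: `x'` with `v x' < v x`, `cl (1 - x) = cl (1 - x')`; induction.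
If `p ∤ k`: `u = x / a ^ k`, `v u = 1`, `perf`: `θ`, `v (u - θ ^ p) < 1`; `y = θ ^ p a ^ k`, `v (x - y) < v x`, `v y = v x`. `1 - x = (1 - y) (1 - x')` with `x' = (x - y) / (1 - y)`, `v x' < v x`. Steinberg for `y`:
`B (cl y) (cl (1 - y)) = 0`, `cl y = p-th power + k • cl a = (k : ZMod p) • cl a`, `(k : ZMod p) ≠ 0`: `B (cl a) (cl (1 - y)) = 0`. So the `c` for `x'` works for `x`: `cl (1 - x) - c • ε = cl (1 - y) + (cl (1 - x') - c • ε)`.
-/

namespace Pool.Agent.Lib.MP_2f3286_ag.Ep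

variable {p : ℕ} [Fact p.Prime] {F H Z : Type*} [Field F] [AddCommGroup H] [Module (ZMod p) H]
  [AddCommGroup Z]

private theorem c2_pi_ne (X : Pre p F H Z) : X.π ≠ 0 := by
  intro h0
  have h := X.π_pos
  rw [h0, X.v.map_zero] at h
  exact lt_irrefl _ h

/-- one step: an exponent prime to `p` is increased -/
private theorem c2_step (X : Pre p F H Z) {a : F} (ha : a ≠ 0) (hva : X.v a = X.v X.π) {x : F}
    {k : ℕ} (hk : 0 < k) (hx : X.v x = X.v X.π ^ k) (hpk : ¬ p ∣ k) :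
    ∃ x', X.v x' < X.v x ∧ ∀ c : ZMod p, X.B (X.cl a) (X.cl (1 - x') - c • X.ε) = 0 →
      X.B (X.cl a) (X.cl (1 - x) - c • X.ε) = 0 := by
  have hx1 : X.v x < 1 := by
    rw [hx]
    exact pow_lt_one₀ X.π_pos.le X.π_lt hk.ne'
  have hak : a ^ k ≠ 0 := pow_ne_zero k ha
  have hvak : X.v (a ^ k) = X.v x := by
    rw [X.v.map_pow, hva, hx]
  have hvx : 0 < X.v x := by
    rw [hx]
    exact pow_pos X.π_pos k
  obtain ⟨θ, hθ, hu⟩ := X.perf (x / a ^ k) (by
    rw [map_div₀, hvak]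
    exact div_self hvx.ne')
  have hθ0 : θ ≠ 0 := by
    intro h0
    rw [h0, X.v.map_zero] at hθ
    exact zero_ne_one hθ
  have hθp : θ ^ p ≠ 0 := pow_ne_zero p hθ0
  obtain ⟨y, hy⟩ : ∃ y, y = θ ^ p * a ^ k := ⟨_, rfl⟩
  have hy0 : y ≠ 0 := by
    rw [hy]
    exact mul_ne_zero hθp hak
  have hvy : X.v y = X.v x := by
    rw [hy, X.v.map_mul, X.v.map_pow, hθ, one_pow, one_mul, hvak]
  have hvy1 : X.v y < 1 := by
    rw [hvy]
    exact hx1
  have hxy : X.v (x - y) < X.v x := by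
    have e : x - y = (x / a ^ k - θ ^ p) * a ^ k := by
      rw [hy, sub_mul, div_mul_cancel₀ _ hak]
    rw [e, X.v.map_mul, hvak]
    calc X.v (x / a ^ k - θ ^ p) * X.v x < 1 * X.v x := mul_lt_mul_of_pos_right hu hvx
      _ = X.v x := one_mul _
  have h1y := X.toBase.v_one_sub hvy1
  have h1y0 : (1 : F) - y ≠ 0 := by
    intro h0
    rw [h0, X.v.map_zero] at h1y
    exact zero_ne_one h1y
  obtain ⟨x', hx'⟩ : ∃ x', x' = (x - y) / (1 - y) := ⟨_, rfl⟩
  have hvx' : X.v x' < X.v x := by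
    rw [hx', map_div₀, h1y, div_one]
    exact hxy
  have h1x' := X.toBase.v_one_sub (hvx'.trans hx1)
  have h1x'0 : (1 : F) - x' ≠ 0 := by
    intro h0
    rw [h0, X.v.map_zero] at h1x'
    exact zero_ne_one h1x'
  have hfac : (1 : F) - x = (1 - y) * (1 - x') := by
    rw [hx', mul_sub, mul_one, mul_div_cancel₀ _ h1y0]
    ring
  have hy1 : y ≠ 1 := by
    intro h0
    exact h1y0 (by rw [h0, sub_self])
  have hst := X.st y hy0 hy1
  have hcly : X.cl y = ((k : ℕ) : ZMod p) • X.cl a := by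
    rw [hy, X.cl_mul _ _ hθp hak, X.toBase.cl_pow_p hθ0, zero_add, ← zpow_natCast,
      X.toBase.cl_zpow ha, natCast_zsmul, Nat.cast_smul_eq_nsmul]
  have hk0 : ((k : ℕ) : ZMod p) ≠ 0 := by
    intro h0
    exact hpk ((ZMod.natCast_eq_zero_iff k p).mp h0)
  rw [hcly] at hst
  have h3 := X.B_cancel hk0 hst
  refine ⟨x', hvx', fun c hc => ?_⟩
  rw [hfac, X.cl_mul _ _ h1y0 h1x'0, add_sub_assoc, map_add, h3, hc, add_zero]

private theorem c2_ind (X : Pre p F H Z) {a : F} (ha : a ≠ 0) (hva : X.v a = X.v X.π) (j : ℕ) :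
    ∀ x, X.v x < 1 → X.v x < X.v X.π ^ ((X.N : ℤ) - j) →
      ∃ c : ZMod p, X.B (X.cl a) (X.cl (1 - x) - c • X.ε) = 0 := by
  have hπ := c2_pi_ne X
  induction j with
  | zero =>
    intro x _ hx2
    rw [Nat.cast_zero, sub_zero, zpow_natCast] at hx2
    exact ⟨0, by rw [X.small x hx2, zero_smul, sub_zero, map_zero]⟩
  | succ j ih =>
    intro x hx1 hx2
    have h1 := X.toBase.v_le_of_lt hx2
    have e1 : (X.N : ℤ) - ((j + 1 : ℕ) : ℤ) + 1 = X.N - j := by
      push_cast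
      ring
    rw [e1] at h1
    rcases h1.lt_or_eq with h1 | h1
    · exact ih x hx1 h1
    have hjN : j < X.N := by
      by_contra hc
      rw [h1] at hx1
      have h2 : (X.N : ℤ) - j ≤ 0 := by omega
      have h3 := zpow_le_zpow_right_of_le_one₀ X.π_pos X.π_lt.le h2
      rw [zpow_zero] at h3
      exact absurd hx1 (not_lt.mpr h3)
    obtain ⟨k, hk⟩ : ∃ k : ℕ, (k : ℤ) = X.N - j := ⟨X.N - j, by omega⟩
    have hxk : X.v x = X.v X.π ^ k := by
      rw [h1, ← hk, zpow_natCast]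
    rcases Nat.eq_zero_or_pos j with hj | hj
    · have hkN : k = X.N := by omega
      rw [hkN] at hxk
      obtain ⟨z, hz⟩ : ∃ z, z = x / X.π ^ X.N := ⟨_, rfl⟩
      have hxz : x = X.π ^ X.N * z := by
        rw [hz, mul_div_cancel₀ _ (pow_ne_zero _ hπ)]
      have hvz : X.v z ≤ 1 := by
        rw [hz, map_div₀, hxk, X.v.map_pow]
        exact (div_self (pow_pos X.π_pos _).ne').le
      have htop := X.top z hvz
      rw [← hxz] at htop
      exact ⟨X.φ z, by rw [htop, sub_self, map_zero]⟩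
    · have hkN : k < X.N := by omega
      have hk0 : 0 < k := by omega
      by_cases hpk : p ∣ k
      · obtain ⟨m, rfl⟩ := hpk
        obtain ⟨x', hx', hcl⟩ := X.step x hx1 (by
          rw [hxk]
          exact pow_lt_pow_right_of_lt_one₀ X.π_pos X.π_lt hkN)
          ⟨X.π ^ m, by rw [hxk, X.v.map_pow, ← pow_mul, mul_comm]⟩
        rw [hcl]
        refine ih x' (hx'.trans hx1) ?_
        rw [← h1]
        exact hx'
      · obtain ⟨x', hx', hc⟩ := c2_step X ha hva hk0 hxk hpk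
        obtain ⟨c, hc'⟩ := ih x' (hx'.trans hx1) (by
          rw [← h1]
          exact hx')
        exact ⟨c, hc c hc'⟩

private theorem c2_one (X : Pre p F H Z) {a : F} (ha : a ≠ 0) (hva : X.v a = X.v X.π) (h : H) :
    ∃ c : ZMod p, X.B (X.cl a) (h - c • X.ε) = 0 := by
  obtain ⟨b, hb, rfl⟩ := X.cl_surj h
  obtain ⟨m, hm⟩ := X.disc b hb
  have ham : a ^ m ≠ 0 := zpow_ne_zero m ha
  have hu : X.v (b / a ^ m) = 1 := by
    rw [map_div₀, map_zpow₀, hm, hva]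
    exact div_self (zpow_pos X.π_pos _).ne'
  obtain ⟨x, hx, hx2⟩ := X.toBase.unit_cl hu
  obtain ⟨c, hc⟩ := c2_ind X ha hva X.N x hx (by
    rw [sub_self, zpow_zero]
    exact hx)
  refine ⟨c, ?_⟩
  rw [X.toBase.cl_div hb ham, X.toBase.cl_zpow ha] at hx2
  have e : X.cl b - c • X.ε = m • X.cl a + (X.cl (1 - x) - c • X.ε) := by
    rw [← hx2]
    abel
  rw [e, map_add, map_zsmul, X.alt, smul_zero, hc, add_zero]

theorem Pre.unif (X : Pre p F H Z) {a : F} (ha : a ≠ 0) {n : ℤ} (hn : X.v a = X.v X.π ^ n)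
    (hpn : ¬ (p : ℤ) ∣ n) (h : H) : ∃ c : ZMod p, X.B (X.cl a) (h - c • X.ε) = 0 := by
  have hπ := c2_pi_ne X
  have hcop : IsCoprime (p : ℤ) n :=
    (Nat.prime_iff_prime_int.mp (Fact.out : p.Prime)).coprime_iff_not_dvd.mpr hpn
  obtain ⟨u, w, huw⟩ := hcop
  have haw : a ^ w ≠ 0 := zpow_ne_zero w ha
  have hπu : X.π ^ u ≠ 0 := zpow_ne_zero u hπ
  have hπup : (X.π ^ u) ^ p ≠ 0 := pow_ne_zero p hπu
  have hv : X.v (a ^ w * (X.π ^ u) ^ p) = X.v X.π := by
    rw [X.v.map_mul, map_zpow₀, X.v.map_pow, map_zpow₀, hn, ← zpow_natCast, ← zpow_mul,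
      ← zpow_mul, ← zpow_add₀ X.π_pos.ne']
    have e : n * w + u * (p : ℤ) = 1 := by linarith [mul_comm n w]
    rw [e, zpow_one]
  obtain ⟨c, hc⟩ := c2_one X (mul_ne_zero haw hπup) hv h
  refine ⟨c, ?_⟩
  have hcl : X.cl (a ^ w * (X.π ^ u) ^ p) = ((w : ℤ) : ZMod p) • X.cl a := by
    rw [X.cl_mul _ _ haw hπup, X.toBase.cl_pow_p hπu, add_zero, X.toBase.cl_zpow ha,
      Int.cast_smul_eq_zsmul]
  rw [hcl] at hc
  refine X.B_cancel ?_ hc
  intro h0
  have h1 : ((u * (p : ℤ) + w * n : ℤ) : ZMod p) = ((1 : ℤ) : ZMod p) := by rw [huw]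
  push_cast at h1
  rw [h0, ZMod.natCast_self, mul_zero, zero_mul, add_zero] at h1
  exact zero_ne_one h1

end Pool.Agent.Lib.MP_2f3286_ag.Ep
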