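import Pool.Agent.Lib.MP_2f3286_ag.Ep.C1

/-!
# The form is nondegenerate   (module C3, 90 minutes)

PROOF of `proper`. `h = cl a`, `v a = v π ^ n`. (i) If `p ∤ n`: `B ε (cl a) = n • z₀`, `z₀ = B ε (cl π) ≠ 0` (`eps_val`, `z_ne`) and `p • z₀ = 0`, so it is nonzero (`n` prime to `p`); but `B ε h = - B h ε = 0`. (ii) `p ∣ n`, `n = p m`:
`u = a / (π ^ m) ^ p`, `v u = 1`, `cl u = cl a`, `unit_cl`: `h = cl (1 - x)`, `v x < 1`.
CLAIM by induction as in C2 on the exponent of `x` (downward from `N`): if `B (cl (1 - x)) h' = 0` for all `h'` then `cl (1 - x) = 0`. `v x < v π ^ N`: `small`. `v x = v π ^ N`: `x = π ^ N z`, `cl (1 - x) = φ z • ε`; if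
`φ z ≠ 0`, `B_cancel`: `B ε (cl π) = 0`, contradiction; so it is `0`. `v x = v π ^ k`, `1 ≤ k < N`, `p ∣ k`: `step` and induction. `p ∤ k`: contradiction: `z₁` with `φ z₁ = 1`, `v z₁ ≤ 1`, `v z₁ = 1` (`φ_small`),
`y = π ^ N z₁ / x`, `v y = v π ^ (N - k) < 1`, `x y = π ^ N z₁`, `cl (1 - x y) = ε`. `f = (1 - x) / (1 - x y)`, `1 - f = x (1 - y) / (1 - x y)`, `f ≠ 0, 1`. `st`: `B (cl f) (cl (1 - f)) = 0`, `cl f = cl (1 - x) - ε`. As
`B (cl (1 - x)) _ = 0`: `B ε (cl (1 - f)) = 0`; `ram`: `v (1 - f) = v c ^ p`, but `v (1 - f) = v x = v π ^ k`; `v c = v π ^ m`, `k = p m`, contradiction.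
-/

namespace Pool.Agent.Lib.MP_2f3286_ag.Ep

variable {p : ℕ} [Fact p.Prime] {F H Z : Type*} [Field F] [AddCommGroup H] [Module (ZMod p) H]
  [AddCommGroup Z]

private theorem c3_pi_ne (X : Pre p F H Z) : X.π ≠ 0 := by
  intro h0
  have h := X.π_pos
  rw [h0, X.v.map_zero] at h
  exact lt_irrefl _ h

/-- the value of an element in the kernel is the value of a `p`-th power -/
private theorem c3_dvd (X : Pre p F H Z) {a : F} (ha : a ≠ 0) {n : ℤ}
    (hn : X.v a = X.v X.π ^ n) (hh : X.B X.ε (X.cl a) = 0) : (p : ℤ) ∣ n := by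
  by_contra hpn
  have hπ := c3_pi_ne X
  have h1 : n • X.B X.ε (X.cl X.π) = 0 := by rw [← X.eps_val ha hn, hh]
  have h2 : (p : ℤ) • X.B X.ε (X.cl X.π) = 0 := by
    rw [← map_zsmul, ← X.toBase.cl_zpow hπ, zpow_natCast, X.toBase.cl_pow_p hπ, map_zero]
  have hcop : IsCoprime (p : ℤ) n :=
    (Nat.prime_iff_prime_int.mp (Fact.out : p.Prime)).coprime_iff_not_dvd.mpr hpn
  obtain ⟨u, w, huw⟩ := hcop
  apply X.z_ne
  rw [← one_smul ℤ (X.B X.ε (X.cl X.π)), ← huw, add_smul, mul_smul, mul_smul, h1, h2, smul_zero,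
    smul_zero, add_zero]

/-- the case of an exponent prime to `p` cannot occur -/
private theorem c3_ndvd (X : Pre p F H Z) {x : F} {k : ℕ} (hk : 0 < k) (hkN : k < X.N)
    (hx : X.v x = X.v X.π ^ k) (hpk : ¬ p ∣ k) (hh : ∀ h', X.B (X.cl (1 - x)) h' = 0) : False := by
  have hπ := c3_pi_ne X
  have hx1 : X.v x < 1 := by
    rw [hx]
    exact pow_lt_one₀ X.π_pos.le X.π_lt hk.ne'
  have hx0 : x ≠ 0 := by
    intro h0
    rw [h0, X.v.map_zero] at hx
    exact (pow_pos X.π_pos k).ne hx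
  obtain ⟨z, hz, hφ⟩ := X.φ_one
  have hz1 : X.v z = 1 := by
    refine le_antisymm hz (not_lt.mp fun h => ?_)
    rw [X.φ_small z h] at hφ
    exact zero_ne_one hφ
  have hz0 : z ≠ 0 := by
    intro h0
    rw [h0, X.v.map_zero] at hz1
    exact zero_ne_one hz1
  obtain ⟨y, hy⟩ : ∃ y, y = X.π ^ X.N * z / x := ⟨_, rfl⟩
  have hxy : x * y = X.π ^ X.N * z := by
    rw [hy, mul_div_cancel₀ _ hx0]
  have hy0 : y ≠ 0 := by
    rw [hy]
    exact div_ne_zero (mul_ne_zero (pow_ne_zero _ hπ) hz0) hx0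
  have hvxy : X.v (x * y) = X.v X.π ^ X.N := by
    rw [hxy, X.v.map_mul, X.v.map_pow, hz1, mul_one]
  have hvxy1 : X.v (x * y) < 1 := by
    rw [hvxy]
    exact pow_lt_one₀ X.π_pos.le X.π_lt (by omega)
  have hvy : X.v y < 1 := by
    have h1 : X.v X.π ^ k * X.v y = X.v X.π ^ k * X.v X.π ^ (X.N - k) := by
      rw [← hx, ← X.v.map_mul, hvxy, hx, ← pow_add]
      congr 1
      omega
    have h2 := mul_left_cancel₀ (pow_pos X.π_pos k).ne' h1
    rw [h2]
    exact pow_lt_one₀ X.π_pos.le X.π_lt (by omega)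
  have ne1 : ∀ w, X.v w < 1 → (1 : F) - w ≠ 0 := by
    intro w hw h0
    have h1 := X.toBase.v_one_sub hw
    rw [h0, X.v.map_zero] at h1
    exact zero_ne_one h1
  have hA := ne1 x hx1
  have hB := ne1 (x * y) hvxy1
  have hC := ne1 y hvy
  obtain ⟨f, hf⟩ : ∃ f, f = (1 - x) / (1 - x * y) := ⟨_, rfl⟩
  have hf1 : 1 - f = x * (1 - y) / (1 - x * y) := by
    rw [hf]
    field_simp
    ring
  have hf0 : f ≠ 0 := by
    rw [hf]
    exact div_ne_zero hA hB
  have hg0 : 1 - f ≠ 0 := by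
    rw [hf1]
    exact div_ne_zero (mul_ne_zero hx0 hC) hB
  have hfne : f ≠ 1 := by
    intro h0
    exact hg0 (by rw [h0, sub_self])
  have hst := X.st f hf0 hfne
  have hclf : X.cl f = X.cl (1 - x) - X.ε := by
    rw [hf, X.toBase.cl_div hA hB, hxy, X.top z hz, hφ, one_smul]
  rw [hclf, map_sub, AddMonoidHom.sub_apply, hh, zero_sub, neg_eq_zero] at hst
  have hvf : X.v (1 - f) = X.v X.π ^ (k : ℤ) := by
    rw [hf1, map_div₀, X.v.map_mul, X.toBase.v_one_sub hvy, X.toBase.v_one_sub hvxy1, mul_one,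
      div_one, hx, zpow_natCast]
  have h3 := c3_dvd X hg0 hvf hst
  exact hpk (by exact_mod_cast h3)

private theorem c3_ind (X : Pre p F H Z) (j : ℕ) : ∀ x, X.v x < 1 →
    X.v x < X.v X.π ^ ((X.N : ℤ) - j) → (∀ h', X.B (X.cl (1 - x)) h' = 0) → X.cl (1 - x) = 0 := by
  have hπ := c3_pi_ne X
  induction j with
  | zero =>
    intro x _ hx2 _
    apply X.small
    rw [Nat.cast_zero, sub_zero, zpow_natCast] at hx2
    exact hx2
  | succ j ih =>
    intro x hx1 hx2 hh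
    have h1 := X.toBase.v_le_of_lt hx2
    have e1 : (X.N : ℤ) - ((j + 1 : ℕ) : ℤ) + 1 = X.N - j := by
      push_cast
      ring
    rw [e1] at h1
    rcases h1.lt_or_eq with h1 | h1
    · exact ih x hx1 h1 hh
    have hjN : j < X.N := by
      by_contra hc
      rw [h1] at hx1
      have h2 : (X.N : ℤ) - j ≤ 0 := by omega
      have h3 := zpow_le_zpow_right_of_le_one₀ X.π_pos X.π_lt.le h2
      rw [zpow_zero] at h3
      exact absurd hx1 (not_lt.mpr h3)
    obtain ⟨k, hk⟩ : ∃ k : ℕ, (k : ℤ) = X.N - j := ⟨X.N - j, by omega⟩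
    have hxk : X.v x = X.v X.π ^ k := by
      rw [h1, ← hk, zpow_natCast]
    rcases Nat.eq_zero_or_pos j with hj | hj
    · have hkN : k = X.N := by omega
      rw [hkN] at hxk
      obtain ⟨z, hz⟩ : ∃ z, z = x / X.π ^ X.N := ⟨_, rfl⟩
      have hxz : x = X.π ^ X.N * z := by
        rw [hz, mul_div_cancel₀ _ (pow_ne_zero _ hπ)]
      have hvz : X.v z ≤ 1 := by
        rw [hz, map_div₀, hxk, X.v.map_pow]
        exact (div_self (pow_pos X.π_pos _).ne').le
      have htop := X.top z hvz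
      rw [← hxz] at htop
      by_cases hφ : X.φ z = 0
      · rw [htop, hφ, zero_smul]
      · exfalso
        refine X.z_ne (X.B_cancel hφ ?_)
        rw [← htop]
        exact hh _
    · have hkN : k < X.N := by omega
      have hk0 : 0 < k := by omega
      by_cases hpk : p ∣ k
      · obtain ⟨m, rfl⟩ := hpk
        obtain ⟨x', hx', hcl⟩ := X.step x hx1 (by
          rw [hxk]
          exact pow_lt_pow_right_of_lt_one₀ X.π_pos X.π_lt hkN)
          ⟨X.π ^ m, by rw [hxk, X.v.map_pow, ← pow_mul, mul_comm]⟩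
        rw [hcl]
        refine ih x' (hx'.trans hx1) ?_ ?_
        · rw [← h1]
          exact hx'
        · rw [← hcl]
          exact hh
      · exact (c3_ndvd X hk0 hkN hxk hpk hh).elim

theorem Pre.proper (X : Pre p F H Z) {h : H} (hh : ∀ h', X.B h h' = 0) : h = 0 := by
  have hπ := c3_pi_ne X
  obtain ⟨a, ha, rfl⟩ := X.cl_surj h
  obtain ⟨n, hn⟩ := X.disc a ha
  obtain ⟨m, rfl⟩ := c3_dvd X ha hn (by rw [X.B_swap, hh, neg_zero])
  have hm : X.π ^ m ≠ 0 := zpow_ne_zero m hπ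
  have hmp : (X.π ^ m) ^ p ≠ 0 := pow_ne_zero p hm
  have hu : X.v (a / (X.π ^ m) ^ p) = 1 := by
    rw [map_div₀, X.v.map_pow, map_zpow₀, hn, ← zpow_natCast, ← zpow_mul, mul_comm m]
    exact div_self (zpow_pos X.π_pos _).ne'
  have hcl : X.cl (a / (X.π ^ m) ^ p) = X.cl a := by
    rw [X.toBase.cl_div ha hmp, X.toBase.cl_pow_p hm, sub_zero]
  obtain ⟨x, hx, hx2⟩ := X.toBase.unit_cl hu
  rw [← hcl, hx2]
  refine c3_ind X X.N x hx ?_ ?_
  · rw [sub_self, zpow_zero]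
    exact hx
  · rw [← hx2, hcl]
    exact hh

end Pool.Agent.Lib.MP_2f3286_ag.Ep
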