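import Pool.Agent.Lib.MP_2f3286_ag.Ep.Defs

/-!
# A form with values in a group of order `p`   (module C4, 40 minutes)

PROOF. `p • z₀ = 0`: `z₀`... choose: if `B = 0` take `ω = 0`. Otherwise some `B h h' = c.val • z₀` with `c ≠ 0`, and `p • (c.val • z₀) = B (p • h) h' = 0` (`p • h = 0` as `H` is a module over `ZMod p`), `c.val` prime to `p`; if `z₀` had
`p • z₀ ≠ 0`.. to avoid this the hypothesis `hpz : p • z₀ = 0` is given. So `addOrderOf z₀ = p` (`hz`, `p` prime). `ω h h'` is the unique `c` with `B h h' = c.val • z₀` (uniqueness: `c.val • z₀ = c'.val • z₀` implies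
`c.val ≡ c'.val mod p`, `c = c'`; `nsmul_eq_nsmul_iff_modEq`). Additive in both arguments by uniqueness (`(c + c').val ≡ c.val + c'.val`, `ZMod.val_add`, `mod_nsmul`...). An additive map between modules over
`ZMod p` is linear (`AddMonoidHom.toZModLinearMap`).
-/

namespace Pool.Agent.Lib.MP_2f3286_ag.Ep

theorem exists_form {p : ℕ} [Fact p.Prime] {H Z : Type*} [AddCommGroup H] [Module (ZMod p) H]
    [AddCommGroup Z] (B : H →+ H →+ Z) {z₀ : Z} (hz : z₀ ≠ 0) (hpz : p • z₀ = 0)
    (hline : ∀ h h', ∃ c : ZMod p, B h h' = c.val • z₀) :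
    ∃ ω : H →ₗ[ZMod p] H →ₗ[ZMod p] ZMod p, ∀ h h', B h h' = (ω h h').val • z₀ := by
  have ho : addOrderOf z₀ = p := addOrderOf_eq_prime hpz hz
  have inj : ∀ c c' : ZMod p, c.val • z₀ = c'.val • z₀ → c = c' := by
    intro c c' h
    have h1 : c.val ≡ c'.val [MOD p] := by
      have := (nsmul_eq_nsmul_iff_modEq (x := z₀)).1 h
      rwa [ho] at this
    have h2 := (ZMod.natCast_eq_natCast_iff _ _ _).2 h1
    rwa [ZMod.natCast_zmod_val, ZMod.natCast_zmod_val] at h2
  have vadd : ∀ c c' : ZMod p, (c + c').val • z₀ = c.val • z₀ + c'.val • z₀ := by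
    intro c c'
    rw [← add_nsmul]
    apply (nsmul_eq_nsmul_iff_modEq (x := z₀)).2
    rw [ho, ZMod.val_add]
    exact Nat.mod_modEq _ _
  choose f hf using hline
  have f1 : ∀ a b h', f (a + b) h' = f a h' + f b h' := by
    intro a b h'
    apply inj
    rw [vadd, ← hf, ← hf, ← hf, map_add, AddMonoidHom.add_apply]
  have f2 : ∀ h a b, f h (a + b) = f h a + f h b := by
    intro h a b
    apply inj
    rw [vadd, ← hf, ← hf, ← hf, map_add]
  refine ⟨AddMonoidHom.toZModLinearMap p (AddMonoidHom.mk' (fun h =>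
      AddMonoidHom.toZModLinearMap p (AddMonoidHom.mk' (f h) (f2 h))) ?_), ?_⟩
  · intro a b
    ext h'
    exact f1 a b h'
  · intro h h'
    exact hf h h'

end Pool.Agent.Lib.MP_2f3286_ag.Ep
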