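import Pool.Agent.Lib.MP_2f3286_ag.Ep.C2
import Pool.Agent.Lib.MP_2f3286_ag.Ep.C3
import Pool.Agent.Lib.MP_2f3286_ag.Ep.C4

/-!
# From `Pre` to `Dat`   (module C5, 60 minutes)

PROOF of `line`. `z₀ = B ε (cl π)`, `p • z₀ = B (p • ε) _ = 0`. (i) `h = cl a`, `v a = v π ^ n`, `p ∤ n`: by `unif` `B h (h' - c • ε) = 0`, so `B h h' = B h (c • ε) = - B (c • ε) h = - c.val • n • z₀` (`eps_val`), a multiple of `z₀`; every integer
multiple `m • z₀` is `((m : ZMod p)).val • z₀` (`p • z₀ = 0`). (ii) general `h = cl a`, `v a = v π ^ n` with `p ∣ n`: `h = cl (a π) - cl π`, both of the kind (i) (`p ∤ n + 1`, `p ∤ 1`), `B h h'` is the difference, again a multiple.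

PROOF of `exists_dat`. `exists_form` gives `ω` with `B h h' = (ω h h').val • z₀`; `B h h' = 0 ↔ ω h h' = 0` (`(c.val • z₀ = 0 ↔ c = 0)`, `z₀` of order `p`). `alt`, `st` follow, `nondeg` from `proper`. `ωε`: `B ε (cl a) = n • z₀` (`eps_val`), so
`ω ε (cl a) = n`.
-/

namespace Pool.Agent.Lib.MP_2f3286_ag.Ep

variable {p : ℕ} [Fact p.Prime] {F H Z : Type*} [Field F] [AddCommGroup H] [Module (ZMod p) H]
  [AddCommGroup Z]

private theorem c5_pz (X : Pre p F H Z) : p • X.B X.ε (X.cl X.π) = 0 := by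
  have h1 : p • X.cl X.π = 0 := by
    rw [← Nat.cast_smul_eq_nsmul (ZMod p), ZMod.natCast_self, zero_smul]
  rw [← map_nsmul, h1, map_zero]

private theorem c5_order (X : Pre p F H Z) : addOrderOf (X.B X.ε (X.cl X.π)) = p :=
  addOrderOf_eq_prime (c5_pz X) X.z_ne

private theorem c5_int (X : Pre p F H Z) (m : ℤ) (c : ZMod p) :
    m • X.B X.ε (X.cl X.π) = c.val • X.B X.ε (X.cl X.π) ↔ (m : ZMod p) = c := by
  have ho := c5_order X
  rw [← natCast_zsmul (X.B X.ε (X.cl X.π)) c.val, ← sub_eq_zero, ← sub_smul,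
    ← addOrderOf_dvd_iff_zsmul_eq_zero, ho, ← ZMod.intCast_zmod_eq_zero_iff_dvd]
  rw [Int.cast_sub, Int.cast_natCast, ZMod.natCast_zmod_val, sub_eq_zero]

private theorem c5_unif (X : Pre p F H Z) (h' : H) {a : F} (ha : a ≠ 0) {n : ℤ}
    (hn : X.v a = X.v X.π ^ n) (hpn : ¬ (p : ℤ) ∣ n) :
    ∃ m : ℤ, X.B (X.cl a) h' = m • X.B X.ε (X.cl X.π) := by
  obtain ⟨c, hc⟩ := X.unif ha hn hpn h'
  refine ⟨-((c.val : ℤ) * n), ?_⟩
  rw [map_sub, sub_eq_zero] at hc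
  rw [hc, X.B_swap, X.B_smul, X.eps_val ha hn, neg_zsmul, mul_zsmul, natCast_zsmul]

theorem Pre.line (X : Pre p F H Z) (h h' : H) :
    ∃ c : ZMod p, X.B h h' = c.val • X.B X.ε (X.cl X.π) := by
  have hπ0 : X.π ≠ 0 := by
    intro h0
    have h1 := X.π_pos
    rw [h0, X.v.map_zero] at h1
    exact lt_irrefl _ h1
  have hp2 : 2 ≤ p := (Fact.out : p.Prime).two_le
  obtain ⟨a, ha, rfl⟩ := X.cl_surj h
  obtain ⟨n, hn⟩ := X.disc a ha
  have hvπ : X.v X.π ≠ 0 := X.π_pos.ne'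
  suffices hs : ∃ m : ℤ, X.B (X.cl a) h' = m • X.B X.ε (X.cl X.π) by
    obtain ⟨m, hm⟩ := hs
    exact ⟨(m : ZMod p), by rw [hm]; exact (c5_int X m _).2 rfl⟩
  by_cases hd : (p : ℤ) ∣ n
  · have hp1 : ¬ (p : ℤ) ∣ 1 := by
      intro h1
      have h2 := Int.le_of_dvd one_pos h1
      omega
    have hd1 : ¬ (p : ℤ) ∣ n + 1 := by
      intro h1
      exact hp1 ((dvd_add_right hd).1 h1)
    have hv1 : X.v (a * X.π) = X.v X.π ^ (n + 1) := by
      rw [X.v.map_mul, hn, zpow_add_one₀ hvπ]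
    obtain ⟨m1, h1⟩ := c5_unif X h' (mul_ne_zero ha hπ0) hv1 hd1
    obtain ⟨m2, h2⟩ := c5_unif X h' hπ0 (n := 1) (by rw [zpow_one]) hp1
    refine ⟨m1 - m2, ?_⟩
    rw [sub_zsmul, ← h1, ← h2, X.cl_mul a X.π ha hπ0, map_add, AddMonoidHom.add_apply]
    abel
  · exact c5_unif X h' ha hn hd

theorem exists_dat (X : Pre p F H Z) :
    ∃ Y : Dat p F H, Y.toBase = X.toBase ∧ ∀ h h', X.B h h' = 0 → Y.ω h h' = 0 := by
  obtain ⟨ω, hω⟩ := exists_form X.B X.z_ne (c5_pz X) X.line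
  have h0 : ∀ h h', X.B h h' = 0 → ω h h' = 0 := by
    intro h h' hz
    rw [hω] at hz
    have h1 := (c5_int X 0 (ω h h')).1 (by rw [zero_zsmul, hz])
    rw [← h1, Int.cast_zero]
  have h1 : ∀ h h', ω h h' = 0 → X.B h h' = 0 := by
    intro h h' hz
    rw [hω, hz, ZMod.val_zero, zero_nsmul]
  have h3 : ∀ a, a ≠ 0 → ∀ n : ℤ, X.v a = X.v X.π ^ n → ω X.ε (X.cl a) = n := by
    intro a ha n hn
    have h2 := X.eps_val ha hn
    rw [hω] at h2
    exact ((c5_int X n _).1 h2.symm).symm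
  exact ⟨{  toBase := X.toBase
            ω := ω
            alt := fun h => h0 h h (X.alt h)
            nondeg := fun h hh => X.proper (fun h' => h1 h h' (hh h'))
            st := fun x hx hx1 => h0 _ _ (X.st x hx hx1)
            ωε := h3 }, rfl, h0⟩

end Pool.Agent.Lib.MP_2f3286_ag.Ep
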