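import Pool.Agent.Lib.MP_2f3286_ag.Ep.LDefs
import Pool.Agent.Lib.MP_2f3286_ag.Koe.Root
import Pool.Agent.Lib.MP_2f3286_ag.Koe.Teich
import Pool.Agent.Lib.MP_2f3286_ag.Koe.Cls

/-!
# The absolute value of `k`   (module D1, 60 minutes)

`vk k v a = v (algebraMap k kb a)` (`vk_apply`). `fixk ⊤` is the image of `k` in `kb` (`IsGalois`: `IsGalois.mem_range_algebraMap_iff_fixed`); `FinIn ⊤ ⊤` is clear. PROOFS.
* `fixk_top`, `finIn_top`, `vk_na` (from `hd.nonarch`), `vk_isom` (`hd.isom`).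
* `exists_unif`: `hd.disc ⊤` gives `π`. For `a ≠ 0` put `r = vk π < 1`: there is `n : ℤ` with `r ^ (n + 1) < vk a ≤ r ^ n` (`exists_mem_Ioc_zpow` for `r⁻¹ > 1`...); `a / π ^ n` has `r < vk ≤ 1`; if it were `< 1` it would be `≤ r` by `disc`. So `= 1`.
* `perf`: `Koe.teich hd` for `U = ⊤`: `f ≥ 1`, `x : kb` with `x ^ (p ^ f) = x`, `v (u - x) < 1`; `x ∈ fixk ⊤`, `θ = x ^ (p ^ (f - 1))`, `θ ^ p = x`, `v θ = 1` as `v x = v u = 1`.
* `fin_hp`: `Koe.fin_classes hd` for `U = ⊤`: a finite set of representatives maps onto `Hp p k`: `Set.Finite.subset`/`Finite.of_surjective`.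
-/

namespace Pool.Agent.Lib.MP_2f3286_ag.Ep

open Koe

variable {k kb : Type*} [Field k] [Field kb] [Algebra k kb] [IsGalois k kb] [IsAlgClosed kb]
  [CharZero kb] {v : AbsoluteValue kb ℝ} {p : ℕ}

theorem mem_fixk_top {a : kb} : a ∈ fixk (⊤ : Subgroup Gal(kb/k)) ↔
    ∃ b : k, algebraMap k kb b = a := by
  rw [mem_fixk]
  have h1 := InfiniteGalois.mem_range_algebraMap_iff_fixed (k := k) (K := kb) a
  constructor
  · intro h
    exact h1.2 fun σ => h σ (Subgroup.mem_top σ)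
  · intro h σ _
    exact h1.1 h σ

theorem finIn_top : FinIn (⊤ : Subgroup Gal(kb/k)) ⊤ := by
  refine ⟨le_rfl, isClosed_univ, ?_⟩
  rw [Subgroup.relIndex_self]
  exact one_ne_zero

theorem vk_na (hd : LocData v (⊤ : Subgroup Gal(kb/k)) p) (a b : k) :
    vk k v (a + b) ≤ max (vk k v a) (vk k v b) := by
  rw [vk_apply, vk_apply, vk_apply, map_add]
  exact hd.nonarch _ _

theorem exists_unif (hd : LocData v (⊤ : Subgroup Gal(kb/k)) p) :
    ∃ π : k, 0 < vk k v π ∧ vk k v π < 1 ∧ ∀ a : k, a ≠ 0 → ∃ n : ℤ, vk k v a = vk k v π ^ n := by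
  obtain ⟨π', hπ', hπ0, hπ1, hmax⟩ := hd.disc ⊤ finIn_top
  obtain ⟨π, rfl⟩ := mem_fixk_top.1 hπ'
  refine ⟨π, hπ0, hπ1, fun a ha0 => ?_⟩
  have hmax' : ∀ a : k, vk k v a < 1 → vk k v a ≤ vk k v π := fun a ha =>
    hmax _ (mem_fixk_top.2 ⟨a, rfl⟩) ha
  change 0 < vk k v π at hπ0
  change vk k v π < 1 at hπ1
  have hπne : π ≠ 0 := fun h => by rw [h, map_zero] at hπ0; exact lt_irrefl _ hπ0
  have hva : 0 < vk k v a := (vk k v).pos ha0
  obtain ⟨m, hm1, hm2⟩ := exists_mem_Ioc_zpow (y := (vk k v π)⁻¹) hva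
    (one_lt_inv₀ hπ0 |>.mpr hπ1)
  set e : ℤ := -(m + 1) with he
  have hm1' : vk k v π ^ (e + 1) < vk k v a := by
    have h1 : e + 1 = -m := by rw [he]; ring
    rw [h1, zpow_neg, ← inv_zpow]
    exact hm1
  have hm2' : vk k v a ≤ vk k v π ^ e := by
    rw [he, zpow_neg, ← inv_zpow]
    exact hm2
  have hvπe : 0 < vk k v π ^ e := zpow_pos hπ0 e
  have hvu : vk k v (a / π ^ e) = vk k v a / vk k v π ^ e := by rw [map_div₀, map_zpow₀]
  have hvu1 : vk k v (a / π ^ e) ≤ 1 := by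
    rw [hvu]
    exact div_le_one_of_le₀ hm2' hvπe.le
  have hvu2 : vk k v π < vk k v (a / π ^ e) := by
    rw [hvu, lt_div_iff₀ hvπe]
    rw [zpow_add_one₀ hπ0.ne'] at hm1'
    rwa [mul_comm]
  refine ⟨e, ?_⟩
  rcases hvu1.lt_or_eq with h | h
  · exact absurd (hmax' _ h) (not_le.mpr hvu2)
  · rw [hvu, div_eq_one_iff_eq hvπe.ne'] at h
    exact h

theorem perfk (hd : LocData v (⊤ : Subgroup Gal(kb/k)) p) {u : k} (hu : vk k v u = 1) :
    ∃ θ : k, vk k v θ = 1 ∧ vk k v (u - θ ^ p) < 1 := by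
  obtain ⟨f, hf, hfix, hT⟩ := teich hd finIn_top
  obtain ⟨x, hx, hux⟩ := hT _ (mem_fixk_top.2 ⟨u, rfl⟩) (le_of_eq hu)
  have hvx : v x = 1 := by
    rw [vk_apply] at hu
    rw [← hu]
    apply RootAux.na_eq_of_sub_lt hd.nonarch
    rw [← AbsoluteValue.map_neg, neg_sub, hu]
    exact hux
  obtain ⟨θ, hθ⟩ := mem_fixk_top.1 (pow_mem (hfix x hx) (p ^ (f - 1)))
  have hθp : (x ^ (p ^ (f - 1))) ^ p = x := by
    rw [← pow_mul, ← pow_succ, Nat.sub_add_cancel hf, hx]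
  refine ⟨θ, ?_, ?_⟩
  · rw [vk_apply, hθ, map_pow, hvx, one_pow]
  · rw [vk_apply, map_sub, map_pow, hθ, hθp]
    exact hux

theorem clF_mul (p : ℕ) {F : Type*} [Field F] {a b : F} (ha : a ≠ 0) (hb : b ≠ 0) :
    clF p F (a * b) = clF p F a + clF p F b := by
  rw [clF, clF, clF, dif_neg ha, dif_neg hb, dif_neg (mul_ne_zero ha hb)]
  have h1 : Units.mk0 (a * b) (mul_ne_zero ha hb) = Units.mk0 a ha * Units.mk0 b hb := by
    ext
    rfl
  rw [h1]
  rfl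

theorem clF_surj (p : ℕ) {F : Type*} [Field F] (h : Hp p F) : ∃ a : F, a ≠ 0 ∧ clF p F a = h := by
  obtain ⟨y, hy⟩ : ∃ y : Fˣ, Additive.ofMul (QuotientGroup.mk y) = h :=
    ⟨_, Quotient.out_eq' (Additive.toMul h)⟩
  refine ⟨y, y.ne_zero, ?_⟩
  rw [clF, dif_neg y.ne_zero, Units.mk0_val]
  exact hy

theorem clF_eq_zero (p : ℕ) (hp : p ≠ 0) {F : Type*} [Field F] {a : F} (ha : a ≠ 0) :
    clF p F a = 0 ↔ ∃ b : F, b ^ p = a := by
  rw [clF, dif_neg ha]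
  have h1 : ((QuotientGroup.mk (Units.mk0 a ha) :
      Fˣ ⧸ (powMonoidHom p : Fˣ →* Fˣ).range) = 1) ↔
      Units.mk0 a ha ∈ (powMonoidHom p : Fˣ →* Fˣ).range := QuotientGroup.eq_one_iff _
  refine Iff.trans h1 ?_
  constructor
  · rintro ⟨b, hb⟩
    refine ⟨b, ?_⟩
    have h2 := congrArg (Units.val) hb
    rw [powMonoidHom_apply, Units.val_pow_eq_pow_val, Units.val_mk0] at h2
    exact h2
  · rintro ⟨b, hb⟩
    have hb0 : b ≠ 0 := by
      rintro rfl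
      rw [zero_pow hp] at hb
      exact ha hb.symm
    refine ⟨Units.mk0 b hb0, ?_⟩
    ext
    rw [powMonoidHom_apply, Units.val_pow_eq_pow_val, Units.val_mk0, Units.val_mk0, hb]

theorem clF_neg {p : ℕ} (hp : Odd p) {F : Type*} [Field F] (a : F) :
    clF p F (-a) = clF p F a := by
  by_cases ha : a = 0
  · rw [ha, neg_zero]
  · have h1 : (-a : F) = (-1) * a := by ring
    have h2 : (-1 : F) ≠ 0 := neg_ne_zero.2 one_ne_zero
    rw [h1, clF_mul p h2 ha, (clF_eq_zero p hp.pos.ne' h2).2 ⟨-1, hp.neg_one_pow⟩, zero_add]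

theorem fin_hp (hd : LocData v (⊤ : Subgroup Gal(kb/k)) p) : Finite (Hp p k) := by
  classical
  obtain ⟨R, hR, hR'⟩ := fin_classes hd finIn_top
  have hp0 : p ≠ 0 := hd.prime.ne_zero
  let g : kb → Hp p k := fun r =>
    if h : ∃ b : k, algebraMap k kb b = r then clF p k h.choose else 0
  have h1 : (Set.univ : Set (Hp p k)) ⊆ g '' (R : Set kb) := by
    intro h _
    obtain ⟨a, ha0, rfl⟩ := clF_surj p h
    have ha0' : algebraMap k kb a ≠ 0 := (_root_.map_ne_zero _).2 ha0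
    obtain ⟨r, hr, b, hb, hb0, hab⟩ := hR' _ (mem_fixk_top.2 ⟨a, rfl⟩) ha0'
    refine ⟨r, hr, ?_⟩
    obtain ⟨r', hr'⟩ := mem_fixk_top.1 (hR r hr).1
    obtain ⟨b', hb'⟩ := mem_fixk_top.1 hb
    have hex : ∃ b : k, algebraMap k kb b = r := ⟨r', hr'⟩
    have h2 : hex.choose = r' := (algebraMap k kb).injective (hex.choose_spec.trans hr'.symm)
    have h3 : g r = clF p k r' := by
      change (if h : ∃ b : k, algebraMap k kb b = r then clF p k h.choose else 0) = _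
      rw [dif_pos hex, h2]
    have hr0 : r' ≠ 0 := by
      rintro rfl
      rw [map_zero] at hr'
      exact (hR r hr).2 hr'.symm
    have hb0' : b' ≠ 0 := by
      rintro rfl
      rw [map_zero] at hb'
      exact hb0 hb'.symm
    have h4 : a = r' * b' ^ p := by
      apply (algebraMap k kb).injective
      rw [map_mul, map_pow, hr', hb', hab]
    rw [h3, h4, clF_mul p hr0 (pow_ne_zero _ hb0'),
      (clF_eq_zero p hp0 (pow_ne_zero _ hb0')).2 ⟨b', rfl⟩, add_zero]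
  exact Set.finite_univ_iff.1 ((R.finite_toSet.image g).subset h1)

end Pool.Agent.Lib.MP_2f3286_ag.Ep
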