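import Pool.Agent.Lib.MP_2f3286_ag.Ep.D1

/-!
# Elements near one are `p`-th powers

`ζ ∈ k` a primitive `p`-th root of unity, `p` odd. PROOFS.
* `v_zeta`: `v (1 - ζ) ^ (p - 1) = v p` (`RootAux.na_prim`), the same for all primitive roots; so `v (1 - z) = v (1 - ζ)` for every `z` with `z ^ p = 1`, `z ≠ 1` (both `(p - 1)`-th powers are `v p`); `0 < vk (1 - ζ) < 1`, `vk p = vk (1 - ζ) ^ (p - 1)`.
* `hens`: `RootAux.exists_root_near` in `kb` with `t = v (1 - ζ)`, `n = p`: `b ∈ kb`, `b ^ p = a`, `v (b - 1) < v (1 - ζ)` (so `v b = 1`). For `σ` in the Galois group, `σ b` is a `p`-th root of `a`, `v (σ b - 1) = v (b - 1)`; `z = σ b / b`, `z ^ p = 1`,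
  `v (z - 1) = v (σ b - b) < v (1 - ζ)`, so `z = 1`. So `b` is fixed: `mem_fixk_top`.
* `p_small`: `v p ^ 2 ≤ v (1 - ζ) ^ p`: `2 (p - 1) ≥ p`.
* `near_one`: `b ∈ k` with `vk (b ^ p - 1) ≤ vk (1 - ζ) ^ p`: `∏ (b - z) = b ^ p - 1` over the `p`-th roots of unity, so some factor has `vk (b - z) ≤ vk (1 - ζ)`; `b' = b * z⁻¹`, `b' ^ p = b ^ p`, `vk (b' - 1) ≤ vk (1 - ζ)`, `w = (b' - 1) / (1 - ζ)`.
  Stated for `kb` too (`near_one'`).
-/

namespace Pool.Agent.Lib.MP_2f3286_ag.Ep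

open Koe Koe.RootAux

namespace D2Aux

open Polynomial

variable {F : Type*} [Field F] {w : AbsoluteValue F ℝ} {p : ℕ}

theorem prim_of_pow (hp : p.Prime) {z : F} (h1 : z ^ p = 1) (h2 : z ≠ 1) :
    IsPrimitiveRoot z p := by
  have h8 := IsPrimitiveRoot.orderOf z
  have h9 : orderOf z = p := by
    rcases (Nat.dvd_prime hp).mp (orderOf_dvd_of_pow_eq_one h1) with h | h
    · exact absurd (orderOf_eq_one_iff.mp h) h2
    · exact h
  rwa [h9] at h8

theorem w_unity (hp : p.Prime) {z : F} (h : z ^ p = 1) : w z = 1 := by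
  have h2 : w z ^ p = 1 := by rw [← map_pow, h, map_one]
  exact (pow_eq_one_iff_of_nonneg (w.nonneg _) hp.ne_zero).mp h2

theorem prim_eq (h : ∀ a b, w (a + b) ≤ max (w a) (w b)) (hp : p.Prime) {z ζ : F}
    (hζ : IsPrimitiveRoot ζ p) (h1 : z ^ p = 1) (h2 : z ≠ 1) : w (z - 1) = w (1 - ζ) := by
  have h3 := na_prim h hp hζ
  have h4 := na_prim h hp (prim_of_pow hp h1 h2)
  have h5 : w (1 - ζ) = w (ζ - 1) := by rw [← AbsoluteValue.map_neg, neg_sub]
  rw [h5]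
  have h6 : p - 1 ≠ 0 := by have := hp.two_le; omega
  exact (pow_left_inj₀ (w.nonneg _) (w.nonneg _) h6).mp (h4.trans h3.symm)

theorem near (hp : p.Prime) {ζ : F} (hζ : IsPrimitiveRoot ζ p) {t : ℝ} (ht0 : 0 < t) {b : F}
    (hb : w (b ^ p - 1) ≤ t ^ p) : ∃ z : F, z ^ p = 1 ∧ w (b * z - 1) ≤ t := by
  classical
  by_contra hcon
  push Not at hcon
  have h1 := congrArg (Polynomial.eval b) (X_pow_sub_one_eq_prod hp.pos hζ)
  rw [eval_prod] at h1
  simp only [eval_sub, eval_pow, eval_X, eval_one, eval_C] at h1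
  have h2 : ∀ z ∈ nthRootsFinset p (1 : F), t < w (b - z) := by
    intro z hz
    have hz1 : z ^ p = 1 := (mem_nthRootsFinset hp.pos (1 : F)).mp hz
    have hz0 : z ≠ 0 := by
      rintro rfl
      rw [zero_pow hp.ne_zero] at hz1
      exact zero_ne_one hz1
    have h3 := hcon z⁻¹ (by rw [inv_pow, hz1, inv_one])
    have h4 : b * z⁻¹ - 1 = (b - z) * z⁻¹ := by
      rw [sub_mul, mul_inv_cancel₀ hz0]
    rw [h4, map_mul, map_inv₀, w_unity hp hz1, inv_one, mul_one] at h3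
    exact h3
  have h5 : t ^ p < ∏ z ∈ nthRootsFinset p (1 : F), w (b - z) := by
    have h6 : t ^ p = ∏ z ∈ nthRootsFinset p (1 : F), t := by
      rw [Finset.prod_const, hζ.card_nthRootsFinset]
    rw [h6]
    refine Finset.prod_lt_prod_of_nonempty (fun _ _ => ht0) h2 ?_
    refine ⟨1, (mem_nthRootsFinset hp.pos (1 : F)).mpr (one_pow p)⟩
  rw [← map_prod, ← h1] at h5
  exact absurd (h5.trans_le hb) (lt_irrefl _)

theorem near2 (hp : p.Prime) {ζ : F} (hζ : IsPrimitiveRoot ζ p) {b : F}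
    (hb : w (b ^ p - 1) ≤ w (1 - ζ) ^ p) : ∃ x : F, w x ≤ 1 ∧ (1 + (1 - ζ) * x) ^ p = b ^ p := by
  have h0 : 1 - ζ ≠ 0 := sub_ne_zero.mpr (hζ.ne_one hp.one_lt).symm
  have ht0 : 0 < w (1 - ζ) := w.pos h0
  obtain ⟨z, hz, h1⟩ := near hp hζ ht0 hb
  refine ⟨(b * z - 1) / (1 - ζ), ?_, ?_⟩
  · rw [map_div₀]
    exact (div_le_one ht0).mpr h1
  · rw [mul_div_cancel₀ _ h0, add_sub_cancel, mul_pow, hz, mul_one]

end D2Aux

open D2Aux

variable {k kb : Type*} [Field k] [Field kb] [Algebra k kb] [IsGalois k kb] [IsAlgClosed kb]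
  [CharZero kb] {v : AbsoluteValue kb ℝ} {p : ℕ}

theorem v_zeta (hd : LocData v (⊤ : Subgroup Gal(kb/k)) p) {ζ : k} (hζ : IsPrimitiveRoot ζ p) :
    0 < vk k v (1 - ζ) ∧ vk k v (1 - ζ) < 1 ∧ vk k v (p : k) = vk k v (1 - ζ) ^ (p - 1) ∧
      ∀ z : kb, z ^ p = 1 → z ≠ 1 → v (z - 1) = vk k v (1 - ζ) := by
  have hp := hd.prime
  have h0 : (1 : k) - ζ ≠ 0 := sub_ne_zero.mpr (hζ.ne_one hp.one_lt).symm
  have h5 : vk k v (1 - ζ) = vk k v (ζ - 1) := by rw [← AbsoluteValue.map_neg, neg_sub]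
  have h1 : vk k v (p : k) = vk k v (1 - ζ) ^ (p - 1) := by
    rw [h5]
    exact (na_prim (vk_na hd) hp hζ).symm
  have h2 : vk k v (p : k) < 1 := by
    rw [vk_apply, map_natCast (algebraMap k kb)]
    exact hd.small
  refine ⟨(vk k v).pos h0, ?_, h1, ?_⟩
  · by_contra hcon
    push Not at hcon
    rw [h1] at h2
    exact absurd h2 (not_lt.mpr (one_le_pow₀ hcon))
  · intro z hz hz1
    have hζ' : IsPrimitiveRoot (algebraMap k kb ζ) p :=
      hζ.map_of_injective (algebraMap k kb).injective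
    have h3 := prim_eq hd.nonarch hp hζ' hz hz1
    rw [h3, vk_apply, RingHom.map_sub, RingHom.map_one]

theorem p_small (hd : LocData v (⊤ : Subgroup Gal(kb/k)) p) {ζ : k} (hζ : IsPrimitiveRoot ζ p) :
    v (p : kb) ^ 2 ≤ vk k v (1 - ζ) ^ p := by
  obtain ⟨h1, h2, h3, -⟩ := v_zeta hd hζ
  have h4 : v (p : kb) = vk k v (1 - ζ) ^ (p - 1) := by
    rw [← h3, vk_apply, map_natCast (algebraMap k kb)]
  rw [h4, ← pow_mul]
  refine pow_le_pow_of_le_one h1.le h2.le ?_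
  have := hd.prime.two_le
  omega

theorem hens (hd : LocData v (⊤ : Subgroup Gal(kb/k)) p) {ζ : k} (hζ : IsPrimitiveRoot ζ p)
    {a : k} (h : vk k v (a - 1) < vk k v (1 - ζ) ^ p) : ∃ b : k, b ^ p = a := by
  have hp := hd.prime
  obtain ⟨ht0, ht1, -, hz⟩ := v_zeta hd hζ
  set t := vk k v (1 - ζ) with ht
  have hlt : v (algebraMap k kb a - 1) < t ^ p := by
    rw [vk_apply, RingHom.map_sub, RingHom.map_one] at h
    exact h
  obtain ⟨b, hb, hb1⟩ := exists_root_near (w := v) hp.ne_zero ht0.le hlt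
  have hb1' : v (b - 1) < 1 := hb1.trans ht1
  have hvb : v b = 1 := by
    have := na_eq_of_sub_lt hd.nonarch (a := b) (b := 1) (by rwa [map_one])
    rwa [map_one] at this
  have hb0 : b ≠ 0 := fun h => by rw [h, map_zero] at hvb; exact zero_ne_one hvb
  have hfix : b ∈ fixk (⊤ : Subgroup Gal(kb/k)) := by
    rw [mem_fixk]
    intro σ hσ
    have h2 : (σ b / b) ^ p = 1 := by
      rw [div_pow, ← map_pow, hb, AlgEquiv.commutes, div_self]
      rw [← hb]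
      exact pow_ne_zero p hb0
    have h3 : v (σ b / b - 1) < t := by
      have h4 : σ b / b - 1 = (σ b - b) / b := by field_simp
      rw [h4, map_div₀, hvb, div_one]
      have h5 : σ b - b = σ (b - 1) - (b - 1) := by rw [map_sub, map_one]; ring
      rw [h5]
      refine (na_sub hd.nonarch _ _).trans_lt (max_lt ?_ hb1)
      rw [hd.isom σ hσ]
      exact hb1
    by_contra hne
    have h6 : σ b / b ≠ 1 := fun h => hne ((div_eq_one_iff_eq hb0).mp h)
    rw [hz _ h2 h6] at h3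
    exact lt_irrefl _ h3
  obtain ⟨b', hb'⟩ := mem_fixk_top.mp hfix
  refine ⟨b', (algebraMap k kb).injective ?_⟩
  rw [RingHom.map_pow, hb', hb]

omit [IsGalois k kb] [IsAlgClosed kb] [CharZero kb] in
theorem near_one (hd : LocData v (⊤ : Subgroup Gal(kb/k)) p) {ζ : k} (hζ : IsPrimitiveRoot ζ p)
    {b : k} (h : vk k v (b ^ p - 1) ≤ vk k v (1 - ζ) ^ p) :
    ∃ w : k, vk k v w ≤ 1 ∧ (1 + (1 - ζ) * w) ^ p = b ^ p :=
  near2 hd.prime hζ h

omit [IsGalois k kb] [IsAlgClosed kb] [CharZero kb] in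
theorem near_one' (hd : LocData v (⊤ : Subgroup Gal(kb/k)) p) {ζ : k} (hζ : IsPrimitiveRoot ζ p)
    {b : kb} (h : v (b ^ p - 1) ≤ vk k v (1 - ζ) ^ p) :
    ∃ w : kb, v w ≤ 1 ∧ (1 + algebraMap k kb (1 - ζ) * w) ^ p = b ^ p := by
  have hζ' : IsPrimitiveRoot (algebraMap k kb ζ) p :=
    hζ.map_of_injective (algebraMap k kb).injective
  have h1 : algebraMap k kb (1 - ζ) = 1 - algebraMap k kb ζ := by
    rw [RingHom.map_sub, RingHom.map_one]
  rw [vk_apply, h1] at h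
  obtain ⟨x, hx, hx1⟩ := near2 hd.prime hζ' h
  refine ⟨x, hx, ?_⟩
  rw [h1]
  exact hx1

end Pool.Agent.Lib.MP_2f3286_ag.Ep
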