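import Mathlib

/-!
# The map `x ↦ x ^ p - x` of a finite field   (module D4)

`φ` is the trace to the prime field; its kernel contains the range of `x ^ p - x` and both have
codimension one; the trace form is nondegenerate.
-/

namespace Pool.Agent.Lib.MP_2f3286_ag.Ep

theorem ff {p : ℕ} [Fact p.Prime] (κ : Type*) [Field κ] [Finite κ] [CharP κ p] :
    ∃ φ : κ →+ ZMod p, Function.Surjective φ ∧ (∀ x, φ x = 0 ↔ ∃ y : κ, y ^ p - y = x) ∧
      ∀ ψ : κ →+ ZMod p, ∃ γ : κ, ∀ z, ψ z = φ (γ * z) := by
  classical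
  let _ : Algebra (ZMod p) κ := ZMod.algebra κ p
  have _ : Fintype κ := Fintype.ofFinite κ
  have _ : Module.Finite (ZMod p) κ := inferInstance
  have _ : Algebra.IsSeparable (ZMod p) κ := inferInstance
  let T : κ →ₗ[ZMod p] ZMod p := Algebra.trace (ZMod p) κ
  have hT : Function.Surjective T := Algebra.trace_surjective (ZMod p) κ
  let F : κ →ₐ[ZMod p] κ := FiniteField.frobeniusAlgHom (ZMod p) κ
  have hF : ∀ x, F x = x ^ p := by
    intro x
    simp [F, ZMod.card]
  let f : κ →ₗ[ZMod p] κ := F.toLinearMap - LinearMap.id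
  have hf : ∀ x, f x = x ^ p - x := by
    intro x
    simp [f, hF]
  have hTF : ∀ x, T (F x) = T x := by
    intro x
    have hbij : Function.Bijective F :=
      Finite.injective_iff_bijective.mp F.toRingHom.injective
    have := Algebra.trace_eq_of_algEquiv (AlgEquiv.ofBijective F hbij) x
    simpa [T] using this
  have hle : LinearMap.range f ≤ LinearMap.ker T := by
    rintro _ ⟨y, rfl⟩
    rw [LinearMap.mem_ker]
    show T (F y - y) = 0
    rw [map_sub, hTF, sub_self]
  have hkf : LinearMap.ker f = Subalgebra.toSubmodule (⊥ : Subalgebra (ZMod p) κ) := by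
    ext x
    rw [LinearMap.mem_ker, hf, sub_eq_zero, Subalgebra.mem_toSubmodule]
    have h1 := Subfield.mem_bot_iff_pow_eq_self (F := κ) (p := p) (x := x)
    rw [← h1, ← ZMod.fieldRange_castHom_eq_bot p (K := κ)]
    rfl
  have h1 : Module.finrank (ZMod p) (LinearMap.ker f) = 1 := by
    rw [hkf]
    exact Subalgebra.finrank_bot
  have h2 := LinearMap.finrank_range_add_finrank_ker f
  have h3 := LinearMap.finrank_range_add_finrank_ker T
  have h4 : Module.finrank (ZMod p) (LinearMap.range T) = 1 := by
    rw [LinearMap.range_eq_top.mpr hT]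
    simp
  have heq : LinearMap.range f = LinearMap.ker T := by
    apply Submodule.eq_of_le_of_finrank_eq hle
    omega
  refine ⟨T.toAddMonoidHom, hT, ?_, ?_⟩
  · intro x
    constructor
    · intro hx
      have : x ∈ LinearMap.range f := by
        rw [heq]
        exact hx
      obtain ⟨y, hy⟩ := this
      exact ⟨y, by rw [← hf]; exact hy⟩
    · rintro ⟨y, hy⟩
      have : x ∈ LinearMap.range f := ⟨y, by rw [hf]; exact hy⟩
      rw [heq] at this
      exact this
  · intro ψ
    let ψ' : κ →ₗ[ZMod p] ZMod p := ψ.toZModLinearMap p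
    have hnd := traceForm_nondegenerate (ZMod p) κ
    obtain ⟨γ, hγ⟩ := (LinearMap.BilinForm.toDual (Algebra.traceForm (ZMod p) κ) hnd).surjective ψ'
    refine ⟨γ, fun z => ?_⟩
    have h5 : ψ' z = Algebra.traceForm (ZMod p) κ γ z := by
      rw [← hγ]
      rfl
    rw [Algebra.traceForm_apply] at h5
    exact h5

end Pool.Agent.Lib.MP_2f3286_ag.Ep
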