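import Pool.Agent.Lib.MP_2f3286_ag.Ep.D3
import Pool.Agent.Lib.MP_2f3286_ag.Ep.D4
import Pool.Agent.Lib.MP_2f3286_ag.Koe.Eps

/-!
# The last layer   (module D5, 100 minutes)

`λ = 1 - ζ`. PROOF of `exists_phi`. Residue field: `Koe.exists_residue v hd.nonarch (fixk ⊤)` gives `κ`, `red`; `Finite κ` (`Koe.resid_finite`), `(p : κ) = 0` (`Koe.resid_char`), so `CharP κ p`. (`κ` lives in the universe of `kb`.) `ff κ` gives `φ₀`. For `z : k` with `vk z ≤ 1` put
`φ z = φ₀ (red ⟨algebraMap k kb z, _⟩)`, and `0` otherwise. Additivity, `φ z = 0` for `vk z < 1` (`red = 0`), a `z` with `φ z = 1` (`red`, `φ₀` surjective) are clear; duality: an additive `ψ` which vanishes on the maximal ideal factors through `κ`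
(`red a = red b ↔ v (a - b) < 1`), `ff`, lift `γ`.
Criterion. (⇐) `b ^ p = 1 - λ ^ p z`: `near_one`: `w ∈ k`, `vk w ≤ 1`, `(1 + λ w) ^ p = 1 - λ ^ p z`; `artin`: `- z = w ^ p - w + e` (`λ ≠ 0`), `v e < 1`; in `κ`: `z = (-w) ^ p - (-w)` (`p` odd), so `φ z = 0`. (⇒) `φ z = 0`: `red z = y ^ p - y`, lift `y` to `w₀ ∈ k`, `w = - w₀`; `artin`:
`(1 + λ w) ^ p = 1 + λ ^ p (w ^ p - w + e) = 1 - λ ^ p z + λ ^ p δ`, `δ = z + w ^ p - w + e`, `v δ < 1`. `1 + λ w ≠ 0`. `(1 - λ ^ p z) / (1 + λ w) ^ p - 1` has `vk < vk λ ^ p` (`vk (1 + λ w) = 1`), `hens`.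
-/

namespace Pool.Agent.Lib.MP_2f3286_ag.Ep

open Koe

variable {k kb : Type*} [Field k] [Field kb] [Algebra k kb] [IsGalois k kb] [IsAlgClosed kb]
  [CharZero kb] {v : AbsoluteValue kb ℝ} {p : ℕ}

private theorem D5_res.{u, w} {k : Type u} {kb : Type w} [Field k] [Field kb] [Algebra k kb]
    [IsGalois k kb] [IsAlgClosed kb] [CharZero kb] {v : AbsoluteValue kb ℝ} {p : ℕ}
    (hd : LocData v (⊤ : Subgroup Gal(kb/k)) p) :
    ∃ (κ : Type w) (_ : Field κ) (_ : Finite κ) (_ : CharP κ p) (r : k → κ),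
      (∀ a b, vk k v a ≤ 1 → vk k v b ≤ 1 → r (a + b) = r a + r b) ∧
      (∀ a b, vk k v a ≤ 1 → vk k v b ≤ 1 → r (a * b) = r a * r b) ∧
      (∀ a, vk k v a ≤ 1 → (r a = 0 ↔ vk k v a < 1)) ∧
      (∀ c, ∃ a, vk k v a ≤ 1 ∧ r a = c) := by
  classical
  obtain ⟨κ, hκ, red, hsurj, hred⟩ :=
    exists_residue v hd.nonarch (fixk (⊤ : Subgroup Gal(kb/k)))
  have hfin : Finite κ := resid_finite hd finIn_top hsurj hred
  have hp0 : (p : κ) = 0 := resid_char hd hred
  have hchar : CharP κ p := by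
    obtain ⟨q, hq⟩ := CharP.exists κ
    have h1 : q ∣ p := (CharP.cast_eq_zero_iff κ q p).1 hp0
    have h2 : q = p := by
      rcases (Nat.dvd_prime hd.prime).1 h1 with h | h
      · exfalso
        subst h
        exact CharP.char_ne_one κ 1 rfl
      · exact h
    subst h2
    exact hq
  have hmem : ∀ a : k, vk k v a ≤ 1 →
      algebraMap k kb a ∈ ringOf v hd.nonarch (fixk (⊤ : Subgroup Gal(kb/k))) := fun a ha =>
    ⟨mem_fixk_top.2 ⟨a, rfl⟩, ha⟩
  have na := vk_na hd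
  let r : k → κ := fun a => if h : vk k v a ≤ 1 then red ⟨algebraMap k kb a, hmem a h⟩ else 0
  have hr : ∀ a (h : vk k v a ≤ 1), r a = red ⟨algebraMap k kb a, hmem a h⟩ := fun a h =>
    dif_pos h
  refine ⟨κ, hκ, hfin, hchar, r, fun a b ha hb => ?_, fun a b ha hb => ?_, fun a ha => ?_,
    fun c => ?_⟩
  · have hab : vk k v (a + b) ≤ 1 := (na a b).trans (max_le ha hb)
    rw [hr _ hab, hr _ ha, hr _ hb, ← map_add]
    congr 1
    apply Subtype.ext
    exact map_add (algebraMap k kb) a b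
  · have hab : vk k v (a * b) ≤ 1 := by
      rw [map_mul]
      exact mul_le_one₀ ha ((vk k v).nonneg b) hb
    rw [hr _ hab, hr _ ha, hr _ hb, ← map_mul]
    congr 1
    apply Subtype.ext
    exact map_mul (algebraMap k kb) a b
  · rw [hr _ ha, hred]
    rfl
  · obtain ⟨a, rfl⟩ := hsurj c
    obtain ⟨b, hb⟩ := mem_fixk_top.1 a.2.1
    have hb1 : vk k v b ≤ 1 := by
      rw [vk_apply, hb]
      exact a.2.2
    refine ⟨b, hb1, ?_⟩
    rw [hr _ hb1]
    congr 1
    apply Subtype.ext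
    exact hb

theorem exists_phi [Fact p.Prime] (hd : LocData v (⊤ : Subgroup Gal(kb/k)) p) (hp2 : p ≠ 2)
    {ζ : k} (hζ : IsPrimitiveRoot ζ p) :
    ∃ φ : k → ZMod p, (∀ a b, vk k v a ≤ 1 → vk k v b ≤ 1 → φ (a + b) = φ a + φ b) ∧
      (∀ a, vk k v a < 1 → φ a = 0) ∧ (∃ z, vk k v z ≤ 1 ∧ φ z = 1) ∧
      (∀ z, vk k v z ≤ 1 → (φ z = 0 ↔ ∃ b : k, b ^ p = 1 - (1 - ζ) ^ p * z)) ∧
      ∀ ψ : k → ZMod p, (∀ a b, vk k v a ≤ 1 → vk k v b ≤ 1 → ψ (a + b) = ψ a + ψ b) →
        (∀ a, vk k v a < 1 → ψ a = 0) →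
        ∃ γ, vk k v γ ≤ 1 ∧ ∀ z, vk k v z ≤ 1 → ψ z = φ (γ * z) := by
  classical
  obtain ⟨κ, hκ, hfin, hchar, r, radd, rmul, rzero, rsurj⟩ := D5_res hd
  obtain ⟨φ₀, hφs, hφk, hφd⟩ := ff (p := p) κ
  have hp := hd.prime
  have hodd : Odd p := hp.odd_of_ne_two hp2
  have na := vk_na hd
  obtain ⟨hz0, hz1, hzp, -⟩ := v_zeta hd hζ
  have hneg : ∀ a, vk k v (-a) = vk k v a := fun a => (vk k v).map_neg a
  have r0 : r 0 = 0 := (rzero 0 (by rw [map_zero]; exact zero_le_one)).2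
    (by rw [map_zero]; exact zero_lt_one)
  have rneg : ∀ a, vk k v a ≤ 1 → r (-a) = - r a := by
    intro a ha
    have h := radd (-a) a (by rw [hneg]; exact ha) ha
    rw [neg_add_cancel, r0] at h
    exact eq_neg_of_add_eq_zero_left h.symm
  have rsub : ∀ a b, vk k v a ≤ 1 → vk k v b ≤ 1 → r (a - b) = r a - r b := by
    intro a b ha hb
    rw [sub_eq_add_neg, radd a (-b) ha (by rw [hneg]; exact hb), rneg b hb, sub_eq_add_neg]
  have hsub : ∀ a b, vk k v a ≤ 1 → vk k v b ≤ 1 → vk k v (a - b) ≤ 1 := by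
    intro a b ha hb
    rw [sub_eq_add_neg]
    exact (na _ _).trans (max_le ha (by rw [hneg]; exact hb))
  have hadd : ∀ a b, vk k v a ≤ 1 → vk k v b ≤ 1 → vk k v (a + b) ≤ 1 := fun a b ha hb =>
    (na _ _).trans (max_le ha hb)
  have hpow : ∀ a (n : ℕ), vk k v a ≤ 1 → vk k v (a ^ n) ≤ 1 := by
    intro a n ha
    rw [map_pow]
    exact pow_le_one₀ ((vk k v).nonneg a) ha
  have hone : vk k v (1 : k) ≤ 1 := by rw [map_one]
  have r1 : r 1 = 1 := by
    have h1 : r 1 * r 1 = r 1 := by rw [← rmul 1 1 hone hone, mul_one]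
    have h2 : r 1 ≠ 0 := by
      intro h
      have := (rzero 1 hone).1 h
      rw [map_one] at this
      exact lt_irrefl _ this
    exact mul_left_cancel₀ h2 (h1.trans (mul_one _).symm)
  have rpow : ∀ a (n : ℕ), vk k v a ≤ 1 → r (a ^ n) = r a ^ n := by
    intro a n ha
    induction n with
    | zero => rw [pow_zero, pow_zero, r1]
    | succ n ih => rw [pow_succ, rmul _ _ (hpow a n ha) ha, ih, pow_succ]
  -- the expansion in `k`
  have hart : ∀ w : k, vk k v w ≤ 1 → ∃ e : k, vk k v e < 1 ∧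
      (1 + (1 - ζ) * w) ^ p = 1 + (1 - ζ) ^ p * (w ^ p - w + e) := by
    intro w hw
    obtain ⟨e, he, h⟩ := artin hd hp2 hζ (w := algebraMap k kb w) hw
    have hne : (1 - ζ) ^ p ≠ 0 := by
      apply pow_ne_zero
      intro h0
      rw [h0, map_zero] at hz0
      exact lt_irrefl _ hz0
    refine ⟨((1 + (1 - ζ) * w) ^ p - 1) / (1 - ζ) ^ p - (w ^ p - w), ?_, ?_⟩
    · have h2 : algebraMap k kb (((1 + (1 - ζ) * w) ^ p - 1) / (1 - ζ) ^ p - (w ^ p - w)) = e := by
        have hne' : algebraMap k kb (1 - ζ) ^ p ≠ 0 := by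
          rw [← map_pow]
          exact (_root_.map_ne_zero _).2 hne
        have h3 : algebraMap k kb ((1 + (1 - ζ) * w) ^ p) =
            1 + algebraMap k kb (1 - ζ) ^ p *
              (algebraMap k kb w ^ p - algebraMap k kb w + e) := by
          rw [← h, map_pow, map_add, map_mul, map_one]
        have h4 : algebraMap k kb ((1 - ζ) ^ p) = algebraMap k kb (1 - ζ) ^ p := map_pow _ _ _
        have h5 : algebraMap k kb (w ^ p - w) = algebraMap k kb w ^ p - algebraMap k kb w := by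
          rw [map_sub, map_pow]
        have h6 : algebraMap k kb ((1 + (1 - ζ) * w) ^ p - 1) =
            algebraMap k kb (1 - ζ) ^ p *
              (algebraMap k kb w ^ p - algebraMap k kb w + e) := by
          rw [RingHom.map_sub (algebraMap k kb) ((1 + (1 - ζ) * w) ^ p) 1, h3, map_one,
            add_sub_cancel_left]
        rw [RingHom.map_sub (algebraMap k kb) (((1 + (1 - ζ) * w) ^ p - 1) / (1 - ζ) ^ p)
          (w ^ p - w), map_div₀, h6, h4, h5, mul_div_cancel_left₀ _ hne', add_sub_cancel_left]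
      rw [vk_apply, h2]
      exact he
    · field_simp
      ring
  refine ⟨fun z => φ₀ (r z), fun a b ha hb => ?_, fun a ha => ?_, ?_, fun z hz => ?_,
    fun ψ hψa hψ0 => ?_⟩
  · show φ₀ (r (a + b)) = φ₀ (r a) + φ₀ (r b)
    rw [radd a b ha hb, map_add]
  · show φ₀ (r a) = 0
    rw [(rzero a ha.le).2 ha, map_zero]
  · obtain ⟨c, hc⟩ := hφs 1
    obtain ⟨a, ha, rfl⟩ := rsurj c
    exact ⟨a, ha, hc⟩
  · show φ₀ (r z) = 0 ↔ _
    rw [hφk]
    constructor
    · rintro ⟨y, hy⟩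
      obtain ⟨w₀, hw₀, rfl⟩ := rsurj y
      have hw : vk k v (-w₀) ≤ 1 := by rw [hneg]; exact hw₀
      obtain ⟨e, he, h⟩ := hart (-w₀) hw
      set w := -w₀ with hwd
      have hδ : vk k v (z + w ^ p - w) < 1 := by
        rw [← rzero _ (hsub _ _ (hadd _ _ hz (hpow _ _ hw)) hw), rsub _ _ (hadd _ _ hz (hpow _ _ hw)) hw,
          radd _ _ hz (hpow _ _ hw), rpow _ _ hw, rneg _ hw₀, hodd.neg_pow, ← hy]
        ring
      have hδ' : vk k v (z + w ^ p - w + e) < 1 := (na _ _).trans_lt (max_lt hδ he)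
      set B := 1 + (1 - ζ) * w with hB
      have hBw : vk k v ((1 - ζ) * w) < 1 := by
        rw [map_mul]
        calc vk k v (1 - ζ) * vk k v w ≤ vk k v (1 - ζ) * 1 :=
              mul_le_mul_of_nonneg_left hw ((vk k v).nonneg _)
          _ < 1 := by rw [mul_one]; exact hz1
      have hB1 : vk k v B = 1 := by
        apply le_antisymm
        · exact hadd _ _ hone hBw.le
        · by_contra hc
          push Not at hc
          have h1 := na B (-((1 - ζ) * w))
          rw [hneg] at h1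
          have h2 : B + -((1 - ζ) * w) = 1 := by rw [hB]; ring
          rw [h2, map_one] at h1
          exact absurd h1 (not_le.2 (max_lt hc hBw))
      have hB0 : B ≠ 0 := by
        intro h0
        rw [h0, map_zero] at hB1
        exact zero_ne_one hB1
      have hBp : B ^ p ≠ 0 := pow_ne_zero _ hB0
      obtain ⟨b, hb⟩ : ∃ b : k, b ^ p = (1 - (1 - ζ) ^ p * z) / B ^ p := by
        apply hens hd hζ
        have h1 : (1 - (1 - ζ) ^ p * z) / B ^ p - 1 =
            -((1 - ζ) ^ p * (z + w ^ p - w + e)) / B ^ p := by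
          rw [div_sub_one hBp, h]
          congr 1
          ring
        rw [h1, map_div₀, hneg, map_mul, map_pow, map_pow, hB1, one_pow, div_one]
        calc vk k v (1 - ζ) ^ p * vk k v (z + w ^ p - w + e) < vk k v (1 - ζ) ^ p * 1 :=
              mul_lt_mul_of_pos_left hδ' (pow_pos hz0 _)
          _ = vk k v (1 - ζ) ^ p := mul_one _
      refine ⟨b * B, ?_⟩
      rw [mul_pow, hb]
      field_simp
    · rintro ⟨b, hb⟩
      have h1 : vk k v (b ^ p - 1) ≤ vk k v (1 - ζ) ^ p := by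
        have h2 : b ^ p - 1 = -((1 - ζ) ^ p * z) := by rw [hb]; ring
        rw [h2, hneg, map_mul, map_pow]
        calc vk k v (1 - ζ) ^ p * vk k v z ≤ vk k v (1 - ζ) ^ p * 1 :=
              mul_le_mul_of_nonneg_left hz (pow_nonneg hz0.le _)
          _ = vk k v (1 - ζ) ^ p := mul_one _
      obtain ⟨w, hw, hwb⟩ := near_one hd hζ h1
      obtain ⟨e, he, h⟩ := hart w hw
      have hne : (1 - ζ) ^ p ≠ 0 := by
        apply pow_ne_zero
        intro h0
        rw [h0, map_zero] at hz0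
        exact lt_irrefl _ hz0
      have h3 : e = -z - w ^ p + w := by
        have h4 : (1 - ζ) ^ p * (w ^ p - w + e) = (1 - ζ) ^ p * (-z) := by
          have h5 : 1 + (1 - ζ) ^ p * (w ^ p - w + e) = 1 - (1 - ζ) ^ p * z := by
            rw [← h, hwb, hb]
          linear_combination h5
        have h6 := mul_left_cancel₀ hne h4
        linear_combination h6
      have hzw : vk k v (-z - w ^ p) ≤ 1 := hsub _ _ (by rw [hneg]; exact hz) (hpow _ _ hw)
      have h7 : r e = 0 := (rzero e he.le).2 he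
      rw [h3, radd _ _ hzw hw, rsub _ _ (by rw [hneg]; exact hz) (hpow _ _ hw), rneg _ hz,
        rpow _ _ hw] at h7
      refine ⟨- r w, ?_⟩
      rw [hodd.neg_pow]
      linear_combination h7
  · have hψ : ∀ a b, vk k v a ≤ 1 → vk k v b ≤ 1 → r a = r b → ψ a = ψ b := by
      intro a b ha hb hab
      have h1 : vk k v (a - b) < 1 := by
        rw [← rzero _ (hsub _ _ ha hb), rsub _ _ ha hb, hab, sub_self]
      have h2 := hψa b (a - b) hb h1.le
      rw [add_sub_cancel, hψ0 _ h1, add_zero] at h2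
      exact h2
    choose l hl hrl using rsurj
    let ψ' : κ →+ ZMod p := AddMonoidHom.mk' (fun c => ψ (l c)) (by
      intro c d
      show ψ (l (c + d)) = ψ (l c) + ψ (l d)
      rw [← hψa _ _ (hl c) (hl d)]
      apply hψ _ _ (hl _) (hadd _ _ (hl c) (hl d))
      rw [hrl, radd _ _ (hl c) (hl d), hrl, hrl])
    obtain ⟨γ, hγ⟩ := hφd ψ'
    refine ⟨l γ, hl γ, fun z hz => ?_⟩
    have h1 := hγ (r z)
    have h2 : ψ' (r z) = ψ z := hψ _ _ (hl _) hz (hrl _)
    rw [← h2, h1]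
    show φ₀ (γ * r z) = φ₀ (r (l γ * z))
    rw [rmul _ _ (hl γ) hz, hrl]

end Pool.Agent.Lib.MP_2f3286_ag.Ep
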