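import Pool.Agent.Lib.MP_2f3286_ag.Ep.D5

/-!
# The structure `Base` of a local field   (module D6)

The classes of `1 - λ ^ p z` (`λ = 1 - ζ`, `v z ≤ 1`) depend additively on `z` and are the multiples of
one class.
-/

namespace Pool.Agent.Lib.MP_2f3286_ag.Ep

open Koe

variable {k kb : Type*} [Field k] [Field kb] [Algebra k kb] [IsGalois k kb] [IsAlgClosed kb]
  [CharZero kb] {v : AbsoluteValue kb ℝ} {p : ℕ}

theorem d6_unit (hd : LocData v (⊤ : Subgroup Gal(kb/k)) p) {x : k} (hx : vk k v x < 1) :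
    vk k v (1 - x) = 1 := by
  apply le_antisymm
  · have h := vk_na hd 1 (-x)
    rw [← sub_eq_add_neg, (vk k v).map_neg, (vk k v).map_one] at h
    exact h.trans (max_le le_rfl hx.le)
  · by_contra hc
    push Not at hc
    have h := vk_na hd (1 - x) x
    rw [sub_add_cancel, (vk k v).map_one] at h
    exact absurd h (not_le.mpr (max_lt hc hx))

theorem d6_cl_pow (hp : p ≠ 0) {b c : k} (hb : b ≠ 0) (hc : c ≠ 0) :
    clF p k (b * c ^ p) = clF p k b := by
  rw [clF_mul p hb (pow_ne_zero p hc), (clF_eq_zero p hp (pow_ne_zero p hc)).mpr ⟨c, rfl⟩, add_zero]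

theorem d6_cl_near (hd : LocData v (⊤ : Subgroup Gal(kb/k)) p) {ζ : k}
    (hζ : IsPrimitiveRoot ζ p) {a b : k} (hb : vk k v b = 1)
    (h : vk k v (a - b) < vk k v (1 - ζ) ^ p) : clF p k a = clF p k b := by
  have hb0 : b ≠ 0 := by
    rintro rfl
    rw [(vk k v).map_zero] at hb
    exact zero_ne_one hb
  obtain ⟨c, hc⟩ : ∃ c : k, c ^ p = a / b := by
    apply hens hd hζ
    have h1 : a / b - 1 = (a - b) / b := by field_simp
    rw [h1, map_div₀, hb, div_one]
    exact h
  have hz := v_zeta hd hζ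
  have hlt : vk k v (1 - ζ) ^ p ≤ 1 := pow_le_one₀ hz.1.le hz.2.1.le
  have ha0 : a ≠ 0 := by
    rintro rfl
    rw [zero_sub, (vk k v).map_neg, hb] at h
    exact absurd h (not_lt.mpr hlt)
  have hc0 : c ≠ 0 := by
    rintro rfl
    rw [zero_pow hd.prime.ne_zero] at hc
    exact (div_ne_zero ha0 hb0) hc.symm
  have h2 : a = b * c ^ p := by rw [hc]; field_simp
  rw [h2, d6_cl_pow hd.prime.ne_zero hb0 hc0]

/-- the classes of the last layer -/
theorem d6_layer [Fact p.Prime] (hd : LocData v (⊤ : Subgroup Gal(kb/k)) p)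
    {ζ : k} (hζ : IsPrimitiveRoot ζ p) {φ : k → ZMod p}
    (hadd : ∀ a b, vk k v a ≤ 1 → vk k v b ≤ 1 → φ (a + b) = φ a + φ b)
    (hker : ∀ z, vk k v z ≤ 1 → (φ z = 0 → ∃ b : k, b ^ p = 1 - (1 - ζ) ^ p * z))
    {z₁ : k} (hz₁ : vk k v z₁ ≤ 1) (hφ₁ : φ z₁ = 1) {z : k} (hz : vk k v z ≤ 1) :
    clF p k (1 - (1 - ζ) ^ p * z) = φ z • clF p k (1 - (1 - ζ) ^ p * z₁) := by
  have hp0 : p ≠ 0 := hd.prime.ne_zero
  obtain ⟨hl0, hl1, -, -⟩ := v_zeta hd hζ
  have hlp0 : 0 < vk k v (1 - ζ) ^ p := pow_pos hl0 p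
  have hlp1 : vk k v (1 - ζ) ^ p < 1 := pow_lt_one₀ hl0.le hl1 hp0
  have hsm : ∀ a, vk k v a ≤ 1 → vk k v ((1 - ζ) ^ p * a) ≤ vk k v (1 - ζ) ^ p := by
    intro a ha
    rw [(vk k v).map_mul, (vk k v).map_pow]
    exact mul_le_of_le_one_right hlp0.le ha
  have hun : ∀ a, vk k v a ≤ 1 → vk k v (1 - (1 - ζ) ^ p * a) = 1 := fun a ha =>
    d6_unit hd ((hsm a ha).trans_lt hlp1)
  have hne : ∀ a, vk k v a ≤ 1 → 1 - (1 - ζ) ^ p * a ≠ 0 := by
    intro a ha h0
    have := hun a ha
    rw [h0, (vk k v).map_zero] at this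
    exact zero_ne_one this
  have hLadd : ∀ a b, vk k v a ≤ 1 → vk k v b ≤ 1 →
      clF p k (1 - (1 - ζ) ^ p * (a + b)) =
        clF p k (1 - (1 - ζ) ^ p * a) + clF p k (1 - (1 - ζ) ^ p * b) := by
    intro a b ha hb
    rw [← clF_mul p (hne a ha) (hne b hb)]
    apply d6_cl_near hd hζ
    · rw [(vk k v).map_mul, hun a ha, hun b hb, one_mul]
    · have h1 : (1 - (1 - ζ) ^ p * (a + b)) - (1 - (1 - ζ) ^ p * a) * (1 - (1 - ζ) ^ p * b) =
          -(((1 - ζ) ^ p * a) * ((1 - ζ) ^ p * b)) := by ring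
      rw [h1, (vk k v).map_neg, (vk k v).map_mul]
      calc vk k v ((1 - ζ) ^ p * a) * vk k v ((1 - ζ) ^ p * b)
          ≤ vk k v (1 - ζ) ^ p * vk k v (1 - ζ) ^ p :=
            mul_le_mul (hsm a ha) (hsm b hb) ((vk k v).nonneg _) hlp0.le
        _ < vk k v (1 - ζ) ^ p * 1 := mul_lt_mul_of_pos_left hlp1 hlp0
        _ = _ := mul_one _
  have hle : ∀ m : ℕ, vk k v ((m : k) * z₁) ≤ 1 := by
    intro m
    induction m with
    | zero => rw [Nat.cast_zero, zero_mul, (vk k v).map_zero]; exact zero_le_one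
    | succ m ih =>
      rw [Nat.cast_succ, add_mul, one_mul]
      exact (vk_na hd _ _).trans (max_le ih hz₁)
  have hφ0 : φ 0 = 0 := by
    have h := hadd 0 0 (by rw [(vk k v).map_zero]; exact zero_le_one)
      (by rw [(vk k v).map_zero]; exact zero_le_one)
    rw [add_zero] at h
    exact left_eq_add.mp h
  have hm : ∀ m : ℕ, φ ((m : k) * z₁) = m ∧
      clF p k (1 - (1 - ζ) ^ p * ((m : k) * z₁)) =
        (m : ZMod p) • clF p k (1 - (1 - ζ) ^ p * z₁) := by
    intro m
    induction m with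
    | zero =>
      refine ⟨by rw [Nat.cast_zero, zero_mul, hφ0, Nat.cast_zero], ?_⟩
      rw [Nat.cast_zero, zero_mul, mul_zero, sub_zero, Nat.cast_zero, zero_smul]
      exact (clF_eq_zero p hp0 one_ne_zero).mpr ⟨1, one_pow p⟩
    | succ m ih =>
      constructor
      · rw [Nat.cast_succ, add_mul, one_mul, hadd _ _ (hle m) hz₁, ih.1, hφ₁, Nat.cast_succ]
      · rw [Nat.cast_succ, add_mul, one_mul, hLadd _ _ (hle m) hz₁, ih.2, Nat.cast_succ, add_smul,
          one_smul]
  have hval : ((φ z).val : ZMod p) = φ z := ZMod.natCast_zmod_val (φ z)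
  have hd1 : vk k v (z - ((φ z).val : k) * z₁) ≤ 1 := by
    have h := vk_na hd z (-(((φ z).val : k) * z₁))
    rw [← sub_eq_add_neg, (vk k v).map_neg] at h
    exact h.trans (max_le hz (hle _))
  have hsplit : z = (z - ((φ z).val : k) * z₁) + ((φ z).val : k) * z₁ := by ring
  have hz0 : φ (z - ((φ z).val : k) * z₁) = 0 := by
    have h := hadd _ _ hd1 (hle (φ z).val)
    rw [← hsplit, (hm (φ z).val).1, hval] at h
    exact right_eq_add.mp h
  have hL0 : clF p k (1 - (1 - ζ) ^ p * (z - ((φ z).val : k) * z₁)) = 0 :=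
    (clF_eq_zero p hp0 (hne _ hd1)).mpr (hker _ hd1 hz0)
  have hfin := hLadd _ _ hd1 (hle (φ z).val)
  rw [← hsplit, hL0, zero_add, (hm (φ z).val).2, hval] at hfin
  exact hfin

theorem exists_base [Fact p.Prime] (hd : LocData v (⊤ : Subgroup Gal(kb/k)) p) (hp2 : p ≠ 2)
    {ζ : k} (hζ : IsPrimitiveRoot ζ p) :
    ∃ X : Base p k (Hp p k), X.v = vk k v ∧ X.cl = clF p k ∧
      X.v X.π ^ X.N = vk k v (1 - ζ) ^ p ∧
      ∃ a₀ : k, a₀ ≠ 0 ∧ X.ε = clF p k a₀ ∧ (¬ ∃ b : k, b ^ p = a₀) ∧
        vk k v (a₀ - 1) ≤ vk k v (1 - ζ) ^ p := by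
  have hp0 : p ≠ 0 := hd.prime.ne_zero
  obtain ⟨hl0, hl1, -, -⟩ := v_zeta hd hζ
  have hlp0 : 0 < vk k v (1 - ζ) ^ p := pow_pos hl0 p
  have hlp1 : vk k v (1 - ζ) ^ p < 1 := pow_lt_one₀ hl0.le hl1 hp0
  have hlne : (1 - ζ : k) ≠ 0 := (vk k v).pos_iff.mp hl0
  obtain ⟨π, hπ0, hπ1, hπ⟩ := exists_unif hd
  have hπne : π ≠ 0 := (vk k v).pos_iff.mp hπ0
  obtain ⟨n, hn⟩ := hπ (1 - ζ) hlne
  have hn0 : 0 < n := by
    by_contra hc
    push Not at hc
    have h1 : 1 ≤ vk k v π ^ n := one_le_zpow_of_nonpos₀ hπ0 hπ1.le hc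
    rw [← hn] at h1
    exact absurd h1 (not_le.mpr hl1)
  obtain ⟨e, rfl⟩ : ∃ e : ℕ, n = e := ⟨n.toNat, (Int.toNat_of_nonneg hn0.le).symm⟩
  have he : 0 < e := by exact_mod_cast hn0
  rw [zpow_natCast] at hn
  have hN : vk k v π ^ (e * p) = vk k v (1 - ζ) ^ p := by rw [pow_mul, hn]
  obtain ⟨φ, hadd, hsmall, ⟨z₁, hz₁, hφ₁⟩, hker, hdual⟩ := exists_phi hd hp2 hζ
  have hlayer := fun (z : k) (hz : vk k v z ≤ 1) =>
    d6_layer hd hζ hadd (fun z hz => (hker z hz).mp) hz₁ hφ₁ hz
  set η : k := π ^ (e * p) / (1 - ζ) ^ p with hηdef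
  have hη1 : vk k v η = 1 := by
    rw [hηdef, map_div₀, (vk k v).map_pow, (vk k v).map_pow, hN, div_self hlp0.ne']
  have hηne : η ≠ 0 := by
    intro h0
    rw [h0, (vk k v).map_zero] at hη1
    exact zero_ne_one hη1
  have hηm : ∀ z, π ^ (e * p) * z = (1 - ζ) ^ p * (η * z) := by
    intro z
    rw [hηdef]
    field_simp
  have hηv : ∀ z, vk k v (η * z) = vk k v z := by
    intro z
    rw [(vk k v).map_mul, hη1, one_mul]
  have hsm : vk k v ((1 - ζ) ^ p * z₁) ≤ vk k v (1 - ζ) ^ p := by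
    rw [(vk k v).map_mul, (vk k v).map_pow]
    exact mul_le_of_le_one_right hlp0.le hz₁
  have hun : vk k v (1 - (1 - ζ) ^ p * z₁) = 1 := d6_unit hd (hsm.trans_lt hlp1)
  refine ⟨{ v := vk k v
            na := vk_na hd
            π := π
            π_pos := hπ0
            π_lt := hπ1
            disc := hπ
            cl := clF p k
            cl_mul := fun a b ha hb => clF_mul p ha hb
            cl_neg := fun a => clF_neg (hd.prime.odd_of_ne_two hp2) a
            cl_surj := fun h => clF_surj p h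
            fin := fin_hp hd
            N := e * p
            N_two := by
              have h2 := hd.prime.two_le
              nlinarith
            small := by
              intro x hx
              rw [hN] at hx
              have h1 : vk k v (1 - x - 1) < vk k v (1 - ζ) ^ p := by
                have h2 : (1 - x - 1 : k) = -x := by ring
                rw [h2, (vk k v).map_neg]
                exact hx
              have h3 : (1 - x : k) ≠ 0 := by
                intro h0
                have h4 := d6_unit hd (hx.trans hlp1)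
                rw [h0, (vk k v).map_zero] at h4
                exact zero_ne_one h4
              exact (clF_eq_zero p hp0 h3).mpr (hens hd hζ h1)
            perf := fun u hu => perfk hd hu
            step := by
              rintro x hx1 hx2 ⟨c, hc⟩
              rw [hN] at hx2
              obtain ⟨x', b, hb, hx', he⟩ := stepk hd hp2 hζ hx1 hx2 hc
              refine ⟨x', hx', ?_⟩
              have h3 : (1 - x' : k) ≠ 0 := by
                intro h0
                have h4 := d6_unit hd (hx'.trans hx1)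
                rw [h0, (vk k v).map_zero] at h4
                exact zero_ne_one h4
              rw [he, d6_cl_pow hp0 h3 hb]
            ε := clF p k (1 - (1 - ζ) ^ p * z₁)
            φ := fun z => φ (η * z)
            φ_add := by
              intro a b ha hb
              simp only [mul_add]
              exact hadd _ _ (by rw [hηv]; exact ha) (by rw [hηv]; exact hb)
            φ_small := fun a ha => hsmall _ (by rw [hηv]; exact ha)
            φ_one := by
              refine ⟨z₁ / η, ?_, ?_⟩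
              · rw [map_div₀, hη1, div_one]
                exact hz₁
              · rw [mul_div_cancel₀ z₁ hηne]
                exact hφ₁
            top := by
              intro z hz
              rw [hηm z]
              exact hlayer _ (by rw [hηv]; exact hz)
            dual := by
              intro ψ hψ hψ0
              obtain ⟨γ, hγ, hγ'⟩ := hdual ψ hψ hψ0
              refine ⟨γ / η, ?_, ?_⟩
              · rw [map_div₀, hη1, div_one]
                exact hγ
              · intro z hz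
                rw [hγ' z hz]
                have h1 : η * (γ / η * z) = γ * z := by field_simp
                rw [h1] }, rfl, rfl, hN, 1 - (1 - ζ) ^ p * z₁, ?_, rfl, ?_, ?_⟩
  · intro h0
    rw [h0, (vk k v).map_zero] at hun
    exact zero_ne_one hun
  · intro hb
    have := (hker z₁ hz₁).mpr hb
    rw [hφ₁] at this
    exact one_ne_zero this
  · have h1 : (1 - (1 - ζ) ^ p * z₁ - 1 : k) = -((1 - ζ) ^ p * z₁) := by ring
    rw [h1, (vk k v).map_neg]
    exact hsm

end Pool.Agent.Lib.MP_2f3286_ag.Ep
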