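import Mathlib

/-!
# Local fields with the group of classes modulo `p`-th powers: the data

`Base`: a field `F` with a discrete absolute value `v` and the group `H` of classes of its nonzero
elements modulo `p`-th powers; `p` is the residue characteristic and the `p`-th roots of unity lie in
`F`. `Pre`: moreover a bilinear alternating form `B` with the Steinberg relation, values in some group.
`Dat`: the form is nondegenerate with values in `ZMod p`.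
-/

namespace Pool.Agent.Lib.MP_2f3286_ag.Ep

/-- a discretely valued field with its classes modulo `p`-th powers -/
structure Base (p : ℕ) (F H : Type*) [Field F] [AddCommGroup H] [Module (ZMod p) H] where
  v : AbsoluteValue F ℝ
  na : ∀ a b, v (a + b) ≤ max (v a) (v b)
  π : F
  π_pos : 0 < v π
  π_lt : v π < 1
  disc : ∀ a : F, a ≠ 0 → ∃ n : ℤ, v a = v π ^ n
  cl : F → H
  cl_mul : ∀ a b, a ≠ 0 → b ≠ 0 → cl (a * b) = cl a + cl b
  cl_neg : ∀ a, cl (-a) = cl a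
  cl_surj : ∀ h : H, ∃ a, a ≠ 0 ∧ cl a = h
  fin : Finite H
  N : ℕ
  N_two : 2 ≤ N
  small : ∀ x, v x < v π ^ N → cl (1 - x) = 0
  perf : ∀ u, v u = 1 → ∃ θ, v θ = 1 ∧ v (u - θ ^ p) < 1
  step : ∀ x, v x < 1 → v π ^ N < v x → (∃ c : F, v x = v c ^ p) →
    ∃ x', v x' < v x ∧ cl (1 - x) = cl (1 - x')
  ε : H
  φ : F → ZMod p
  φ_add : ∀ a b, v a ≤ 1 → v b ≤ 1 → φ (a + b) = φ a + φ b
  φ_small : ∀ a, v a < 1 → φ a = 0
  φ_one : ∃ z, v z ≤ 1 ∧ φ z = 1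
  top : ∀ z, v z ≤ 1 → cl (1 - π ^ N * z) = φ z • ε
  dual : ∀ ψ : F → ZMod p, (∀ a b, v a ≤ 1 → v b ≤ 1 → ψ (a + b) = ψ a + ψ b) →
    (∀ a, v a < 1 → ψ a = 0) → ∃ γ, v γ ≤ 1 ∧ ∀ z, v z ≤ 1 → ψ z = φ (γ * z)

/-- with a form with values in a group `Z` -/
structure Pre (p : ℕ) (F H Z : Type*) [Field F] [AddCommGroup H] [Module (ZMod p) H]
    [AddCommGroup Z] extends Base p F H where
  B : H →+ H →+ Z
  alt : ∀ h, B h h = 0
  st : ∀ x, x ≠ 0 → x ≠ 1 → B (cl x) (cl (1 - x)) = 0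
  ram : ∀ b, b ≠ 0 → B ε (cl b) = 0 → ∃ c : F, v b = v c ^ p

/-- with a nondegenerate form -/
structure Dat (p : ℕ) (F H : Type*) [Field F] [AddCommGroup H] [Module (ZMod p) H]
    extends Base p F H where
  ω : H →ₗ[ZMod p] H →ₗ[ZMod p] ZMod p
  alt : ∀ h, ω h h = 0
  nondeg : ∀ h, (∀ h', ω h h' = 0) → h = 0
  st : ∀ x, x ≠ 0 → x ≠ 1 → ω (cl x) (cl (1 - x)) = 0
  ωε : ∀ a, a ≠ 0 → ∀ n : ℤ, v a = v π ^ n → ω ε (cl a) = n

/-- the Steinberg relation for a function `χ` (`χ a` is the class of `y - a`) -/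
def IsSt {p : ℕ} {F H : Type*} [Field F] [AddCommGroup H] [Module (ZMod p) H] (X : Dat p F H)
    (χ : F → H) : Prop :=
  ∀ a b, a ≠ b → X.ω (χ a - X.cl (a - b)) (χ b - X.cl (a - b)) = 0

/-- the space spanned by the differences near `0` -/
def Wr {p : ℕ} {F H : Type*} [Field F] [AddCommGroup H] [Module (ZMod p) H] (X : Dat p F H)
    (χ : F → H) (ρ : ℝ) : Submodule (ZMod p) H :=
  Submodule.span (ZMod p) {h | ∃ a b, X.v a < ρ ∧ X.v b < ρ ∧ h = χ a - χ b}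

open scoped Classical in
/-- the function for `1 / y` -/
noncomputable def invF {p : ℕ} {F H : Type*} [Field F] [AddCommGroup H] [Module (ZMod p) H]
    (X : Dat p F H) (χ : F → H) (u : F) : H :=
  if u = 0 then -χ 0 else χ u⁻¹ + X.cl u - χ 0

/-- an extension `L` of `F` with the same classes, and the completion `Fh` of `F` -/
structure Pl {p : ℕ} {F H : Type*} [Field F] [AddCommGroup H] [Module (ZMod p) H] (X : Dat p F H)
    (L Fh : Type*) [Field L] [Algebra F L] [Field Fh] where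
  κ : L → H
  κ_mul : ∀ x y, x ≠ 0 → y ≠ 0 → κ (x * y) = κ x + κ y
  κ_alg : ∀ a, a ≠ 0 → κ (algebraMap F L a) = X.cl a
  κ_st : ∀ x, x ≠ 0 → x ≠ 1 → X.ω (κ x) (κ (1 - x)) = 0
  w : AbsoluteValue Fh ℝ
  wna : ∀ a b, w (a + b) ≤ max (w a) (w b)
  j : F →+* Fh
  wj : ∀ a, w (j a) = X.v a
  dense : ∀ z, ∀ ρ : ℝ, 0 < ρ → ∃ a, w (j a - z) < ρ
  lim : ∀ a : ℕ → F, (∀ n, X.v (a (n + 1) - a n) ≤ X.v X.π ^ n) →
    ∃ z, ∀ n, w (j (a n) - z) ≤ X.v X.π ^ n
  ch : Fh → H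
  ch_mul : ∀ x y, x ≠ 0 → y ≠ 0 → ch (x * y) = ch x + ch y
  ch_j : ∀ a, a ≠ 0 → ch (j a) = X.cl a
  ch_small : ∀ x, w x < X.v X.π ^ X.N → ch (1 - x) = 0

section

variable {p : ℕ} {F H L Fh : Type*} [Field F] [AddCommGroup H] [Module (ZMod p) H]
  {X : Dat p F H} [Field L] [Algebra F L] [Field Fh]

/-- the element `y` of `L` has the value `z` in the completion of `F` -/
def Pl.IsVal (Y : Pl X L Fh) (y : L) (z : Fh) : Prop :=
  ∀ c : F, Y.j c ≠ z → y ≠ algebraMap F L c ∧ Y.κ (y - algebraMap F L c) = Y.ch (z - Y.j c)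

/-- the element `y` of `L` has the value `∞` -/
def Pl.Infin (Y : Pl X L Fh) (y : L) : Prop :=
  ∀ c : F, y ≠ algebraMap F L c ∧ Y.κ (y - algebraMap F L c) = Y.κ y

end

end Pool.Agent.Lib.MP_2f3286_ag.Ep
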