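import Pool.Agent.Lib.MP_2f3286_ag.Ep.LDefs
import Pool.Agent.Lib.MP_2f3286_ag.Ep.D1

/-!
# The characters

For `a ≠ 0` in `k` and a root `r` of `r ^ p = a` in `kb` one has `σ r = ζ ^ i r`, `χ_a σ = i`. It is
additive in `a`, zero if `a` is a `p`-th power, and so gives a homomorphism on `Hp p k`.
-/

namespace Pool.Agent.Lib.MP_2f3286_ag.Ep

open Koe

variable {k kb : Type*} [Field k] [Field kb] [Algebra k kb] [IsGalois k kb] [IsAlgClosed kb]
  [CharZero kb] {p : ℕ}

section aux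

omit [IsGalois k kb] [IsAlgClosed kb] [CharZero kb]

/-- the image of `ζ` -/
private theorem prim_kb {ζ : k} (hζ : IsPrimitiveRoot ζ p) :
    IsPrimitiveRoot (algebraMap k kb ζ) p :=
  hζ.map_of_injective (algebraMap k kb).injective

private theorem pow_val_nat {M : Type*} [Monoid M] {z : M} (hz : z ^ p = 1) (n : ℕ) :
    z ^ ((n : ZMod p)).val = z ^ n := by
  rw [ZMod.val_natCast, ← pow_eq_pow_mod n hz]

private theorem pow_val_add [NeZero p] {M : Type*} [Monoid M] {z : M} (hz : z ^ p = 1)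
    (x y : ZMod p) : z ^ (x + y).val = z ^ x.val * z ^ y.val := by
  have h1 : x + y = ((x.val + y.val : ℕ) : ZMod p) := by
    rw [Nat.cast_add, ZMod.natCast_zmod_val, ZMod.natCast_zmod_val]
  rw [h1, pow_val_nat hz, pow_add]

private theorem pow_val_inj [NeZero p] {z : kb} (hz : IsPrimitiveRoot z p) {x y : ZMod p}
    (h : z ^ x.val = z ^ y.val) : x = y :=
  ZMod.val_injective p (hz.pow_inj (ZMod.val_lt x) (ZMod.val_lt y) h)

private theorem exists_val [NeZero p] {ζ : k} (hζ : IsPrimitiveRoot ζ p) (a : k) (ha : a ≠ 0)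
    (σ : Gal(kb/k)) : ∃ x : ZMod p, ∀ r : kb, r ^ p = algebraMap k kb a →
      σ r = algebraMap k kb ζ ^ x.val * r := by
  by_cases hr : ∃ r : kb, r ^ p = algebraMap k kb a
  · obtain ⟨r, hr⟩ := hr
    have hp : p ≠ 0 := NeZero.ne p
    have ha' : algebraMap k kb a ≠ 0 := by
      rw [_root_.map_ne_zero]; exact ha
    have root_ne : ∀ s : kb, s ^ p = algebraMap k kb a → s ≠ 0 := by
      intro s hs h0
      rw [h0, zero_pow hp] at hs
      exact ha' hs.symm
    have hr0 := root_ne r hr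
    have h1 : (σ r / r) ^ p = 1 := by
      rw [div_pow, ← map_pow, hr, AlgEquiv.commutes, div_self ha']
    obtain ⟨i, -, hi⟩ := (prim_kb (kb := kb) hζ).eq_pow_of_pow_eq_one h1
    have hz : algebraMap k kb ζ ^ p = 1 := (prim_kb (kb := kb) hζ).pow_eq_one
    refine ⟨(i : ZMod p), fun s hs => ?_⟩
    rw [pow_val_nat hz]
    have h2 : (s / r) ^ p = 1 := by
      rw [div_pow, hr, hs, div_self ha']
    obtain ⟨j, -, hj⟩ := (prim_kb (kb := kb) hζ).eq_pow_of_pow_eq_one h2
    have h3 : s = algebraMap k kb ζ ^ j * r := by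
      rw [hj, div_mul_cancel₀ _ hr0]
    have h4 : σ r = algebraMap k kb ζ ^ i * r := by
      rw [hi, div_mul_cancel₀ _ hr0]
    have h5 : σ (algebraMap k kb ζ ^ j) = algebraMap k kb ζ ^ j := by
      rw [map_pow, AlgEquiv.commutes]
    calc σ s = σ (algebraMap k kb ζ ^ j * r) := by rw [← h3]
      _ = algebraMap k kb ζ ^ j * (algebraMap k kb ζ ^ i * r) := by rw [map_mul, h5, h4]
      _ = algebraMap k kb ζ ^ i * (algebraMap k kb ζ ^ j * r) := by ring
      _ = algebraMap k kb ζ ^ i * s := by rw [← h3]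
  · exact ⟨0, fun r h => absurd ⟨r, h⟩ hr⟩

/-- the value of the character of `a` at `σ` -/
private noncomputable def chi0 [NeZero p] {ζ : k} (hζ : IsPrimitiveRoot ζ p) (a : kˣ)
    (σ : Gal(kb/k)) : ZMod p :=
  Classical.choose (exists_val hζ (a : k) a.ne_zero σ)

private theorem chi0_spec [NeZero p] {ζ : k} (hζ : IsPrimitiveRoot ζ p) (a : kˣ)
    (σ : Gal(kb/k)) (r : kb) (hr : r ^ p = algebraMap k kb a) :
    σ r = algebraMap k kb ζ ^ (chi0 hζ a σ).val * r :=
  Classical.choose_spec (exists_val hζ (a : k) a.ne_zero σ) r hr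

private theorem root_ne_zero [NeZero p] {a : k} (ha : a ≠ 0) {r : kb}
    (hr : r ^ p = algebraMap k kb a) : r ≠ 0 := by
  intro h0
  rw [h0, zero_pow (NeZero.ne p)] at hr
  exact ha ((_root_.map_eq_zero (algebraMap k kb)).1 hr.symm)

/-- the value of the character is determined by one root -/
private theorem chi0_eq [NeZero p] {ζ : k} (hζ : IsPrimitiveRoot ζ p) (a : kˣ)
    (σ : Gal(kb/k)) (r : kb) (hr : r ^ p = algebraMap k kb a) (x : ZMod p)
    (hx : σ r = algebraMap k kb ζ ^ x.val * r) : chi0 hζ a σ = x := by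
  have h1 := chi0_spec hζ a σ r hr
  rw [hx] at h1
  exact pow_val_inj (prim_kb (kb := kb) hζ)
    (mul_right_cancel₀ (root_ne_zero a.ne_zero hr) h1).symm

end aux

private theorem exists_root [NeZero p] (a : k) : ∃ r : kb, r ^ p = algebraMap k kb a :=
  IsAlgClosed.exists_pow_nat_eq _ (Nat.pos_of_ne_zero (NeZero.ne p))

/-- the homomorphism on `kˣ` -/
private noncomputable def chiHom [NeZero p] {ζ : k} (hζ : IsPrimitiveRoot ζ p) :
    kˣ →* Multiplicative (Gal(kb/k) → ZMod p) where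
  toFun a := Multiplicative.ofAdd (chi0 hζ a)
  map_one' := by
    rw [← ofAdd_zero]
    refine congrArg Multiplicative.ofAdd ?_
    funext σ
    refine chi0_eq hζ 1 σ 1 (by simp) 0 ?_
    simp
  map_mul' a b := by
    rw [← ofAdd_add]
    refine congrArg Multiplicative.ofAdd ?_
    funext σ
    obtain ⟨r, hr⟩ := exists_root (kb := kb) (p := p) (a : k)
    obtain ⟨s, hs⟩ := exists_root (kb := kb) (p := p) (b : k)
    refine chi0_eq hζ (a * b) σ (r * s) ?_ _ ?_
    · rw [mul_pow, hr, hs, Units.val_mul, map_mul]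
    · rw [Pi.add_apply, pow_val_add (prim_kb (kb := kb) hζ).pow_eq_one, map_mul,
        chi0_spec hζ a σ r hr, chi0_spec hζ b σ s hs]
      ring

private theorem chiHom_pow [NeZero p] {ζ : k} (hζ : IsPrimitiveRoot ζ p) :
    (powMonoidHom p : kˣ →* kˣ).range ≤ (chiHom (kb := kb) hζ).ker := by
  rintro _ ⟨b, rfl⟩
  rw [MonoidHom.mem_ker]
  change Multiplicative.ofAdd (chi0 hζ (b ^ p)) = 1
  rw [← ofAdd_zero]
  refine congrArg Multiplicative.ofAdd ?_
  funext σ
  refine chi0_eq hζ (b ^ p) σ (algebraMap k kb b) (by simp) 0 ?_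
  simp

private noncomputable def chiAdd [NeZero p] {ζ : k} (hζ : IsPrimitiveRoot ζ p) :
    Hp p k →+ (Gal(kb/k) → ZMod p) :=
  MonoidHom.toAdditiveLeft (QuotientGroup.lift _ (chiHom (kb := kb) hζ) (chiHom_pow hζ))

private theorem chiAdd_clF [NeZero p] {ζ : k} (hζ : IsPrimitiveRoot ζ p) {a : k} (ha : a ≠ 0) :
    chiAdd (kb := kb) hζ (clF p k a) = chi0 hζ (Units.mk0 a ha) := by
  unfold clF
  rw [dif_neg ha]
  rfl

theorem exists_chi [Fact p.Prime] {ζ : k} (hζ : IsPrimitiveRoot ζ p) :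
    Nonempty (Chi k kb p ζ) := by
  have hp : p ≠ 0 := (Fact.out : p.Prime).ne_zero
  have : NeZero p := ⟨hp⟩
  have hroot : ∀ a : k, a ≠ 0 → ∀ r : kb, r ^ p = algebraMap k kb a → ∀ σ : Gal(kb/k),
      σ r = algebraMap k kb ζ ^ (chiAdd (kb := kb) hζ (clF p k a) σ).val * r := by
    intro a ha r hr σ
    rw [chiAdd_clF hζ ha]
    exact chi0_spec hζ (Units.mk0 a ha) σ r hr
  have hz : algebraMap k kb ζ ^ p = 1 := (prim_kb (kb := kb) hζ).pow_eq_one
  refine ⟨⟨chiAdd hζ, hroot, ?_, ?_, ?_⟩⟩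
  · intro h σ τ
    obtain ⟨a, ha, rfl⟩ := clF_surj p h
    obtain ⟨r, hr⟩ := exists_root (kb := kb) (p := p) a
    rw [chiAdd_clF hζ ha]
    refine chi0_eq hζ (Units.mk0 a ha) (σ * τ) r hr _ ?_
    rw [pow_val_add hz, AlgEquiv.mul_apply, chi0_spec hζ (Units.mk0 a ha) τ r hr, map_mul,
      map_pow, AlgEquiv.commutes, chi0_spec hζ (Units.mk0 a ha) σ r hr]
    ring
  · intro h hh
    obtain ⟨a, ha, rfl⟩ := clF_surj p h
    obtain ⟨r, hr⟩ := exists_root (kb := kb) (p := p) a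
    have h1 : ∀ σ : Gal(kb/k), σ r = r := by
      intro σ
      rw [hroot a ha r hr σ, hh σ]
      simp
    obtain ⟨b, hb⟩ := (InfiniteGalois.mem_range_algebraMap_iff_fixed r).2 h1
    rw [clF_eq_zero p hp ha]
    refine ⟨b, (algebraMap k kb).injective ?_⟩
    rw [map_pow, hb, hr]
  · intro h
    obtain ⟨a, ha, rfl⟩ := clF_surj p h
    obtain ⟨r, hr⟩ := exists_root (kb := kb) (p := p) a
    have hint : IsIntegral k r := Algebra.IsIntegral.isIntegral r
    have : FiniteDimensional k (IntermediateField.adjoin k {r}) :=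
      IntermediateField.adjoin.finiteDimensional hint
    refine ⟨(IntermediateField.adjoin k {r}).fixingSubgroup,
      IntermediateField.fixingSubgroup_isOpen _, fun τ hτ => ?_⟩
    have h1 : τ r = r := by
      rw [IntermediateField.mem_fixingSubgroup_iff] at hτ
      exact hτ r (IntermediateField.mem_adjoin_simple_self k r)
    rw [chiAdd_clF hζ ha]
    refine chi0_eq hζ (Units.mk0 a ha) τ r hr 0 ?_
    rw [h1]
    simp

theorem Chi.one {ζ : k} (C : Chi k kb p ζ) (h : Hp p k) : C.χ h 1 = 0 := by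
  have h1 := C.mul h 1 1
  rw [mul_one] at h1
  exact left_eq_add.1 h1

theorem Chi.inv {ζ : k} (C : Chi k kb p ζ) (h : Hp p k) (σ : Gal(kb/k)) :
    C.χ h σ⁻¹ = -C.χ h σ := by
  have h1 := C.mul h σ⁻¹ σ
  rw [inv_mul_cancel, C.one] at h1
  exact eq_neg_of_add_eq_zero_left h1.symm

theorem Chi.pow {ζ : k} (C : Chi k kb p ζ) (h : Hp p k) (σ : Gal(kb/k)) (n : ℕ) :
    C.χ h (σ ^ n) = n * C.χ h σ := by
  induction n with
  | zero => rw [pow_zero, C.one, Nat.cast_zero, zero_mul]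
  | succ n ih => rw [pow_succ, C.mul, ih]; push_cast; ring

/-- a nonzero class has an element of the Galois group with value one -/
theorem Chi.exists_one [Fact p.Prime] {ζ : k} (C : Chi k kb p ζ) {h : Hp p k} (hh : h ≠ 0) :
    ∃ t : Gal(kb/k), C.χ h t = 1 := by
  have h1 : ∃ σ : Gal(kb/k), C.χ h σ ≠ 0 := by
    by_contra hc
    push Not at hc
    exact hh (C.inj h hc)
  obtain ⟨σ, hσ⟩ := h1
  refine ⟨σ ^ ((C.χ h σ)⁻¹).val, ?_⟩
  rw [C.pow, ZMod.natCast_zmod_val, inv_mul_cancel₀ hσ]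

end Pool.Agent.Lib.MP_2f3286_ag.Ep
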