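import Pool.Agent.Lib.MP_2f3286_ag.Ep.E1

/-!
# The cup product   (module E2, 80 minutes)

`zc ζ x = ζ ^ x.val` in `kbˣ` for `x : ZMod p` (`ζ ^ p = 1`, so `zc (x + y) = zc x * zc y`). `cupF C h h' σ τ = zc (χ h σ * χ h' τ)`. `cup C h h' = mkZ (cupF C h h')`. PROOFS.
* `zc_add`: `ζ ^ (x + y).val = ζ ^ (x.val + y.val)` (`ZMod.val_add`, `pow_mod_orderOf` or `pow_eq_pow_mod`).
* `cup` bilinear: `cupF (h₁ + h₂) h' = cupF h₁ h' * cupF h₂ h'` and `mkZ_mul`.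
* `cup_swap`: `f σ = zc (- (χ h σ * χ h' σ))`; locally constant (invariant under the intersection of the two `ker` groups); `f σ * σ (f τ) / f (σ τ) = zc (- χ_h(σ) χ_h'(σ) - χ_h(τ) χ_h'(τ) + (χ_h(σ) + χ_h(τ)) (χ_h'(σ) + χ_h'(τ))) = zc (χ_h(σ) χ_h'(τ) + χ_h(τ) χ_h'(σ))`,
  which is `cupF h h' σ τ * cupF h' h σ τ` (`σ` fixes powers of `ζ`). So `cup h h' + cup h' h = 0`.
* `cup_self`: `2 • cup h h = 0` and `p • cup h h = cup (p • h) h = 0` (`p • h = 0`), `p` odd.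
-/

namespace Pool.Agent.Lib.MP_2f3286_ag.Ep

open Koe

variable {k kb : Type*} [Field k] [Field kb] [Algebra k kb] [IsGalois k kb] [IsAlgClosed kb]
  [CharZero kb] {p : ℕ}

private theorem e2_pow_val {M : Type*} [Monoid M] {z : M} (hz : z ^ p = 1) (n : ℕ) :
    z ^ ((n : ZMod p)).val = z ^ n := by
  rw [ZMod.val_natCast, ← pow_eq_pow_mod n hz]

private theorem e2_pow_add [NeZero p] {M : Type*} [Monoid M] {z : M} (hz : z ^ p = 1)
    (x y : ZMod p) : z ^ (x + y).val = z ^ x.val * z ^ y.val := by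
  have h1 : x + y = ((x.val + y.val : ℕ) : ZMod p) := by
    rw [Nat.cast_add, ZMod.natCast_zmod_val, ZMod.natCast_zmod_val]
  rw [h1, e2_pow_val hz, pow_add]

/-- the power of `ζ` with exponent in `ZMod p`, as a unit of `kb` -/
noncomputable def zc (kb : Type*) [Field kb] [Algebra k kb] {ζ : k} (hζ : IsPrimitiveRoot ζ p)
    [NeZero p] (x : ZMod p) : kbˣ :=
  Units.mk0 (algebraMap k kb ζ ^ x.val)
    (pow_ne_zero _ ((_root_.map_ne_zero _).2 (hζ.ne_zero (NeZero.ne p))))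

theorem zc_val {ζ : k} (hζ : IsPrimitiveRoot ζ p) [NeZero p] (x : ZMod p) :
    (zc kb hζ x : kb) = algebraMap k kb ζ ^ x.val := rfl

theorem zc_add {ζ : k} (hζ : IsPrimitiveRoot ζ p) [NeZero p] (x y : ZMod p) :
    zc kb hζ (x + y) = zc kb hζ x * zc kb hζ y := by
  have hz : algebraMap k kb ζ ^ p = 1 := by rw [← map_pow, hζ.pow_eq_one, map_one]
  ext
  rw [Units.val_mul, zc_val, zc_val, zc_val, e2_pow_add hz]

theorem zc_zero {ζ : k} (hζ : IsPrimitiveRoot ζ p) [NeZero p] : zc kb hζ 0 = 1 := by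
  ext
  rw [zc_val, ZMod.val_zero, pow_zero, Units.val_one]

private theorem e2_fix {ζ : k} (hζ : IsPrimitiveRoot ζ p) [NeZero p] (x : ZMod p)
    (σ : Gal(kb/k)) : σ (zc kb hζ x : kb) = zc kb hζ x := by
  rw [zc_val, map_pow, AlgEquiv.commutes]

/-- the cochain -/
noncomputable def cupF {ζ : k} (hζ : IsPrimitiveRoot ζ p) [NeZero p] (C : Chi k kb p ζ)
    (h h' : Hp p k) (σ τ : Gal(kb/k)) : kbˣ :=
  zc kb hζ (C.χ h σ * C.χ h' τ)

theorem cupF_add_left {ζ : k} (hζ : IsPrimitiveRoot ζ p) [NeZero p] (C : Chi k kb p ζ)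
    (h₁ h₂ h' : Hp p k) : cupF hζ C (h₁ + h₂) h' = cupF hζ C h₁ h' * cupF hζ C h₂ h' := by
  funext σ τ
  rw [Pi.mul_apply, Pi.mul_apply]
  unfold cupF
  rw [← zc_add, map_add, Pi.add_apply, add_mul]

theorem cupF_add_right {ζ : k} (hζ : IsPrimitiveRoot ζ p) [NeZero p] (C : Chi k kb p ζ)
    (h h₁ h₂ : Hp p k) : cupF hζ C h (h₁ + h₂) = cupF hζ C h h₁ * cupF hζ C h h₂ := by
  funext σ τ
  rw [Pi.mul_apply, Pi.mul_apply]
  unfold cupF
  rw [← zc_add, map_add, Pi.add_apply, mul_add]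

/-- the cup product -/
noncomputable def cup {ζ : k} (hζ : IsPrimitiveRoot ζ p) [NeZero p] (C : Chi k kb p ζ) :
    Hp p k →+ Hp p k →+ Zc k kb :=
  AddMonoidHom.mk' (fun h => AddMonoidHom.mk' (fun h' => mkZ (cupF hζ C h h'))
    (fun a b => by rw [cupF_add_right, mkZ_mul]))
    (fun a b => by
      ext h'
      change mkZ _ = mkZ _ + mkZ _
      rw [cupF_add_left, mkZ_mul])

theorem cup_apply {ζ : k} (hζ : IsPrimitiveRoot ζ p) [NeZero p] (C : Chi k kb p ζ)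
    (h h' : Hp p k) : cup hζ C h h' = mkZ (cupF hζ C h h') := rfl

theorem cup_swap [Fact p.Prime] {ζ : k} (hζ : IsPrimitiveRoot ζ p) (C : Chi k kb p ζ)
    (h h' : Hp p k) : cup hζ C h h' = -cup hζ C h' h := by
  refine eq_neg_of_add_eq_zero_left ?_
  rw [cup_apply, cup_apply, ← mkZ_mul, mkZ_eq_zero]
  refine ⟨fun σ => zc kb hζ (-(C.χ h σ * C.χ h' σ)), ?_, ?_⟩
  · obtain ⟨V, hV, h1⟩ := C.ker h
    obtain ⟨W, hW, h2⟩ := C.ker h'
    refine ⟨V ⊓ W, hV.inter hW, fun σ τ hτ => ?_⟩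
    change zc kb hζ (-(C.χ h (σ * τ) * C.χ h' (σ * τ))) = _
    rw [C.mul, C.mul, h1 τ hτ.1, h2 τ hτ.2, add_zero, add_zero]
  · intro σ τ
    change ((cupF hζ C h h' σ τ * cupF hζ C h' h σ τ : kbˣ) : kb) *
      (zc kb hζ (-(C.χ h (σ * τ) * C.χ h' (σ * τ))) : kb) =
      (zc kb hζ (-(C.χ h σ * C.χ h' σ)) : kb) * σ (zc kb hζ (-(C.χ h τ * C.χ h' τ)) : kb)
    rw [e2_fix]
    unfold cupF
    rw [← Units.val_mul, ← Units.val_mul, ← zc_add, ← zc_add, ← zc_add, C.mul, C.mul]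
    congr 2
    ring

theorem cup_self [Fact p.Prime] (hp2 : p ≠ 2) {ζ : k} (hζ : IsPrimitiveRoot ζ p)
    (C : Chi k kb p ζ) (h : Hp p k) : cup hζ C h h = 0 := by
  have h1 : cup hζ C h h + cup hζ C h h = 0 := by
    nth_rewrite 1 [cup_swap hζ C h h]
    exact neg_add_cancel _
  have hph : p • h = 0 := by
    rw [← Nat.cast_smul_eq_nsmul (ZMod p), ZMod.natCast_self, zero_smul]
  have h2 : p • cup hζ C h h = 0 := by
    rw [← AddMonoidHom.nsmul_apply, ← map_nsmul, hph, map_zero, AddMonoidHom.zero_apply]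
  obtain ⟨m, hm⟩ := (Fact.out : p.Prime).odd_of_ne_two hp2
  have h3 : ∀ z : Zc k kb, z + z = 0 → p • z = 0 → z = 0 := by
    intro z hz hz2
    rw [hm, add_smul, one_smul, mul_comm, mul_smul, two_smul, hz, smul_zero, zero_add] at hz2
    exact hz2
  exact h3 _ h1 h2

end Pool.Agent.Lib.MP_2f3286_ag.Ep
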