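import Pool.Agent.Lib.MP_2f3286_ag.Ep.E2

/-!
# The cup product with a norm is zero   (module E3, 120 minutes)

`h` a class, `t` with `χ h t = 1`, `ker = {σ | χ h σ = 0}` (normal: `χ h (τ σ τ⁻¹) = χ h σ`), `γ ∈ kb` nonzero fixed by `ker`. For `n : ℕ` let `γ_n = (t ^ n) γ`. FACT 1: for `σ` with `χ h σ = (m : ZMod p)`, `σ (γ_n) = γ_(m + n)`: `σ = t ^ m σ'`, `σ' = t ^ (-m) σ` in `ker`, `σ' (t ^ n γ) = t ^ n (t ^ (-n) σ' t ^ n γ) = t ^ n γ`. In particular `γ_(n + p) = γ_n`.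
`b = ∏_{i < p} γ_i` (in `k`).
PROOF of `cup_norm`. `β ∈ kb`, `β ^ p = b` (`b ≠ 0`). For `x : ZMod p` let `x.val` be the representative. `f σ = β ^ (χ h σ).val`, `g σ = ∏_{i < (χ h σ).val} γ_i`; both nonzero, functions of `χ h σ`, so locally constant (`C.ker h`). FACT 2: let `m = (χ h σ).val`, `n = (χ h τ).val`, `(χ h (σ τ)).val = m + n` or `m + n - p`
(`ZMod.val_add`); `e = 0` or `1` accordingly. `f σ * σ (f τ) = β ^ m (σ β) ^ n = β ^ (m + n) ζ ^ ((χ b σ).val n)` (`C.root`), so `= f (σ τ) * b ^ e * zc (χ b σ * χ h τ)`. `g σ * σ (g τ) = ∏_{i < m} γ_i ∏_{i < n} γ_(m + i)` (FACT 1) `= ∏_{i < m + n} γ_i = g (σ τ) b ^ e`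
(if `m + n ≥ p`: the last `p` consecutive factors have the product `b`: the product of `γ` over a full period). So with `F = f / g`: `cupF (cl b) h σ τ * F (σ τ) = F σ * σ (F τ)`: `cup (cl b) h = 0` (`mkZ_eq_zero`), and `cup h (cl b) = - cup (cl b) h = 0` (`cup_swap`).
-/

namespace Pool.Agent.Lib.MP_2f3286_ag.Ep

open Koe

variable {k kb : Type*} [Field k] [Field kb] [Algebra k kb] [IsGalois k kb] [IsAlgClosed kb]
  [CharZero kb] {p : ℕ}

theorem gam_act [Fact p.Prime] {ζ : k} (C : Chi k kb p ζ) {h : Hp p k} {t : Gal(kb/k)}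
    (ht : C.χ h t = 1) {γ : kb} (hγ : ∀ σ, C.χ h σ = 0 → σ γ = γ) {σ : Gal(kb/k)} {m : ℕ}
    (hm : C.χ h σ = m) (n : ℕ) : σ ((t ^ n) γ) = (t ^ (m + n)) γ := by
  have h1 : C.χ h ((t ^ (m + n))⁻¹ * (σ * t ^ n)) = 0 := by
    rw [C.mul, C.mul, C.inv, C.pow, C.pow, ht, hm, mul_one, mul_one, Nat.cast_add]
    ring
  have h2 := hγ _ h1
  have h3 : σ * t ^ n = t ^ (m + n) * ((t ^ (m + n))⁻¹ * (σ * t ^ n)) := by
    rw [mul_inv_cancel_left]
  calc σ ((t ^ n) γ) = (σ * t ^ n) γ := rfl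
    _ = (t ^ (m + n) * ((t ^ (m + n))⁻¹ * (σ * t ^ n))) γ := by rw [← h3]
    _ = (t ^ (m + n)) (((t ^ (m + n))⁻¹ * (σ * t ^ n)) γ) := rfl
    _ = (t ^ (m + n)) γ := by rw [h2]

private theorem e3_per {F : Type*} [Field F] {g : ℕ → F} (h0 : ∀ i, g i ≠ 0) {p : ℕ}
    (hp : ∀ i, g (i + p) = g i) (x : ℕ) :
    ∏ i ∈ Finset.range p, g (x + i) = ∏ i ∈ Finset.range p, g i := by
  induction x with
  | zero => exact Finset.prod_congr rfl fun i _ => by rw [zero_add]
  | succ x ih =>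
    have h1 := Finset.prod_range_succ (fun i => g (x + i)) p
    have h2 := Finset.prod_range_succ' (fun i => g (x + i)) p
    rw [h1] at h2
    have h3 : g (x + p) = g (x + 0) := by rw [hp, add_zero]
    have h4 : ∏ i ∈ Finset.range p, g (x + (i + 1)) = ∏ i ∈ Finset.range p, g (x + i) := by
      rw [h3] at h2
      exact (mul_right_cancel₀ (h0 _) h2).symm
    rw [← ih, ← h4]
    exact Finset.prod_congr rfl fun i _ => by rw [add_right_comm, add_assoc]

private theorem e3_prod {F : Type*} [Field F] {g : ℕ → F} (h0 : ∀ i, g i ≠ 0) {p : ℕ}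
    (hp : ∀ i, g (i + p) = g i) (x e : ℕ) :
    ∏ i ∈ Finset.range (x + p * e), g i =
      (∏ i ∈ Finset.range x, g i) * (∏ i ∈ Finset.range p, g i) ^ e := by
  induction e with
  | zero => rw [mul_zero, add_zero, pow_zero, mul_one]
  | succ e ih =>
    rw [mul_add, mul_one, ← add_assoc, Finset.prod_range_add, ih, e3_per h0 hp, pow_succ,
      mul_assoc]

private theorem e3_zeta {F : Type*} [Field F] {p : ℕ} [NeZero p] {z : F} (hz : z ^ p = 1)
    (a b : ZMod p) : z ^ (a * b).val = z ^ (a.val * b.val) := by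
  rw [ZMod.val_mul]
  conv_rhs => rw [← Nat.div_add_mod (a.val * b.val) p, pow_add, pow_mul, hz, one_pow, one_mul]

theorem cup_norm [Fact p.Prime] {ζ : k} (hζ : IsPrimitiveRoot ζ p) (C : Chi k kb p ζ)
    {h : Hp p k} {t : Gal(kb/k)} (ht : C.χ h t = 1) {γ : kb} (hγ0 : γ ≠ 0)
    (hγ : ∀ σ, C.χ h σ = 0 → σ γ = γ) {b : k}
    (hb : algebraMap k kb b = ∏ i ∈ Finset.range p, (t ^ i) γ) :
    cup hζ C h (clF p k b) = 0 := by
  have hp : p.Prime := Fact.out
  have hp0 : p ≠ 0 := hp.ne_zero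
  -- the conjugates
  have hg0 : ∀ i : ℕ, (t ^ i) γ ≠ 0 := fun i => (_root_.map_ne_zero _).2 hγ0
  have hgp : ∀ i : ℕ, (t ^ (i + p)) γ = (t ^ i) γ := by
    intro i
    have h1 : C.χ h (t ^ p) = 0 := by
      rw [C.pow, ht, mul_one]
      exact ZMod.natCast_self p
    rw [pow_add]
    change (t ^ i) ((t ^ p) γ) = (t ^ i) γ
    rw [hγ _ h1]
  have hB0 : algebraMap k kb b ≠ 0 := by
    rw [hb]
    exact Finset.prod_ne_zero_iff.2 fun i _ => hg0 i
  have hb0 : b ≠ 0 := fun h0 => hB0 (by rw [h0, map_zero])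
  obtain ⟨β, hβ⟩ := IsAlgClosed.exists_pow_nat_eq (algebraMap k kb b) hp.pos
  have hβ0 : β ≠ 0 := by
    rintro rfl
    rw [zero_pow hp0] at hβ
    exact hB0 hβ.symm
  have hz : (algebraMap k kb ζ) ^ p = 1 := by
    rw [← map_pow, hζ.pow_eq_one, map_one]
  -- the function
  have hG0 : ∀ m : ℕ, ∏ i ∈ Finset.range m, (t ^ i) γ ≠ 0 := fun m =>
    Finset.prod_ne_zero_iff.2 fun i _ => hg0 i
  let f : ZMod p → kbˣ := fun x =>
    Units.mk0 (β ^ x.val / ∏ i ∈ Finset.range x.val, (t ^ i) γ)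
      (div_ne_zero (pow_ne_zero _ hβ0) (hG0 _))
  have hf : ∀ x, (f x : kb) = β ^ x.val / ∏ i ∈ Finset.range x.val, (t ^ i) γ := fun x => rfl
  have hmain : cup hζ C (clF p k b) h = 0 := by
    rw [cup_apply, mkZ_eq_zero]
    refine ⟨fun σ => f (C.χ h σ), ?_, ?_⟩
    · obtain ⟨V, hV, hV0⟩ := C.ker h
      refine ⟨V, hV, fun σ τ hτ => ?_⟩
      change f (C.χ h (σ * τ)) = f (C.χ h σ)
      rw [C.mul, hV0 τ hτ, add_zero]
    · intro σ τ
      change (zc kb hζ (C.χ (clF p k b) σ * C.χ h τ) : kb) * (f (C.χ h (σ * τ)) : kb) =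
        (f (C.χ h σ) : kb) * σ (f (C.χ h τ) : kb)
      rw [zc_val, hf, hf, hf, e3_zeta hz, C.mul]
      set c := (C.χ (clF p k b) σ).val with hc
      have hσβ : σ β = algebraMap k kb ζ ^ c * β := C.root b hb0 β hβ σ
      set m := (C.χ h σ).val with hm
      set n := (C.χ h τ).val with hn
      have hl : m + n = (C.χ h σ + C.χ h τ).val + p * ((m + n) / p) := by
        rw [ZMod.val_add, ← hm, ← hn]
        exact (Nat.mod_add_div _ _).symm
      set l := (C.χ h σ + C.χ h τ).val with hl'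
      set e := (m + n) / p with he
      have hmσ : C.χ h σ = (m : ZMod p) := by
        rw [hm, ZMod.natCast_val, ZMod.cast_id]
      have h1 : σ (∏ i ∈ Finset.range n, (t ^ i) γ) = ∏ i ∈ Finset.range n, (t ^ (m + i)) γ := by
        rw [map_prod]
        exact Finset.prod_congr rfl fun i _ => gam_act C ht hγ hmσ i
      have h2 : (∏ i ∈ Finset.range m, (t ^ i) γ) * ∏ i ∈ Finset.range n, (t ^ (m + i)) γ =
          (∏ i ∈ Finset.range l, (t ^ i) γ) * (algebraMap k kb b) ^ e := by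
        rw [hb, ← e3_prod (g := fun i => (t ^ i) γ) hg0 hgp l e, ← hl,
          Finset.prod_range_add (fun i => (t ^ i) γ) m n]
      have h3 : β ^ m * β ^ n = β ^ l * (algebraMap k kb b) ^ e := by
        rw [← pow_add, hl, pow_add, pow_mul, hβ]
      have h4 : ∏ i ∈ Finset.range n, (t ^ (m + i)) γ ≠ 0 :=
        Finset.prod_ne_zero_iff.2 fun i _ => hg0 _
      rw [map_div₀, map_pow, hσβ, h1, mul_pow, ← pow_mul, mul_div_assoc', div_mul_div_comm,
        div_eq_div_iff (hG0 l) (mul_ne_zero (hG0 m) h4), h2]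
      calc algebraMap k kb ζ ^ (c * n) * β ^ l *
            ((∏ i ∈ Finset.range l, (t ^ i) γ) * (algebraMap k kb b) ^ e) =
          algebraMap k kb ζ ^ (c * n) * (β ^ l * (algebraMap k kb b) ^ e) *
            ∏ i ∈ Finset.range l, (t ^ i) γ := by ring
        _ = algebraMap k kb ζ ^ (c * n) * (β ^ m * β ^ n) *
            ∏ i ∈ Finset.range l, (t ^ i) γ := by rw [h3]
        _ = β ^ m * (algebraMap k kb ζ ^ (c * n) * β ^ n) *
            ∏ i ∈ Finset.range l, (t ^ i) γ := by ring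
  rw [cup_swap, hmain, neg_zero]

end Pool.Agent.Lib.MP_2f3286_ag.Ep
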