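import Pool.Agent.Lib.MP_2f3286_ag.Ep.E3
import Pool.Agent.Lib.MP_2f3286_ag.Kummer

/-!
# If the cup product is zero the element is a norm   (module E4, 120 minutes)

As in E3. `cup h (cl b) = 0`, so `cup (cl b) h = 0` (`cup_swap`): `F₀` locally constant with `cupF (cl b) h σ τ * F₀ (σ τ) = F₀ σ * σ (F₀ τ)` (`mkZ_eq_zero`). With `β ^ p = b`, `f σ = β ^ (χ h σ).val` (E3, FACT 2: `f σ * σ (f τ) = f (σ τ) * b ^ e(σ, τ) * zc (χ b σ * χ h τ)`, `e = 0` or `1`, `e = 1` iff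
`(χ h σ).val + (χ h τ).val ≥ p`), `g = f / F₀` satisfies (*) `g σ * σ (g τ) = g (σ τ) * b ^ e(σ, τ)`, locally constant.
On `ker = {χ h = 0}`, `e = 0`: `g` is a cocycle. `E` = the fixed field of `ker` (an open, so closed subgroup: `E = IntermediateField.fixedField ker`, `fixingSubgroup E = ker`, `Gal(kb/E)` is identified with `ker` by `AlgEquiv.restrictScalars k`, as in `Koe/Kum.lean`), `hilbert90` for `E`, `kb` (file `Kummer.lean`): `z ∈ kbˣ` with
`g σ * z = σ z` for `σ ∈ ker`. Replace `g` by `g' σ = g σ * z / σ z`: again (*) and locally constant (not needed further), `g' = 1` on `ker`. For `τ ∈ ker`, `e(σ, τ) = e(τ, σ) = 0`: `g' (σ τ) = g' σ` and `g' (τ σ) = τ (g' σ)`; as `τ σ = σ (σ⁻¹ τ σ)`, `g' (τ σ) = g' σ`. So `g' σ` is fixed by `ker`. `γ = g' t`.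
`g' (t ^ i) = ∏_{j < i} (t ^ j) γ` for `i ≤ p - 1` by induction ((*) with `σ = t ^ i`, `τ = t`: `(χ h (t ^ i)).val = i`, `e = 0` for `i + 1 < p`), and for `i = p - 1`, `e = 1`: `g' (t ^ (p - 1)) * t ^ (p - 1) (γ) = g' (t ^ p) * b`, `g' (t ^ p) = 1` (`t ^ p ∈ ker`). So `b = ∏_{j < p} (t ^ j) γ`.
-/

namespace Pool.Agent.Lib.MP_2f3286_ag.Ep

open Koe

variable {k kb : Type*} [Field k] [Field kb] [Algebra k kb] [IsGalois k kb] [IsAlgClosed kb]
  [CharZero kb] {p : ℕ}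

omit [IsAlgClosed kb] [CharZero kb] in
theorem nhds_restrict_norm {E : IntermediateField k kb} {V : Subgroup Gal(kb/k)}
    (hV : IsOpen (V : Set Gal(kb/k))) :
    {σ : Gal(kb/E) | σ.restrictScalars k ∈ V} ∈ nhds (1 : Gal(kb/E)) := by
  have h5 : (V : Set Gal(kb/k)) ∈ nhds (1 : Gal(kb/k)) := hV.mem_nhds (one_mem V)
  obtain ⟨F, hF, hFU⟩ := (krullTopology_mem_nhds_one_iff k kb _).mp h5
  let b := Module.finBasis k F
  let E' : IntermediateField E kb := IntermediateField.adjoin E (Set.range fun i => (b i : kb))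
  have hE' : FiniteDimensional E E' := by
    apply IntermediateField.finiteDimensional_adjoin
    rintro x -
    exact Algebra.IsIntegral.isIntegral x
  rw [krullTopology_mem_nhds_one_iff]
  refine ⟨E', hE', fun τ hτ => ?_⟩
  have h6 : τ.restrictScalars k ∈ F.fixingSubgroup := by
    intro x
    have h7 : ∀ i, τ.restrictScalars k (b i : kb) = (b i : kb) := by
      intro i
      exact hτ ⟨(b i : kb), IntermediateField.subset_adjoin E _ ⟨i, rfl⟩⟩
    change τ.restrictScalars k (x : kb) = (x : kb)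
    have h8 := b.sum_repr x
    have h9 : (x : kb) = ∑ i, (b.repr x i) • (b i : kb) := by
      have h10 := congrArg F.val h8
      rw [map_sum] at h10
      simpa using h10.symm
    rw [h9, map_sum]
    refine Finset.sum_congr rfl fun i _ => ?_
    rw [Algebra.smul_def, map_mul, AlgEquiv.commutes, h7]
  exact hFU h6

theorem norm_cup [Fact p.Prime] {ζ : k} (hζ : IsPrimitiveRoot ζ p) (C : Chi k kb p ζ)
    {h : Hp p k} {t : Gal(kb/k)} (ht : C.χ h t = 1) {b : k} (hb : b ≠ 0)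
    (hcup : cup hζ C h (clF p k b) = 0) :
    ∃ γ : kb, γ ≠ 0 ∧ (∀ σ, C.χ h σ = 0 → σ γ = γ) ∧
      algebraMap k kb b = ∏ i ∈ Finset.range p, (t ^ i) γ := by
  have hp : p.Prime := Fact.out
  have : Fact (1 < p) := ⟨hp.one_lt⟩
  have h1 : cup hζ C (clF p k b) h = 0 := by
    rw [cup_swap, hcup, neg_zero]
  rw [cup_apply, mkZ_eq_zero] at h1
  obtain ⟨F, ⟨V, hV, hFV⟩, hFc⟩ := h1
  obtain ⟨β, hβ⟩ := IsAlgClosed.exists_pow_nat_eq (algebraMap k kb b) hp.pos
  have hb' : algebraMap k kb b ≠ 0 := by rwa [Ne, map_eq_zero]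
  have hβ0 : β ≠ 0 := by
    rintro rfl
    rw [zero_pow hp.ne_zero] at hβ
    exact hb' hβ.symm
  have hroot := C.root b hb β hβ
  obtain ⟨N, hN⟩ : ∃ N : Gal(kb/k) → ℕ, ∀ σ, N σ = (C.χ h σ).val := ⟨_, fun _ => rfl⟩
  have hNlt : ∀ σ, N σ < p := fun σ => by rw [hN]; exact ZMod.val_lt _
  have hNmul : ∀ σ τ, N (σ * τ) = (N σ + N τ) % p := by
    intro σ τ
    rw [hN, hN, hN, C.mul, ZMod.val_add]
  have hN0 : ∀ σ, C.χ h σ = 0 → N σ = 0 := fun σ hσ => by rw [hN, hσ, ZMod.val_zero]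
  have hNt : N t = 1 := by rw [hN, ht, ZMod.val_one]
  obtain ⟨ζ', hζ'⟩ : ∃ ζ' : kb, ζ' = algebraMap k kb ζ := ⟨_, rfl⟩
  have hζp : ζ' ^ p = 1 := by rw [hζ', ← map_pow, hζ.pow_eq_one, map_one]
  have hF0 : ∀ σ, (F σ : kb) ≠ 0 := fun σ => (F σ).ne_zero
  obtain ⟨G, hGdef⟩ : ∃ G : Gal(kb/k) → kb, ∀ σ, G σ = β ^ N σ / F σ := ⟨_, fun _ => rfl⟩
  have hG0 : ∀ σ, G σ ≠ 0 := fun σ => by
    rw [hGdef]; exact div_ne_zero (pow_ne_zero _ hβ0) (hF0 σ)
  have hG : ∀ σ τ, G σ * σ (G τ) = β ^ (N σ + N τ) / F (σ * τ) := by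
    intro σ τ
    have h2 := hFc σ τ
    have h3 : (cupF hζ C (clF p k b) h σ τ : kb) =
        (ζ' ^ (C.χ (clF p k b) σ).val) ^ N τ := by
      rw [← pow_mul, hN, hζ']
      change algebraMap k kb ζ ^ (C.χ (clF p k b) σ * C.χ h τ).val = _
      rw [ZMod.val_mul, ← hζ']
      exact (pow_eq_pow_mod _ hζp).symm
    rw [h3] at h2
    have hσF : σ (F τ : kb) ≠ 0 := by
      rw [_root_.map_ne_zero]; exact hF0 τ
    rw [hGdef, hGdef, map_div₀, map_pow, hroot σ, ← hζ', div_mul_div_comm,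
      div_eq_div_iff (mul_ne_zero (hF0 σ) hσF) (hF0 _), mul_pow, pow_add]
    linear_combination β ^ N σ * β ^ N τ * h2
  have hlt : ∀ σ τ, N σ + N τ < p → G σ * σ (G τ) = G (σ * τ) := by
    intro σ τ hst
    rw [hG, hGdef, hNmul, Nat.mod_eq_of_lt hst]
  have hge : ∀ σ τ, N σ + N τ = p → G σ * σ (G τ) = G (σ * τ) * algebraMap k kb b := by
    intro σ τ hst
    rw [hG, hGdef, hNmul, hst, Nat.mod_self, pow_zero, hβ]
    ring
  -- the kernel
  let U : Subgroup Gal(kb/k) :=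
    { carrier := {σ | C.χ h σ = 0}
      mul_mem' := by
        intro σ τ hσ hτ
        change C.χ h (σ * τ) = 0
        rw [C.mul, show C.χ h σ = 0 from hσ, show C.χ h τ = 0 from hτ, add_zero]
      one_mem' := C.one h
      inv_mem' := by
        intro σ hσ
        change C.χ h σ⁻¹ = 0
        rw [C.inv, show C.χ h σ = 0 from hσ, neg_zero] }
  have hUmem : ∀ σ, σ ∈ U ↔ C.χ h σ = 0 := fun σ => Iff.rfl
  have hUopen : IsOpen (U : Set Gal(kb/k)) := by
    obtain ⟨W, hW, hWU⟩ := C.ker h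
    exact Subgroup.isOpen_mono (H₁ := W) (fun τ hτ => hWU τ hτ) hW
  have hUclosed : IsClosed (U : Set Gal(kb/k)) := Subgroup.isClosed_of_isOpen U hUopen
  obtain ⟨E, hE⟩ : ∃ E : IntermediateField k kb, E = IntermediateField.fixedField U := ⟨_, rfl⟩
  have hEU : E.fixingSubgroup = U := by
    rw [hE]
    exact InfiniteGalois.fixingSubgroup_fixedField ⟨U, hUclosed⟩
  have hr : ∀ τ : Gal(kb/E), τ.restrictScalars k ∈ U := by
    intro τ
    rw [← hEU]
    intro x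
    exact τ.commutes x
  have hrN : ∀ τ : Gal(kb/E), N (τ.restrictScalars k) = 0 := fun τ => hN0 _ (hr τ)
  obtain ⟨c, hc⟩ : ∃ c : Gal(kb/E) → kbˣ, ∀ τ, (c τ : kb) = G (τ.restrictScalars k) :=
    ⟨fun τ => Units.mk0 _ (hG0 (τ.restrictScalars k)), fun _ => rfl⟩
  have hcoc : ∀ σ τ : Gal(kb/E), (c (σ * τ) : kb) = c σ * σ (c τ) := by
    intro σ τ
    rw [hc, hc, hc]
    have h3 : (σ * τ).restrictScalars k = σ.restrictScalars k * τ.restrictScalars k := rfl
    rw [h3]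
    refine (hlt _ _ ?_).symm
    rw [hrN, hrN]
    exact hp.pos
  have hc1 : c 1 = 1 := by
    have h4 := hcoc 1 1
    rw [mul_one] at h4
    ext
    have h5 : (c 1 : kb) ≠ 0 := (c 1).ne_zero
    have h6 : ((1 : Gal(kb/E)) (c 1 : kb)) = (c 1 : kb) := rfl
    rw [h6] at h4
    rw [Units.val_one]
    exact mul_left_cancel₀ h5 (by rw [mul_one]; exact h4.symm)
  have hopen : {σ : Gal(kb/E) | c σ = 1} ∈ nhds 1 := by
    refine Filter.mem_of_superset (nhds_restrict_norm (E := E) hV) fun τ hτ => ?_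
    change c τ = 1
    rw [← hc1]
    ext
    have h4 : (1 : Gal(kb/E)).restrictScalars k = (1 : Gal(kb/k)) := rfl
    rw [hc, hc, hGdef, hGdef, hrN, hrN, h4]
    have h5 := hFV 1 _ hτ
    rw [one_mul] at h5
    rw [h5]
  obtain ⟨z, hz⟩ := hilbert90 E kb c hcoc hopen
  have hz0 : (z : kb) ≠ 0 := z.ne_zero
  have hσz : ∀ σ : Gal(kb/k), σ (z : kb) ≠ 0 := fun σ => by
    rw [_root_.map_ne_zero]; exact hz0
  have hzU : ∀ σ ∈ U, G σ * z = σ (z : kb) := by
    intro σ hσ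
    rw [← hEU] at hσ
    have h4 := hz (IntermediateField.fixingSubgroupEquiv E ⟨σ, hσ⟩)
    rw [hc] at h4
    exact h4
  obtain ⟨G', hG'def⟩ : ∃ G' : Gal(kb/k) → kb, ∀ σ, G' σ = G σ * z / σ (z : kb) :=
    ⟨_, fun _ => rfl⟩
  have hG'0 : ∀ σ, G' σ ≠ 0 := fun σ => by
    rw [hG'def]
    exact div_ne_zero (mul_ne_zero (hG0 σ) hz0) (hσz σ)
  have hG'U : ∀ σ ∈ U, G' σ = 1 := by
    intro σ hσ
    rw [hG'def, hzU σ hσ, div_self (hσz σ)]
  have hG'mul : ∀ σ τ, G' σ * σ (G' τ) = G σ * σ (G τ) * z / (σ * τ) (z : kb) := by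
    intro σ τ
    rw [hG'def, hG'def, map_div₀, map_mul, AlgEquiv.mul_apply]
    have h4 := hσz σ
    have h5 : σ (τ (z : kb)) ≠ 0 := by rw [_root_.map_ne_zero]; exact hσz τ
    field_simp
  have hlt' : ∀ σ τ, N σ + N τ < p → G' σ * σ (G' τ) = G' (σ * τ) := by
    intro σ τ hst
    rw [hG'mul, hlt σ τ hst, hG'def]
  have hge' : ∀ σ τ, N σ + N τ = p → G' σ * σ (G' τ) = G' (σ * τ) * algebraMap k kb b := by
    intro σ τ hst
    rw [hG'mul, hge σ τ hst, hG'def]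
    ring
  have hNpow : ∀ i, i < p → N (t ^ i) = i := by
    intro i hi
    rw [hN, C.pow, ht, mul_one, ZMod.val_natCast, Nat.mod_eq_of_lt hi]
  refine ⟨G' t, hG'0 t, ?_, ?_⟩
  · intro σ hσ
    have h4 : G' σ * σ (G' t) = G' (σ * t) := by
      refine hlt' σ t ?_
      rw [hN0 σ hσ, hNt, zero_add]
      exact hp.one_lt
    rw [hG'U σ hσ, one_mul] at h4
    have hconj : C.χ h (t⁻¹ * σ * t) = 0 := by
      rw [C.mul, C.mul, C.inv, hσ, add_zero, neg_add_cancel]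
    have h5 : G' t * t (G' (t⁻¹ * σ * t)) = G' (t * (t⁻¹ * σ * t)) := by
      refine hlt' _ _ ?_
      rw [hN0 _ hconj, hNt, add_zero]
      exact hp.one_lt
    rw [hG'U _ hconj, map_one, mul_one] at h5
    have h6 : t * (t⁻¹ * σ * t) = σ * t := by group
    rw [h4, ← h6, ← h5]
  · have hind : ∀ i, i < p → G' (t ^ i) = ∏ j ∈ Finset.range i, (t ^ j) (G' t) := by
      intro i
      induction i with
      | zero =>
        intro _
        rw [pow_zero, Finset.prod_range_zero]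
        exact hG'U 1 (one_mem U)
      | succ i ih =>
        intro hi
        rw [Finset.prod_range_succ, ← ih (by omega), pow_succ]
        refine (hlt' _ _ ?_).symm
        rw [hNpow i (by omega), hNt]
        exact hi
    have hp1 : p - 1 + 1 = p := Nat.sub_add_cancel hp.one_le
    have h4 : G' (t ^ (p - 1)) * (t ^ (p - 1)) (G' t) =
        G' (t ^ (p - 1) * t) * algebraMap k kb b := by
      refine hge' _ _ ?_
      rw [hNpow _ (by omega), hNt, hp1]
    have h5 : C.χ h (t ^ (p - 1) * t) = 0 := by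
      rw [← pow_succ, hp1, C.pow, ht, mul_one, ZMod.natCast_self]
    rw [hG'U _ h5, one_mul, hind _ (by omega), ← Finset.prod_range_succ, hp1] at h4
    exact h4.symm

end Pool.Agent.Lib.MP_2f3286_ag.Ep
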