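import Pool.Agent.Lib.MP_2f3286_ag.Ep.F1
import Pool.Agent.Lib.MP_2f3286_ag.Ep.D1

/-!
# The classes of the elements of `K`   (module F2, 60 minutes)

PROOF of `exists_kap`. For `x ≠ 0` in `K`: `kumR` with `V = ⊤` for `algebraMap K Ω x` (`hs.fix`): `a ∈ fixk ⊤`, i.e. `a` in `k` (`mem_fixk_top`), `y ∈ fixR s ⊤`, so `y` in `K` (`hs.ofFix`), both nonzero, `x = a y ^ p` in `K` (`hs.tow`, injectivity).
UNIQUENESS: `x = a y ^ p = a' y' ^ p`: `a / a' = (y' / y) ^ p`, `injR` (`V = ⊤`): `b ∈ fixk ⊤`, `b ^ p = a / a'`, `b` in `k`; so `clF a = clF a'` (`clF_mul`, `clF_eq_zero`). `κ x = clF p k a` for a choice (`κ 0 = 0`).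
`iff`: (⇒) `κ x = clF a`, `x = a₁ y₁ ^ p` (choice), `clF a₁ = clF a`: `a₁ = a b ^ p` (`clF_eq_zero` for `a₁ / a`). (⇐) uniqueness. `mul`, `alg` from `iff`.
-/

namespace Pool.Agent.Lib.MP_2f3286_ag.Ep

open Koe

/-- the classes of the elements of `K` in `k` modulo `p`-th powers -/
structure Kap (p : ℕ) (k K : Type*) [Field k] [Field K] [Algebra k K] where
  κ : K → Hp p k
  mul : ∀ x y, x ≠ 0 → y ≠ 0 → κ (x * y) = κ x + κ y
  alg : ∀ a : k, a ≠ 0 → κ (algebraMap k K a) = clF p k a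
  iff : ∀ x : K, x ≠ 0 → ∀ a : k, a ≠ 0 →
    (κ x = clF p k a ↔ ∃ y : K, y ≠ 0 ∧ x = algebraMap k K a * y ^ p)

variable {k kb Ω K : Type*} [Field k] [Field kb] [Algebra k kb] [IsGalois k kb] [IsAlgClosed kb]
  [CharZero kb] [Field Ω] [Algebra kb Ω] [Field K] [Algebra k K] [Algebra K Ω] {p : ℕ}

theorem exists_kap {s : Gal(kb/k) →* (Ω ≃+* Ω)} (hp : p.Prime) (hs : SecK s p K) :
    Nonempty (Kap p k K) := by
  classical
  have hinj : Function.Injective (algebraMap K Ω) := (algebraMap K Ω).injective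
  have key : ∀ x : K, x ≠ 0 → ∃ a : k, a ≠ 0 ∧ ∃ y : K, y ≠ 0 ∧
      x = algebraMap k K a * y ^ p := by
    intro x hx
    obtain ⟨a, ha, ha0, y, hy, hy0, hxy⟩ := kumR hp hs.toSec (V := ⊤) isClosed_univ
      (x := algebraMap K Ω x) (fun σ _ => hs.fix σ x) ((_root_.map_ne_zero _).2 hx)
    obtain ⟨a', rfl⟩ := mem_fixk_top.1 ha
    obtain ⟨y', rfl⟩ := hs.ofFix y (fun σ => hy σ trivial)
    refine ⟨a', ?_, y', ?_, ?_⟩
    · rintro rfl
      exact ha0 (map_zero _)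
    · rintro rfl
      exact hy0 (map_zero _)
    · apply hinj
      rw [hxy, map_mul, map_pow, hs.tow]
  have uniq : ∀ a a' : k, a ≠ 0 → a' ≠ 0 → ∀ y y' : K, y ≠ 0 → y' ≠ 0 →
      algebraMap k K a * y ^ p = algebraMap k K a' * y' ^ p → clF p k a = clF p k a' := by
    intro a a' ha ha' y y' hy hy' h
    have hKa' : algebraMap k K a' ≠ 0 := (_root_.map_ne_zero _).2 ha'
    have h1 : algebraMap k K (a / a') = (y' / y) ^ p := by
      rw [map_div₀, div_pow, div_eq_div_iff hKa' (pow_ne_zero _ hy)]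
      rw [h]
      ring
    have h2 : algebraMap kb Ω (algebraMap k kb (a / a')) = (algebraMap K Ω (y' / y)) ^ p := by
      rw [← hs.tow, h1, map_pow]
    obtain ⟨b, hb, hb1, -⟩ := injR hp hs.toSec (V := ⊤) (fun σ _ => hs.fix σ (y' / y)) h2
    obtain ⟨b', rfl⟩ := mem_fixk_top.1 hb
    have h3 : b' ^ p = a / a' := by
      apply (algebraMap k kb).injective
      rw [map_pow, hb1]
    have h4 : clF p k (a / a') = 0 :=
      (clF_eq_zero p hp.ne_zero (div_ne_zero ha ha')).2 ⟨b', h3⟩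
    have h5 := clF_mul p (div_ne_zero ha ha') ha'
    rw [div_mul_cancel₀ _ ha', h4, zero_add] at h5
    exact h5
  choose! f hf0 g hg0 hfg using key
  set κ : K → Hp p k := fun x => if x = 0 then 0 else clF p k (f x) with hκ
  have hκ1 : ∀ x : K, x ≠ 0 → κ x = clF p k (f x) := fun x hx => if_neg hx
  have hiff : ∀ x : K, x ≠ 0 → ∀ a : k, a ≠ 0 →
      (κ x = clF p k a ↔ ∃ y : K, y ≠ 0 ∧ x = algebraMap k K a * y ^ p) := by
    intro x hx a ha
    rw [hκ1 x hx]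
    constructor
    · intro h
      have h5 := clF_mul p (div_ne_zero (hf0 x hx) ha) ha
      rw [div_mul_cancel₀ _ ha, h] at h5
      have h6 : clF p k (f x / a) = 0 := by
        have := h5.symm
        rwa [add_eq_right] at this
      obtain ⟨b, hb⟩ := (clF_eq_zero p hp.ne_zero (div_ne_zero (hf0 x hx) ha)).1 h6
      have hb0 : b ≠ 0 := by
        rintro rfl
        rw [zero_pow hp.ne_zero] at hb
        exact div_ne_zero (hf0 x hx) ha hb.symm
      refine ⟨algebraMap k K b * g x, mul_ne_zero ((_root_.map_ne_zero _).2 hb0) (hg0 x hx), ?_⟩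
      have h7 : algebraMap k K (f x) = algebraMap k K a * algebraMap k K b ^ p := by
        rw [← map_pow, hb, ← map_mul, mul_div_cancel₀ _ ha]
      rw [mul_pow, ← mul_assoc, ← h7]
      exact hfg x hx
    · rintro ⟨y, hy, hxy⟩
      exact uniq _ _ (hf0 x hx) ha _ _ (hg0 x hx) hy ((hfg x hx).symm.trans hxy)
  refine ⟨⟨κ, ?_, ?_, hiff⟩⟩
  · intro x y hx hy
    rw [hκ1 x hx, hκ1 y hy, ← clF_mul p (hf0 x hx) (hf0 y hy)]
    apply (hiff (x * y) (mul_ne_zero hx hy) _ (mul_ne_zero (hf0 x hx) (hf0 y hy))).2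
    refine ⟨g x * g y, mul_ne_zero (hg0 x hx) (hg0 y hy), ?_⟩
    conv_lhs => rw [hfg x hx, hfg y hy]
    rw [map_mul]
    ring
  · intro a ha
    apply (hiff _ ((_root_.map_ne_zero _).2 ha) a ha).2
    exact ⟨1, one_ne_zero, by rw [one_pow, mul_one]⟩

end Pool.Agent.Lib.MP_2f3286_ag.Ep
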