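import Pool.Agent.Lib.MP_2f3286_ag.Ep.F2
import Pool.Agent.Lib.MP_2f3286_ag.Ep.E3

/-!
# The Steinberg relation in `K`   (module F3, 120 minutes)

PROOF of `stK`. Let `h = Y.κ f`; if `h = 0` the claim is clear (`map_zero`). Let `h ≠ 0`, `t` with `χ h t = 1` (`Chi.exists_one`), `ker = {σ | χ h σ = 0}` (a subgroup: `C.mul`, `Chi.inv`; open, since it contains the open `V` of `C.ker h` (`Subgroup.isOpen_mono`), so closed).
`f = a y ^ p`, `a` in `k`, `y` in `K`, nonzero, `h = clF a` (`clF_surj`, `Y.iff`). `r ∈ kb`, `r ^ p = a` (`IsAlgClosed`), `T = y r ∈ Ω`: `T ^ p = f`. `s σ T = ζ ^ (χ h σ).val T` (`C.root`, `hs.fix`, `hs.sec`).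
`1 - T ∈ fixR s ker`, nonzero as `f ≠ 1`. `kumR`: `1 - T = γ g ^ p`, `γ ∈ fixk ker`, `g ∈ fixR s ker`, nonzero. `∏_{i < p} (1 - ζ ^ i T) = 1 - T ^ p = 1 - f` (`IsPrimitiveRoot.pow_sub_pow_eq_prod_sub_mul` or `X_pow_sub_one_eq_prod`), and `1 - ζ ^ i T = s (t ^ i) (1 - T)` (`χ h (t ^ i) = i`, `Chi.pow`; `(i : ZMod p).val = i` for `i < p`).
So `1 - f = (∏_{i < p} t ^ i γ) * (∏_{i < p} s (t ^ i) g) ^ p`.
`b = ∏_{i < p} t ^ i γ` is fixed by all `σ`: `χ h σ = m`, `σ (t ^ i γ) = t ^ (m + i) γ` (`gam_act`) and `t ^ (i + p) γ = t ^ i γ` (`gam_act` with `m = p`, `σ = t ^ p`... or `t ^ p ∈ ker`), the product over `p` consecutive exponents does not depend on the first one (induction on `m`: `Finset.prod_range_succ`, `prod_range_succ'`). So `b` is in `k`.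
In the same way `g' = ∏_{i < p} s (t ^ i) g` is fixed by all `s σ` (`s σ (s (t ^ i) g) = s (t ^ (m + i)) g` as `σ t ^ i = t ^ (m + i) σ'`, `σ' ∈ ker`), so `g'` is in `K`. `1 - f = b g' ^ p`, `Y.κ (1 - f) = clF b`, and `cup_norm`.
PROOF of `stk`: `stK` for `f = algebraMap k K a`, `Y.alg`.
-/

namespace Pool.Agent.Lib.MP_2f3286_ag.Ep

open Koe

variable {k kb Ω K : Type*} [Field k] [Field kb] [Algebra k kb] [IsGalois k kb] [IsAlgClosed kb]
  [CharZero kb] [Field Ω] [Algebra kb Ω] [Field K] [Algebra k K] [Algebra K Ω] {p : ℕ}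

private theorem f3_per {F : Type*} [Field F] {g : ℕ → F} (h0 : ∀ i, g i ≠ 0) {p : ℕ}
    (hp : ∀ i, g (i + p) = g i) (x : ℕ) :
    ∏ i ∈ Finset.range p, g (x + i) = ∏ i ∈ Finset.range p, g i := by
  induction x with
  | zero => exact Finset.prod_congr rfl fun i _ => by rw [zero_add]
  | succ x ih =>
    have h1 := Finset.prod_range_succ (fun i => g (x + i)) p
    have h2 := Finset.prod_range_succ' (fun i => g (x + i)) p
    rw [h1] at h2
    have h3 : g (x + p) = g (x + 0) := by rw [hp, add_zero]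
    have h4 : ∏ i ∈ Finset.range p, g (x + (i + 1)) = ∏ i ∈ Finset.range p, g (x + i) := by
      rw [h3] at h2
      exact (mul_right_cancel₀ (h0 _) h2).symm
    rw [← ih, ← h4]
    exact Finset.prod_congr rfl fun i _ => by rw [add_right_comm, add_assoc]

private theorem f3_prod {F : Type*} [Field F] {p : ℕ} (hp : 0 < p) {z : F}
    (hz : IsPrimitiveRoot z p) (x : F) :
    ∏ i ∈ Finset.range p, (1 - z ^ i * x) = 1 - x ^ p := by
  have h1 := hz.pow_sub_pow_eq_prod_sub_mul 1 x hp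
  rw [one_pow] at h1
  rw [h1]
  refine Finset.prod_bij (fun i _ => z ^ i) ?_ ?_ ?_ ?_
  · intro i _
    rw [Polynomial.mem_nthRootsFinset hp, ← pow_mul, mul_comm, pow_mul, hz.pow_eq_one, one_pow]
  · intro i hi j hj hij
    exact hz.pow_inj (Finset.mem_range.1 hi) (Finset.mem_range.1 hj) hij
  · intro y hy
    rw [Polynomial.mem_nthRootsFinset hp] at hy
    have : NeZero p := ⟨hp.ne'⟩
    obtain ⟨i, hi, rfl⟩ := hz.eq_pow_of_pow_eq_one hy
    exact ⟨i, Finset.mem_range.2 hi, rfl⟩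
  · intro i _
    rfl

theorem stK [Fact p.Prime] {ζ : k} (hζ : IsPrimitiveRoot ζ p) (C : Chi k kb p ζ)
    {s : Gal(kb/k) →* (Ω ≃+* Ω)} (hs : SecK s p K) (Y : Kap p k K) {f : K} (h0 : f ≠ 0)
    (h1 : f ≠ 1) : cup hζ C (Y.κ f) (Y.κ (1 - f)) = 0 := by
  have hp : p.Prime := Fact.out
  have hp0 : p ≠ 0 := hp.ne_zero
  generalize hh : Y.κ f = h
  by_cases hh0 : h = 0
  · rw [hh0, map_zero, AddMonoidHom.zero_apply]
  obtain ⟨t, ht⟩ := C.exists_one hh0
  -- the kernel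
  let N : Subgroup Gal(kb/k) :=
    { carrier := {σ | C.χ h σ = 0}
      mul_mem' := fun {σ τ} hσ hτ => by
        change C.χ h (σ * τ) = 0
        rw [C.mul, show C.χ h σ = 0 from hσ, show C.χ h τ = 0 from hτ, add_zero]
      one_mem' := C.one h
      inv_mem' := fun {σ} hσ => by
        change C.χ h σ⁻¹ = 0
        rw [C.inv, show C.χ h σ = 0 from hσ, neg_zero] }
  have hN : ∀ σ, σ ∈ N ↔ C.χ h σ = 0 := fun σ => Iff.rfl
  have hNo : IsOpen (N : Set Gal(kb/k)) := by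
    obtain ⟨V, hV, hV0⟩ := C.ker h
    exact Subgroup.isOpen_mono (fun σ hσ => hV0 σ hσ) hV
  have hNc : IsClosed (N : Set Gal(kb/k)) := Subgroup.isClosed_of_isOpen _ hNo
  -- the root
  obtain ⟨a, ha0, ha⟩ := clF_surj p h
  obtain ⟨y, hy0, hy⟩ := (Y.iff f h0 a ha0).1 (hh.trans ha.symm)
  obtain ⟨r, hr⟩ := IsAlgClosed.exists_pow_nat_eq (algebraMap k kb a) hp.pos
  set T : Ω := algebraMap K Ω y * algebraMap kb Ω r with hTdef
  set Z : Ω := algebraMap kb Ω (algebraMap k kb ζ) with hZdef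
  have hZ : IsPrimitiveRoot Z p :=
    (hζ.map_of_injective (algebraMap k kb).injective).map_of_injective
      (algebraMap kb Ω).injective
  have hT : T ^ p = algebraMap K Ω f := by
    rw [hTdef, mul_pow, ← map_pow, ← map_pow, hr, hy, map_mul, hs.tow a, mul_comm]
  have hsT : ∀ σ, s σ T = Z ^ (C.χ h σ).val * T := by
    intro σ
    have h2 := C.root a ha0 r hr σ
    rw [ha] at h2
    rw [hTdef, map_mul, hs.fix, hs.sec, h2, map_mul, map_pow]
    ring
  have hTN : 1 - T ∈ fixR s N := by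
    intro σ hσ
    rw [map_sub, map_one, hsT, (hN σ).1 hσ, ZMod.val_zero, pow_zero, one_mul]
  have hT1 : 1 - T ≠ 0 := by
    intro h2
    have h3 : T = 1 := (sub_eq_zero.1 h2).symm
    rw [h3, one_pow] at hT
    exact h1 ((algebraMap K Ω).injective (by rw [← hT, map_one]))
  obtain ⟨γ, hγN, hγ0, g, hgN, hg0, hγg⟩ := kumR hp hs.toSec hNc hTN hT1
  have hγ : ∀ σ, C.χ h σ = 0 → σ γ = γ := fun σ hσ => hγN σ hσ
  -- the conjugates
  have hχt : ∀ i : ℕ, C.χ h (t ^ i) = i := fun i => by rw [C.pow, ht, mul_one]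
  have hγi0 : ∀ i : ℕ, (t ^ i) γ ≠ 0 := fun i => (_root_.map_ne_zero _).2 hγ0
  have hgi0 : ∀ i : ℕ, s (t ^ i) g ≠ 0 := fun i => (_root_.map_ne_zero _).2 hg0
  have hgact : ∀ (σ : Gal(kb/k)) (m : ℕ), C.χ h σ = m → ∀ n : ℕ,
      s σ (s (t ^ n) g) = s (t ^ (m + n)) g := by
    intro σ m hm n
    have h2 : C.χ h ((t ^ (m + n))⁻¹ * (σ * t ^ n)) = 0 := by
      rw [C.mul, C.mul, C.inv, hχt, hχt, hm, Nat.cast_add]
      ring
    have h3 : s ((t ^ (m + n))⁻¹ * (σ * t ^ n)) g = g := hgN _ h2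
    have h4 : σ * t ^ n = t ^ (m + n) * ((t ^ (m + n))⁻¹ * (σ * t ^ n)) := by
      rw [mul_inv_cancel_left]
    calc s σ (s (t ^ n) g) = s (σ * t ^ n) g := by rw [map_mul]; rfl
      _ = s (t ^ (m + n) * ((t ^ (m + n))⁻¹ * (σ * t ^ n))) g := by rw [← h4]
      _ = s (t ^ (m + n)) (s ((t ^ (m + n))⁻¹ * (σ * t ^ n)) g) := by
        rw [map_mul s (t ^ (m + n))]; rfl
      _ = s (t ^ (m + n)) g := by rw [h3]
  have hγper : ∀ i : ℕ, (t ^ (i + p)) γ = (t ^ i) γ := by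
    intro i
    have h2 := gam_act C ht hγ (σ := t ^ p) (m := 0)
      (by rw [hχt, ZMod.natCast_self, Nat.cast_zero]) i
    rw [zero_add] at h2
    rw [← h2, add_comm, pow_add]
    rfl
  have hgper : ∀ i : ℕ, s (t ^ (i + p)) g = s (t ^ i) g := by
    intro i
    have h2 := hgact (t ^ p) 0 (by rw [hχt, ZMod.natCast_self, Nat.cast_zero]) i
    rw [zero_add] at h2
    rw [← h2, add_comm, pow_add, map_mul]
    rfl
  have hval : ∀ σ : Gal(kb/k), C.χ h σ = (((C.χ h σ).val : ℕ) : ZMod p) := fun σ => by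
    rw [ZMod.natCast_val, ZMod.cast_id]
  -- the norm of `γ`
  obtain ⟨b, hb⟩ : ∃ b : k, algebraMap k kb b = ∏ i ∈ Finset.range p, (t ^ i) γ := by
    rw [← mem_fixk_top]
    intro σ _
    rw [map_prod, ← f3_per (g := fun i => (t ^ i) γ) hγi0 hγper (C.χ h σ).val]
    exact Finset.prod_congr rfl fun i _ => gam_act C ht hγ (hval σ) i
  obtain ⟨G, hG⟩ : ∃ G : K, algebraMap K Ω G = ∏ i ∈ Finset.range p, s (t ^ i) g := by
    refine hs.ofFix _ fun σ => ?_
    rw [map_prod, ← f3_per (g := fun i => s (t ^ i) g) hgi0 hgper (C.χ h σ).val]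
    exact Finset.prod_congr rfl fun i _ => hgact σ _ (hval σ) i
  have hb0 : b ≠ 0 := by
    intro h2
    have h3 : ∏ i ∈ Finset.range p, (t ^ i) γ ≠ 0 := Finset.prod_ne_zero_iff.2 fun i _ => hγi0 i
    rw [← hb, h2, map_zero] at h3
    exact h3 rfl
  have hG0 : G ≠ 0 := by
    intro h2
    have h3 : ∏ i ∈ Finset.range p, s (t ^ i) g ≠ 0 :=
      Finset.prod_ne_zero_iff.2 fun i _ => hgi0 i
    rw [← hG, h2, map_zero] at h3
    exact h3 rfl
  have hmain : 1 - f = algebraMap k K b * G ^ p := by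
    apply (algebraMap K Ω).injective
    rw [map_mul, map_pow, hs.tow, hb, hG, map_prod, ← Finset.prod_pow, ← Finset.prod_mul_distrib,
      map_sub, map_one, ← hT, ← f3_prod hp.pos hZ T]
    refine Finset.prod_congr rfl fun i hi => ?_
    have h2 : s (t ^ i) (1 - T) = 1 - Z ^ i * T := by
      rw [map_sub, map_one, hsT, hχt, ZMod.val_natCast_of_lt (Finset.mem_range.1 hi)]
    rw [← h2, hγg, map_mul, hs.sec, map_pow]
  rw [(Y.iff (1 - f) (sub_ne_zero.2 h1.symm) b hb0).2 ⟨G, hG0, hmain⟩]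
  exact cup_norm hζ C ht hγ0 hγ hb

theorem stk [Fact p.Prime] {ζ : k} (hζ : IsPrimitiveRoot ζ p) (C : Chi k kb p ζ)
    {s : Gal(kb/k) →* (Ω ≃+* Ω)} (hs : SecK s p K) (Y : Kap p k K) {a : k} (h0 : a ≠ 0)
    (h1 : a ≠ 1) : cup hζ C (clF p k a) (clF p k (1 - a)) = 0 := by
  have h2 := stK hζ C hs Y (f := algebraMap k K a) ((_root_.map_ne_zero _).2 h0)
    (fun h => h1 ((algebraMap k K).injective (by rw [h, map_one])))
  rw [Y.alg a h0, ← map_one (algebraMap k K), ← map_sub,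
    Y.alg (1 - a) (sub_ne_zero.2 h1.symm)] at h2
  exact h2

end Pool.Agent.Lib.MP_2f3286_ag.Ep
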