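import Pool.Agent.Lib.MP_2f3286_ag.Ep.F3
import Pool.Agent.Lib.MP_2f3286_ag.Ep.C5
import Pool.Agent.Lib.MP_2f3286_ag.Ep.D6
import Pool.Agent.Lib.MP_2f3286_ag.Ep.E5

/-!
# The data of a local field with a section   (module F4, 40 minutes)

PROOF. `exists_base hd hp2 hζ`: `X₀ : Base p k (Hp p k)`, `a₀`. `exists_chi hζ`: `C`. `Pre`: `toBase := X₀`, `B := cup hζ C` (`Z = Zc k kb`), `alt` from `cup_self`, `st` from `stk` (`X₀.cl = clF p k`), `ram` from `ram_cup` (`X₀.ε = clF p k a₀`, `X₀.v = vk k v`). `exists_dat` gives the `Dat`; the last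
clause from `stK` and the last clause of `exists_dat`.
-/

namespace Pool.Agent.Lib.MP_2f3286_ag.Ep

open Koe

variable {k kb Ω K : Type*} [Field k] [Field kb] [Algebra k kb] [IsGalois k kb] [IsAlgClosed kb]
  [CharZero kb] [Field Ω] [Algebra kb Ω] [Field K] [Algebra k K] [Algebra K Ω] {p : ℕ}
  {v : AbsoluteValue kb ℝ}

theorem exists_dat0 [Fact p.Prime] (hd : LocData v (⊤ : Subgroup Gal(kb/k)) p) (hp2 : p ≠ 2)
    {ζ : k} (hζ : IsPrimitiveRoot ζ p) {s : Gal(kb/k) →* (Ω ≃+* Ω)} (hs : SecK s p K)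
    (Y : Kap p k K) :
    ∃ X : Dat p k (Hp p k), X.v = vk k v ∧ X.cl = clF p k ∧
      X.v X.π ^ X.N = vk k v (1 - ζ) ^ p ∧
      ∀ x : K, x ≠ 0 → x ≠ 1 → X.ω (Y.κ x) (Y.κ (1 - x)) = 0 := by
  obtain ⟨X₀, hv, hcl, hN, a₀, ha0, hε, hnp, hav⟩ := exists_base hd hp2 hζ
  obtain ⟨C⟩ := exists_chi (kb := kb) hζ
  obtain ⟨D, hD, hDB⟩ := exists_dat (p := p)
    ({ X₀ with
        B := cup hζ C
        alt := fun h => cup_self hp2 hζ C h
        st := fun x h0 h1 => by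
          rw [hcl]
          exact stk hζ C hs Y h0 h1
        ram := fun b hb hcup => by
          rw [hε, hcl] at hcup
          obtain ⟨c, hc⟩ := ram_cup hd hp2 hζ C ha0 hnp hav hb hcup
          exact ⟨c, by rw [hv]; exact hc⟩ } : Pre p k (Hp p k) (Zc k kb))
  have e : D.toBase = X₀ := hD
  refine ⟨D, ?_, ?_, ?_, fun x h0 h1 => hDB _ _ (stK hζ C hs Y h0 h1)⟩
  · rw [e]; exact hv
  · rw [e]; exact hcl
  · rw [e]; exact hN

end Pool.Agent.Lib.MP_2f3286_ag.Ep
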