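import Pool.Agent.Lib.MP_2f3286_ag.Ep.F2

/-!
# The completion of `k` in `Fb`   (module F5, 120 minutes)

`clo`: the closure of the image of `k` in `Fb`. PROOFS. `clo` is a subfield: sums and products by the ultrametric inequality, inverses: `z ≠ 0`, `w (a - z) < min (w z) (ρ (w z) ^ 2)`: `w a = w z`, `w (a⁻¹ - z⁻¹) = w (a - z) / (w z) ^ 2`.
PROOF of `exists_pl`. `j a = ⟨ι (algebraMap k kb a), _⟩`, `w z = w (z : Fb)` (`AbsoluteValue.comp` with the inclusion). `wj`: `hc.iso`. `dense` from the definition of `clo`. `ch z`: for `z ≠ 0` choose `a` in `k` with `w (j a - z) < w z * X.v X.π ^ X.N`, `ch z = clF p k a`; `ch 0 = 0`.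
WELL: if `a`, `a'` both satisfy `w (j a - z) < w z * q`, `q = X.v X.π ^ X.N < 1`, then `X.v a = X.v a' = w z`, `X.v (a - a') < w z * q`, `x = 1 - a / a'` has `X.v x < q`, so `X.cl (a / a') = X.cl (1 - x) = 0` (`X.small`), `X.cl a = X.cl a'`. From WELL: `ch_j`; `ch_mul`: if `a` is near `x`, `b` near `y` (relative distance `< q`),
then `a b` is near `x y`; `ch_small`: `w x < q`: `1` is near `1 - x` (`w (1 - x) = 1`), `ch (1 - x) = cl 1 = 0`.
`lim`: `X.v p = X.v π ^ e`, `e ≥ 1` natural (`X.disc`, `hd.small`, `p ≠ 0`). Given `a` with `X.v (a (n + 1) - a n) ≤ X.v π ^ n`: `b n = a (e n)` satisfies `X.v (b (n + 1) - b n) ≤ X.v π ^ (e n) = v p ^ n` (ultrametric, induction on the number of steps); `hc.lim`: `z` with `w (ι (b n) - z) ≤ v p ^ n`. For `n`: with `m = n` (`e n ≥ n`):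
`w (ι (a n) - z) ≤ max (v (a n - a (e n))) (w (ι (b n) - z)) ≤ X.v π ^ n`. `z` is in `clo` since `v p ^ n → 0`.
-/

namespace Pool.Agent.Lib.MP_2f3286_ag.Ep

open Koe

variable {k kb K : Type*} [Field k] [Field kb] [Algebra k kb] [IsGalois k kb] [IsAlgClosed kb]
  [CharZero kb] [Field K] [Algebra k K] {p : ℕ}
  {v : AbsoluteValue kb ℝ} {Fb : Type*} [Field Fb]

private theorem f5_eq {F : Type*} [Field F] {w : AbsoluteValue F ℝ}
    (hw : ∀ a b, w (a + b) ≤ max (w a) (w b)) {a z : F} (h : w (a - z) < w z) : w a = w z := by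
  have h1 : w a ≤ w z := by
    have h2 := hw (a - z) z
    rw [sub_add_cancel] at h2
    exact h2.trans (max_le h.le le_rfl)
  refine le_antisymm h1 ?_
  by_contra hlt
  push Not at hlt
  have h3 := hw a (-(a - z))
  rw [show a + -(a - z) = z by ring, w.map_neg] at h3
  exact absurd h3 (not_le.2 (max_lt hlt h))

/-- the closure of the image of `k` in `Fb` -/
def clo (k : Type*) [Field k] [Algebra k kb] (w : AbsoluteValue Fb ℝ)
    (hw : ∀ a b, w (a + b) ≤ max (w a) (w b)) (ι : kb →+* Fb) : Subfield Fb where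
  carrier := {z | ∀ ρ : ℝ, 0 < ρ → ∃ a : k, w (ι (algebraMap k kb a) - z) < ρ}
  mul_mem' := by
    intro z z' hz hz' ρ hρ
    have hM : 0 < 1 + w z' := by have := w.nonneg z'; linarith
    have hM' : 0 < 1 + w z := by have := w.nonneg z; linarith
    obtain ⟨a, ha⟩ := hz (ρ / (1 + w z')) (div_pos hρ hM)
    obtain ⟨b, hb⟩ := hz' (min 1 (ρ / (1 + w z))) (lt_min one_pos (div_pos hρ hM'))
    have hb1 : w (ι (algebraMap k kb b) - z') < 1 := lt_of_lt_of_le hb (min_le_left _ _)
    have hb2 : w (ι (algebraMap k kb b) - z') < ρ / (1 + w z) :=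
      lt_of_lt_of_le hb (min_le_right _ _)
    have hb3 : w (ι (algebraMap k kb b)) ≤ 1 + w z' := by
      have h2 := w.add_le (ι (algebraMap k kb b) - z') z'
      rw [sub_add_cancel] at h2
      linarith
    refine ⟨a * b, ?_⟩
    have e1 : ι (algebraMap k kb (a * b)) - z * z' =
        (ι (algebraMap k kb a) - z) * ι (algebraMap k kb b) +
          z * (ι (algebraMap k kb b) - z') := by
      rw [map_mul, map_mul]; ring
    rw [e1]
    refine lt_of_le_of_lt (hw _ _) (max_lt ?_ ?_)
    · rw [w.map_mul]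
      calc w (ι (algebraMap k kb a) - z) * w (ι (algebraMap k kb b))
          ≤ w (ι (algebraMap k kb a) - z) * (1 + w z') :=
            mul_le_mul_of_nonneg_left hb3 (w.nonneg _)
        _ < ρ / (1 + w z') * (1 + w z') := mul_lt_mul_of_pos_right ha hM
        _ = ρ := div_mul_cancel₀ _ hM.ne'
    · rw [w.map_mul]
      calc w z * w (ι (algebraMap k kb b) - z')
          ≤ (1 + w z) * w (ι (algebraMap k kb b) - z') :=
            mul_le_mul_of_nonneg_right (by linarith) (w.nonneg _)
        _ < (1 + w z) * (ρ / (1 + w z)) := mul_lt_mul_of_pos_left hb2 hM'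
        _ = ρ := mul_div_cancel₀ _ hM'.ne'
  one_mem' := fun ρ hρ => ⟨1, by rw [map_one, map_one, sub_self, map_zero]; exact hρ⟩
  add_mem' := by
    intro z z' hz hz' ρ hρ
    obtain ⟨a, ha⟩ := hz ρ hρ
    obtain ⟨b, hb⟩ := hz' ρ hρ
    refine ⟨a + b, ?_⟩
    have e1 : ι (algebraMap k kb (a + b)) - (z + z') =
        (ι (algebraMap k kb a) - z) + (ι (algebraMap k kb b) - z') := by
      rw [map_add, map_add]; ring
    rw [e1]
    exact lt_of_le_of_lt (hw _ _) (max_lt ha hb)
  zero_mem' := fun ρ hρ => ⟨0, by rw [map_zero, map_zero, sub_self, map_zero]; exact hρ⟩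
  neg_mem' := by
    intro z hz ρ hρ
    obtain ⟨a, ha⟩ := hz ρ hρ
    refine ⟨-a, ?_⟩
    have e1 : ι (algebraMap k kb (-a)) - -z = -(ι (algebraMap k kb a) - z) := by
      rw [map_neg, map_neg]; ring
    rw [e1, w.map_neg]
    exact ha
  inv_mem' := by
    intro z hz ρ hρ
    rcases eq_or_ne z 0 with h0 | h0
    · refine ⟨0, ?_⟩
      rw [h0, map_zero, map_zero, inv_zero, sub_zero, map_zero]
      exact hρ
    · have hz0 : 0 < w z := w.pos h0
      obtain ⟨a, ha⟩ := hz (min (w z) (ρ * w z ^ 2)) (lt_min hz0 (by positivity))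
      have ha1 : w (ι (algebraMap k kb a) - z) < w z := lt_of_lt_of_le ha (min_le_left _ _)
      have ha2 : w (ι (algebraMap k kb a) - z) < ρ * w z ^ 2 :=
        lt_of_lt_of_le ha (min_le_right _ _)
      have hwa : w (ι (algebraMap k kb a)) = w z := f5_eq hw ha1
      have ha0 : ι (algebraMap k kb a) ≠ 0 := by
        intro h
        rw [h, map_zero] at hwa
        exact hz0.ne hwa
      refine ⟨a⁻¹, ?_⟩
      have e1 : ι (algebraMap k kb a⁻¹) - z⁻¹ =
          -(ι (algebraMap k kb a) - z) * ((ι (algebraMap k kb a))⁻¹ * z⁻¹) := by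
        rw [map_inv₀, map_inv₀]
        field_simp
        ring
      rw [e1, w.map_mul, w.map_neg, w.map_mul, map_inv₀, map_inv₀, hwa]
      have e2 : w (ι (algebraMap k kb a) - z) * ((w z)⁻¹ * (w z)⁻¹) =
          w (ι (algebraMap k kb a) - z) / w z ^ 2 := by
        field_simp
      rw [e2, div_lt_iff₀ (by positivity)]
      exact ha2

theorem mem_clo {w : AbsoluteValue Fb ℝ} {hw : ∀ a b, w (a + b) ≤ max (w a) (w b)}
    {ι : kb →+* Fb} {z : Fb} : z ∈ clo k w hw ι ↔
      ∀ ρ : ℝ, 0 < ρ → ∃ a : k, w (ι (algebraMap k kb a) - z) < ρ := Iff.rfl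

theorem exists_pl (hd : LocData v (⊤ : Subgroup Gal(kb/k)) p) {w : AbsoluteValue Fb ℝ}
    {ι : kb →+* Fb} (hc : Cpl0 k v p w ι) (X : Dat p k (Hp p k)) (hX : X.v = vk k v)
    (hcl : X.cl = clF p k) (Y : Kap p k K)
    (hst : ∀ x : K, x ≠ 0 → x ≠ 1 → X.ω (Y.κ x) (Y.κ (1 - x)) = 0) :
    ∃ P : Pl X K (clo k w hc.na ι), P.κ = Y.κ ∧ (∀ z, P.w z = w z) ∧
      ∀ a, (P.j a : Fb) = ι (algebraMap k kb a) := by
  classical
  have hck : CharZero k := (algebraMap k kb).charZero_iff (algebraMap k kb).injective |>.2 inferInstance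
  set q : ℝ := X.v X.π ^ X.N with hq
  have hq0 : 0 < q := pow_pos X.π_pos _
  have hN0 : X.N ≠ 0 := by have := X.N_two; omega
  have hq1 : q < 1 := pow_lt_one₀ X.π_pos.le X.π_lt hN0
  have hXv : ∀ a : k, w (ι (algebraMap k kb a)) = X.v a := by
    intro a
    rw [hc.iso, hX]
    rfl
  have hcl1 : X.cl 1 = 0 := by
    have h1 := X.cl_mul 1 1 one_ne_zero one_ne_zero
    rw [one_mul] at h1
    exact left_eq_add.1 h1
  -- the classes of two near elements are equal
  have hwell : ∀ (z : Fb) (a a' : k), z ≠ 0 → w (ι (algebraMap k kb a) - z) < w z * q →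
      w (ι (algebraMap k kb a') - z) < w z * q → X.cl a = X.cl a' := by
    intro z a a' hz ha ha'
    have hz0 : 0 < w z := w.pos hz
    have hzq : w z * q < w z := by nlinarith
    have h1 : X.v a = w z := by rw [← hXv]; exact f5_eq hc.na (ha.trans hzq)
    have h2 : X.v a' = w z := by rw [← hXv]; exact f5_eq hc.na (ha'.trans hzq)
    have ha0 : a ≠ 0 := by
      intro h
      rw [h, map_zero] at h1
      exact hz0.ne h1
    have ha0' : a' ≠ 0 := by
      intro h
      rw [h, map_zero] at h2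
      exact hz0.ne h2
    have h3 : X.v (a' - a) < w z * q := by
      rw [← hXv, map_sub, map_sub]
      have e1 : ι (algebraMap k kb a') - ι (algebraMap k kb a) =
          (ι (algebraMap k kb a') - z) + -(ι (algebraMap k kb a) - z) := by ring
      rw [e1]
      refine lt_of_le_of_lt (hc.na _ _) (max_lt ha' ?_)
      rw [w.map_neg]
      exact ha
    have h4 : X.cl (1 - (a' - a) / a') = 0 := by
      apply X.small
      rw [map_div₀, h2, div_lt_iff₀ hz0, mul_comm]
      exact h3
    have h5 : 1 - (a' - a) / a' = a / a' := by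
      field_simp
      ring
    have h6 : X.cl a = X.cl (a / a') + X.cl a' := by
      rw [← X.cl_mul _ _ (div_ne_zero ha0 ha0') ha0', div_mul_cancel₀ _ ha0']
    rw [h6, ← h5, h4, zero_add]
  have hch : ∀ z : clo k w hc.na ι, ∃ h : Hp p k, ∀ a : k, (z : Fb) ≠ 0 →
      w (ι (algebraMap k kb a) - z) < w z * q → X.cl a = h := by
    intro z
    rcases eq_or_ne (z : Fb) 0 with h0 | h0
    · exact ⟨0, fun a h => absurd h0 h⟩
    · obtain ⟨a0, ha0⟩ := z.2 (w z * q) (mul_pos (w.pos h0) hq0)
      exact ⟨X.cl a0, fun a _ ha => hwell z a a0 h0 ha ha0⟩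
  choose ch hch1 using hch
  -- the exponent
  have hp0 : (p : k) ≠ 0 := by exact_mod_cast hd.prime.ne_zero
  have hvp : v (p : kb) = X.v (p : k) := by
    rw [hX, vk_apply, map_natCast (algebraMap k kb)]
  obtain ⟨e, he0, he⟩ : ∃ e : ℕ, 1 ≤ e ∧ v (p : kb) = X.v X.π ^ e := by
    obtain ⟨n, hn⟩ := X.disc (p : k) hp0
    have hn0 : 0 < n := by
      by_contra hneg
      push Not at hneg
      have h1 : 1 ≤ X.v X.π ^ n := by
        obtain ⟨m, hm⟩ := Int.eq_ofNat_of_zero_le (neg_nonneg.2 hneg)
        have hnm : n = -(m : ℤ) := by omega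
        rw [hnm, zpow_neg, zpow_natCast]
        exact (one_le_inv₀ (pow_pos X.π_pos _)).2 (pow_le_one₀ X.π_pos.le X.π_lt.le)
      have h2 := hd.small
      rw [hvp, hn] at h2
      exact absurd h2 (not_lt.2 h1)
    obtain ⟨m, hm⟩ := Int.eq_ofNat_of_zero_le hn0.le
    refine ⟨m, by omega, ?_⟩
    rw [hvp, hn, hm, zpow_natCast]
  let jj : k →+* clo k w hc.na ι := ((ι.comp (algebraMap k kb)).codRestrict (clo k w hc.na ι)
    (fun a ρ hρ => ⟨a, by rw [RingHom.comp_apply, sub_self, map_zero]; exact hρ⟩))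
  have hjj : ∀ a, (jj a : Fb) = ι (algebraMap k kb a) := fun a => rfl
  let ww : AbsoluteValue (clo k w hc.na ι) ℝ :=
    w.comp (f := (clo k w hc.na ι).subtype) (clo k w hc.na ι).subtype.injective
  have hww : ∀ z, ww z = w z := fun z => rfl
  refine ⟨{ κ := Y.κ
            κ_mul := Y.mul
            κ_alg := fun a ha => by rw [hcl]; exact Y.alg a ha
            κ_st := hst
            w := ww
            wna := fun a b => hc.na a b
            j := jj
            wj := fun a => by rw [hww, hjj, hXv]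
            dense := fun z ρ hρ => z.2 ρ hρ
            lim := ?_
            ch := ch
            ch_mul := ?_
            ch_j := ?_
            ch_small := ?_ }, rfl, hww, hjj⟩
  · -- limits
    intro a ha
    have hstep : ∀ m n, X.v (a (n + m) - a n) ≤ X.v X.π ^ n := by
      intro m n
      induction m with
      | zero => rw [add_zero, sub_self, map_zero]; exact (pow_pos X.π_pos _).le
      | succ m ih =>
        have e1 : a (n + (m + 1)) - a n = (a (n + m + 1) - a (n + m)) + (a (n + m) - a n) := by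
          rw [← add_assoc]; ring
        rw [e1]
        refine (X.na _ _).trans (max_le ((ha (n + m)).trans ?_) ih)
        exact pow_le_pow_of_le_one X.π_pos.le X.π_lt.le (Nat.le_add_right n m)
    obtain ⟨z, hz⟩ := hc.lim (fun n => a (e * n)) (fun n => by
      have h1 := hstep e (e * n)
      rw [he, ← pow_mul, ← hX]
      have e1 : e * (n + 1) = e * n + e := by ring
      rw [e1]
      exact h1)
    have hvp0 : 0 < v (p : kb) := by rw [he]; exact pow_pos X.π_pos _
    have hzc : z ∈ clo k w hc.na ι := by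
      intro ρ hρ
      obtain ⟨n, hn⟩ := exists_pow_lt_of_lt_one hρ hd.small
      exact ⟨a (e * n), lt_of_le_of_lt (hz n) hn⟩
    refine ⟨⟨z, hzc⟩, fun n => ?_⟩
    rw [hww]
    have hle : n ≤ e * n := Nat.le_mul_of_pos_left n (by omega)
    obtain ⟨m, hm⟩ := Nat.exists_eq_add_of_le hle
    have e1 : ((jj (a n) - (⟨z, hzc⟩ : clo k w hc.na ι) : clo k w hc.na ι) : Fb) =
        -(ι (algebraMap k kb (a (e * n) - a n))) + (ι (algebraMap k kb (a (e * n))) - z) := by
      rw [show ((jj (a n) - (⟨z, hzc⟩ : clo k w hc.na ι) : clo k w hc.na ι) : Fb) =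
        (jj (a n) : Fb) - z from rfl, hjj, map_sub, map_sub]
      ring
    rw [e1]
    refine (hc.na _ _).trans (max_le ?_ ?_)
    · rw [w.map_neg, hXv, hm]
      exact hstep m n
    · refine (hz n).trans ?_
      rw [he, ← pow_mul]
      exact pow_le_pow_of_le_one X.π_pos.le X.π_lt.le hle
  · -- multiplicativity
    intro x y hx hy
    have hx0 : (x : Fb) ≠ 0 := fun h => hx (Subtype.ext h)
    have hy0 : (y : Fb) ≠ 0 := fun h => hy (Subtype.ext h)
    have hxw : 0 < w x := w.pos hx0
    have hyw : 0 < w y := w.pos hy0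
    obtain ⟨a, ha⟩ := x.2 (w x * q) (mul_pos hxw hq0)
    obtain ⟨b, hb⟩ := y.2 (w y * q) (mul_pos hyw hq0)
    have hxq : w x * q < w x := by nlinarith
    have hyq : w y * q < w y := by nlinarith
    have hwa : w (ι (algebraMap k kb a)) = w x := f5_eq hc.na (ha.trans hxq)
    have hwb : w (ι (algebraMap k kb b)) = w y := f5_eq hc.na (hb.trans hyq)
    have ha0 : a ≠ 0 := by
      intro h
      rw [h, map_zero, map_zero, map_zero] at hwa
      exact hxw.ne hwa
    have hb0 : b ≠ 0 := by
      intro h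
      rw [h, map_zero, map_zero, map_zero] at hwb
      exact hyw.ne hwb
    have hab : w (ι (algebraMap k kb (a * b)) - ((x * y : clo k w hc.na ι) : Fb)) <
        w ((x * y : clo k w hc.na ι) : Fb) * q := by
      have e1 : ι (algebraMap k kb (a * b)) - ((x * y : clo k w hc.na ι) : Fb) =
          (ι (algebraMap k kb a) - x) * ι (algebraMap k kb b) +
            x * (ι (algebraMap k kb b) - y) := by
        rw [map_mul, map_mul]
        push_cast
        ring
      rw [e1]
      push_cast
      rw [w.map_mul]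
      refine lt_of_le_of_lt (hc.na _ _) (max_lt ?_ ?_)
      · rw [w.map_mul, hwb]
        calc w (ι (algebraMap k kb a) - x) * w y < w x * q * w y :=
              mul_lt_mul_of_pos_right ha hyw
          _ = w x * w y * q := by ring
      · rw [w.map_mul]
        calc w x * w (ι (algebraMap k kb b) - y) < w x * (w y * q) :=
              mul_lt_mul_of_pos_left hb hxw
          _ = w x * w y * q := by ring
    have hxy0 : ((x * y : clo k w hc.na ι) : Fb) ≠ 0 := by
      push_cast
      exact mul_ne_zero hx0 hy0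
    rw [← hch1 (x * y) (a * b) hxy0 hab, ← hch1 x a hx0 ha, ← hch1 y b hy0 hb]
    exact X.cl_mul a b ha0 hb0
  · intro a ha
    have h0 : (jj a : Fb) ≠ 0 := by
      rw [hjj]
      intro h
      have h1 := hXv a
      rw [h, map_zero] at h1
      exact ha ((AbsoluteValue.eq_zero _).1 h1.symm)
    refine (hch1 (jj a) a h0 ?_).symm
    rw [hjj, sub_self, map_zero, hXv]
    exact mul_pos (X.v.pos ha) hq0
  · intro x hx
    have hx' : w x < q := hx
    have h1 : w ((1 - x : clo k w hc.na ι) : Fb) = 1 := by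
      have h2 : w (((1 - x : clo k w hc.na ι) : Fb) - 1) < w 1 := by
        have e1 : ((1 - x : clo k w hc.na ι) : Fb) - 1 = -x := by
          push_cast
          ring
        rw [e1, w.map_neg, w.map_one]
        exact hx'.trans hq1
      rw [f5_eq hc.na h2, w.map_one]
    have h0 : ((1 - x : clo k w hc.na ι) : Fb) ≠ 0 := by
      intro h
      rw [h, map_zero] at h1
      exact zero_ne_one h1
    have h3 := hch1 (1 - x) 1 h0 (by
      rw [h1, one_mul, map_one, map_one]
      have e1 : (1 : Fb) - ((1 - x : clo k w hc.na ι) : Fb) = x := by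
        push_cast
        ring
      rw [e1]
      exact hx')
    rw [← h3, hcl1]

end Pool.Agent.Lib.MP_2f3286_ag.Ep
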