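import Pool.Agent.Lib.MP_2f3286_ag.Ep.F4
import Pool.Agent.Lib.MP_2f3286_ag.Ep.F5
import Pool.Agent.Lib.MP_2f3286_ag.Ep.B5

/-!
# `IsVal` and `IsV0`   (module F6, 80 minutes)

`P` is a `Pl` as in `exists_pl`. PROOF of `isV0_iff`. (⇒) `IsVal x z` for `z` in `clo`. First clause of `IsV0`: `mem_clo`. Let `ι c ≠ z`: `x ≠ c`, `κ (x - c) = ch (z - j c)`. Choose `b` in `k` (`P.dense` for `z - j c`) with `w (j b - (z - j c)) < w (z - j c) * min (v p ^ 2) (X.v X.π ^ X.N)`; then `b ≠ 0`,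
`ch (j b) = ch (z - j c)` (`ch_near`), so `κ (x - c) = clF p k b` (`ch_j`), `Y.iff` gives `g`. (⇐) `z ∈ clo` by the first clause. `j c ≠ z`: `b`, `g` with `x - c = b g ^ p`, `w (j b - (z - j c)) < w (z - j c) * v p ^ 2 ≤ w (z - j c) * X.v X.π ^ X.N` (`p_small` and `hN`). So `w (j b) = w (z - j c) ≠ 0` (`v p < 1`), `b ≠ 0`, `x - c ≠ 0`,
`κ (x - c) = clF b = ch (j b) = ch (z - j c)` (`ch_near`).

PROOF of `v0_all`. `exists_kap`, `exists_dat0`, `exists_pl`; `2 ≠ 0` in `clo` (characteristic zero: `ι` is injective). `or_`: `val_or`; `uni`: `val_unique`; `add`: `val_add`, `mul`: `val_mul`, `alg`: `val_alg`; everything through `isV0_iff`.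
-/

namespace Pool.Agent.Lib.MP_2f3286_ag.Ep

open Koe

variable {k kb Ω K : Type*} [Field k] [Field kb] [Algebra k kb] [IsGalois k kb] [IsAlgClosed kb]
  [CharZero kb] [Field Ω] [Algebra kb Ω] [Field K] [Algebra k K] [Algebra K Ω] {p : ℕ}
  {v : AbsoluteValue kb ℝ} {Fb : Type*} [Field Fb]

/-- the values of the elements of `K` -/
structure V0 (k K : Type*) {kb Fb : Type*} [Field k] [Field kb] [Algebra k kb] [Field K]
    [Algebra k K] [Field Fb] (v : AbsoluteValue kb ℝ) (w : AbsoluteValue Fb ℝ) (ι : kb →+* Fb)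
    (p : ℕ) : Prop where
  or_ : ∀ x : K, (∃ z, IsV0 k v w ι p x z) ∨ (x ≠ 0 ∧ IsV0 k v w ι p x⁻¹ 0)
  uni : ∀ (x : K) z z', IsV0 k v w ι p x z → IsV0 k v w ι p x z' → z = z'
  add : ∀ (x y : K) z z', IsV0 k v w ι p x z → IsV0 k v w ι p y z' →
    IsV0 k v w ι p (x + y) (z + z')
  mul : ∀ (x y : K) z z', IsV0 k v w ι p x z → IsV0 k v w ι p y z' →
    IsV0 k v w ι p (x * y) (z * z')
  alg : ∀ a : k, IsV0 k v w ι p (algebraMap k K a) (ι (algebraMap k kb a))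

theorem isV0_iff [Fact p.Prime] (hd : LocData v (⊤ : Subgroup Gal(kb/k)) p)
    {ζ : k} (hζ : IsPrimitiveRoot ζ p) {w : AbsoluteValue Fb ℝ}
    {ι : kb →+* Fb} (hc : Cpl0 k v p w ι) {X : Dat p k (Hp p k)} (hX : X.v = vk k v)
    (hcl : X.cl = clF p k) (hN : X.v X.π ^ X.N = vk k v (1 - ζ) ^ p) {Y : Kap p k K}
    (P : Pl X K (clo k w hc.na ι)) (hκ : P.κ = Y.κ) (hw : ∀ z, P.w z = w z)
    (hj : ∀ a, (P.j a : Fb) = ι (algebraMap k kb a)) {x : K} {z : Fb} :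
    IsV0 k v w ι p x z ↔ ∃ h : z ∈ clo k w hc.na ι, P.IsVal x ⟨z, h⟩ := by
  have hp0 : v (p : kb) ≠ 0 :=
    (map_ne_zero v).mpr (Nat.cast_ne_zero.mpr (Fact.out : p.Prime).ne_zero)
  have hvp : 0 < v (p : kb) := lt_of_le_of_ne (v.nonneg _) hp0.symm
  have hle : X.v X.π ^ X.N ≤ 1 := pow_le_one₀ X.π_pos.le X.π_lt.le
  have hpN : 0 < X.v X.π ^ X.N := pow_pos X.π_pos _
  have hps : v (p : kb) ^ 2 ≤ X.v X.π ^ X.N := by
    rw [hN]; exact p_small hd hζ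
  have hjc : ∀ (h : z ∈ clo k w hc.na ι) (c : k), P.j c ≠ ⟨z, h⟩ ↔
      ι (algebraMap k kb c) ≠ z := by
    intro h c
    rw [not_iff_not, Subtype.ext_iff, hj]
  have hwt : ∀ (h : z ∈ clo k w hc.na ι) (c : k), P.w (⟨z, h⟩ - P.j c) =
      w (z - ι (algebraMap k kb c)) := by
    intro h c
    rw [hw]
    congr 1
    push_cast
    rw [hj]
  have hwb : ∀ (h : z ∈ clo k w hc.na ι) (b c : k), P.w (P.j b - (⟨z, h⟩ - P.j c)) =
      w (ι (algebraMap k kb b) - (z - ι (algebraMap k kb c))) := by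
    intro h b c
    rw [hw]
    congr 1
    push_cast
    rw [hj, hj]
  constructor
  · rintro ⟨h1, h2⟩
    refine ⟨mem_clo.mpr h1, fun c hc' => ?_⟩
    obtain ⟨b, hb, g, hg, hx⟩ := h2 c ((hjc (mem_clo.mpr h1) c).mp hc')
    have ht : (⟨z, mem_clo.mpr h1⟩ : clo k w hc.na ι) - P.j c ≠ 0 := sub_ne_zero.mpr hc'.symm
    have hwpos : 0 < P.w (⟨z, mem_clo.mpr h1⟩ - P.j c) := P.w.pos ht
    have hb' : P.w (P.j b - (⟨z, mem_clo.mpr h1⟩ - P.j c)) <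
        P.w (⟨z, mem_clo.mpr h1⟩ - P.j c) * X.v X.π ^ X.N := by
      rw [hwb, hwt]
      refine lt_of_lt_of_le hb (mul_le_mul_of_nonneg_left hps (w.nonneg _))
    have hbne : b ≠ 0 := by
      rintro rfl
      rw [map_zero, zero_sub, P.w.map_neg] at hb'
      exact absurd hb' (not_lt.mpr (mul_le_of_le_one_right hwpos.le hle))
    have hx0 : x - algebraMap k K c ≠ 0 := by
      rw [hx]
      exact mul_ne_zero ((map_ne_zero _).mpr hbne) (pow_ne_zero _ hg)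
    refine ⟨fun h => hx0 (sub_eq_zero.mpr h), ?_⟩
    have h3 : Y.κ (x - algebraMap k K c) = clF p k b := (Y.iff _ hx0 b hbne).mpr ⟨g, hg, hx⟩
    have h4 := P.ch_near ht hb'
    rw [P.ch_j b hbne] at h4
    rw [hκ, h3, ← h4, hcl]
  · rintro ⟨h, h2⟩
    refine ⟨mem_clo.mp h, fun c hc' => ?_⟩
    obtain ⟨hx, hk⟩ := h2 c ((hjc h c).mpr hc')
    have ht : (⟨z, h⟩ : clo k w hc.na ι) - P.j c ≠ 0 := sub_ne_zero.mpr ((hjc h c).mpr hc').symm
    have hwpos : 0 < P.w (⟨z, h⟩ - P.j c) := P.w.pos ht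
    have hm : 0 < min (v (p : kb) ^ 2) (X.v X.π ^ X.N) := lt_min (pow_pos hvp 2) hpN
    obtain ⟨b, hb⟩ := P.dense (⟨z, h⟩ - P.j c) _ (mul_pos hwpos hm)
    have hb1 : P.w (P.j b - (⟨z, h⟩ - P.j c)) < P.w (⟨z, h⟩ - P.j c) * v (p : kb) ^ 2 :=
      lt_of_lt_of_le hb (mul_le_mul_of_nonneg_left (min_le_left _ _) hwpos.le)
    have hb2 : P.w (P.j b - (⟨z, h⟩ - P.j c)) < P.w (⟨z, h⟩ - P.j c) * X.v X.π ^ X.N :=
      lt_of_lt_of_le hb (mul_le_mul_of_nonneg_left (min_le_right _ _) hwpos.le)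
    have hbne : b ≠ 0 := by
      rintro rfl
      rw [map_zero, zero_sub, P.w.map_neg] at hb2
      exact absurd hb2 (not_lt.mpr (mul_le_of_le_one_right hwpos.le hle))
    have hx0 : x - algebraMap k K c ≠ 0 := sub_ne_zero.mpr hx
    have h4 := P.ch_near ht hb2
    rw [P.ch_j b hbne] at h4
    rw [hκ, ← h4, hcl] at hk
    obtain ⟨g, hg, hxg⟩ := (Y.iff _ hx0 b hbne).mp hk
    refine ⟨b, ?_, g, hg, hxg⟩
    rw [hwb, hwt] at hb1
    exact hb1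

theorem v0_all [Fact p.Prime] (hd : LocData v (⊤ : Subgroup Gal(kb/k)) p) (hp2 : p ≠ 2)
    {ζ : k} (hζ : IsPrimitiveRoot ζ p) {s : Gal(kb/k) →* (Ω ≃+* Ω)} (hs : SecK s p K)
    {w : AbsoluteValue Fb ℝ} {ι : kb →+* Fb} (hc : Cpl0 k v p w ι) : V0 k K v w ι p := by
  obtain ⟨Y⟩ := exists_kap (Fact.out : p.Prime) hs
  obtain ⟨X, hX, hcl, hN, hst⟩ := exists_dat0 hd hp2 hζ hs Y
  obtain ⟨P, hκ, hw, hj⟩ := exists_pl hd hc X hX hcl Y hst
  have h2 : (2 : clo k w hc.na ι) ≠ 0 := by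
    intro h
    have h1 : (clo k w hc.na ι).subtype 2 = 0 := by rw [h, map_zero]
    have h3 : ι (2 : kb) = 0 := by
      rw [map_ofNat] at h1 ⊢
      exact h1
    exact two_ne_zero ((map_eq_zero ι).mp h3)
  have key : ∀ {x : K} {z : Fb}, IsV0 k v w ι p x z ↔
      ∃ h : z ∈ clo k w hc.na ι, P.IsVal x ⟨z, h⟩ :=
    fun {x z} => isV0_iff hd hζ hc hX hcl hN P hκ hw hj
  refine ⟨fun x => ?_, fun x z z' h h' => ?_, fun x y z z' h h' => ?_, fun x y z z' h h' => ?_,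
    fun a => ?_⟩
  · rcases P.val_or x with ⟨z, hz⟩ | ⟨hx, h⟩
    · exact Or.inl ⟨z, key.mpr ⟨z.2, hz⟩⟩
    · exact Or.inr ⟨hx, key.mpr ⟨(clo k w hc.na ι).zero_mem, h⟩⟩
  · obtain ⟨h1, h1'⟩ := key.mp h
    obtain ⟨h3, h3'⟩ := key.mp h'
    exact congrArg Subtype.val (P.val_unique h1' h3')
  · obtain ⟨h1, h1'⟩ := key.mp h
    obtain ⟨h3, h3'⟩ := key.mp h'
    exact key.mpr ⟨add_mem h1 h3, P.val_add h1' h3'⟩
  · obtain ⟨h1, h1'⟩ := key.mp h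
    obtain ⟨h3, h3'⟩ := key.mp h'
    exact key.mpr ⟨mul_mem h1 h3, P.val_mul hp2 h2 h1' h3'⟩
  · have h := P.val_alg a
    refine key.mpr ⟨?_, ?_⟩
    · rw [← hj]; exact (P.j a).2
    · have h1 : (⟨ι (algebraMap k kb a), by rw [← hj]; exact (P.j a).2⟩ : clo k w hc.na ι) =
          P.j a := Subtype.ext (hj a).symm
      rw [h1]; exact h

end Pool.Agent.Lib.MP_2f3286_ag.Ep
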