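import Pool.Agent.Lib.MP_2f3286_ag.Ep.GDefs

/-!
# Local data for the field fixed by `U`   (module G1, 100 minutes)

PROOFS. `resE_mem`: for `τ` in `Gal(kb/EU U)`, `resE U τ` fixes `EU U`, so lies in `(EU U).fixingSubgroup = U` (`InfiniteGalois.fixingSubgroup_fixedField ⟨U, hU⟩`). `resE_surj`: `σ ∈ U` fixes `EU U`: `IntermediateField.fixingSubgroupEquiv` (as in `Koe/Kum.lean`, `hfix`).
`down`: `V'` a closed subgroup of finite index of `Gal(kb/EU U)`. It is open; `E' = IntermediateField.fixedField V'` (over `EU U`), `V = (E'.restrictScalars k).fixingSubgroup`, closed in `Gal(kb/k)` (`InfiniteGalois.fixingSubgroup_isClosed`). `V ≤ U`: elements of `V` fix `E'`, which contains `EU U`. `resE τ ∈ V ↔ τ ∈ V'`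
(`InfiniteGalois.fixingSubgroup_fixedField` for `V'`; `kb / EU U` is Galois: `IsGalois.tower_top_intermediateField`). `V.relIndex U ≠ 0`: `V.relIndex U = (V'.index)` via the surjection `Gal(kb/EU U) → U` (`Subgroup.index_comap`, `V'= V.comap resE`, `range resE = U`), and `relIndex V D = relIndex V U * relIndex U D ≠ 0` (`Subgroup.relIndex_mul_relIndex`).
`a ∈ fixk V ↔ a ∈ fixk V'`.
PROOF of `locE`. `isom`: `hd.isom` with `resE_mem`. `disc`, `res` for `V'`: `FinIn ⊤ V'`, use `hd.disc V`, `hd.res V`.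
-/

namespace Pool.Agent.Lib.MP_2f3286_ag.Ep

open Koe

variable {k kb Ω : Type*} [Field k] [Field kb] [Algebra k kb] [IsGalois k kb] [IsAlgClosed kb]
  [CharZero kb] [Field Ω] [Algebra kb Ω] {D : Subgroup Gal(kb/k)} {p : ℕ}
  {v : AbsoluteValue kb ℝ}

theorem resE_mem {U : Subgroup Gal(kb/k)} (hU : IsClosed (U : Set Gal(kb/k)))
    (τ : Gal(kb/EU U)) : resE U τ ∈ U := by
  have h : (EU U).fixingSubgroup = U := InfiniteGalois.fixingSubgroup_fixedField ⟨U, hU⟩
  have h1 : resE U τ ∈ (EU U).fixingSubgroup := fun x => τ.commutes x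
  rwa [h] at h1

theorem resE_surj {U : Subgroup Gal(kb/k)} {σ : Gal(kb/k)} (hσ : σ ∈ U) :
    ∃ τ : Gal(kb/EU U), resE U τ = σ := by
  have h : σ ∈ (EU U).fixingSubgroup := fun x => (mem_EU.1 x.2) σ hσ
  exact ⟨IntermediateField.fixingSubgroupEquiv (EU U) ⟨σ, h⟩, by ext x; rfl⟩

theorem down {U : Subgroup Gal(kb/k)} (hU : FinIn D U) {V' : Subgroup Gal(kb/EU U)}
    (hV : FinIn (⊤ : Subgroup Gal(kb/EU U)) V') :
    ∃ V : Subgroup Gal(kb/k), FinIn D V ∧ ∀ a : kb, a ∈ fixk V ↔ a ∈ fixk V' := by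
  obtain ⟨-, hVc, hVi⟩ := hV
  set E' : IntermediateField (EU U) kb := IntermediateField.fixedField V' with hE'
  have hfix : E'.fixingSubgroup = V' := InfiniteGalois.fixingSubgroup_fixedField ⟨V', hVc⟩
  have hmem : ∀ a : kb, a ∈ E' ↔ a ∈ fixk V' := fun a =>
    IntermediateField.mem_fixedField_iff V' a
  set V : Subgroup Gal(kb/k) := (E'.restrictScalars k).fixingSubgroup with hVdef
  have hVmem : ∀ σ : Gal(kb/k), σ ∈ V ↔ ∀ a ∈ E', σ a = a := by
    intro σ
    rw [hVdef, IntermediateField.mem_fixingSubgroup_iff]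
    rfl
  have hcl : IsClosed (V : Set Gal(kb/k)) :=
    InfiniteGalois.fixingSubgroup_isClosed (E'.restrictScalars k)
  have hUfix : (EU U).fixingSubgroup = U :=
    InfiniteGalois.fixingSubgroup_fixedField ⟨U, hU.2.1⟩
  have hVU : V ≤ U := by
    intro σ hσ
    rw [hVmem] at hσ
    have h1 : σ ∈ (EU U).fixingSubgroup := fun x => hσ _ (E'.algebraMap_mem x)
    rwa [hUfix] at h1
  have hcomap : V.comap (resE U) = V' := by
    ext τ
    rw [Subgroup.mem_comap, hVmem, ← hfix, IntermediateField.mem_fixingSubgroup_iff]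
    rfl
  have hrange : (resE U).range = U := by
    ext σ
    constructor
    · rintro ⟨τ, rfl⟩
      exact resE_mem hU.2.1 τ
    · intro hσ
      exact resE_surj hσ
  refine ⟨V, ⟨hVU.trans hU.1, hcl, ?_⟩, fun a => ?_⟩
  · rw [← Subgroup.relIndex_mul_relIndex V U D hVU hU.1]
    refine mul_ne_zero ?_ hU.2.2
    have h2 := Subgroup.index_comap V (resE U)
    rw [hcomap, hrange] at h2
    rw [← h2, ← Subgroup.relIndex_top_right]
    exact hVi
  · constructor
    · intro ha τ hτ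
      have h3 : resE U τ ∈ V := by
        rw [← hcomap] at hτ
        exact hτ
      exact ha _ h3
    · intro ha σ hσ
      rw [← hmem] at ha
      exact (hVmem σ).1 hσ a ha

theorem locE (hd : LocData v D p) {U : Subgroup Gal(kb/k)} (hU : FinIn D U) :
    LocData v (⊤ : Subgroup Gal(kb/EU U)) p := by
  refine ⟨hd.prime, isClosed_univ, hd.nonarch, ?_, hd.small, ?_, ?_⟩
  · intro σ _ a
    exact hd.isom _ (hU.1 (resE_mem hU.2.1 σ)) a
  · intro V' hV'
    obtain ⟨V, hV, hfix⟩ := down hU hV'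
    obtain ⟨π, hπ, h0, h1, h⟩ := hd.disc V hV
    exact ⟨π, (hfix π).1 hπ, h0, h1, fun a ha => h a ((hfix a).2 ha)⟩
  · intro V' hV'
    obtain ⟨V, hV, hfix⟩ := down hU hV'
    obtain ⟨R, hR⟩ := hd.res V hV
    exact ⟨R, fun a ha => hR a ((hfix a).2 ha)⟩

end Pool.Agent.Lib.MP_2f3286_ag.Ep
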