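import Pool.Agent.Lib.MP_2f3286_ag.Ep.G1
import Pool.Agent.Lib.MP_2f3286_ag.Ep.F6

/-!
# The values of the elements fixed by `t(U)`   (module G2, 100 minutes)

PROOF of `secK_E`. `root`, `sec` from `ht`; `cont x`: `V` open from `ht.cont x`, `V.comap (resE U)` is open in `Gal(kb/EU U)`: `resE U` is continuous (`krullTopology_mem_nhds_one_iff`, as in `Koe/Kum.lean` `hopen`, or use `Koe.resG_continuous`; or: `V` contains `F.fixingSubgroup`, `F / k` finite, and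
`F' = IntermediateField.adjoin (EU U) F` is finite over `EU U`, its fixing subgroup is open and lies in the comap; `Subgroup.isOpen_mono`). `tow`: `rfl`. `fix`: `x ∈ fixT t U` and `resE_mem`. `ofFix`: `resE_surj` (`t σ` for `σ ∈ U`, `σ ∈ D`).
PROOF of `cplE`: `hc.lim U` with `fun n => (a n : kb)`; `isV_iff`: unfold both sides (`mem_EU`).
PROOF of `vU_all`. `letI := algU t ht.sec U`; `v0_all` for `k := EU U`, `K := fixT t U`, `s := secE t _`, `locE`, `ζ : EU U`, then `isV_iff`.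
-/

namespace Pool.Agent.Lib.MP_2f3286_ag.Ep

open Koe

variable {k kb Ω : Type*} [Field k] [Field kb] [Algebra k kb] [IsGalois k kb] [IsAlgClosed kb]
  [CharZero kb] [Field Ω] [Algebra kb Ω] {D : Subgroup Gal(kb/k)} {p : ℕ}
  {v : AbsoluteValue kb ℝ} {Fb : Type*} [Field Fb]

omit [IsAlgClosed kb] [CharZero kb] in
theorem resE_comap_open (U V : Subgroup Gal(kb/k)) (hV : IsOpen (V : Set Gal(kb/k))) :
    IsOpen ((V.comap (resE U) : Subgroup Gal(kb/EU U)) : Set Gal(kb/EU U)) := by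
  have h5 : (V : Set Gal(kb/k)) ∈ nhds 1 := hV.mem_nhds (one_mem V)
  obtain ⟨F, hF, hFU⟩ := (krullTopology_mem_nhds_one_iff k kb _).mp h5
  let b := Module.finBasis k F
  let E' : IntermediateField (EU U) kb :=
    IntermediateField.adjoin (EU U) (Set.range fun i => (b i : kb))
  have hE' : FiniteDimensional (EU U) E' := by
    apply IntermediateField.finiteDimensional_adjoin
    rintro x -
    exact Algebra.IsIntegral.isIntegral x
  apply Subgroup.isOpen_of_mem_nhds (g := 1)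
  rw [krullTopology_mem_nhds_one_iff]
  refine ⟨E', hE', fun τ hτ => ?_⟩
  have h6 : resE U τ ∈ F.fixingSubgroup := by
    intro x
    have h7 : ∀ i, resE U τ (b i : kb) = (b i : kb) := by
      intro i
      exact hτ ⟨(b i : kb), IntermediateField.subset_adjoin (EU U) _ ⟨i, rfl⟩⟩
    change resE U τ (x : kb) = (x : kb)
    have h8 := b.sum_repr x
    have h9 : (x : kb) = ∑ i, (b.repr x i) • (b i : kb) := by
      have h10 := congrArg F.val h8
      rw [map_sum] at h10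
      simpa using h10.symm
    rw [h9, map_sum]
    refine Finset.sum_congr rfl fun i _ => ?_
    rw [map_smul, h7]
  exact hFU h6

theorem secK_E {t : D →* (Ω ≃+* Ω)} (ht : SecD t p) {U : Subgroup Gal(kb/k)} (hU : FinIn D U)
    (h : ∀ τ, resE U τ ∈ D) :
    letI := algU t ht.sec U
    SecK (secE t h) p (fixT t U) := by
  letI := algU t ht.sec U
  refine { sec := ?_, cont := ?_, root := ht.root, tow := ?_, fix := ?_, ofFix := ?_ }
  · intro σ a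
    rw [secE_apply, ht.sec]
    rfl
  · intro x
    obtain ⟨V, hV, hVx⟩ := ht.cont x
    refine ⟨V.comap (resE U), resE_comap_open U V hV, fun σ hσ => ?_⟩
    rw [secE_apply]
    exact hVx ⟨resE U σ, h σ⟩ hσ
  · intro a
    rfl
  · intro σ x
    rw [secE_apply]
    exact x.2 ⟨resE U σ, h σ⟩ (resE_mem hU.2.1 σ)
  · intro x hx
    refine ⟨⟨x, fun σ hσ => ?_⟩, rfl⟩
    obtain ⟨τ, hτ⟩ := resE_surj hσ
    have h1 := hx τ
    rw [secE_apply] at h1
    have h2 : (⟨resE U τ, h τ⟩ : D) = σ := Subtype.ext hτ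
    rwa [h2] at h1

theorem cplE {w : AbsoluteValue Fb ℝ} {ι : kb →+* Fb} (hc : Cpl D v p w ι)
    {U : Subgroup Gal(kb/k)} (hU : FinIn D U) : Cpl0 (EU U) v p w ι where
  na := hc.na
  iso := hc.iso
  lim := fun a ha => hc.lim U hU (fun n => (a n : kb)) (fun n => mem_EU.1 (a n).2)
    (fun n => ha n)

theorem isV_iff {t : D →* (Ω ≃+* Ω)} (ht : SecD t p) {w : AbsoluteValue Fb ℝ} {ι : kb →+* Fb}
    {U : Subgroup Gal(kb/k)} (x : fixT t U) (z : Fb) :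
    IsV t v w ι p U (x : Ω) z ↔
      letI := algU t ht.sec U
      IsV0 (EU U) v w ι p x z := by
  letI := algU t ht.sec U
  constructor
  · rintro ⟨_, h1, h2⟩
    refine ⟨fun ρ hρ => ?_, fun c hc => ?_⟩
    · obtain ⟨a, ha, h3⟩ := h1 ρ hρ
      exact ⟨⟨a, mem_EU.2 ha⟩, h3⟩
    · obtain ⟨b, hb, h3, g, hg, hg0, h4⟩ := h2 (c : kb) (mem_EU.1 c.2) hc
      refine ⟨⟨b, mem_EU.2 hb⟩, h3, ⟨g, hg⟩, ?_, ?_⟩
      · intro h5
        exact hg0 (congrArg Subtype.val h5)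
      · exact Subtype.ext h4
  · rintro ⟨h1, h2⟩
    refine ⟨x.2, fun ρ hρ => ?_, fun c hc hcz => ?_⟩
    · obtain ⟨a, h3⟩ := h1 ρ hρ
      exact ⟨a, mem_EU.1 a.2, h3⟩
    · obtain ⟨b, h3, g, hg0, h4⟩ := h2 ⟨c, mem_EU.2 hc⟩ hcz
      refine ⟨b, mem_EU.1 b.2, h3, g, g.2, ?_, ?_⟩
      · intro h5
        exact hg0 (Subtype.ext h5)
      · exact congrArg Subtype.val h4

/-- the values of the elements fixed by `t(U)` -/
structure VU (t : D →* (Ω ≃+* Ω)) (v : AbsoluteValue kb ℝ) (w : AbsoluteValue Fb ℝ)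
    (ι : kb →+* Fb) (p : ℕ) (U : Subgroup Gal(kb/k)) : Prop where
  or_ : ∀ x ∈ fixT t U, (∃ z, IsV t v w ι p U x z) ∨ (x ≠ 0 ∧ IsV t v w ι p U x⁻¹ 0)
  uni : ∀ x z z', IsV t v w ι p U x z → IsV t v w ι p U x z' → z = z'
  add : ∀ x y z z', IsV t v w ι p U x z → IsV t v w ι p U y z' → IsV t v w ι p U (x + y) (z + z')
  mul : ∀ x y z z', IsV t v w ι p U x z → IsV t v w ι p U y z' → IsV t v w ι p U (x * y) (z * z')
  alg : ∀ a ∈ fixk U, IsV t v w ι p U (algebraMap kb Ω a) (ι a)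

theorem vU_all [Fact p.Prime] (hd : LocData v D p) (hp2 : p ≠ 2) {t : D →* (Ω ≃+* Ω)}
    (ht : SecD t p) {w : AbsoluteValue Fb ℝ} {ι : kb →+* Fb} (hc : Cpl D v p w ι)
    {U : Subgroup Gal(kb/k)} (hU : FinIn D U) (hζ : ∃ ζ ∈ fixk U, IsPrimitiveRoot ζ p) :
    VU t v w ι p U := by
  letI := algU t ht.sec U
  have h : ∀ τ, resE U τ ∈ D := fun τ => hU.1 (resE_mem hU.2.1 τ)
  obtain ⟨ζ, hζU, hζp⟩ := hζ
  have hζ' : IsPrimitiveRoot (⟨ζ, mem_EU.2 hζU⟩ : EU U) p :=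
    IsPrimitiveRoot.of_map_of_injective (f := algebraMap (EU U) kb) hζp
      (algebraMap (EU U) kb).injective
  have hV : V0 (EU U) (fixT t U) v w ι p :=
    v0_all (locE hd hU) hp2 hζ' (secK_E ht hU h) (cplE hc hU)
  refine { or_ := ?_, uni := ?_, add := ?_, mul := ?_, alg := ?_ }
  · intro x hx
    rcases hV.or_ ⟨x, hx⟩ with ⟨z, hz⟩ | ⟨h1, h2⟩
    · exact Or.inl ⟨z, (isV_iff ht ⟨x, hx⟩ z).2 hz⟩
    · refine Or.inr ⟨fun h3 => h1 (Subtype.ext h3), ?_⟩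
      exact (isV_iff ht (⟨x, hx⟩⁻¹) 0).2 h2
  · intro x z z' h1 h2
    exact hV.uni ⟨x, h1.1⟩ z z' ((isV_iff ht ⟨x, h1.1⟩ z).1 h1) ((isV_iff ht ⟨x, h1.1⟩ z').1 h2)
  · intro x y z z' h1 h2
    have h3 := hV.add ⟨x, h1.1⟩ ⟨y, h2.1⟩ z z' ((isV_iff ht ⟨x, h1.1⟩ z).1 h1)
      ((isV_iff ht ⟨y, h2.1⟩ z').1 h2)
    exact (isV_iff ht ((⟨x, h1.1⟩ : fixT t U) + ⟨y, h2.1⟩) (z + z')).2 h3
  · intro x y z z' h1 h2
    have h3 := hV.mul ⟨x, h1.1⟩ ⟨y, h2.1⟩ z z' ((isV_iff ht ⟨x, h1.1⟩ z).1 h1)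
      ((isV_iff ht ⟨y, h2.1⟩ z').1 h2)
    exact (isV_iff ht ((⟨x, h1.1⟩ : fixT t U) * ⟨y, h2.1⟩) (z * z')).2 h3
  · intro a ha
    have h3 := hV.alg ⟨a, mem_EU.2 ha⟩
    exact (isV_iff ht (algebraMap (EU U) (fixT t U) ⟨a, mem_EU.2 ha⟩) (ι a)).2 h3

end Pool.Agent.Lib.MP_2f3286_ag.Ep
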