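import Pool.Agent.Lib.MP_2f3286_ag.Ep.G2

/-!
# Conjugation and averages   (module G3, 120 minutes)

`U` is normalized by `D`: `hn : ∀ σ ∈ D, ∀ u ∈ U, σ⁻¹ * u * σ ∈ U` (so also `σ * u * σ⁻¹ ∈ U`, take `σ⁻¹`). So `σ a ∈ fixk U` for `a ∈ fixk U`, `σ ∈ D`; `t σ x ∈ fixT t U` for `x ∈ fixT t U`: `t u (t σ x) = t σ (t (σ⁻¹ u σ) x) = t σ x`.
PROOF of `isV_conj`. `isV x z`, `σ : D`, `τ : Fb →+* Fb` isometric with `ι (σ a) = τ (ι a)`. Density: `a ∈ fixk U` near `z`, `σ a` is near `τ z`. Let `c ∈ fixk U`, `ι c ≠ τ z`; `c' = σ⁻¹ c`, `ι c' ≠ z` (else `ι c = τ (ι c') = τ z`); `b'`, `g'` for `c'`; `b = σ b'`, `g = t σ g'`: `w (ι b - (τ z - ι c)) = w (τ (ι b' - (z - ι c')))`.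
PROOF of `isV_conj'` (no `τ`). `IsV x z`, `σ ∈ D`, and a sequence `a n ∈ fixk U` with `w (ι (a n) - z) ≤ v p ^ n` and `z'` with `w (ι (σ (a n)) - z') ≤ v p ^ n` for all `n`. CLAIM `IsV (t σ x) z'`. Density: `σ (a n)`. Let `c ∈ fixk U`, `ι c ≠ z'`, `c' = σ⁻¹ c`. `ι c' ≠ z`: otherwise `v (a n - c') ≤ v p ^ n`, so
`v (σ (a n) - c) ≤ v p ^ n` for all `n` and `ι c = z'`. `b'`, `g'` for `c'`: `w (ι b' - (z - ι c')) < w (z - ι c') * v p ^ 2`. For large `n`: `w (ι (a n) - z)` is so small that `v (b' - (a n - c')) < v (a n - c') * v p ^ 2`, `v (a n - c') = w (z - ι c')`; apply `σ` (an isometry): `v (σ b' - (σ (a n) - c)) < v (σ (a n) - c) * v p ^ 2`, and for large `n`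
`v (σ (a n) - c) = w (z' - ι c)`, so `w (ι (σ b') - (z' - ι c)) < w (z' - ι c) * v p ^ 2`.
-/

namespace Pool.Agent.Lib.MP_2f3286_ag.Ep

open Koe

variable {k kb Ω : Type*} [Field k] [Field kb] [Algebra k kb] [IsGalois k kb] [IsAlgClosed kb]
  [CharZero kb] [Field Ω] [Algebra kb Ω] {D : Subgroup Gal(kb/k)} {p : ℕ}
  {v : AbsoluteValue kb ℝ} {Fb : Type*} [Field Fb]

private theorem G3_lt {F : Type*} [Field F] {w : AbsoluteValue F ℝ}
    (na : ∀ a b, w (a + b) ≤ max (w a) (w b)) {a b : F} (h : w a < w b) : w (a + b) = w b := by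
  apply le_antisymm ((na a b).trans (max_le h.le le_rfl))
  have h1 := na (a + b) (-a)
  rw [add_neg_cancel_comm, w.map_neg] at h1
  rcases le_max_iff.1 h1 with h2 | h2
  · exact h2
  · exact absurd (h2.trans_lt h) (lt_irrefl _)

omit [IsGalois k kb] [IsAlgClosed kb] [CharZero kb] in
theorem fixk_conj {U : Subgroup Gal(kb/k)} (hn : ∀ σ ∈ D, ∀ u ∈ U, σ⁻¹ * u * σ ∈ U)
    {σ : Gal(kb/k)} (hσ : σ ∈ D) {a : kb} (ha : a ∈ fixk U) : σ a ∈ fixk U := by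
  intro u hu
  have h1 := ha _ (hn σ hσ u hu)
  have h2 : u (σ a) = σ ((σ⁻¹ * u * σ) a) := by
    rw [← AlgEquiv.mul_apply, ← AlgEquiv.mul_apply]
    congr 1
    group
  rw [h2, h1]

omit [IsGalois k kb] [IsAlgClosed kb] [CharZero kb] in
theorem fixT_conj {t : D →* (Ω ≃+* Ω)} {U : Subgroup Gal(kb/k)} (hU : U ≤ D)
    (hn : ∀ σ ∈ D, ∀ u ∈ U, σ⁻¹ * u * σ ∈ U) (σ : D) {x : Ω} (hx : x ∈ fixT t U) :
    t σ x ∈ fixT t U := by
  intro u hu
  have hm : (((σ⁻¹ * u * σ : D)) : Gal(kb/k)) ∈ U := hn σ σ.2 u hu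
  have h1 := hx _ hm
  have h2 : t u (t σ x) = t σ (t (σ⁻¹ * u * σ) x) := by
    rw [← RingAut.mul_apply, ← RingAut.mul_apply, ← map_mul, ← map_mul]
    congr 2
    group
  rw [h2, h1]

theorem isV_conj {t : D →* (Ω ≃+* Ω)} (ht : SecD t p) {w : AbsoluteValue Fb ℝ} {ι : kb →+* Fb}
    {U : Subgroup Gal(kb/k)} (hU : FinIn D U) (hn : ∀ σ ∈ D, ∀ u ∈ U, σ⁻¹ * u * σ ∈ U)
    (σ : D) {τ : Fb →+* Fb} (hτ : ∀ z, w (τ z) = w z)
    (hστ : ∀ a, ι ((σ : Gal(kb/k)) a) = τ (ι a)) {x : Ω} {z : Fb}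
    (h : IsV t v w ι p U x z) : IsV t v w ι p U (t σ x) (τ z) := by
  obtain ⟨hx, hden, hval⟩ := h
  refine ⟨fixT_conj hU.1 hn σ hx, ?_, ?_⟩
  · intro ρ hρ
    obtain ⟨a, ha, h1⟩ := hden ρ hρ
    refine ⟨(σ : Gal(kb/k)) a, fixk_conj hn σ.2 ha, ?_⟩
    rw [hστ, ← map_sub, hτ]
    exact h1
  · intro c hc hcz
    have hc' : (σ : Gal(kb/k))⁻¹ c ∈ fixk U := fixk_conj hn (D.inv_mem σ.2) hc
    have hcc : (σ : Gal(kb/k)) ((σ : Gal(kb/k))⁻¹ c) = c := by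
      rw [← AlgEquiv.mul_apply, mul_inv_cancel, AlgEquiv.one_apply]
    obtain ⟨b, hb, hbv, g, hg, hg0, hgx⟩ := hval _ hc' (by
      intro h1
      apply hcz
      rw [← hcc, hστ, h1])
    have h2 : τ z - ι c = τ (z - ι ((σ : Gal(kb/k))⁻¹ c)) := by
      rw [map_sub, ← hστ, hcc]
    refine ⟨(σ : Gal(kb/k)) b, fixk_conj hn σ.2 hb, ?_, t σ g, fixT_conj hU.1 hn σ hg, ?_, ?_⟩
    · rw [h2, hστ, ← map_sub, hτ, hτ]
      exact hbv
    · exact fun h0 => hg0 ((map_eq_zero_iff _ (t σ).injective).1 h0)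
    · have h3 := congrArg (t σ) hgx
      rw [map_sub, map_mul, map_pow, ht.sec, ht.sec, hcc] at h3
      exact h3

theorem isV_conj' (hd : LocData v D p) {t : D →* (Ω ≃+* Ω)} (ht : SecD t p)
    {w : AbsoluteValue Fb ℝ} {ι : kb →+* Fb} (hc : Cpl D v p w ι)
    {U : Subgroup Gal(kb/k)} (hU : FinIn D U) (hn : ∀ σ ∈ D, ∀ u ∈ U, σ⁻¹ * u * σ ∈ U)
    (σ : D) {x : Ω} {z z' : Fb} (h : IsV t v w ι p U x z) {a : ℕ → kb}
    (ha : ∀ n, a n ∈ fixk U) (h1 : ∀ n, w (ι (a n) - z) ≤ v (p : kb) ^ n)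
    (h2 : ∀ n, w (ι ((σ : Gal(kb/k)) (a n)) - z') ≤ v (p : kb) ^ n) :
    IsV t v w ι p U (t σ x) z' := by
  obtain ⟨hx, -, hval⟩ := h
  have hp0 : (p : kb) ≠ 0 := Nat.cast_ne_zero.2 hd.prime.ne_zero
  have hvp : 0 < v (p : kb) := v.pos hp0
  have hsmall : ∀ ρ : ℝ, 0 < ρ → ∃ n : ℕ, v (p : kb) ^ n < ρ := fun ρ hρ =>
    exists_pow_lt_of_lt_one hρ hd.small
  refine ⟨fixT_conj hU.1 hn σ hx, ?_, ?_⟩
  · intro ρ hρ
    obtain ⟨n, hn1⟩ := hsmall ρ hρ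
    exact ⟨_, fixk_conj hn σ.2 (ha n), (h2 n).trans_lt hn1⟩
  · intro c hcU hcz
    have hc' : (σ : Gal(kb/k))⁻¹ c ∈ fixk U := fixk_conj hn (D.inv_mem σ.2) hcU
    have hcc : (σ : Gal(kb/k)) ((σ : Gal(kb/k))⁻¹ c) = c := by
      rw [← AlgEquiv.mul_apply, mul_inv_cancel, AlgEquiv.one_apply]
    set c' := (σ : Gal(kb/k))⁻¹ c with hc'def
    have hiso : ∀ y : kb, v ((σ : Gal(kb/k)) y) = v y := fun y => hd.isom _ σ.2 y
    have hne : ι c' ≠ z := by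
      intro h3
      apply hcz
      have h4 : w (z' - ι c) ≤ 0 := by
        by_contra h5
        push Not at h5
        obtain ⟨n, hn1⟩ := hsmall _ h5
        have h6 : w (ι ((σ : Gal(kb/k)) (a n)) - ι c) ≤ v (p : kb) ^ n := by
          rw [← map_sub ι, hc.iso]
          have h7 : (σ : Gal(kb/k)) (a n) - c = (σ : Gal(kb/k)) (a n - c') := by
            rw [map_sub, hcc]
          rw [h7, hiso, ← hc.iso, map_sub ι, h3]
          exact h1 n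
        have h8 := hc.na (ι ((σ : Gal(kb/k)) (a n)) - ι c) (-(ι ((σ : Gal(kb/k)) (a n)) - z'))
        rw [w.map_neg] at h8
        have h9 : ι ((σ : Gal(kb/k)) (a n)) - ι c + -(ι ((σ : Gal(kb/k)) (a n)) - z') =
            z' - ι c := by ring
        rw [h9] at h8
        exact absurd (h8.trans (max_le h6 (h2 n))) (not_le.2 hn1)
      have h5 : z' - ι c = 0 := (w.eq_zero).1 (le_antisymm h4 (w.nonneg _))
      exact (sub_eq_zero.1 h5).symm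
    obtain ⟨b, hb, hbv, g, hg, hg0, hgx⟩ := hval _ hc' hne
    have hW : 0 < w (z - ι c') := w.pos (sub_ne_zero.2 (Ne.symm hne))
    have hε : 0 < w (z - ι c') * v (p : kb) ^ 2 := by positivity
    have hle : w (z - ι c') * v (p : kb) ^ 2 ≤ w (z - ι c') := by
      have : v (p : kb) ^ 2 ≤ 1 := pow_le_one₀ hvp.le hd.small.le
      nlinarith
    obtain ⟨n, hn1⟩ := hsmall _ hε
    have e1 : v (a n - c') = w (z - ι c') := by
      rw [← hc.iso, map_sub ι]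
      have h3 : ι (a n) - ι c' = (ι (a n) - z) + (z - ι c') := by ring
      rw [h3]
      exact G3_lt hc.na (((h1 n).trans_lt hn1).trans_le hle)
    have e2 : v (b - (a n - c')) < w (z - ι c') * v (p : kb) ^ 2 := by
      rw [← hc.iso, map_sub ι, map_sub ι]
      have h3 : ι b - (ι (a n) - ι c') = (ι b - (z - ι c')) + -(ι (a n) - z) := by ring
      rw [h3]
      refine (hc.na _ _).trans_lt (max_lt hbv ?_)
      rw [w.map_neg]
      exact (h1 n).trans_lt hn1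
    have e3 : v ((σ : Gal(kb/k)) (a n) - c) = w (z - ι c') := by
      have h7 : (σ : Gal(kb/k)) (a n) - c = (σ : Gal(kb/k)) (a n - c') := by
        rw [map_sub, hcc]
      rw [h7, hiso, e1]
    have e4 : v ((σ : Gal(kb/k)) b - ((σ : Gal(kb/k)) (a n) - c)) <
        w (z - ι c') * v (p : kb) ^ 2 := by
      have h7 : (σ : Gal(kb/k)) b - ((σ : Gal(kb/k)) (a n) - c) =
          (σ : Gal(kb/k)) (b - (a n - c')) := by
        rw [map_sub, map_sub, hcc]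
      rw [h7, hiso]
      exact e2
    have e5 : w (z' - ι c) = w (z - ι c') := by
      have h3 : z' - ι c = -(ι ((σ : Gal(kb/k)) (a n)) - z') +
          (ι ((σ : Gal(kb/k)) (a n)) - ι c) := by ring
      have h4 : w (ι ((σ : Gal(kb/k)) (a n)) - ι c) = w (z - ι c') := by
        rw [← map_sub ι, hc.iso, e3]
      rw [h3, G3_lt hc.na, h4]
      rw [w.map_neg, h4]
      exact ((h2 n).trans_lt hn1).trans_le hle
    refine ⟨(σ : Gal(kb/k)) b, fixk_conj hn σ.2 hb, ?_, t σ g, fixT_conj hU.1 hn σ hg, ?_, ?_⟩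
    · rw [e5]
      have h3 : ι ((σ : Gal(kb/k)) b) - (z' - ι c) =
          (ι ((σ : Gal(kb/k)) b) - (ι ((σ : Gal(kb/k)) (a n)) - ι c)) +
            (ι ((σ : Gal(kb/k)) (a n)) - z') := by ring
      rw [h3]
      refine (hc.na _ _).trans_lt (max_lt ?_ ((h2 n).trans_lt hn1))
      rw [← map_sub ι, ← map_sub ι, hc.iso]
      exact e4
    · exact fun h0 => hg0 ((map_eq_zero_iff _ (t σ).injective).1 h0)
    · have h3 := congrArg (t σ) hgx
      rw [map_sub, map_mul, map_pow, ht.sec, ht.sec, hcc] at h3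
      exact h3

end Pool.Agent.Lib.MP_2f3286_ag.Ep
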