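import Pool.Agent.Lib.MP_2f3286_ag.Ep.G3

/-!
# The value of an element fixed by `t(U)` is a limit of elements of `fixk U`   (module G4, 100 minutes)

`U' ≤ U`, both of finite index in `D`, `U'` normalized by `D`; `x ∈ fixT t U` has the value `z` for `U'`. CLAIM: `z` is a limit of elements of `fixk U`.
PROOF. By the density clause of `IsV` choose `a n ∈ fixk U'` with `w (ι (a n) - z) ≤ v p ^ n` (`0 < v p ^ n`; take `<`). For `u ∈ U`: `u (a n) ∈ fixk U'` (`fixk_conj`), `v (u (a (n + 1)) - u (a n)) = v (a (n + 1) - a n) ≤ v p ^ n` (ultrametric, isometry), `hc.lim U'`: `z_u` with `w (ι (u (a n)) - z_u) ≤ v p ^ n`; `isV_conj'`: `IsV (t u x) z_u`,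
`t u x = x`, so `z_u = z` (`hV.uni`). So `w (ι (u (a n)) - z) ≤ v p ^ n` for all `u ∈ U`, `n`. AVERAGE: `U' ∩ U = U'` has finite index in `U` (`FinIn`: `relIndex U' D ≠ 0`, `Subgroup.relIndex_ne_zero`...: `U'.relIndex U ≠ 0`: `Subgroup.relIndex_dvd_of_le_left` or `relIndex_mul_relIndex`), choose a finite set `S ⊆ U` of representatives of the left cosets
`u U'` in `U` (for instance through `Quotient.out` of `U ⧸ (U'.subgroupOf U)`, a finite type), `m = S.card ≠ 0`, `A n = (∑_{u ∈ S} u (a n)) / m`. `A n ∈ fixk U`: an element `g ∈ U` permutes the cosets, and `u (a n)` depends only on the coset (`a n ∈ fixk U'`). `w (ι (A n) - z) ≤ v p ^ n / w m`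
(`ι (A n) - z = (∑ (ι (u (a n)) - z)) / m`), and `v p ^ n → 0`, `w (m : Fb) > 0`.
-/

namespace Pool.Agent.Lib.MP_2f3286_ag.Ep

open Koe

variable {k kb Ω : Type*} [Field k] [Field kb] [Algebra k kb] [IsGalois k kb] [IsAlgClosed kb]
  [CharZero kb] [Field Ω] [Algebra kb Ω] {D : Subgroup Gal(kb/k)} {p : ℕ}
  {v : AbsoluteValue kb ℝ} {Fb : Type*} [Field Fb]

theorem G4_sum_le {ι₀ : Type*} {w : AbsoluteValue Fb ℝ} (hw : ∀ a b, w (a + b) ≤ max (w a) (w b))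
    {B : ℝ} (hB : 0 ≤ B) (s : Finset ι₀) (f : ι₀ → Fb) (hf : ∀ i ∈ s, w (f i) ≤ B) :
    w (∑ i ∈ s, f i) ≤ B := by
  classical
  induction s using Finset.induction_on with
  | empty => simpa using hB
  | insert i s hi ih =>
    rw [Finset.sum_insert hi]
    exact (hw _ _).trans (max_le (hf i (Finset.mem_insert_self i s))
      (ih fun j hj => hf j (Finset.mem_insert_of_mem hj)))

omit [IsGalois k kb] [IsAlgClosed kb] in
theorem G4_key {ι : kb →+* Fb} {U U' : Subgroup Gal(kb/k)} (hU : FinIn D U) (hU' : FinIn D U')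
    (hle : U' ≤ U) {w : AbsoluteValue Fb ℝ} (hw : ∀ a b, w (a + b) ≤ max (w a) (w b))
    {z : Fb} :
    ∃ C : ℝ, 0 < C ∧ ∀ a ∈ fixk U', ∀ B : ℝ, 0 ≤ B → (∀ u ∈ U, w (ι (u a) - z) ≤ B) →
      ∃ b ∈ fixk U, w (ι b - z) ≤ B / C := by
  classical
  have hidx : U'.relIndex U ≠ 0 := by
    intro h0
    apply hU'.2.2
    have h1 := Subgroup.relIndex_mul_relIndex U' U D hle hU.1
    rw [← h1, h0, zero_mul]
  have hfin : (U'.subgroupOf U).FiniteIndex := ⟨hidx⟩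
  have : Fintype (U ⧸ U'.subgroupOf U) := Fintype.ofFinite _
  set m : ℕ := Fintype.card (U ⧸ U'.subgroupOf U) with hm
  have hm0 : m ≠ 0 := Fintype.card_ne_zero
  have hmk : (m : kb) ≠ 0 := Nat.cast_ne_zero.2 hm0
  have hmF : (m : Fb) ≠ 0 := by
    have h1 : ι (m : kb) = (m : Fb) := map_natCast ι m
    rw [← h1]
    exact (map_ne_zero ι).2 hmk
  refine ⟨w (m : Fb), w.pos hmF, fun a ha B hB h => ?_⟩
  have hcoset : ∀ u u' : U, (QuotientGroup.mk u : U ⧸ U'.subgroupOf U) = QuotientGroup.mk u' →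
      (u : Gal(kb/k)) a = (u' : Gal(kb/k)) a := by
    intro u u' huu
    have h1 : u⁻¹ * u' ∈ U'.subgroupOf U := QuotientGroup.eq.1 huu
    have h2 : ((u⁻¹ * u' : U) : Gal(kb/k)) ∈ U' := Subgroup.mem_subgroupOf.1 h1
    have h3 : ((u⁻¹ * u' : U) : Gal(kb/k)) a = a := ha _ h2
    have h4 : (u' : Gal(kb/k)) = (u : Gal(kb/k)) * ((u⁻¹ * u' : U) : Gal(kb/k)) := by
      push_cast
      group
    rw [h4, AlgEquiv.mul_apply, h3]
  have hout : ∀ q : U ⧸ U'.subgroupOf U, (QuotientGroup.mk q.out : U ⧸ U'.subgroupOf U) = q :=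
    fun q => Quotient.out_eq' q
  refine ⟨(∑ q : U ⧸ U'.subgroupOf U, ((q.out : U) : Gal(kb/k)) a) / (m : kb), ?_, ?_⟩
  · intro g hg
    rw [map_div₀, map_natCast, map_sum]
    congr 1
    have h1 : ∀ q : U ⧸ U'.subgroupOf U, g (((q.out : U) : Gal(kb/k)) a) =
        ((((MulAction.toPerm (⟨g, hg⟩ : U)) q).out : U) : Gal(kb/k)) a := by
      intro q
      have h2 : g (((q.out : U) : Gal(kb/k)) a) =
          (((⟨g, hg⟩ : U) * q.out : U) : Gal(kb/k)) a := rfl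
      rw [h2]
      apply hcoset
      rw [hout]
      have h3 : ((MulAction.toPerm (⟨g, hg⟩ : U)) q) = (⟨g, hg⟩ : U) • q := rfl
      rw [h3]
      conv_rhs => rw [← hout q]
      rfl
    rw [Finset.sum_congr rfl fun q _ => h1 q]
    exact Equiv.sum_comp (MulAction.toPerm (⟨g, hg⟩ : U))
      (fun q : U ⧸ U'.subgroupOf U => ((q.out : U) : Gal(kb/k)) a)
  · have h1 : ι ((∑ q : U ⧸ U'.subgroupOf U, ((q.out : U) : Gal(kb/k)) a) / (m : kb)) - z =
        (∑ q : U ⧸ U'.subgroupOf U, (ι (((q.out : U) : Gal(kb/k)) a) - z)) / (m : Fb) := by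
      rw [map_div₀, map_sum, map_natCast, Finset.sum_sub_distrib, Finset.sum_const,
        Finset.card_univ, ← hm, nsmul_eq_mul]
      field_simp
    rw [h1, map_div₀]
    apply div_le_div_of_nonneg_right _ (w.nonneg _)
    exact G4_sum_le hw hB _ _ fun q _ => h _ (q.out : U).2

theorem average (hd : LocData v D p) {t : D →* (Ω ≃+* Ω)} (ht : SecD t p)
    {w : AbsoluteValue Fb ℝ} {ι : kb →+* Fb} (hc : Cpl D v p w ι)
    {U U' : Subgroup Gal(kb/k)} (hU : FinIn D U) (hU' : FinIn D U') (hle : U' ≤ U)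
    (hn : ∀ σ ∈ D, ∀ u ∈ U', σ⁻¹ * u * σ ∈ U') (hV : VU t v w ι p U')
    {x : Ω} {z : Fb} (hx : x ∈ fixT t U) (h : IsV t v w ι p U' x z) :
    ∀ ρ : ℝ, 0 < ρ → ∃ a ∈ fixk U, w (ι a - z) < ρ := by
  have hp0 : (p : kb) ≠ 0 := Nat.cast_ne_zero.2 hd.prime.ne_zero
  have hvp : 0 < v (p : kb) := v.pos hp0
  have hD : ∀ {u : Gal(kb/k)}, u ∈ U → u ∈ D := fun hu => hU.1 hu
  choose a ha1 ha2 using fun n : ℕ => h.2.1 (v (p : kb) ^ n) (pow_pos hvp n)
  have ha3 : ∀ n, w (ι (a n) - z) ≤ v (p : kb) ^ n := fun n => (ha2 n).le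
  have hstep : ∀ n, v (a (n + 1) - a n) ≤ v (p : kb) ^ n := by
    intro n
    rw [← hc.iso, map_sub]
    have h1 : ι (a (n + 1)) - ι (a n) = (ι (a (n + 1)) - z) + (z - ι (a n)) := by ring
    rw [h1]
    refine (hc.na _ _).trans (max_le ?_ ?_)
    · refine (ha3 (n + 1)).trans ?_
      exact pow_le_pow_of_le_one hvp.le hd.small.le (Nat.le_succ n)
    · rw [w.map_sub]
      exact ha3 n
  have hkey : ∀ u ∈ U, ∀ n, w (ι (u (a n)) - z) ≤ v (p : kb) ^ n := by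
    intro u hu
    have h4 : ∀ n, u (a n) ∈ fixk U' := fun n => fixk_conj hn (hD hu) (ha1 n)
    obtain ⟨z', hz'⟩ := hc.lim U' hU' (fun n => u (a n)) h4 (fun n => by
      have h5 : u (a (n + 1)) - u (a n) = u (a (n + 1) - a n) := (map_sub u _ _).symm
      rw [h5, hd.isom u (hD hu)]
      exact hstep n)
    have h6 : IsV t v w ι p U' (t ⟨u, hD hu⟩ x) z' :=
      isV_conj' hd ht hc hU' hn ⟨u, hD hu⟩ h ha1 ha3 hz'
    rw [hx ⟨u, hD hu⟩ hu] at h6
    have h7 : z' = z := hV.uni x z' z h6 h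
    intro n
    rw [← h7]
    exact hz' n
  obtain ⟨C, hC, hall⟩ := G4_key (z := z) hU hU' hle hc.na
  intro ρ hρ
  obtain ⟨n, hn'⟩ := exists_pow_lt_of_lt_one (mul_pos hρ hC) hd.small
  obtain ⟨b, hb1, hb2⟩ := hall (a n) (ha1 n) (v (p : kb) ^ n) (pow_pos hvp n).le
    (fun u hu => hkey u hu n)
  refine ⟨b, hb1, hb2.trans_lt ?_⟩
  rw [div_lt_iff₀ hC]
  exact hn'

end Pool.Agent.Lib.MP_2f3286_ag.Ep
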