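import Pool.Agent.Lib.MP_2f3286_ag.Ep.G4

/-!
# The value does not depend on `U`   (module G5, 110 minutes)

`kumD`: Kummer theory for `U`: `kumR` for `secE` over `EU U` with `V = ⊤` (as in `F2`), or the proof of `kumR`. PROOF: apply `kumR` (file `F1`) to `secE t _ : Gal(kb/EU U) →* (Ω ≃+* Ω)` (`secK_E ... .toSec`), `V = ⊤`: `x ∈ fixR (secE t _) ⊤` (`resE_mem`), `a ∈ fixk ⊤` (over `EU U`) so `a ∈ EU U` (`mem_fixk_top`), `y ∈ fixR _ ⊤` so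
`y ∈ fixT t U` (`resE_surj`).
PROOF of `isV_up`: `x ∈ fixT t U`, `IsV U' x z`. CLAIM `IsV U x z`. Density: `average`. Let `c ∈ fixk U`, `ι c ≠ z` (`c ∈ fixk U'`). `x ≠ c`: the third clause of `IsV U' x z` gives `b₁`, `g₁` with `x - c = b₁ g₁ ^ p`, `w (ι b₁ - (z - ι c)) < w (z - ι c)` (`v p < 1`), so `b₁ ≠ 0`. `kumD`: `x - c = b₀ g₀ ^ p`, `b₀ ∈ fixk U`, `g₀ ∈ fixT t U`, both nonzero.
`IsV U' (x - c) (z - ι c)` (`add`, `alg` for `-c`), `IsV U' b₀⁻¹ (ι b₀⁻¹)` (`alg`), so `IsV U' (g₀ ^ p) q`, `q = (z - ι c) / ι b₀ ≠ 0` (`mul`). `g₀` has a value for `U'`: otherwise `IsV U' g₀⁻¹ 0` (`or_`; `g₀ ∈ fixT t U'`), `IsV U' (g₀⁻¹ ^ p) 0` (`mul`, induction on the exponent, `alg 1`), so `1 = g₀ ^ p g₀⁻¹ ^ p` has the value `0`, and the value `1` (`alg`):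
contradiction with `uni`. So `IsV U' g₀ z_g`, `z_g ^ p = q` (`mul`, `uni`), `z_g ≠ 0`. `average` for `g₀`: `g₁ ∈ fixk U` with `w (ι g₁ - z_g) < ρ`. `b = b₀ g₁ ^ p ∈ fixk U`, `g = g₀ / g₁`, `x - c = b g ^ p` (`g₁ ≠ 0` for `ρ ≤ w z_g`). `w (ι b - (z - ι c)) = w (ι b₀) w (ι g₁ ^ p - z_g ^ p)`, and `w (g ^ p - z ^ p) ≤ w (g - z) (w z) ^ (p - 1)` if
`w (g - z) ≤ w z` (factor `g ^ p - z ^ p`, `Commute.geom_sum₂_mul` or `sub_dvd_pow_sub_pow`/induction). With `ρ = w z_g * v p ^ 2` the bound is `< w (ι b₀) (w z_g) ^ p v p ^ 2 = w (z - ι c) v p ^ 2`.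
PROOF of `isV_iff_down`. (⇐) `isV_up`. (⇒) `IsV U x z`; `hV'.or_` for `x` (in `fixT t U ⊆ fixT t U'`): `IsV U' x z'`: `isV_up`: `IsV U x z'`, `hV.uni`: `z = z'`. Or `IsV U' x⁻¹ 0`: `isV_up`: `IsV U x⁻¹ 0`, `hV.mul`: `1` has the value `z * 0 = 0`, contradiction with `alg` for `1`.
-/

namespace Pool.Agent.Lib.MP_2f3286_ag.Ep

open Koe

variable {k kb Ω : Type*} [Field k] [Field kb] [Algebra k kb] [IsGalois k kb] [IsAlgClosed kb]
  [CharZero kb] [Field Ω] [Algebra kb Ω] {D : Subgroup Gal(kb/k)} {p : ℕ}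
  {v : AbsoluteValue kb ℝ} {Fb : Type*} [Field Fb]

theorem kumD (hp : p.Prime) {t : D →* (Ω ≃+* Ω)} (ht : SecD t p) {U : Subgroup Gal(kb/k)}
    (hU : FinIn D U) {x : Ω} (hx : x ∈ fixT t U) (hx0 : x ≠ 0) :
    ∃ a ∈ fixk U, a ≠ 0 ∧ ∃ y ∈ fixT t U, y ≠ 0 ∧ x = algebraMap kb Ω a * y ^ p := by
  have h : ∀ τ, resE U τ ∈ D := fun τ => hU.1 (resE_mem hU.2.1 τ)
  let _ := algU t ht.sec U
  have hs : SecK (secE t h) p (fixT t U) := secK_E ht hU h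
  have hxr : x ∈ fixR (secE t h) ⊤ := by
    intro τ _
    rw [secE_apply]
    exact hx _ (resE_mem hU.2.1 τ)
  obtain ⟨a, ha, ha0, y, hy, hy0, e⟩ := kumR (k := EU U) hp hs.toSec (V := ⊤)
    isClosed_univ hxr hx0
  refine ⟨a, ?_, ha0, y, ?_, hy0, e⟩
  · intro σ hσ
    obtain ⟨τ, rfl⟩ := resE_surj hσ
    exact ha τ trivial
  · intro σ hσ
    obtain ⟨τ, hτ⟩ := resE_surj hσ
    have h2 := hy τ trivial
    rw [secE_apply] at h2
    have e2 : (⟨resE U τ, h τ⟩ : D) = σ := Subtype.ext hτ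
    rwa [e2] at h2

private theorem g5_pow_sub {w : AbsoluteValue Fb ℝ} (na : ∀ a b, w (a + b) ≤ max (w a) (w b))
    {a b : Fb} {r : ℝ} (hr : 0 ≤ r) (ha : w a ≤ r) (hb : w b ≤ r) (n : ℕ) :
    w (a ^ n - b ^ n) ≤ w (a - b) * r ^ (n - 1) := by
  rw [← geom_sum₂_mul, map_mul, mul_comm (w (a - b))]
  refine mul_le_mul_of_nonneg_right ?_ (w.nonneg _)
  refine RootAux.na_sum_le na _ _ (pow_nonneg hr _) fun i hi => ?_
  rw [map_mul, map_pow, map_pow]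
  have hi' : i + (n - 1 - i) = n - 1 := by
    have := Finset.mem_range.1 hi
    omega
  calc w a ^ i * w b ^ (n - 1 - i) ≤ r ^ i * r ^ (n - 1 - i) :=
        mul_le_mul (pow_le_pow_left₀ (w.nonneg _) ha _) (pow_le_pow_left₀ (w.nonneg _) hb _)
          (pow_nonneg (w.nonneg _) _) (pow_nonneg hr _)
    _ = r ^ (n - 1) := by rw [← pow_add, hi']

private theorem g5_pow {t : D →* (Ω ≃+* Ω)} {w : AbsoluteValue Fb ℝ} {ι : kb →+* Fb}
    {U : Subgroup Gal(kb/k)} (hV : VU t v w ι p U) {x : Ω} {z : Fb}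
    (h : IsV t v w ι p U x z) (n : ℕ) : IsV t v w ι p U (x ^ n) (z ^ n) := by
  induction n with
  | zero =>
    have := hV.alg 1 (one_mem _)
    simpa using this
  | succ n ih =>
    rw [pow_succ, pow_succ]
    exact hV.mul _ _ _ _ ih h

private theorem g5_one {t : D →* (Ω ≃+* Ω)} {w : AbsoluteValue Fb ℝ} {ι : kb →+* Fb}
    {U : Subgroup Gal(kb/k)} (hV : VU t v w ι p U) (h : IsV t v w ι p U 1 0) : False := by
  have h1 : IsV t v w ι p U 1 1 := by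
    have := hV.alg 1 (one_mem _)
    simpa using this
  exact zero_ne_one (hV.uni _ _ _ h h1)

theorem isV_up (hd : LocData v D p) {t : D →* (Ω ≃+* Ω)} (ht : SecD t p)
    {w : AbsoluteValue Fb ℝ} {ι : kb →+* Fb} (hc : Cpl D v p w ι)
    {U U' : Subgroup Gal(kb/k)} (hU : FinIn D U) (hU' : FinIn D U') (hle : U' ≤ U)
    (hn : ∀ σ ∈ D, ∀ u ∈ U', σ⁻¹ * u * σ ∈ U') (hV : VU t v w ι p U')
    {x : Ω} {z : Fb} (hx : x ∈ fixT t U) (h : IsV t v w ι p U' x z) :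
    IsV t v w ι p U x z := by
  have hp := hd.prime
  have hp0 : p ≠ 0 := hp.ne_zero
  have hpk : (p : kb) ≠ 0 := Nat.cast_ne_zero.2 hp0
  have hv0 : 0 < v (p : kb) := v.pos hpk
  have hv2 : 0 < v (p : kb) ^ 2 := pow_pos hv0 2
  have hv1 : v (p : kb) ^ 2 < 1 := pow_lt_one₀ hv0.le hd.small two_ne_zero
  have hup : ∀ y, y ∈ fixT t U → y ∈ fixT t U' := fun y hy σ hσ => hy σ (hle hσ)
  have hupk : ∀ a, a ∈ fixk U → a ∈ fixk U' := fun a ha σ hσ => ha σ (hle hσ)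
  have hmem : ∀ a ∈ fixk U, algebraMap kb Ω a ∈ fixT t U := by
    intro a ha σ hσ
    rw [ht.sec, ha _ hσ]
  refine ⟨hx, average hd ht hc hU hU' hle hn hV hx h, fun c hc' hcz => ?_⟩
  have hzc : z - ι c ≠ 0 := fun e => hcz (sub_eq_zero.1 e).symm
  have hwzc : 0 < w (z - ι c) := w.pos hzc
  have hxc0 : x - algebraMap kb Ω c ≠ 0 := by
    obtain ⟨b₁, -, hb₁, g₁, -, hg₁, e₁⟩ := h.2.2 c (hupk c hc') hcz
    have hb0 : b₁ ≠ 0 := by
      rintro rfl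
      rw [map_zero, zero_sub, AbsoluteValue.map_neg] at hb₁
      nlinarith
    rw [e₁]
    exact mul_ne_zero (by rwa [Ne, map_eq_zero]) (pow_ne_zero _ hg₁)
  have hxcm : x - algebraMap kb Ω c ∈ fixT t U := sub_mem hx (hmem c hc')
  obtain ⟨b₀, hb₀, hb₀0, g₀, hg₀, hg₀0, e₀⟩ := kumD hp ht hU hxcm hxc0
  have hb₀Ω : algebraMap kb Ω b₀ ≠ 0 := by rwa [Ne, map_eq_zero]
  have hb₀F : ι b₀ ≠ 0 := by rwa [Ne, map_eq_zero]
  have h1 : IsV t v w ι p U' (x - algebraMap kb Ω c) (z - ι c) := by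
    have := hV.add _ _ _ _ h (hV.alg (-c) (neg_mem (hupk c hc')))
    rw [map_neg, map_neg, ← sub_eq_add_neg, ← sub_eq_add_neg] at this
    exact this
  have h2 : IsV t v w ι p U' (g₀ ^ p) ((ι b₀)⁻¹ * (z - ι c)) := by
    have := hV.mul _ _ _ _ (hV.alg b₀⁻¹ (inv_mem (hupk b₀ hb₀))) h1
    rw [e₀, map_inv₀, map_inv₀, inv_mul_cancel_left₀ hb₀Ω] at this
    exact this
  have hg : ∃ zg, IsV t v w ι p U' g₀ zg := by
    rcases hV.or_ g₀ (hup g₀ hg₀) with h3 | ⟨-, h3⟩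
    · exact h3
    · exfalso
      have h4 := hV.mul _ _ _ _ h2 (g5_pow hV h3 p)
      rw [zero_pow hp0, mul_zero, ← mul_pow, mul_inv_cancel₀ hg₀0, one_pow] at h4
      exact g5_one hV h4
  obtain ⟨zg, hzg⟩ := hg
  have hzgp : zg ^ p = (ι b₀)⁻¹ * (z - ι c) := hV.uni _ _ _ (g5_pow hV hzg p) h2
  have hzg0 : zg ≠ 0 := by
    rintro rfl
    rw [zero_pow hp0] at hzgp
    exact mul_ne_zero (inv_ne_zero hb₀F) hzc hzgp.symm
  have hwzg : 0 < w zg := w.pos hzg0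
  obtain ⟨g₁, hg₁, hg₁w⟩ := average hd ht hc hU hU' hle hn hV hg₀ hzg (w zg * v (p : kb) ^ 2)
    (mul_pos hwzg hv2)
  have hlt : w (ι g₁ - zg) < w zg := by nlinarith
  have hg₁0 : g₁ ≠ 0 := by
    rintro rfl
    rw [map_zero, zero_sub, AbsoluteValue.map_neg] at hlt
    exact lt_irrefl _ hlt
  have hg₁Ω : algebraMap kb Ω g₁ ≠ 0 := by rwa [Ne, map_eq_zero]
  have hwg₁ : w (ι g₁) = w zg := RootAux.na_eq_of_sub_lt hc.na hlt
  have hzce : z - ι c = ι b₀ * zg ^ p := by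
    rw [hzgp, mul_inv_cancel_left₀ hb₀F]
  refine ⟨b₀ * g₁ ^ p, mul_mem hb₀ (pow_mem hg₁ _), ?_, g₀ * (algebraMap kb Ω g₁)⁻¹,
    mul_mem hg₀ (inv_mem (hmem g₁ hg₁)), mul_ne_zero hg₀0 (inv_ne_zero hg₁Ω), ?_⟩
  · rw [hzce, map_mul, map_pow, ← mul_sub, map_mul, map_mul, map_pow, mul_assoc]
    refine mul_lt_mul_of_pos_left ?_ (w.pos hb₀F)
    refine (g5_pow_sub hc.na hwzg.le hwg₁.le le_rfl p).trans_lt ?_
    calc w (ι g₁ - zg) * w zg ^ (p - 1) < w zg * v (p : kb) ^ 2 * w zg ^ (p - 1) :=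
          mul_lt_mul_of_pos_right hg₁w (pow_pos hwzg _)
      _ = w zg ^ (p - 1) * w zg * v (p : kb) ^ 2 := by ring
      _ = w zg ^ p * v (p : kb) ^ 2 := by
          rw [← pow_succ, Nat.sub_add_cancel hp.one_le]
  · rw [e₀, map_mul, map_pow, mul_pow, inv_pow]
    field_simp

theorem isV_iff_down (hd : LocData v D p) {t : D →* (Ω ≃+* Ω)} (ht : SecD t p)
    {w : AbsoluteValue Fb ℝ} {ι : kb →+* Fb} (hc : Cpl D v p w ι)
    {U U' : Subgroup Gal(kb/k)} (hU : FinIn D U) (hU' : FinIn D U') (hle : U' ≤ U)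
    (hn : ∀ σ ∈ D, ∀ u ∈ U', σ⁻¹ * u * σ ∈ U') (hV : VU t v w ι p U) (hV' : VU t v w ι p U')
    {x : Ω} {z : Fb} (hx : x ∈ fixT t U) :
    IsV t v w ι p U' x z ↔ IsV t v w ι p U x z := by
  refine ⟨fun h => isV_up hd ht hc hU hU' hle hn hV' hx h, fun h => ?_⟩
  have hx' : x ∈ fixT t U' := fun σ hσ => hx σ (hle hσ)
  rcases hV'.or_ x hx' with ⟨z', hz'⟩ | ⟨hx0, hz'⟩
  · have h1 := isV_up hd ht hc hU hU' hle hn hV' hx hz'
    rw [hV.uni _ _ _ h h1]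
    exact hz'
  · exfalso
    have h1 := isV_up hd ht hc hU hU' hle hn hV' (inv_mem hx) hz'
    have h2 := hV.mul _ _ _ _ h h1
    rw [mul_inv_cancel₀ hx0, mul_zero] at h2
    exact g5_one hV h2

end Pool.Agent.Lib.MP_2f3286_ag.Ep
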