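import Pool.Agent.Lib.MP_2f3286_ag.Ep.G5
import Pool.Agent.Lib.MP_2f3286_ag.Koe.Ult

/-!
# The place   (module G6)

The union over the good subgroups `U` of the sets of elements with a value is a valuation ring, the
value is a ring homomorphism compatible with the section.
-/

namespace Pool.Agent.Lib.MP_2f3286_ag.Ep

open Koe

variable {k kb Ω : Type*} [Field k] [Field kb] [Algebra k kb] [IsGalois k kb] [IsAlgClosed kb]
  [CharZero kb] [Field Ω] [Algebra kb Ω] {D : Subgroup Gal(kb/k)} {p : ℕ}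
  {v : AbsoluteValue kb ℝ} {Fb : Type*} [Field Fb]

/-- the subgroups used for the place -/
def Gd (D : Subgroup Gal(kb/k)) (p : ℕ) (U : Subgroup Gal(kb/k)) : Prop :=
  FinIn D U ∧ (∀ σ ∈ D, ∀ u ∈ U, σ⁻¹ * u * σ ∈ U) ∧ ∃ ζ ∈ fixk U, IsPrimitiveRoot ζ p

theorem exists_gd (hd : LocData v D p) {t : D →* (Ω ≃+* Ω)} (ht : SecD t p) (x : Ω) :
    ∃ U, Gd D p U ∧ x ∈ fixT t U := by
  have hp0 : NeZero ((p : ℕ) : kb) := ⟨Nat.cast_ne_zero.2 hd.prime.ne_zero⟩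
  obtain ⟨ζ, hζ⟩ : ∃ ζ : kb, IsPrimitiveRoot ζ p := HasEnoughRootsOfUnity.exists_primitiveRoot kb p
  obtain ⟨V, hV, hVx⟩ := ht.cont x
  obtain ⟨N₁, hN₁⟩ := ProfiniteGrp.exist_openNormalSubgroup_sub_open_nhds_of_one hV (one_mem V)
  obtain ⟨N₂, hN₂⟩ := Ult.exists_fixk (k := k) ζ
  let N : OpenNormalSubgroup Gal(kb/k) := N₁ ⊓ N₂
  have hN : ∀ σ, σ ∈ N.toSubgroup → σ ∈ N₁ ∧ σ ∈ N₂ := fun σ hσ => hσ
  refine ⟨N.toSubgroup ⊓ D, ⟨Ult.finIn_inf hd.closed N, ?_, ζ, ?_, hζ⟩, ?_⟩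
  · rintro σ hσ u ⟨hu1, hu2⟩
    refine ⟨?_, D.mul_mem (D.mul_mem (D.inv_mem hσ) hu2) hσ⟩
    have h := N.isNormal'.conj_mem u hu1 σ⁻¹
    rwa [inv_inv] at h
  · rintro σ ⟨hσ, -⟩
    exact hN₂ σ (hN σ hσ).2
  · rintro σ ⟨hσ, -⟩
    exact hVx σ (hN₁ (hN _ hσ).1)

omit [IsGalois k kb] [IsAlgClosed kb] [CharZero kb] in
theorem gd_inf {U U' : Subgroup Gal(kb/k)} (h : Gd D p U) (h' : Gd D p U') :
    Gd D p (U ⊓ U') := by
  obtain ⟨⟨h1, h2, h3⟩, h4, ζ, h5, h6⟩ := h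
  obtain ⟨⟨h1', h2', h3'⟩, h4', -⟩ := h'
  refine ⟨⟨inf_le_left.trans h1, ?_, Subgroup.relIndex_inf_ne_zero h3 h3'⟩, ?_, ζ, ?_, h6⟩
  · rw [Subgroup.coe_inf]
    exact h2.inter h2'
  · rintro σ hσ u ⟨hu, hu'⟩
    exact ⟨h4 σ hσ u hu, h4' σ hσ u hu'⟩
  · rintro σ ⟨hσ, -⟩
    exact h5 σ hσ

theorem val_all [Fact p.Prime] (hd : LocData v D p) (hp2 : p ≠ 2) {t : D →* (Ω ≃+* Ω)}
    (ht : SecD t p) {w : AbsoluteValue Fb ℝ} {ι : kb →+* Fb} (hc : Cpl D v p w ι)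
    {U U' : Subgroup Gal(kb/k)} (hU : Gd D p U) (hU' : Gd D p U') {x : Ω} {z : Fb}
    (hx : x ∈ fixT t U) (h : IsV t v w ι p U' x z) : IsV t v w ι p U x z := by
  have h1 := gd_inf hU hU'
  have v0 := vU_all hd hp2 ht hc hU.1 hU.2.2
  have v1 := vU_all hd hp2 ht hc hU'.1 hU'.2.2
  have v2 := vU_all hd hp2 ht hc h1.1 h1.2.2
  have h2 : IsV t v w ι p (U ⊓ U') x z :=
    (isV_iff_down hd ht hc hU'.1 h1.1 inf_le_right h1.2.1 v1 v2 h.1).2 h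
  exact (isV_iff_down hd ht hc hU.1 h1.1 inf_le_left h1.2.1 v0 v2 hx).1 h2

omit [IsGalois k kb] [IsAlgClosed kb] [CharZero kb] in
theorem fixT_mono {t : D →* (Ω ≃+* Ω)} {U U' : Subgroup Gal(kb/k)} (h : U' ≤ U) {x : Ω}
    (hx : x ∈ fixT t U) : x ∈ fixT t U' := fun σ hσ => hx σ (h hσ)

/-- the elementary form of the theorem of Pop: a section over a `p`-adic field of a field closed
under `p`-th roots is that of a place -/
theorem place_p [Fact p.Prime] (hd : LocData v D p) (hp2 : p ≠ 2) {t : D →* (Ω ≃+* Ω)}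
    (ht : SecD t p) {w : AbsoluteValue Fb ℝ} {ι : kb →+* Fb} (hc : Cpl D v p w ι) :
    ∃ (A : ValuationSubring Ω) (φ : A →+* Fb),
      (∀ a : kb, ∃ h : algebraMap kb Ω a ∈ A, φ ⟨algebraMap kb Ω a, h⟩ = ι a) ∧
      (∀ x : A, φ x ≠ 0 → (x : Ω)⁻¹ ∈ A) ∧
      ∀ (σ : D) (τ : Fb →+* Fb), (∀ z, w (τ z) = w z) →
        (∀ a, ι ((σ : Gal(kb/k)) a) = τ (ι a)) →
        ∀ x : A, ∃ h : t σ x ∈ A, φ ⟨t σ x, h⟩ = τ (φ x) := by
  let Val : Ω → Fb → Prop := fun x z => ∃ U, Gd D p U ∧ IsV t v w ι p U x z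
  have hcom : ∀ x y : Ω, ∃ U, Gd D p U ∧ x ∈ fixT t U ∧ y ∈ fixT t U := by
    intro x y
    obtain ⟨U, hU, hx⟩ := exists_gd hd ht x
    obtain ⟨U', hU', hy⟩ := exists_gd hd ht y
    exact ⟨U ⊓ U', gd_inf hU hU', fixT_mono inf_le_left hx, fixT_mono inf_le_right hy⟩
  have hat : ∀ {x z U}, Val x z → Gd D p U → x ∈ fixT t U → IsV t v w ι p U x z := by
    rintro x z U ⟨U', hU', h⟩ hU hx
    exact val_all hd hp2 ht hc hU hU' hx h
  have hVU : ∀ {U}, Gd D p U → VU t v w ι p U := fun hU => vU_all hd hp2 ht hc hU.1 hU.2.2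
  have huni : ∀ {x z z'}, Val x z → Val x z' → z = z' := by
    intro x z z' h h'
    obtain ⟨U, hU, hx, -⟩ := hcom x x
    exact (hVU hU).uni x z z' (hat h hU hx) (hat h' hU hx)
  have hadd : ∀ {x y z z'}, Val x z → Val y z' → Val (x + y) (z + z') := by
    intro x y z z' h h'
    obtain ⟨U, hU, hx, hy⟩ := hcom x y
    exact ⟨U, hU, (hVU hU).add x y z z' (hat h hU hx) (hat h' hU hy)⟩
  have hmul : ∀ {x y z z'}, Val x z → Val y z' → Val (x * y) (z * z') := by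
    intro x y z z' h h'
    obtain ⟨U, hU, hx, hy⟩ := hcom x y
    exact ⟨U, hU, (hVU hU).mul x y z z' (hat h hU hx) (hat h' hU hy)⟩
  have halg : ∀ a : kb, Val (algebraMap kb Ω a) (ι a) := by
    intro a
    obtain ⟨U, hU, hx⟩ := exists_gd hd ht (algebraMap kb Ω a)
    refine ⟨U, hU, (hVU hU).alg a ?_⟩
    intro σ hσ
    have h1 := hx ⟨σ, hU.1.1 hσ⟩ hσ
    rw [ht.sec] at h1
    exact (algebraMap kb Ω).injective h1
  have hor : ∀ x : Ω, (∃ z, Val x z) ∨ (x ≠ 0 ∧ Val x⁻¹ 0) := by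
    intro x
    obtain ⟨U, hU, hx⟩ := exists_gd hd ht x
    rcases (hVU hU).or_ x hx with ⟨z, hz⟩ | ⟨h1, h2⟩
    · exact Or.inl ⟨z, U, hU, hz⟩
    · exact Or.inr ⟨h1, U, hU, h2⟩
  have hone : Val 1 1 := by
    have h := halg 1
    rwa [map_one, map_one] at h
  have hzero : Val 0 0 := by
    have h := halg 0
    rwa [map_zero, map_zero] at h
  have hneg : ∀ {x z}, Val x z → Val (-x) (-z) := by
    intro x z h
    have h1 := hmul (halg (-1)) h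
    rwa [map_neg, map_neg, map_one, map_one, neg_one_mul, neg_one_mul] at h1
  let A : ValuationSubring Ω :=
    { carrier := {x | ∃ z, Val x z}
      mul_mem' := by
        rintro a b ⟨z, hz⟩ ⟨z', hz'⟩
        exact ⟨_, hmul hz hz'⟩
      one_mem' := ⟨1, hone⟩
      add_mem' := by
        rintro a b ⟨z, hz⟩ ⟨z', hz'⟩
        exact ⟨_, hadd hz hz'⟩
      zero_mem' := ⟨0, hzero⟩
      neg_mem' := by
        rintro a ⟨z, hz⟩
        exact ⟨_, hneg hz⟩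
      mem_or_inv_mem' := by
        intro x
        rcases hor x with h | ⟨-, h⟩
        · exact Or.inl h
        · exact Or.inr ⟨0, h⟩ }
  have hmemA : ∀ {x : Ω}, x ∈ A ↔ ∃ z, Val x z := Iff.rfl
  have hsp : ∀ x : A, Val x (Classical.choose (hmemA.1 x.2)) := fun x =>
    Classical.choose_spec (hmemA.1 x.2)
  let φ : A →+* Fb :=
    { toFun := fun x => Classical.choose (hmemA.1 x.2)
      map_one' := huni (hsp 1) hone
      map_mul' := fun x y => huni (hsp (x * y)) (hmul (hsp x) (hsp y))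
      map_zero' := huni (hsp 0) hzero
      map_add' := fun x y => huni (hsp (x + y)) (hadd (hsp x) (hsp y)) }
  have hφ : ∀ x : A, Val x (φ x) := hsp
  refine ⟨A, φ, ?_, ?_, ?_⟩
  · intro a
    exact ⟨⟨_, halg a⟩, huni (hφ ⟨algebraMap kb Ω a, ⟨_, halg a⟩⟩) (halg a)⟩
  · intro x hx
    rcases hor (x : Ω)⁻¹ with h | ⟨-, h⟩
    · exact h
    · rw [inv_inv] at h
      exact absurd (huni (hφ x) h) hx
  · intro σ τ hτ hστ x
    obtain ⟨U, hU, h⟩ := hφ x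
    have h1 : Val (t σ x) (τ (φ x)) := ⟨U, hU, isV_conj ht hU.1 hU.2.1 σ hτ hστ h⟩
    exact ⟨⟨_, h1⟩, huni (hφ ⟨t σ x, ⟨_, h1⟩⟩) h1⟩

end Pool.Agent.Lib.MP_2f3286_ag.Ep
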