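import Pool.Agent.Lib.MP_2f3286_ag.Koe.Dec

/-!
# The decomposition group at a place above a given prime number

As `Koe.dec`, for a given prime number in the prime ideal.
-/

open IsDedekindDomain NumberField Polynomial Pointwise

namespace Pool.Agent.Lib.MP_2f3286_ag.Ep

open Koe

theorem dec_abs_p {k C kb Lb : Type*} [Field k] [NontriviallyNormedField C] [CompleteSpace C]
    [IsUltrametricDist C] [Algebra k C] [Field kb] [Algebra k kb] [IsGalois k kb] [IsAlgClosed kb]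
    [CharZero kb] [Field Lb] [Algebra C Lb] [Algebra k Lb] [IsScalarTower k C Lb] [IsGalois C Lb]
    (ι : kb →ₐ[k] Lb) {p : ℕ} (hp : p.Prime) (hp1 : ‖(p : C)‖ < 1) {q : ℝ} (hq : 1 < q)
    (hval : ∀ x : C, x ≠ 0 → ∃ j : ℤ, ‖x‖ = q ^ j) {S : Finset k}
    (hS : ∀ x : C, ‖x‖ ≤ 1 → ∃ s ∈ S, ‖x - algebraMap k C s‖ < 1) :
    ∃ (w : AbsoluteValue Lb ℝ) (v' : AbsoluteValue kb ℝ) (D : Subgroup Gal(kb/k)),
      (∀ a b, w (a + b) ≤ max (w a) (w b)) ∧ (∀ a, w (ι a) = v' a) ∧ LocData v' D p ∧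
      (∀ τ : Gal(Lb/C), ∀ z, w (τ z) = w z) ∧
      (∀ (σ : Gal(kb/k)) (τ : Gal(Lb/C)), (∀ a, ι (σ a) = τ (ι a)) → σ ∈ D) ∧
      (∀ U, FinIn D U → ∀ a : ℕ → kb, (∀ n, a n ∈ fixk U) →
        (∀ n, v' (a (n + 1) - a n) ≤ v' (p : kb) ^ n) →
        ∃ z, ∀ n, w (ι (a n) - z) ≤ v' (p : kb) ^ n) := by
  have hD : ∀ (σ : Gal(kb/k)) (τ : Gal(Lb/C)), (∀ a, ι (σ a) = τ (ι a)) →
      σ ∈ isoGrp (decV (C := C) ι) := by
    intro σ τ h a
    rw [decV_apply, h, decW_equiv, decV_apply]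
  have hvp : decV (C := C) ι (p : kb) < 1 := by
    rw [decV_apply, map_natCast, ← map_natCast (algebraMap C Lb), decW_alg]
    exact hp1
  have hp0 : (p : kb) ≠ 0 := by exact_mod_cast hp.ne_zero
  refine ⟨decW C Lb, decV (C := C) ι, isoGrp (decV (C := C) ι), decW_nonarch C Lb,
    fun a => rfl, ⟨hp, isoGrp_closed _, fun a b => ?_, fun σ hσ a => hσ a, hvp, ?_, ?_⟩,
    decW_equiv C Lb, hD, ?_⟩
  · rw [decV_apply, map_add]
    exact decW_nonarch C Lb _ _
  · intro U hU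
    obtain ⟨E, hE, hF⟩ := finExt (C := C) ι hD hU.2.2
    exact dec_disc ι hq hval hF (natCast_mem _ p) hp0 hvp
  · intro U hU
    obtain ⟨E, hE, hF⟩ := finExt (C := C) ι hD hU.2.2
    exact dec_res ι hS hF
  · intro U hU a ha h
    obtain ⟨E, hE, hF⟩ := finExt (C := C) ι hD hU.2.2
    refine decW_seq C Lb E (fun n => ι (a n)) (fun n => hF _ (ha n))
      ((decV (C := C) ι).nonneg _) hvp fun n => ?_
    have := h n
    rw [decV_apply, map_sub] at this
    exact this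

theorem dec_p {k : Type*} [Field k] [NumberField k] {p : ℕ} (hp : p.Prime)
    (v : HeightOneSpectrum (𝓞 k)) (hv : (p : 𝓞 k) ∈ v.asIdeal)
    (ι : AlgebraicClosure k →ₐ[k] AlgebraicClosure (v.adicCompletion k)) :
    ∃ (w : AbsoluteValue (AlgebraicClosure (v.adicCompletion k)) ℝ)
      (v' : AbsoluteValue (AlgebraicClosure k) ℝ) (D : Subgroup Gal(AlgebraicClosure k/k)),
      (∀ a b, w (a + b) ≤ max (w a) (w b)) ∧ (∀ a, w (ι a) = v' a) ∧ LocData v' D p ∧
      (∀ τ : Gal(AlgebraicClosure (v.adicCompletion k)/v.adicCompletion k), ∀ z, w (τ z) = w z) ∧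
      (∀ (σ : Gal(AlgebraicClosure k/k))
        (τ : Gal(AlgebraicClosure (v.adicCompletion k)/v.adicCompletion k)),
        (∀ a, ι (σ a) = τ (ι a)) → σ ∈ D) ∧
      (∀ U, FinIn D U → ∀ a : ℕ → AlgebraicClosure k, (∀ n, a n ∈ fixk U) →
        (∀ n, v' (a (n + 1) - a n) ≤ v' (p : AlgebraicClosure k) ^ n) →
        ∃ z, ∀ n, w (ι (a n) - z) ≤ v' (p : AlgebraicClosure k) ^ n) := by
  have hc : CharZero (v.adicCompletion k) :=
    charZero_of_injective_algebraMap (algebraMap k (v.adicCompletion k)).injective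
  have hc' : CharZero (AlgebraicClosure k) :=
    charZero_of_injective_algebraMap (algebraMap k (AlgebraicClosure k)).injective
  have hG : IsGalois (v.adicCompletion k) (AlgebraicClosure (v.adicCompletion k)) :=
    IsAlgClosure.isGalois _ _
  have hG' : IsGalois k (AlgebraicClosure k) := IsAlgClosure.isGalois _ _
  obtain ⟨S, hS⟩ := adic_res v
  have hq : (1 : ℝ) < ((Ideal.absNorm v.asIdeal : ℕ) : ℝ) := by
    exact_mod_cast NumberField.HeightOneSpectrum.one_lt_absNorm v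
  let : NontriviallyNormedField (v.adicCompletion k) :=
    Valued.toNontriviallyNormedField (v.adicCompletion k) (WithZero (Multiplicative ℤ))
  have hp1 : ‖(p : v.adicCompletion k)‖ < 1 := by
    have := (FinitePlace.norm_lt_one_iff_mem k v (p : 𝓞 k)).2 hv
    rw [map_natCast, map_natCast] at this
    exact this
  exact dec_abs_p (C := v.adicCompletion k) ι hp hp1 hq (adic_norm_zpow v) hS

end Pool.Agent.Lib.MP_2f3286_ag.Ep
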