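import Pool.Agent.Lib.MP_2f3286_ag.Ep.G6
import Pool.Agent.Lib.MP_2f3286_ag.Ep.G7
import Pool.Agent.Lib.MP_2f3286_bir.Place

/-!
# The local place above `p` of a section of a field closed under `p`-th roots

An elementary proof of the theorem of Pop (On the birational `p`-adic section conjecture, 2010) in the
form: over a finite extension of the field of `p`-adic numbers every section of a field extension
which contains the algebraic closure and is closed under `p`-th roots comes from a place.
-/

open IsDedekindDomain NumberField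

namespace Pool.Agent.Lib.MP_2f3286_ag.Ep

open Koe

theorem local_place_p {p : ℕ} (hp : p.Prime) (hp2 : p ≠ 2) {k : Type*} [Field k] [NumberField k]
    {K M : Type*} [Field K] [Field M] [Algebra K M] [Algebra.IsAlgebraic K M]
    [Algebra (AlgebraicClosure k) M] (hroot : ∀ x : M, ∃ y : M, y ^ p = x)
    (s : Gal(AlgebraicClosure k/k) →* Gal(M/K)) (hs : Continuous s)
    (hsec : ∀ σ a, s σ (algebraMap (AlgebraicClosure k) M a) =
      algebraMap (AlgebraicClosure k) M (σ a))
    (v : HeightOneSpectrum (𝓞 k)) (hv : (p : 𝓞 k) ∈ v.asIdeal)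
    (ι : AlgebraicClosure k →ₐ[k] AlgebraicClosure (v.adicCompletion k)) :
    ∃ (A : ValuationSubring M) (φ : A →+* AlgebraicClosure (v.adicCompletion k)),
      MP_2f3286_bir.IsPlaceOf s (v.adicCompletion k)
        (ι : _ →+* AlgebraicClosure (v.adicCompletion k)) A φ := by
  have hc' : CharZero (AlgebraicClosure k) :=
    charZero_of_injective_algebraMap (algebraMap k (AlgebraicClosure k)).injective
  have hG' : IsGalois k (AlgebraicClosure k) := IsAlgClosure.isGalois _ _
  have hF : Fact p.Prime := ⟨hp⟩
  obtain ⟨w, v', D, h1, h2, h3, h4, h5, h6⟩ := dec_p hp v hv ι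
  let t : D →* (M ≃+* M) :=
    { toFun := fun σ => (s (σ : Gal(AlgebraicClosure k/k)) : M ≃+* M)
      map_one' := by ext x; simp
      map_mul' := fun σ τ => by ext x; simp }
  have ht : SecD t p := by
    refine ⟨fun σ a => hsec _ _, fun x => ?_, hroot⟩
    have hfin : FiniteDimensional K (IntermediateField.adjoin K {x}) :=
      IntermediateField.adjoin.finiteDimensional (Algebra.IsIntegral.isIntegral x)
    have ho := IntermediateField.fixingSubgroup_isOpen
      (IntermediateField.adjoin K {x} : IntermediateField K M)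
    refine ⟨(IntermediateField.adjoin K {x} : IntermediateField K M).fixingSubgroup.comap s,
      ho.preimage hs, fun σ hσ => ?_⟩
    exact (IntermediateField.mem_fixingSubgroup_iff _ _).1 hσ x
      (IntermediateField.mem_adjoin_simple_self K x)
  obtain ⟨A, φ, h7, h8, h9⟩ := place_p h3 hp2 ht (w := w)
    (ι := (ι : _ →+* AlgebraicClosure (v.adicCompletion k))) ⟨h1, h2, h6⟩
  refine ⟨A, φ, h7, h8, fun σ τ hστ x => ?_⟩
  exact h9 ⟨σ, h5 σ τ hστ⟩ (τ : _ →+* _) (h4 τ) hστ x

end Pool.Agent.Lib.MP_2f3286_ag.Ep
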