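import Pool.Agent.Lib.MP_2f3286_ag.Ep.LDefs

/-!
# The field of the elements fixed by `U`: the definitions

`U` is a closed subgroup of `Gal(kb/k)` contained in `D`, `E` the field of the elements of `kb` fixed
by `U`.
-/

namespace Pool.Agent.Lib.MP_2f3286_ag.Ep

open Koe

variable {k kb Ω : Type*} [Field k] [Field kb] [Algebra k kb] [Field Ω] [Algebra kb Ω]
  {D : Subgroup Gal(kb/k)}

/-- the elements fixed by `U` -/
abbrev EU (U : Subgroup Gal(kb/k)) : IntermediateField k kb := IntermediateField.fixedField U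

theorem mem_EU {U : Subgroup Gal(kb/k)} {a : kb} : a ∈ EU U ↔ a ∈ fixk U :=
  IntermediateField.mem_fixedField_iff U a

/-- the Galois group of `E` in that of `k` -/
def resE (U : Subgroup Gal(kb/k)) : Gal(kb/EU U) →* Gal(kb/k) where
  toFun τ := τ.restrictScalars k
  map_one' := rfl
  map_mul' _ _ := rfl

theorem resE_apply (U : Subgroup Gal(kb/k)) (τ : Gal(kb/EU U)) (a : kb) :
    resE U τ a = τ a := rfl

/-- the field `E` acts on the fixed field of `t(U)` -/
noncomputable abbrev algU (t : D →* (Ω ≃+* Ω))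
    (hsec : ∀ (σ : D) a, t σ (algebraMap kb Ω a) = algebraMap kb Ω ((σ : Gal(kb/k)) a))
    (U : Subgroup Gal(kb/k)) : Algebra (EU U) (fixT t U) :=
  RingHom.toAlgebra
    { toFun := fun a => ⟨algebraMap kb Ω a, fun σ hσ => by
        rw [hsec, (mem_EU.1 a.2) σ hσ]⟩
      map_one' := by ext; simp
      map_zero' := by ext; simp
      map_mul' := fun a b => by ext; simp
      map_add' := fun a b => by ext; simp }

/-- the section over `E` -/
def secE (t : D →* (Ω ≃+* Ω)) {U : Subgroup Gal(kb/k)} (h : ∀ τ, resE U τ ∈ D) :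
    Gal(kb/EU U) →* (Ω ≃+* Ω) :=
  t.comp ((resE U).codRestrict D h)

theorem secE_apply (t : D →* (Ω ≃+* Ω)) {U : Subgroup Gal(kb/k)} (h : ∀ τ, resE U τ ∈ D)
    (τ : Gal(kb/EU U)) : secE t h τ = t ⟨resE U τ, h τ⟩ := rfl

end Pool.Agent.Lib.MP_2f3286_ag.Ep
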