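import Pool.Agent.Lib.MP_2f3286_ag.Ep.Defs
import Pool.Agent.Lib.MP_2f3286_ag.Koe.Defs

/-!
# Local fields in an algebraic closure: the definitions

`k` is a field with the algebraic closure `kb`, `v` an absolute value of `kb` invariant under
`Gal(kb/k)`; `LocData v ⊤ p` (file `Koe/Defs`) says that `k` and its finite extensions are discretely
valued with finite residue fields of characteristic `p`.
-/

namespace Pool.Agent.Lib.MP_2f3286_ag.Ep

open Koe

/-- the absolute value of `k` -/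
noncomputable def vk (k : Type*) {kb : Type*} [Field k] [Field kb] [Algebra k kb]
    (v : AbsoluteValue kb ℝ) : AbsoluteValue k ℝ :=
  v.comp (f := algebraMap k kb) (algebraMap k kb).injective

theorem vk_apply {k kb : Type*} [Field k] [Field kb] [Algebra k kb] (v : AbsoluteValue kb ℝ)
    (a : k) : vk k v a = v (algebraMap k kb a) := rfl

/-- the group of classes of nonzero elements modulo `p`-th powers, additively -/
def Hp (p : ℕ) (F : Type*) [Field F] : Type _ :=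
  Additive (Fˣ ⧸ (powMonoidHom p : Fˣ →* Fˣ).range)

noncomputable instance (p : ℕ) (F : Type*) [Field F] : AddCommGroup (Hp p F) :=
  inferInstanceAs (AddCommGroup (Additive (Fˣ ⧸ (powMonoidHom p : Fˣ →* Fˣ).range)))

noncomputable instance (p : ℕ) (F : Type*) [Field F] : Module (ZMod p) (Hp p F) :=
  AddCommGroup.zmodModule (G := Hp p F) (n := p) (by
    intro x
    obtain ⟨y, hy⟩ : ∃ y : Fˣ, Additive.ofMul (QuotientGroup.mk y) = x :=
      ⟨_, Quotient.out_eq' (Additive.toMul x)⟩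
    rw [← hy]
    have h1 : ((y : Fˣ ⧸ (powMonoidHom p : Fˣ →* Fˣ).range)) ^ p = 1 := by
      rw [← QuotientGroup.mk_pow, QuotientGroup.eq_one_iff]
      exact ⟨y, rfl⟩
    exact congrArg Additive.ofMul h1)

open scoped Classical in
/-- the class of an element; the class of `0` is `0` -/
noncomputable def clF (p : ℕ) (F : Type*) [Field F] (a : F) : Hp p F :=
  if h : a = 0 then 0 else Additive.ofMul (QuotientGroup.mk (Units.mk0 a h))

section

variable {k kb : Type*} [Field k] [Field kb] [Algebra k kb]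

/-- the characters of the Galois group given by the `p`-th roots of the elements of `k`; `ζ` is a
primitive `p`-th root of unity -/
structure Chi (k kb : Type*) [Field k] [Field kb] [Algebra k kb] (p : ℕ) (ζ : k) where
  χ : Hp p k →+ (Gal(kb/k) → ZMod p)
  root : ∀ a : k, a ≠ 0 → ∀ r : kb, r ^ p = algebraMap k kb a → ∀ σ : Gal(kb/k),
    σ r = algebraMap k kb ζ ^ (χ (clF p k a) σ).val * r
  mul : ∀ h σ τ, χ h (σ * τ) = χ h σ + χ h τ
  inj : ∀ h, (∀ σ, χ h σ = 0) → h = 0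
  ker : ∀ h, ∃ V : Subgroup Gal(kb/k), IsOpen (V : Set Gal(kb/k)) ∧ ∀ τ ∈ V, χ h τ = 0

/-- locally constant functions on the Galois group -/
def LC (f : Gal(kb/k) → kbˣ) : Prop :=
  ∃ V : Subgroup Gal(kb/k), IsOpen (V : Set Gal(kb/k)) ∧ ∀ σ, ∀ τ ∈ V, f (σ * τ) = f σ

/-- `c` is the coboundary of `f` -/
def IsCob (c : Gal(kb/k) → Gal(kb/k) → kbˣ) (f : Gal(kb/k) → kbˣ) : Prop :=
  ∀ σ τ, (c σ τ : kb) * f (σ * τ) = f σ * σ (f τ : kb)

/-- the coboundaries of locally constant functions -/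
def cobS (k kb : Type*) [Field k] [Field kb] [Algebra k kb] :
    Subgroup (Gal(kb/k) → Gal(kb/k) → kbˣ) where
  carrier := {c | ∃ f, LC f ∧ IsCob c f}
  mul_mem' := by
    rintro a b ⟨f, ⟨V, hV, hf⟩, hfa⟩ ⟨g, ⟨W, hW, hg⟩, hgb⟩
    refine ⟨f * g, ⟨V ⊓ W, hV.inter hW, fun σ τ hτ => ?_⟩, fun σ τ => ?_⟩
    · rw [Pi.mul_apply, Pi.mul_apply, hf σ τ hτ.1, hg σ τ hτ.2]
    · have h1 := hfa σ τ
      have h2 := hgb σ τ
      simp only [Pi.mul_apply, Units.val_mul, map_mul]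
      linear_combination (b σ τ : kb) * (g (σ * τ) : kb) * h1 +
        (f σ : kb) * σ (f τ : kb) * h2
  one_mem' := ⟨1, ⟨⊤, isOpen_univ, fun _ _ _ => rfl⟩, fun σ τ => by simp⟩
  inv_mem' := by
    rintro a ⟨f, ⟨V, hV, hf⟩, hfa⟩
    refine ⟨f⁻¹, ⟨V, hV, fun σ τ hτ => ?_⟩, fun σ τ => ?_⟩
    · rw [Pi.inv_apply, Pi.inv_apply, hf σ τ hτ]
    · have h1 := hfa σ τ
      have h2 : (f (σ * τ) : kb) ≠ 0 := (f (σ * τ)).ne_zero
      have h3 : (a σ τ : kb) ≠ 0 := (a σ τ).ne_zero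
      have h4 : (f σ : kb) ≠ 0 := (f σ).ne_zero
      have h5 : σ (f τ : kb) ≠ 0 := by
        rw [_root_.map_ne_zero]; exact (f τ).ne_zero
      simp only [Pi.inv_apply, Units.val_inv_eq_inv_val, map_inv₀]
      field_simp
      exact h1.symm

/-- the group of functions of two variables modulo coboundaries -/
def Zc (k kb : Type*) [Field k] [Field kb] [Algebra k kb] : Type _ :=
  Additive ((Gal(kb/k) → Gal(kb/k) → kbˣ) ⧸ cobS k kb)

noncomputable instance (k kb : Type*) [Field k] [Field kb] [Algebra k kb] :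
    AddCommGroup (Zc k kb) :=
  inferInstanceAs (AddCommGroup (Additive ((Gal(kb/k) → Gal(kb/k) → kbˣ) ⧸ cobS k kb)))

/-- the class of a function of two variables -/
def mkZ (c : Gal(kb/k) → Gal(kb/k) → kbˣ) : Zc k kb :=
  Additive.ofMul (QuotientGroup.mk c)

theorem mkZ_mul (c c' : Gal(kb/k) → Gal(kb/k) → kbˣ) : mkZ (c * c') = mkZ c + mkZ c' := rfl

theorem mkZ_eq_zero (c : Gal(kb/k) → Gal(kb/k) → kbˣ) :
    mkZ c = 0 ↔ ∃ f, LC f ∧ IsCob c f :=
  (QuotientGroup.eq_one_iff c)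

end

section sec

variable {k kb Ω : Type*} [Field k] [Field kb] [Algebra k kb] [Field Ω] [Algebra kb Ω]

/-- the elements of `Ω` fixed by `s(V)` -/
def fixR (s : Gal(kb/k) →* (Ω ≃+* Ω)) (V : Subgroup Gal(kb/k)) : Subfield Ω where
  carrier := {x | ∀ σ ∈ V, s σ x = x}
  mul_mem' := fun ha hb σ hσ => by rw [map_mul, ha σ hσ, hb σ hσ]
  one_mem' := fun σ _ => map_one (s σ)
  add_mem' := fun ha hb σ hσ => by rw [map_add, ha σ hσ, hb σ hσ]
  zero_mem' := fun σ _ => map_zero (s σ)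
  neg_mem' := fun ha σ hσ => by rw [map_neg, ha σ hσ]
  inv_mem' := fun a ha σ hσ => by rw [map_inv₀, ha σ hσ]

/-- `s` is a continuous section, and `Ω` is closed under `p`-th roots -/
structure Sec (s : Gal(kb/k) →* (Ω ≃+* Ω)) (p : ℕ) : Prop where
  sec : ∀ σ a, s σ (algebraMap kb Ω a) = algebraMap kb Ω (σ a)
  cont : ∀ x : Ω, ∃ V : Subgroup Gal(kb/k), IsOpen (V : Set Gal(kb/k)) ∧ ∀ σ ∈ V, s σ x = x
  root : ∀ x : Ω, ∃ y, y ^ p = x

/-- `K` is the field of elements of `Ω` fixed by `s` -/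
structure SecK (s : Gal(kb/k) →* (Ω ≃+* Ω)) (p : ℕ) (K : Type*) [Field K] [Algebra k K]
    [Algebra K Ω] : Prop extends Sec s p where
  tow : ∀ a : k, algebraMap K Ω (algebraMap k K a) = algebraMap kb Ω (algebraMap k kb a)
  fix : ∀ σ (x : K), s σ (algebraMap K Ω x) = algebraMap K Ω x
  ofFix : ∀ x : Ω, (∀ σ, s σ x = x) → ∃ y : K, algebraMap K Ω y = x

variable {D : Subgroup Gal(kb/k)}

/-- the elements of `Ω` fixed by `t(U)`, `U` a subgroup of `D` -/
def fixT (t : D →* (Ω ≃+* Ω)) (U : Subgroup Gal(kb/k)) : Subfield Ω where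
  carrier := {x | ∀ σ : D, (σ : Gal(kb/k)) ∈ U → t σ x = x}
  mul_mem' := fun ha hb σ hσ => by rw [map_mul, ha σ hσ, hb σ hσ]
  one_mem' := fun σ _ => map_one (t σ)
  add_mem' := fun ha hb σ hσ => by rw [map_add, ha σ hσ, hb σ hσ]
  zero_mem' := fun σ _ => map_zero (t σ)
  neg_mem' := fun ha σ hσ => by rw [map_neg, ha σ hσ]
  inv_mem' := fun a ha σ hσ => by rw [map_inv₀, ha σ hσ]

/-- a section over a subgroup `D` of the Galois group -/
structure SecD (t : D →* (Ω ≃+* Ω)) (p : ℕ) : Prop where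
  sec : ∀ (σ : D) a, t σ (algebraMap kb Ω a) = algebraMap kb Ω ((σ : Gal(kb/k)) a)
  cont : ∀ x : Ω, ∃ V : Subgroup Gal(kb/k), IsOpen (V : Set Gal(kb/k)) ∧
    ∀ σ : D, (σ : Gal(kb/k)) ∈ V → t σ x = x
  root : ∀ x : Ω, ∃ y, y ^ p = x

variable {Fb : Type*} [Field Fb]

/-- the element `x` fixed by `t(U)` has the value `z`: `z` is a limit of elements of `fixk U`, and for
`c` in `fixk U` different from `z` the element `x - c` is, up to a `p`-th power of an element fixed by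
`t(U)`, an element `b` of `fixk U` near `z - c` -/
def IsV (t : D →* (Ω ≃+* Ω)) (v : AbsoluteValue kb ℝ) (w : AbsoluteValue Fb ℝ) (ι : kb →+* Fb)
    (p : ℕ) (U : Subgroup Gal(kb/k)) (x : Ω) (z : Fb) : Prop :=
  x ∈ fixT t U ∧ (∀ ρ : ℝ, 0 < ρ → ∃ a ∈ fixk U, w (ι a - z) < ρ) ∧
    ∀ c ∈ fixk U, ι c ≠ z → ∃ b ∈ fixk U, w (ι b - (z - ι c)) < w (z - ι c) * v (p : kb) ^ 2 ∧
      ∃ g ∈ fixT t U, g ≠ 0 ∧ x - algebraMap kb Ω c = algebraMap kb Ω b * g ^ p

/-- the field `Fb` with the absolute value `w` contains limits of sequences in `fixk U` -/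
structure Cpl (D : Subgroup Gal(kb/k)) (v : AbsoluteValue kb ℝ) (p : ℕ) (w : AbsoluteValue Fb ℝ)
    (ι : kb →+* Fb) : Prop where
  na : ∀ a b, w (a + b) ≤ max (w a) (w b)
  iso : ∀ a, w (ι a) = v a
  lim : ∀ U, FinIn D U → ∀ a : ℕ → kb, (∀ n, a n ∈ fixk U) →
    (∀ n, v (a (n + 1) - a n) ≤ v (p : kb) ^ n) →
    ∃ z : Fb, ∀ n, w (ι (a n) - z) ≤ v (p : kb) ^ n

/-- the same for a single field `k`: the element `x` of `K` has the value `z` -/
def IsV0 (k : Type*) [Field k] [Algebra k kb] {K : Type*} [Field K] [Algebra k K]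
    (v : AbsoluteValue kb ℝ)
    (w : AbsoluteValue Fb ℝ) (ι : kb →+* Fb) (p : ℕ) (x : K) (z : Fb) : Prop :=
  (∀ ρ : ℝ, 0 < ρ → ∃ a : k, w (ι (algebraMap k kb a) - z) < ρ) ∧
    ∀ c : k, ι (algebraMap k kb c) ≠ z → ∃ b : k,
      w (ι (algebraMap k kb b) - (z - ι (algebraMap k kb c))) <
        w (z - ι (algebraMap k kb c)) * v (p : kb) ^ 2 ∧
      ∃ g : K, g ≠ 0 ∧ x - algebraMap k K c = algebraMap k K b * g ^ p

/-- the field `Fb` contains the limits of sequences in `k` -/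
structure Cpl0 (k : Type*) [Field k] [Algebra k kb] (v : AbsoluteValue kb ℝ) (p : ℕ)
    (w : AbsoluteValue Fb ℝ) (ι : kb →+* Fb) : Prop where
  na : ∀ a b, w (a + b) ≤ max (w a) (w b)
  iso : ∀ a, w (ι a) = v a
  lim : ∀ a : ℕ → k, (∀ n, vk k v (a (n + 1) - a n) ≤ v (p : kb) ^ n) →
    ∃ z : Fb, ∀ n, w (ι (algebraMap k kb (a n)) - z) ≤ v (p : kb) ^ n

end sec

end Pool.Agent.Lib.MP_2f3286_ag.Ep
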